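import Pool.Agent.Lib_helper99.AAX.Defs
import Pool.Agent.Lib_helper3.FGP.P05
import Pool.Agent.Lib_helper3.FGP.P10
import Pool.Agent.Lib_helper3.FGP.P16
import Pool.Agent.Lib_helper89.FGA.A03
import Pool.Agent.Lib_helper73.Var.Conv
import Pool.Agent.Lib_helper31.FGA.A05
import Pool.Agent.Lib_helper31.FGA.A06
import Pool.Agent.Lib_helper3.FGP.P13a

/-! AAX, circle part: blocks C01 C02 C03 C04 C05 C06 C07 C08 C09 -/

set_option autoImplicit false

/-! ### C01 -/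

/-!
# AAX, block C01: window basics
-/

namespace Pool.Agent.AAX

open Finset MeasureTheory Pool.Agent.Var35 Pool.Agent.Var73 Pool.Agent.PV Pool.Agent.FGP Pool.Agent.FGA
open scoped ArithmeticFunction ArithmeticFunction.Moebius

/-! ## The length -/

theorem c01_ev : ∃ N0 : ℕ, ∀ N ≥ N0, (4 : ℝ) ≤ Real.log N ∧
    256 * Real.log N ^ 16 ≤ (N : ℝ) ^ (1 / 20 : ℝ) := by
  have h1 : ∀ᶠ x : ℝ in Filter.atTop, (4 : ℝ) ≤ Real.log x :=
    Real.tendsto_log_atTop.eventually_ge_atTop 4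
  have h2 : ∀ᶠ x : ℝ in Filter.atTop, 256 * Real.log x ^ 16 ≤ x ^ (1 / 20 : ℝ) := by
    have h3 := isLittleO_log_rpow_rpow_atTop (s := (1 / 20 : ℝ)) (16 : ℝ) (by norm_num)
    have h4 := h3.bound (c := 1 / 256) (by norm_num)
    filter_upwards [h4, h1, Filter.eventually_ge_atTop (1 : ℝ)] with x hx hl hx1
    have hx0 : 0 ≤ x := by linarith
    rw [Real.norm_of_nonneg (Real.rpow_nonneg (by linarith) _),
      Real.norm_of_nonneg (Real.rpow_nonneg hx0 _)] at hx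
    have h5 : Real.log x ^ (16 : ℝ) = Real.log x ^ (16 : ℕ) := by
      rw [← Real.rpow_natCast]
      norm_num
    rw [h5] at hx
    linarith
  obtain ⟨X, hX⟩ := Filter.eventually_atTop.mp (h1.and h2)
  refine ⟨⌈X⌉₊, fun N hN => ?_⟩
  exact hX N ((Nat.le_ceil X).trans (by exact_mod_cast hN))

theorem lw_facts_pr : ∃ N0 : ℕ, ∀ N ≥ N0, ∀ K, Rg K N →
    1 ≤ lw N K ∧ 16 * (K * lw N K) ≤ N ∧ K ≤ Nat.sqrt N ∧
    (N : ℝ) ≤ 2 * Real.log N ^ 2 * (K * lw N K) ∧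
    (K : ℝ) ^ 10 * (N : ℝ) ^ (3 / 4 : ℝ) ≤ (lw N K : ℝ) ^ 8 := by
  obtain ⟨N0, hN0⟩ := c01_ev
  refine ⟨max N0 1, fun N hN K hR => ?_⟩
  have hN1 : 1 ≤ N := (le_max_right _ _).trans hN
  obtain ⟨hl4, hl⟩ := hN0 N ((le_max_left _ _).trans hN)
  set l : ℝ := Real.log N with hldef
  have hNr : (1 : ℝ) ≤ N := by exact_mod_cast hN1
  have hNpos : (0 : ℝ) < N := by linarith
  set t : ℝ := (N : ℝ) ^ (1 / 20 : ℝ) with htdef
  have ht1 : 1 ≤ t := Real.one_le_rpow hNr (by norm_num)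
  have ht0 : 0 < t := by linarith
  have ht20 : t ^ 20 = N := by
    rw [htdef, ← Real.rpow_natCast, ← Real.rpow_mul hNpos.le]
    norm_num
  have ht15 : (N : ℝ) ^ (3 / 4 : ℝ) = t ^ 15 := by
    rw [htdef, ← Real.rpow_natCast, ← Real.rpow_mul hNpos.le]
    norm_num
  have hK10 : (10 : ℝ) ≤ K := by exact_mod_cast hR.hK
  have hKpos : (0 : ℝ) < K := by linarith
  have hKt : (K : ℝ) ≤ t ^ 8 := by
    have h1 : (K : ℝ) ^ 5 ≤ (N : ℝ) ^ 2 := by exact_mod_cast hR.hN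
    have h2 : (K : ℝ) ^ 5 ≤ (t ^ 8) ^ 5 := by
      have e1 : (t ^ 8) ^ 5 = (t ^ 20) ^ 2 := by ring
      rw [e1, ht20]
      exact h1
    exact le_of_pow_le_pow_left₀ (by norm_num) (by positivity) h2
  have hl1 : 1 ≤ l := by linarith
  have hl2 : l ^ 2 ≤ t := by
    have h1 : l ^ 2 ≤ l ^ 16 := pow_le_pow_right₀ hl1 (by norm_num)
    have h2 : 0 ≤ l ^ 16 := by positivity
    linarith
  -- the real length
  set x : ℝ := (N : ℝ) / (K * l ^ 2) with hxdef
  have hden : 0 < (K : ℝ) * l ^ 2 := by positivity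
  have hx1 : 1 ≤ x := by
    rw [hxdef, le_div_iff₀ hden, one_mul]
    calc (K : ℝ) * l ^ 2 ≤ t ^ 8 * t := mul_le_mul hKt hl2 (by positivity) (by positivity)
      _ = t ^ 9 := by ring
      _ ≤ t ^ 20 := pow_le_pow_right₀ ht1 (by norm_num)
      _ = N := ht20
  have hlw : lw N K = ⌊x⌋₊ := rfl
  have hlw1 : 1 ≤ lw N K := by
    rw [hlw]
    exact Nat.le_floor (by exact_mod_cast hx1)
  have hlwr : (1 : ℝ) ≤ lw N K := by exact_mod_cast hlw1
  have hle : (lw N K : ℝ) ≤ x := by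
    rw [hlw]
    exact Nat.floor_le (by linarith)
  have hlt : x < lw N K + 1 := by
    rw [hlw]
    exact Nat.lt_floor_add_one x
  have hhalf : x ≤ 2 * lw N K := by linarith
  have hxmul : x * (K * l ^ 2) = N := div_mul_cancel₀ _ hden.ne'
  have h4 : (N : ℝ) ≤ 2 * l ^ 2 * (K * lw N K) := by
    calc (N : ℝ) = x * (K * l ^ 2) := hxmul.symm
      _ ≤ (2 * lw N K) * (K * l ^ 2) := mul_le_mul_of_nonneg_right hhalf hden.le
      _ = 2 * l ^ 2 * (K * lw N K) := by ring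
  refine ⟨hlw1, ?_, ?_, h4, ?_⟩
  · have h1 : (16 : ℝ) * (K * lw N K) ≤ N := by
      calc (16 : ℝ) * (K * lw N K) ≤ l ^ 2 * (K * lw N K) := by
            apply mul_le_mul_of_nonneg_right _ (by positivity)
            nlinarith
        _ = lw N K * (K * l ^ 2) := by ring
        _ ≤ x * (K * l ^ 2) := mul_le_mul_of_nonneg_right hle hden.le
        _ = N := hxmul
    exact_mod_cast h1
  · rw [Nat.le_sqrt']
    by_contra hcon
    push Not at hcon
    have h1 := hR.hN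
    have h2 := hR.hK
    have h3 : N ^ 2 < (K ^ 2) ^ 2 := Nat.pow_lt_pow_left hcon (by norm_num)
    have h5 : (K ^ 2) ^ 2 ≤ K ^ 5 := by
      rw [← pow_mul]
      exact Nat.pow_le_pow_right (by omega) (by norm_num)
    omega
  · rw [ht15]
    have h5 : t ^ 20 ≤ 2 * l ^ 2 * (K * lw N K) := by rw [ht20]; exact h4
    have h6 : (t ^ 20) ^ 8 ≤ (2 * l ^ 2 * (K * lw N K)) ^ 8 :=
      pow_le_pow_left₀ (by positivity) h5 8
    have h7 : (2 * l ^ 2 * (K * lw N K)) ^ 8 = (256 * l ^ 16) * K ^ 8 * (lw N K : ℝ) ^ 8 := by ring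
    rw [h7] at h6
    have h8 : (256 * l ^ 16) * (K : ℝ) ^ 8 * (lw N K : ℝ) ^ 8 ≤
        t * K ^ 8 * (lw N K : ℝ) ^ 8 := by
      apply mul_le_mul_of_nonneg_right _ (by positivity)
      exact mul_le_mul_of_nonneg_right hl (by positivity)
    have h9 : (K : ℝ) ^ 18 ≤ t ^ 144 := by
      calc (K : ℝ) ^ 18 ≤ (t ^ 8) ^ 18 := pow_le_pow_left₀ hKpos.le hKt 18
        _ = t ^ 144 := by ring
    have h10 : ((K : ℝ) ^ 10 * t ^ 15) * (t * K ^ 8) ≤ (lw N K : ℝ) ^ 8 * (t * K ^ 8) := by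
      calc ((K : ℝ) ^ 10 * t ^ 15) * (t * K ^ 8) = K ^ 18 * t ^ 16 := by ring
        _ ≤ t ^ 144 * t ^ 16 := mul_le_mul_of_nonneg_right h9 (by positivity)
        _ = (t ^ 20) ^ 8 := by ring
        _ ≤ t * K ^ 8 * (lw N K : ℝ) ^ 8 := h6.trans h8
        _ = (lw N K : ℝ) ^ 8 * (t * K ^ 8) := by ring
    exact le_of_mul_le_mul_right h10 (by positivity)

/-! ## The window -/

theorem c01_nn {b : ℝ} (hb : |b| ≤ 1 / 2) : nn b = |b| := by
  unfold nn
  by_cases h : round b = 0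
  · rw [h]
    simp
  · apply le_antisymm
    · have := round_le b 0
      simpa using this
    · have h1 : (1 : ℝ) ≤ |((round b : ℤ) : ℝ)| := by
        exact_mod_cast Int.one_le_abs h
      have h2 := abs_sub_abs_le_abs_sub ((round b : ℤ) : ℝ) b
      rw [abs_sub_comm] at h2
      linarith

theorem c01_dk (L : ℕ) (b : ℝ) : ‖Dk L b‖ * (2 * nn b) ≤ 1 := by
  by_cases h : 0 < |b - round b|
  · have h1 : |b - round b| ≤ 1/2 := abs_sub_round b
    have h2 := geom_bound h h1 L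
    have h3 : ‖Dk L (b - round b)‖ ≤ 1 / (2 * |b - round b|) := h2
    rw [Dk_sub_int L b (round b), le_div_iff₀ (by positivity)] at h3
    exact h3
  · have h1 : nn b = 0 := le_antisymm (not_lt.mp h) (abs_nonneg _)
    rw [h1]
    norm_num

theorem c01_sq (L : ℕ) : ∑ j ∈ range L, 3 * (j : ℝ) ^ 2 ≤ (L : ℝ) ^ 3 := by
  induction L with
  | zero => simp
  | succ L ih =>
    rw [sum_range_succ]
    push_cast
    have : (0 : ℝ) ≤ L := Nat.cast_nonneg L
    nlinarith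

theorem c01_low (L : ℕ) (b : ℝ) : (L : ℝ) * (1 - 2 * Real.pi ^ 2 / 3 * (L * nn b) ^ 2) ≤ ‖Dk L b‖ := by
  rw [← Dk_sub_int L b (round b)]
  have h1 : (Dk L (b - round b)).re ≤ ‖Dk L (b - round b)‖ := Complex.re_le_norm _
  refine le_trans ?_ h1
  have h2 : (Dk L (b - round b)).re = ∑ j ∈ range L, Real.cos (2 * Real.pi * (j * (b - round b))) := by
    unfold Dk
    rw [Complex.re_sum]
    refine sum_congr rfl fun j _ => ?_
    exact Complex.exp_ofReal_mul_I_re _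
  rw [h2]
  have h3 : ∀ j ∈ range L, 1 - 2 * Real.pi ^ 2 / 3 * nn b ^ 2 * (3 * (j : ℝ) ^ 2) ≤
      Real.cos (2 * Real.pi * (j * (b - round b))) := by
    intro j _
    refine le_trans (le_of_eq ?_) Real.one_sub_sq_div_two_le_cos
    have : nn b ^ 2 = (b - round b) ^ 2 := sq_abs _
    rw [this]
    ring
  refine le_trans ?_ (sum_le_sum h3)
  rw [sum_sub_distrib, ← mul_sum]
  simp only [sum_const, card_range, nsmul_eq_mul, mul_one]
  have h4 := mul_le_mul_of_nonneg_left (c01_sq L)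
    (by positivity : 0 ≤ 2 * Real.pi ^ 2 / 3 * nn b ^ 2)
  have h5 : (L : ℝ) * (1 - 2 * Real.pi ^ 2 / 3 * (L * nn b) ^ 2) =
      L - 2 * Real.pi ^ 2 / 3 * nn b ^ 2 * (L : ℝ) ^ 3 := by ring
  rw [h5]
  linarith

theorem c01_pow {x : ℝ} (h0 : 0 ≤ x) (h1 : x ≤ 1) : 1 - x ^ 8 ≤ 8 * (1 - x) := by
  have := one_add_mul_le_pow (a := x - 1) (by linarith) 8
  have e1 : 1 + (x - 1) = x := by ring
  rw [e1] at this
  push_cast at this
  linarith

theorem wr_facts_pr (N K r : ℕ) (h : 1 ≤ r * lw N K) :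
    (∀ b, 0 ≤ Wr N K r b ∧ Wr N K r b ≤ 1) ∧ Wr N K r 0 = 1 ∧
    (∀ b, 1 - Wr N K r b ≤ 100 * (((r * lw N K : ℕ) : ℝ) * nn b) ^ 2) ∧
    (∀ b, Wr N K r b * (2 * (((r * lw N K : ℕ) : ℝ) * nn b)) ^ 8 ≤ 1) ∧
    (∀ b, |b| ≤ 1 / 2 → Wr N K r b ≤ 16 * uw ((r * lw N K : ℕ) : ℝ) b) := by
  unfold Wr
  generalize hL : r * lw N K = L at h
  have hL1 : (1 : ℝ) ≤ (L : ℝ) := by exact_mod_cast h
  have hL0 : (0 : ℝ) < (L : ℝ) := by linarith
  have hx0 : ∀ b, 0 ≤ ‖Dk L b‖ / (L : ℝ) := fun b => by positivity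
  have hx1 : ∀ b, ‖Dk L b‖ / (L : ℝ) ≤ 1 := fun b => by
    rw [div_le_one hL0]
    exact Dk_le L b
  have hA : ∀ b, 0 ≤ (‖Dk L b‖ / (L : ℝ)) ^ 8 ∧ (‖Dk L b‖ / (L : ℝ)) ^ 8 ≤ 1 := fun b =>
    ⟨pow_nonneg (hx0 b) 8, pow_le_one₀ (hx0 b) (hx1 b)⟩
  have hD : ∀ b, (‖Dk L b‖ / (L : ℝ)) ^ 8 * (2 * ((L : ℝ) * nn b)) ^ 8 ≤ 1 := by
    intro b
    rw [← mul_pow]
    have hnn : 0 ≤ nn b := abs_nonneg _
    have e1 : ‖Dk L b‖ / (L : ℝ) * (2 * ((L : ℝ) * nn b)) = ‖Dk L b‖ * (2 * nn b) := by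
      field_simp
    rw [e1]
    exact pow_le_one₀ (by positivity) (c01_dk L b)
  refine ⟨hA, ?_, ?_, hD, ?_⟩
  · have h1 : Dk L 0 = L := by
      unfold Dk
      simp [e]
    rw [h1, Complex.norm_natCast, div_self hL0.ne', one_pow]
  · intro b
    have h1 := c01_low L b
    have h2 : 1 - 2 * Real.pi ^ 2 / 3 * (L * nn b) ^ 2 ≤ ‖Dk L b‖ / (L : ℝ) := by
      rw [le_div_iff₀ hL0]
      linarith
    have h3 := c01_pow (hx0 b) (hx1 b)
    have h4 : Real.pi ^ 2 ≤ 10 := by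
      have h5 := Real.pi_lt_d2
      have h6 := Real.pi_pos
      nlinarith
    have h5 : 0 ≤ ((L : ℝ) * nn b) ^ 2 := sq_nonneg _
    have h6 : Real.pi ^ 2 * ((L : ℝ) * nn b) ^ 2 ≤ 10 * ((L : ℝ) * nn b) ^ 2 :=
      mul_le_mul_of_nonneg_right h4 h5
    linarith
  · intro b hb
    unfold uw
    have hu : 0 < (1 + ((L : ℝ) * b) ^ 2) ^ 4 := by positivity
    rw [mul_one_div, le_div_iff₀ hu]
    by_cases hc : (L : ℝ) * |b| ≤ 1
    · have h1 : ((L : ℝ) * b) ^ 2 ≤ 1 := by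
        have e1 : ((L : ℝ) * b) ^ 2 = (L * |b|) ^ 2 := by rw [mul_pow, mul_pow, sq_abs]
        rw [e1]
        exact pow_le_one₀ (by positivity) hc
      have h2 : (1 + ((L : ℝ) * b) ^ 2) ^ 4 ≤ 16 := by
        calc (1 + ((L : ℝ) * b) ^ 2) ^ 4 ≤ (1 + 1) ^ 4 :=
              pow_le_pow_left₀ (by positivity) (by linarith) 4
          _ = 16 := by norm_num
      calc (‖Dk L b‖ / (L : ℝ)) ^ 8 * (1 + ((L : ℝ) * b) ^ 2) ^ 4
          ≤ 1 * 16 := mul_le_mul (hA b).2 h2 hu.le (by norm_num)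
        _ = 16 := by norm_num
    · push Not at hc
      have h1 := hD b
      rw [c01_nn hb] at h1
      have e1 : ((L : ℝ) * b) ^ 2 = (L * |b|) ^ 2 := by rw [mul_pow, mul_pow, sq_abs]
      rw [e1]
      have h2 : 1 + ((L : ℝ) * |b|) ^ 2 ≤ 2 * (L * |b|) ^ 2 := by nlinarith
      have h3 : (1 + ((L : ℝ) * |b|) ^ 2) ^ 4 ≤ (2 * (L * |b|) ^ 2) ^ 4 :=
        pow_le_pow_left₀ (by positivity) h2 4
      have h4 : (2 * ((L : ℝ) * |b|) ^ 2) ^ 4 ≤ 16 * (2 * ((L : ℝ) * |b|)) ^ 8 := by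
        have e2 : (2 * ((L : ℝ) * |b|) ^ 2) ^ 4 = 16 * (L * |b|) ^ 8 := by ring
        have e3 : 16 * (2 * ((L : ℝ) * |b|)) ^ 8 = 4096 * (L * |b|) ^ 8 := by ring
        rw [e2, e3]
        have : 0 ≤ ((L : ℝ) * |b|) ^ 8 := by positivity
        linarith
      calc (‖Dk L b‖ / (L : ℝ)) ^ 8 * (1 + ((L : ℝ) * |b|) ^ 2) ^ 4
          ≤ (‖Dk L b‖ / (L : ℝ)) ^ 8 * (16 * (2 * ((L : ℝ) * |b|)) ^ 8) :=
            mul_le_mul_of_nonneg_left (h3.trans h4) (hA b).1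
        _ = 16 * ((‖Dk L b‖ / (L : ℝ)) ^ 8 * (2 * ((L : ℝ) * |b|)) ^ 8) := by ring
        _ ≤ 16 * 1 := by linarith
        _ = 16 := by norm_num

end Pool.Agent.AAX

namespace Pool.Agent.AAX

/-- alias -/
theorem lw_facts : type_of% @lw_facts_pr := @lw_facts_pr

/-- alias -/
theorem wr_facts : type_of% @wr_facts_pr := @wr_facts_pr

end Pool.Agent.AAX

/-! ### C02 -/

/-! # AAX block C02: the coefficients of the windows -/

namespace Pool.Agent.AAX

open Finset MeasureTheory Pool.Agent.Var35 Pool.Agent.Var73 Pool.Agent.PV Pool.Agent.FGP Pool.Agent.FGA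
open scoped ArithmeticFunction ArithmeticFunction.Moebius

/-- the frequency -/
def c02_g (f : Fin 8 → ℕ) : ℤ := ((f 0 : ℤ) + f 1 + f 2 + f 3) - (f 4 + f 5 + f 6 + f 7)

/-- the index set -/
def c02_P (L : ℕ) : Finset (Fin 8 → ℕ) := Fintype.piFinset (fun _ : Fin 8 => range L)

theorem c02_lt {L : ℕ} {f : Fin 8 → ℕ} (hf : f ∈ c02_P L) (i : Fin 8) : f i < L := by
  have := (Fintype.mem_piFinset.1 hf) i
  exact Finset.mem_range.1 this

theorem c02_abs {L : ℕ} {f : Fin 8 → ℕ} (hf : f ∈ c02_P L) : |c02_g f| < 4 * (L : ℤ) := by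
  have h0 := c02_lt hf 0
  have h1 := c02_lt hf 1
  have h2 := c02_lt hf 2
  have h3 := c02_lt hf 3
  have h4 := c02_lt hf 4
  have h5 := c02_lt hf 5
  have h6 := c02_lt hf 6
  have h7 := c02_lt hf 7
  unfold c02_g
  rw [abs_lt]
  constructor <;> omega

theorem c02_norm (L : ℕ) (b : ℝ) : ((‖Dk L b‖ ^ 8 : ℝ) : ℂ) =
    ∑ f ∈ c02_P L, e ((c02_g f : ℝ) * b) := by
  have h1 : ((‖Dk L b‖ ^ 8 : ℝ) : ℂ) = (Dk L b * (starRingEnd ℂ) (Dk L b)) ^ 4 := by
    rw [Complex.mul_conj, Complex.normSq_eq_norm_sq]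
    push_cast
    ring
  have h2 : (starRingEnd ℂ) (Dk L b) = ∑ j ∈ range L, e (-(j * b)) := by
    unfold Dk
    rw [map_sum]
    exact Finset.sum_congr rfl fun j _ => (e_neg _).symm
  have h3 := Finset.prod_univ_sum (fun _ : Fin 8 => range L)
    (fun (i : Fin 8) (k : ℕ) => if (i : ℕ) < 4 then e (k * b) else e (-(k * b)))
  rw [Fin.prod_univ_eight] at h3
  have h4 : (Dk L b * (starRingEnd ℂ) (Dk L b)) ^ 4 = ∑ f ∈ c02_P L, ∏ i : Fin 8,
      (if (i : ℕ) < 4 then e (f i * b) else e (-(f i * b))) := by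
    unfold c02_P
    rw [← h3, h2]
    have e0 : ((0 : Fin 8) : ℕ) < 4 := by decide
    have e1 : ((1 : Fin 8) : ℕ) < 4 := by decide
    have e2 : ((2 : Fin 8) : ℕ) < 4 := by decide
    have e3 : ((3 : Fin 8) : ℕ) < 4 := by decide
    have e4 : ¬ ((4 : Fin 8) : ℕ) < 4 := by decide
    have e5 : ¬ ((5 : Fin 8) : ℕ) < 4 := by decide
    have e6 : ¬ ((6 : Fin 8) : ℕ) < 4 := by decide
    have e7 : ¬ ((7 : Fin 8) : ℕ) < 4 := by decide
    simp only [if_pos e0, if_pos e1, if_pos e2, if_pos e3, if_neg e4, if_neg e5, if_neg e6,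
      if_neg e7]
    unfold Dk
    ring
  rw [h1, h4]
  apply Finset.sum_congr rfl
  intro f _
  rw [Fin.prod_univ_eight]
  have e0 : ((0 : Fin 8) : ℕ) < 4 := by decide
  have e1 : ((1 : Fin 8) : ℕ) < 4 := by decide
  have e2 : ((2 : Fin 8) : ℕ) < 4 := by decide
  have e3 : ((3 : Fin 8) : ℕ) < 4 := by decide
  have e4 : ¬ ((4 : Fin 8) : ℕ) < 4 := by decide
  have e5 : ¬ ((5 : Fin 8) : ℕ) < 4 := by decide
  have e6 : ¬ ((6 : Fin 8) : ℕ) < 4 := by decide
  have e7 : ¬ ((7 : Fin 8) : ℕ) < 4 := by decide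
  rw [if_pos e0, if_pos e1, if_pos e2, if_pos e3, if_neg e4, if_neg e5, if_neg e6,
    if_neg e7, ← e_add, ← e_add, ← e_add, ← e_add, ← e_add, ← e_add, ← e_add]
  congr 1
  unfold c02_g
  push_cast
  ring

/-- the number of tuples with the frequency `m` -/
def c02_n (L : ℕ) (m : ℤ) : ℕ := ((c02_P L).filter (fun f => c02_g f = m)).card

theorem c02_vr (N K r : ℕ) (m : ℤ) :
    vr N K r m = (c02_n (r * lw N K) m : ℝ) / ((r * lw N K : ℕ) : ℝ) ^ 8 := rfl

theorem c02_sym (L : ℕ) (m : ℤ) : c02_n L (-m) = c02_n L m := by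
  have key : ∀ m : ℤ, c02_n L (-m) ≤ c02_n L m := by
    intro m
    unfold c02_n
    apply Finset.card_le_card_of_injOn (fun f i => f (i + 4))
    · intro f hf
      rw [Finset.mem_coe, Finset.mem_filter] at hf ⊢
      obtain ⟨h1, h2⟩ := hf
      refine ⟨Fintype.mem_piFinset.2 fun i => (Fintype.mem_piFinset.1 h1) (i + 4), ?_⟩
      unfold c02_g at h2 ⊢
      have a0 : (0 : Fin 8) + 4 = 4 := by decide
      have a1 : (1 : Fin 8) + 4 = 5 := by decide
      have a2 : (2 : Fin 8) + 4 = 6 := by decide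
      have a3 : (3 : Fin 8) + 4 = 7 := by decide
      have a4 : (4 : Fin 8) + 4 = 0 := by decide
      have a5 : (5 : Fin 8) + 4 = 1 := by decide
      have a6 : (6 : Fin 8) + 4 = 2 := by decide
      have a7 : (7 : Fin 8) + 4 = 3 := by decide
      simp only [a0, a1, a2, a3, a4, a5, a6, a7]
      linarith
    · intro f _ f' _ hff
      funext i
      have h := congrFun hff (i + 4)
      simp only at h
      have h8 : i + 4 + 4 = i := by
        rw [add_assoc]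
        have : (4 : Fin 8) + 4 = 0 := by decide
        rw [this, add_zero]
      rwa [h8] at h
  apply le_antisymm (key m)
  have := key (-m)
  rwa [neg_neg] at this

theorem c02_sum {M : Type} [AddCommMonoid M] {L B : ℕ} (hB : 4 * L ≤ B) (F : ℤ → M) :
    ∑ f ∈ c02_P L, F (c02_g f) = ∑ m ∈ Icc (-(B : ℤ)) B, c02_n L m • F m := by
  have hmap : ∀ f ∈ c02_P L, c02_g f ∈ Icc (-(B : ℤ)) B := by
    intro f hf
    have h1 := abs_lt.1 (c02_abs hf)
    have h2 : 4 * (L : ℤ) ≤ B := by exact_mod_cast hB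
    rw [Finset.mem_Icc]
    constructor <;> linarith
  rw [← Finset.sum_fiberwise_of_maps_to hmap]
  apply Finset.sum_congr rfl
  intro m _
  have : ∀ f ∈ (c02_P L).filter (fun f => c02_g f = m), F (c02_g f) = F m := by
    intro f hf
    rw [(Finset.mem_filter.1 hf).2]
  rw [Finset.sum_congr rfl this, Finset.sum_const]
  rfl

theorem vr_facts_pr (N K r : ℕ) (h : 1 ≤ r * lw N K) :
    (∀ m, 0 ≤ vr N K r m ∧ vr N K r (-m) = vr N K r m) ∧
    (∀ m : ℤ, 4 * ((r * lw N K : ℕ) : ℤ) ≤ |m| → vr N K r m = 0) ∧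
    (∀ B : ℕ, 4 * (r * lw N K) ≤ B → ∑ m ∈ Icc (-(B : ℤ)) B, vr N K r m = 1) ∧
    (∀ (B : ℕ) (b : ℝ), 4 * (r * lw N K) ≤ B →
      ((Wr N K r b : ℝ) : ℂ) = ∑ m ∈ Icc (-(B : ℤ)) B, ((vr N K r m : ℝ) : ℂ) * e (m * b)) := by
  have hL : ((r * lw N K : ℕ) : ℝ) ≠ 0 := by
    have : r * lw N K ≠ 0 := by omega
    exact_mod_cast this
  have hL8 : (((r * lw N K : ℕ) : ℝ)) ^ 8 ≠ 0 := pow_ne_zero _ hL
  refine ⟨?_, ?_, ?_, ?_⟩
  · intro m
    rw [c02_vr, c02_vr, c02_sym]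
    exact ⟨by positivity, rfl⟩
  · intro m hm
    rw [c02_vr]
    have : c02_n (r * lw N K) m = 0 := by
      unfold c02_n
      rw [Finset.card_eq_zero, Finset.filter_eq_empty_iff]
      intro f hf hfm
      have h1 := c02_abs hf
      rw [hfm] at h1
      exact absurd h1 (not_lt.2 hm)
    rw [this]
    simp
  · intro B hB
    have h1 := c02_sum (L := r * lw N K) hB (fun _ => (1 : ℝ))
    have h2 : ∑ f ∈ c02_P (r * lw N K), (1 : ℝ) = ((r * lw N K : ℕ) : ℝ) ^ 8 := by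
      rw [Finset.sum_const, nsmul_eq_mul, mul_one]
      unfold c02_P
      rw [Fintype.card_piFinset_const, Finset.card_range]
      push_cast
      simp
    have h3 : ∑ m ∈ Icc (-(B : ℤ)) B, vr N K r m =
        (∑ m ∈ Icc (-(B : ℤ)) B, c02_n (r * lw N K) m • (1 : ℝ)) /
          ((r * lw N K : ℕ) : ℝ) ^ 8 := by
      rw [Finset.sum_div]
      apply Finset.sum_congr rfl
      intro m _
      rw [c02_vr, nsmul_eq_mul, mul_one]
    rw [h3, ← h1, h2, div_self hL8]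
  · intro B b hB
    have h1 := c02_sum (L := r * lw N K) hB (fun m => e ((m : ℝ) * b))
    have h2 : ((Wr N K r b : ℝ) : ℂ) = ((‖Dk (r * lw N K) b‖ ^ 8 : ℝ) : ℂ) /
        (((r * lw N K : ℕ) : ℝ) : ℂ) ^ 8 := by
      unfold Wr
      rw [div_pow]
      push_cast
      rfl
    rw [h2, c02_norm, h1, Finset.sum_div]
    apply Finset.sum_congr rfl
    intro m _
    rw [c02_vr, nsmul_eq_mul]
    push_cast
    ring

end Pool.Agent.AAX

namespace Pool.Agent.AAX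

/-- alias -/
theorem vr_facts : type_of% @vr_facts_pr := @vr_facts_pr

end Pool.Agent.AAX

/-! ### C03 -/

namespace Pool.Agent.AAX

open Finset MeasureTheory Pool.Agent.Var35 Pool.Agent.Var73 Pool.Agent.PV Pool.Agent.FGP Pool.Agent.FGA
open scoped ArithmeticFunction ArithmeticFunction.Moebius

theorem c03_nn_nonneg (x : ℝ) : 0 ≤ nn x := abs_nonneg _

theorem c03_nn_le (x : ℝ) : nn x ≤ |x| := by
  have := round_le x 0
  simpa [nn] using this

theorem c03_nn_add (x : ℝ) (n : ℤ) : nn (x + n) = nn x := by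
  unfold nn
  rw [round_add_intCast]
  push_cast
  congr 1
  ring

/-- distinct reduced fractions -/
theorem c03_sep {r r' c c' : ℕ} (hr : 1 ≤ r) (hr' : 1 ≤ r') (hc : c ∈ Cd r) (hc' : c' ∈ Cd r')
    (hne : ¬ (r' = r ∧ c' = c)) (k : ℤ) :
    1 / ((r : ℝ) * r') ≤ |(c : ℝ) / r - c' / r' - k| := by
  simp only [Cd, Finset.mem_filter, Finset.mem_range] at hc hc'
  have hr0 : (0 : ℝ) < r := by exact_mod_cast hr
  have hr0' : (0 : ℝ) < r' := by exact_mod_cast hr'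
  set z : ℤ := (c : ℤ) * r' - c' * r - k * (r * r') with hz
  have hz0 : z ≠ 0 := by
    intro h0
    rw [hz] at h0
    have h1 : (r : ℤ) ∣ (c : ℤ) * r' := ⟨c' + k * r', by linear_combination h0⟩
    have h2 : (r' : ℤ) ∣ (c' : ℤ) * r := ⟨c - k * r, by linear_combination -h0⟩
    have h3 : r ∣ c * r' := by exact_mod_cast h1
    have h4 : r' ∣ c' * r := by exact_mod_cast h2
    have h5 : r ∣ r' := (Nat.Coprime.symm hc.2).dvd_of_dvd_mul_left h3
    have h6 : r' ∣ r := (Nat.Coprime.symm hc'.2).dvd_of_dvd_mul_left h4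
    have h7 : r' = r := Nat.dvd_antisymm h6 h5
    apply hne
    refine ⟨h7, ?_⟩
    rw [h7] at h0 hc'
    have hrz : (r : ℤ) ≠ 0 := by exact_mod_cast (Nat.pos_iff_ne_zero.1 hr)
    have h8 : (c : ℤ) - c' - k * r = 0 := by
      have : ((c : ℤ) - c' - k * r) * r = 0 := by linear_combination h0
      exact (mul_eq_zero.1 this).resolve_right hrz
    have h9 : (c : ℤ) % r = (c' : ℤ) % r := by
      apply Int.ModEq.symm
      rw [Int.modEq_iff_dvd]
      exact ⟨k, by linear_combination h8⟩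
    have h10 : c % r = c' % r := by exact_mod_cast h9
    rw [Nat.mod_eq_of_lt hc.1, Nat.mod_eq_of_lt hc'.1] at h10
    exact h10.symm
  have hz1 : (1 : ℝ) ≤ |(z : ℝ)| := by
    have : (1 : ℤ) ≤ |z| := Int.one_le_abs hz0
    exact_mod_cast this
  have e : (c : ℝ) / r - c' / r' - k = (z : ℝ) / (r * r') := by
    rw [hz]
    push_cast
    field_simp
  rw [e, abs_div, abs_of_pos (mul_pos hr0 hr0')]
  exact div_le_div_of_nonneg_right hz1 (by positivity)

theorem c03_sep2 {r r' c c' : ℕ} (hr : 1 ≤ r) (hr' : 1 ≤ r') (hc : c ∈ Cd r) (hc' : c' ∈ Cd r')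
    (hne : ¬ (r' = r ∧ c' = c)) (t : ℝ) :
    1 / ((r : ℝ) * r') ≤ nn (t - c / r) + nn (t - c' / r') := by
  refine (c03_sep hr hr' hc hc' hne
    (round (t - (c' : ℝ) / r') - round (t - (c : ℝ) / r))).trans ?_
  push_cast
  have e : (c : ℝ) / r - c' / r' - ((round (t - (c' : ℝ) / r') : ℝ) - (round (t - (c : ℝ) / r) : ℝ)) =
      ((t - (c' : ℝ) / r') - (round (t - (c' : ℝ) / r') : ℝ)) -
      ((t - (c : ℝ) / r) - (round (t - (c : ℝ) / r) : ℝ)) := by ring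
  rw [e]
  refine (abs_sub _ _).trans ?_
  unfold nn
  linarith

/-- a term far from the fraction is small -/
theorem c03_far {N K r' c' : ℕ} (hK : 1 ≤ K) (hlw : 1 ≤ lw N K) (hr' : 1 ≤ r') (t : ℝ)
    (h : 1 ≤ nn (t - c' / r') * (2 * (r' * K))) :
    Wr N K r' (t - c' / r') ≤ (K : ℝ) ^ 8 / (lw N K : ℝ) ^ 8 := by
  have hK0 : (0 : ℝ) < K := by exact_mod_cast hK
  have hl0 : (0 : ℝ) < lw N K := by exact_mod_cast hlw
  have hrl : 1 ≤ r' * lw N K := Nat.mul_pos hr' hlw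
  obtain ⟨h1, -, -, h4, -⟩ := wr_facts N K r' hrl
  have h5 := h4 (t - c' / r')
  have h6 : (lw N K : ℝ) / K ≤ 2 * (((r' * lw N K : ℕ) : ℝ) * nn (t - c' / r')) := by
    rw [div_le_iff₀ hK0]
    push_cast
    calc (lw N K : ℝ) = lw N K * 1 := (mul_one _).symm
      _ ≤ lw N K * (nn (t - c' / r') * (2 * (r' * K))) := by gcongr
      _ = _ := by ring
  have h7 : ((lw N K : ℝ) / K) ^ 8 ≤ (2 * (((r' * lw N K : ℕ) : ℝ) * nn (t - c' / r'))) ^ 8 :=
    pow_le_pow_left₀ (by positivity) h6 8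
  have h8 : Wr N K r' (t - c' / r') * ((lw N K : ℝ) / K) ^ 8 ≤ 1 :=
    (mul_le_mul_of_nonneg_left h7 (h1 _).1).trans h5
  rw [div_pow] at h8
  rw [le_div_iff₀ (by positivity)]
  calc Wr N K r' (t - c' / r') * (lw N K : ℝ) ^ 8
      = Wr N K r' (t - c' / r') * ((lw N K : ℝ) ^ 8 / (K : ℝ) ^ 8) * (K : ℝ) ^ 8 := by
        field_simp
    _ ≤ 1 * (K : ℝ) ^ 8 := by gcongr
    _ = _ := one_mul _

/-- sums over few fractions -/
theorem c03_sum {N K : ℕ} (hK : 1 ≤ K) (hlw : 1 ≤ lw N K)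
    (hfin : (K : ℝ) ^ 10 * (N : ℝ) ^ (3 / 4 : ℝ) ≤ (lw N K : ℝ) ^ 8) (hN : 1 ≤ N)
    (F : ℕ → ℕ → ℝ) (hF : ∀ r' ∈ Icc 1 K, ∀ c' ∈ Cd r', F r' c' ≤ (K : ℝ) ^ 8 / (lw N K : ℝ) ^ 8) :
    ∑ r' ∈ Icc 1 K, ∑ c' ∈ Cd r', F r' c' ≤ (N : ℝ) ^ (-(3 / 4) : ℝ) := by
  have hK0 : (0 : ℝ) < K := by exact_mod_cast hK
  have hl0 : (0 : ℝ) < lw N K := by exact_mod_cast hlw
  have hN0 : (0 : ℝ) < N := by exact_mod_cast hN
  have hB : 0 ≤ (K : ℝ) ^ 8 / (lw N K : ℝ) ^ 8 := by positivity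
  calc ∑ r' ∈ Icc 1 K, ∑ c' ∈ Cd r', F r' c'
      ≤ ∑ r' ∈ Icc 1 K, (K : ℝ) * ((K : ℝ) ^ 8 / (lw N K : ℝ) ^ 8) := by
        refine Finset.sum_le_sum fun r' hr' => ?_
        refine (Finset.sum_le_card_nsmul _ _ _ (hF r' hr')).trans ?_
        rw [nsmul_eq_mul]
        refine mul_le_mul_of_nonneg_right ?_ hB
        have h1 : (Cd r').card ≤ K := by
          rw [card_Cd]
          exact (Nat.totient_le r').trans (Finset.mem_Icc.1 hr').2
        exact_mod_cast h1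
    _ = (K : ℝ) * ((K : ℝ) * ((K : ℝ) ^ 8 / (lw N K : ℝ) ^ 8)) := by
        rw [Finset.sum_const, Nat.card_Icc, nsmul_eq_mul]
        simp
    _ = (K : ℝ) ^ 10 / (lw N K : ℝ) ^ 8 := by ring
    _ ≤ (N : ℝ) ^ (-(3 / 4) : ℝ) := by
        rw [div_le_iff₀ (by positivity), Real.rpow_neg hN0.le]
        have hp : 0 < (N : ℝ) ^ (3 / 4 : ℝ) := Real.rpow_pos_of_pos hN0 _
        rw [inv_mul_eq_div, le_div_iff₀ hp]
        exact hfin

theorem wt_other_pr : ∃ N0 : ℕ, ∀ N ≥ N0, ∀ K, Rg K N → ∀ r ∈ Icc 1 K, ∀ c ∈ Cd r, ∀ t : ℝ,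
    nn (t - c / r) * (2 * (r * K)) ≤ 1 →
    ∑ r' ∈ Icc 1 K, ∑ c' ∈ Cd r', (if r' = r ∧ c' = c then 0 else Wr N K r' (t - c' / r')) ≤
      (N : ℝ) ^ (-(3 / 4) : ℝ) := by
  obtain ⟨N0, H⟩ := lw_facts
  refine ⟨max N0 1, fun N hN K hR r hr c hc t ht => ?_⟩
  obtain ⟨hlw, -, -, -, hfin⟩ := H N (le_trans (le_max_left _ _) hN) K hR
  have hN1 : 1 ≤ N := le_trans (le_max_right _ _) hN
  have hK1 : 1 ≤ K := le_trans (by norm_num) hR.hK
  have hK0 : (0 : ℝ) < K := by exact_mod_cast hK1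
  have hl0 : (0 : ℝ) < lw N K := by exact_mod_cast hlw
  have hr1 := (Finset.mem_Icc.1 hr).1
  have hr0 : (0 : ℝ) < r := by exact_mod_cast hr1
  apply c03_sum hK1 hlw hfin hN1
  intro r' hr' c' hc'
  have hr1' := (Finset.mem_Icc.1 hr').1
  have hrK' : (r' : ℝ) ≤ K := by exact_mod_cast (Finset.mem_Icc.1 hr').2
  have hrK : (r : ℝ) ≤ K := by exact_mod_cast (Finset.mem_Icc.1 hr).2
  have hr0' : (0 : ℝ) < r' := by exact_mod_cast hr1'
  split_ifs with hne
  · positivity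
  · apply c03_far hK1 hlw hr1'
    have h1 := c03_sep2 hr1 hr1' hc hc' hne t
    have h2 : nn (t - c / r) ≤ 1 / (2 * (r * K)) := by
      rw [le_div_iff₀ (by positivity)]
      exact ht
    have h3 : 1 / ((r : ℝ) * r') - 1 / (2 * (r * K)) ≤ nn (t - c' / r') := by linarith
    calc (1 : ℝ) ≤ (1 / ((r : ℝ) * r') - 1 / (2 * (r * K))) * (2 * (r' * K)) := by
          have e : (1 / ((r : ℝ) * r') - 1 / (2 * (r * K))) * (2 * (r' * K)) =
              (2 * K - r') / r := by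
            field_simp
          rw [e, le_div_iff₀ hr0]
          linarith
      _ ≤ nn (t - c' / r') * (2 * (r' * K)) := by gcongr

/-- the multiplier without one term -/
theorem c03_split (N K r c : ℕ) (hr : r ∈ Icc 1 K) (hc : c ∈ Cd r) (t : ℝ) :
    Wt N K t = Wr N K r (t - c / r) + ∑ r' ∈ Icc 1 K, ∑ c' ∈ Cd r',
      (if r' = r ∧ c' = c then 0 else Wr N K r' (t - c' / r')) := by
  have h1 : ∀ r' ∈ Icc 1 K, ∑ c' ∈ Cd r', Wr N K r' (t - c' / r') =
      (∑ c' ∈ Cd r', (if r' = r ∧ c' = c then Wr N K r' (t - c' / r') else 0)) +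
      ∑ c' ∈ Cd r', (if r' = r ∧ c' = c then 0 else Wr N K r' (t - c' / r')) := by
    intro r' _
    rw [← Finset.sum_add_distrib]
    refine Finset.sum_congr rfl fun c' _ => ?_
    split_ifs <;> simp
  unfold Wt
  rw [Finset.sum_congr rfl h1, Finset.sum_add_distrib]
  congr 1
  rw [Finset.sum_eq_single_of_mem r hr]
  · rw [Finset.sum_eq_single_of_mem c hc]
    · simp
    · intro c' _ hcc
      rw [if_neg]
      exact fun h => hcc h.2
  · intro r' _ hrr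
    refine Finset.sum_eq_zero fun c' _ => ?_
    rw [if_neg]
    exact fun h => hrr h.1

theorem wt_facts_pr : ∃ N0 : ℕ, ∀ N ≥ N0, ∀ K, Rg K N →
    (∀ t, 0 ≤ Wt N K t ∧ Wt N K t ≤ 2) ∧
    (∀ r ∈ Icc 1 K, ∀ c : ℤ, IsCoprime c (r : ℤ) → ∀ t : ℝ, |t - c / r| * (2 * (r * K)) ≤ 1 →
      |1 - Wt N K t| ≤ 100 * (((r * lw N K : ℕ) : ℝ) * |t - c / r|) ^ 2 +
        (N : ℝ) ^ (-(3 / 4) : ℝ)) := by
  obtain ⟨N0, H⟩ := lw_facts
  obtain ⟨N1, H1⟩ := wt_other_pr
  refine ⟨max (max N0 N1) 1, fun N hN K hR => ?_⟩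
  obtain ⟨hlw, -, -, -, hfin⟩ := H N
    (le_trans (le_trans (le_max_left _ _) (le_max_left _ _)) hN) K hR
  have hN1 : 1 ≤ N := le_trans (le_max_right _ _) hN
  have hoth := H1 N (le_trans (le_trans (le_max_right _ _) (le_max_left _ _)) hN) K hR
  have hK1 : 1 ≤ K := le_trans (by norm_num) hR.hK
  have hN0 : (0 : ℝ) < N := by exact_mod_cast hN1
  have hsmall : (N : ℝ) ^ (-(3 / 4) : ℝ) ≤ 1 := by
    apply Real.rpow_le_one_of_one_le_of_nonpos
    · exact_mod_cast hN1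
    · norm_num
  have hWr : ∀ r' ∈ Icc 1 K, ∀ b, 0 ≤ Wr N K r' b ∧ Wr N K r' b ≤ 1 := by
    intro r' hr' b
    exact (wr_facts N K r' (Nat.mul_pos (Finset.mem_Icc.1 hr').1 hlw)).1 b
  have hnn : ∀ (r c : ℕ) (t : ℝ), 0 ≤ ∑ r' ∈ Icc 1 K, ∑ c' ∈ Cd r',
      (if r' = r ∧ c' = c then 0 else Wr N K r' (t - c' / r')) := by
    intro r c t
    refine Finset.sum_nonneg fun r' hr' => Finset.sum_nonneg fun c' _ => ?_
    split_ifs
    · exact le_rfl
    · exact (hWr r' hr' _).1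
  constructor
  · intro t
    constructor
    · exact Finset.sum_nonneg fun r' hr' => Finset.sum_nonneg fun c' _ => (hWr r' hr' _).1
    · by_cases hex : ∃ r ∈ Icc 1 K, ∃ c ∈ Cd r, nn (t - (c : ℝ) / r) * (2 * (r * K)) ≤ 1
      · obtain ⟨r, hr, c, hc, ht⟩ := hex
        rw [c03_split N K r c hr hc t]
        have h1 := hoth r hr c hc t ht
        have h2 := (hWr r hr (t - c / r)).2
        linarith
      · push Not at hex
        have h1 := c03_sum hK1 hlw hfin hN1 (fun r' c' => Wr N K r' (t - c' / r')) (by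
          intro r' hr' c' hc'
          exact c03_far hK1 hlw (Finset.mem_Icc.1 hr').1 t (hex r' hr' c' hc').le)
        unfold Wt
        linarith
  · intro r hr c hc t ht
    have hr' := Finset.mem_Icc.1 hr
    have hr0 : (0 : ℝ) < r := by exact_mod_cast hr'.1
    have hrz : (0 : ℤ) < r := by exact_mod_cast hr'.1
    -- the residue
    obtain ⟨m, hm⟩ := Int.eq_ofNat_of_zero_le (Int.emod_nonneg c hrz.ne')
    have hmr : m < r := by
      have := Int.emod_lt_of_pos c hrz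
      rw [hm] at this
      exact_mod_cast this
    have hdiv : c = m + r * (c / r) := by
      rw [← hm]; exact (Int.emod_add_mul_ediv c r).symm
    have hcop : Nat.Coprime m r := by
      rw [← Nat.isCoprime_iff_coprime]
      have h5 : IsCoprime (c + r * (-(c / r))) (r : ℤ) := hc.add_mul_left_left _
      have h6 : c + r * (-(c / r)) = (m : ℤ) := by linarith
      rwa [h6] at h5
    have hmC : m ∈ Cd r := by
      simp only [Cd, Finset.mem_filter, Finset.mem_range]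
      exact ⟨hmr, hcop⟩
    have hcr : t - (m : ℝ) / r = (t - (c : ℝ) / r) + ((c / r : ℤ) : ℝ) := by
      have h7 : (c : ℝ) = m + r * ((c / r : ℤ) : ℝ) := by
        calc (c : ℝ) = (((m : ℤ) + r * (c / r) : ℤ) : ℝ) := by rw [← hdiv]
          _ = m + r * ((c / r : ℤ) : ℝ) := by push_cast; rfl
      have h8 : (c : ℝ) / r = m / r + ((c / r : ℤ) : ℝ) := by
        rw [h7]
        field_simp
      rw [h8]; ring
    have hnnle : nn (t - (m : ℝ) / r) ≤ |t - c / r| := by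
      rw [hcr, c03_nn_add]
      exact c03_nn_le _
    have hcond : nn (t - (m : ℝ) / r) * (2 * (r * K)) ≤ 1 :=
      (mul_le_mul_of_nonneg_right hnnle (by positivity)).trans ht
    have h1 := hoth r hr m hmC t hcond
    have h0 := hnn r m t
    rw [c03_split N K r m hr hmC t]
    obtain ⟨-, -, h3, -, -⟩ := wr_facts N K r (Nat.mul_pos hr'.1 hlw)
    have h4 := h3 (t - m / r)
    have h5 : 100 * (((r * lw N K : ℕ) : ℝ) * nn (t - m / r)) ^ 2 ≤
        100 * (((r * lw N K : ℕ) : ℝ) * |t - c / r|) ^ 2 := by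
      have h6 : ((r * lw N K : ℕ) : ℝ) * nn (t - m / r) ≤
          ((r * lw N K : ℕ) : ℝ) * |t - c / r| := by gcongr
      have h7 : 0 ≤ ((r * lw N K : ℕ) : ℝ) * nn (t - m / r) :=
        mul_nonneg (Nat.cast_nonneg _) (c03_nn_nonneg _)
      have h8 := pow_le_pow_left₀ h7 h6 2
      linarith
    have h9 := (hWr r hr (t - m / r)).2
    rw [abs_le]
    constructor
    · have h10 : 0 ≤ 100 * (((r * lw N K : ℕ) : ℝ) * |t - c / r|) ^ 2 := by positivity
      linarith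
    · have h11 : 0 ≤ (N : ℝ) ^ (-(3 / 4) : ℝ) := Real.rpow_nonneg hN0.le _
      linarith

end Pool.Agent.AAX

namespace Pool.Agent.AAX

/-- alias -/
theorem wt_other : type_of% @wt_other_pr := @wt_other_pr

/-- alias -/
theorem wt_facts : type_of% @wt_facts_pr := @wt_facts_pr

end Pool.Agent.AAX

/-! ### C04 -/

/-!
# AAX, block C04: the part `fh` is small everywhere
-/

namespace Pool.Agent.AAX

open Finset MeasureTheory Pool.Agent.Var35 Pool.Agent.Var73 Pool.Agent.PV Pool.Agent.FGP Pool.Agent.FGA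
open scoped ArithmeticFunction ArithmeticFunction.Moebius

/-- Vaughan's estimate for `Ps` -/
theorem c04_vau : ∃ C : ℝ, 0 < C ∧ ∀ N : ℕ, 2 ≤ N → ∀ (t : ℝ) (c : ℤ) (r : ℕ), 1 ≤ r →
    IsCoprime c (r : ℤ) → |t - c / r| ≤ 1 / (r : ℝ) ^ 2 →
    ‖Ps N t‖ ≤ C * (N / Real.sqrt r + (N : ℝ) ^ (4 / 5 : ℝ) + Real.sqrt (N * r)) *
      (1 + Real.log N) ^ 6 := by
  obtain ⟨C1, hC1, hv⟩ := PV.vau_pr
  obtain ⟨C2, hC2, hrem⟩ := PV.rem_sum_pr
  refine ⟨C1 + C2, by positivity, fun N hN t c r hr hcop happ => ?_⟩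
  have hv1 := hv N hN t c r hr hcop happ
  obtain ⟨hr1, hr2⟩ := hrem N hN
  have hN1 : (1 : ℝ) ≤ N := by exact_mod_cast (by omega : 1 ≤ N)
  have hrpos : (0 : ℝ) < r := by exact_mod_cast hr
  have hlog : 0 ≤ Real.log N := Real.log_nonneg hN1
  have hL : (1 : ℝ) ≤ 1 + Real.log N := by linarith
  have e3 : Real.sqrt N ≤ (N : ℝ) ^ (4 / 5 : ℝ) := by
    rw [Real.sqrt_eq_rpow]
    exact Real.rpow_le_rpow_of_exponent_le hN1 (by norm_num)
  have e4 : (1 + Real.log N) ^ 2 ≤ (1 + Real.log N) ^ 6 := pow_le_pow_right₀ hL (by norm_num)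
  have hdiff : ‖Ps N t - ∑ n ∈ Icc 1 N, ((Λ n : ℝ) : ℂ) * e (n * t)‖
      ≤ C2 * Real.sqrt N * (1 + Real.log N) ^ 2 := by
    unfold Ps Bs
    rw [← Finset.sum_sub_distrib]
    refine (norm_sum_le _ _).trans ?_
    refine le_trans (Finset.sum_le_sum fun n _ => ?_) hr2
    rw [← sub_mul, norm_mul, p05_e, mul_one, ← Complex.ofReal_sub, Complex.norm_real,
      Real.norm_eq_abs, abs_sub_comm, abs_of_nonneg (sub_nonneg.2 (hr1 n))]
  have hZ : 0 ≤ (N : ℝ) ^ (4 / 5 : ℝ) := by positivity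
  have hL6 : 0 ≤ (1 + Real.log N) ^ 6 := by positivity
  have h5 : ‖Ps N t‖ ≤ C2 * Real.sqrt N * (1 + Real.log N) ^ 2 +
      C1 * (N / Real.sqrt r + (N : ℝ) ^ (4 / 5 : ℝ) + Real.sqrt (N * r)) * (1 + Real.log N) ^ 6 := by
    have := norm_sub_norm_le (Ps N t) (∑ n ∈ Icc 1 N, ((Λ n : ℝ) : ℂ) * e (n * t))
    linarith
  have h6 : C2 * Real.sqrt N * (1 + Real.log N) ^ 2 ≤
      C2 * (N / Real.sqrt r + (N : ℝ) ^ (4 / 5 : ℝ) + Real.sqrt (N * r)) *
        (1 + Real.log N) ^ 6 := by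
    apply mul_le_mul (mul_le_mul_of_nonneg_left _ hC2.le) e4 (by positivity) (by positivity)
    have h7 : 0 ≤ (N : ℝ) / Real.sqrt r := by positivity
    have h8 : 0 ≤ Real.sqrt (N * r) := Real.sqrt_nonneg _
    linarith
  refine h5.trans ((add_le_add_left h6 _).trans (le_of_eq ?_))
  ring

/-- Dirichlet's theorem -/
theorem c04_dir (t : ℝ) (n : ℕ) (hn : 0 < n) : ∃ (c : ℤ) (r : ℕ), 1 ≤ r ∧ r ≤ n ∧
    IsCoprime c (r : ℤ) ∧ |t - c / r| ≤ 1 / (((n : ℝ) + 1) * r) := by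
  obtain ⟨q, hq1, hq2⟩ := Real.exists_rat_abs_sub_le_and_den_le t hn
  have hqc : (q : ℝ) = (q.num : ℝ) / (q.den : ℝ) := by
    exact_mod_cast (Rat.num_div_den q).symm
  rw [hqc] at hq1
  have hcop : IsCoprime q.num (q.den : ℤ) := Int.isCoprime_iff_gcd_eq_one.2 (by
    have := q.reduced
    simpa [Int.gcd, Nat.Coprime] using this)
  exact ⟨q.num, q.den, q.pos, hq2, hcop, hq1⟩

/-- two different fractions -/
theorem c04_sep (c c' : ℤ) (q q' : ℕ) (h1 : 1 ≤ q) (h2 : 1 ≤ q') (hc : IsCoprime c (q : ℤ))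
    (hc' : IsCoprime c' (q' : ℤ)) (h : ¬ q' = q ∨ ¬ (c : ℝ) / q = c' / q') :
    1 / ((q : ℝ) * q') ≤ |(c : ℝ) / q - c' / q'| := by
  have hq : (0 : ℝ) < q := by exact_mod_cast h1
  have hq' : (0 : ℝ) < q' := by exact_mod_cast h2
  have hne : c * (q' : ℤ) ≠ c' * (q : ℤ) := by
    intro he
    have hreal : (c : ℝ) / q = c' / q' := by
      rw [div_eq_div_iff hq.ne' hq'.ne']
      exact_mod_cast he
    rcases h with h | h
    · apply h
      have d1 : (q' : ℤ) ∣ (q : ℤ) := by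
        have : (q' : ℤ) ∣ c' * (q : ℤ) := ⟨c, by rw [← he]; ring⟩
        exact hc'.symm.dvd_of_dvd_mul_left this
      have d2 : (q : ℤ) ∣ (q' : ℤ) := by
        have : (q : ℤ) ∣ c * (q' : ℤ) := ⟨c', by rw [he]; ring⟩
        exact hc.symm.dvd_of_dvd_mul_left this
      exact Nat.dvd_antisymm (by exact_mod_cast d1) (by exact_mod_cast d2)
    · exact h hreal
  have h3 : (1 : ℝ) ≤ |(c : ℝ) * q' - c' * q| := by
    have h4 : (1 : ℤ) ≤ |c * (q' : ℤ) - c' * (q : ℤ)| := Int.one_le_abs (sub_ne_zero.2 hne)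
    exact_mod_cast h4
  have h5 : (c : ℝ) / q - c' / q' = (c * q' - c' * q) / (q * q') := by
    field_simp
  rw [h5, abs_div, abs_of_pos (mul_pos hq hq')]
  exact div_le_div_of_nonneg_right h3 (by positivity)

/-- C04 -/
theorem fh_sup_pr : ∃ C : ℝ, 0 < C ∧ ∃ N0 : ℕ, ∀ N ≥ N0, ∀ K, Rg K N → ∀ t : ℝ,
    ‖fh N K t‖ ≤ C * (N / Real.sqrt K) * (1 + Real.log N) ^ 6 := by
  obtain ⟨C, hC, hv⟩ := c04_vau
  obtain ⟨N1, hw⟩ := wt_facts
  refine ⟨500 * C + 1, by positivity, max N1 32, fun N hN K hR t => ?_⟩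
  obtain ⟨hW, hWm⟩ := hw N ((le_max_left _ _).trans hN) K hR
  have hN32 : 32 ≤ N := (le_max_right _ _).trans hN
  have hK10 : 10 ≤ K := hR.hK
  have hKr : (10 : ℝ) ≤ K := by exact_mod_cast hK10
  have hNr : (32 : ℝ) ≤ N := by exact_mod_cast hN32
  have hK0 : (0 : ℝ) < K := by linarith
  have hN0 : (0 : ℝ) < N := by linarith
  have hlog1 : 1 ≤ Real.log N := by
    have h1 : Real.log 32 = 5 * Real.log 2 := by
      rw [show (32 : ℝ) = 2 ^ (5 : ℕ) by norm_num, Real.log_pow]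
      norm_num
    have h2 := Real.log_two_gt_d9
    have h3 : Real.log 32 ≤ Real.log N := Real.log_le_log (by norm_num) hNr
    linarith
  have hL1 : (1 : ℝ) ≤ 1 + Real.log N := by linarith
  have hsq : 0 < Real.sqrt K := Real.sqrt_pos.2 hK0
  have hsqK : Real.sqrt K * Real.sqrt K = K := Real.mul_self_sqrt hK0.le
  have hL6 : (1 : ℝ) ≤ (1 + Real.log N) ^ 6 := one_le_pow₀ hL1
  have hL60 : (0 : ℝ) ≤ (1 + Real.log N) ^ 6 := by linarith
  have hNK : 0 < (N : ℝ) / Real.sqrt K := by positivity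
  -- `2 K² ≤ N`
  have hK5 : (K : ℝ) ^ 5 ≤ (N : ℝ) ^ 2 := by exact_mod_cast hR.hN
  have hK2 : 2 * (K : ℝ) ^ 2 ≤ N := by
    by_contra hcon
    push Not at hcon
    have h1 : (N : ℝ) ^ 5 < (2 * (K : ℝ) ^ 2) ^ 5 := pow_lt_pow_left₀ hcon hN0.le (by norm_num)
    have h2 : (2 * (K : ℝ) ^ 2) ^ 5 = 32 * ((K : ℝ) ^ 5) ^ 2 := by ring
    have h3 : ((K : ℝ) ^ 5) ^ 2 ≤ ((N : ℝ) ^ 2) ^ 2 := pow_le_pow_left₀ (by positivity) hK5 2
    have h4 : (32 : ℝ) * ((N : ℝ) ^ 2) ^ 2 ≤ N ^ 5 := by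
      have : (32 : ℝ) * (N : ℝ) ^ 4 ≤ N * (N : ℝ) ^ 4 := mul_le_mul_of_nonneg_right hNr (by positivity)
      calc (32 : ℝ) * ((N : ℝ) ^ 2) ^ 2 = 32 * (N : ℝ) ^ 4 := by ring
        _ ≤ N * (N : ℝ) ^ 4 := this
        _ = N ^ 5 := by ring
    linarith
  have hKN : (K : ℝ) ≤ N := by nlinarith
  have hKNn : K ≤ N := by exact_mod_cast hKN
  -- `√K ≤ N^(1/5)`
  have hsK : Real.sqrt K ≤ (N : ℝ) ^ (1 / 5 : ℝ) := by
    have h1 : (K : ℝ) ≤ (N : ℝ) ^ (2 / 5 : ℝ) := by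
      calc (K : ℝ) = ((K : ℝ) ^ 5) ^ (1 / 5 : ℝ) := by
            rw [← Real.rpow_natCast, ← Real.rpow_mul hK0.le]
            norm_num
        _ ≤ ((N : ℝ) ^ 2) ^ (1 / 5 : ℝ) := Real.rpow_le_rpow (by positivity) hK5 (by norm_num)
        _ = (N : ℝ) ^ (2 / 5 : ℝ) := by
            rw [← Real.rpow_natCast, ← Real.rpow_mul hN0.le]
            norm_num
    calc Real.sqrt K ≤ Real.sqrt ((N : ℝ) ^ (2 / 5 : ℝ)) := Real.sqrt_le_sqrt h1
      _ = (N : ℝ) ^ (1 / 5 : ℝ) := by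
          rw [Real.sqrt_eq_rpow, ← Real.rpow_mul hN0.le]
          norm_num
  have h45 : (N : ℝ) ^ (4 / 5 : ℝ) ≤ N / Real.sqrt K := by
    rw [le_div_iff₀ hsq]
    calc (N : ℝ) ^ (4 / 5 : ℝ) * Real.sqrt K ≤ (N : ℝ) ^ (4 / 5 : ℝ) * (N : ℝ) ^ (1 / 5 : ℝ) :=
          mul_le_mul_of_nonneg_left hsK (by positivity)
      _ = N := by
          rw [← Real.rpow_add hN0]
          norm_num
  have hfh : ‖fh N K t‖ = ‖Ps N t‖ * |1 - Wt N K t| := by
    unfold fh
    rw [norm_mul, Complex.norm_real, Real.norm_eq_abs]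
  rw [hfh]
  -- Dirichlet
  have hn : 0 < N / K := Nat.div_pos hKNn (by omega)
  obtain ⟨c, q, hq1, hqn, hcop, happ⟩ := c04_dir t (N / K) hn
  have hq0 : (0 : ℝ) < q := by exact_mod_cast hq1
  have hn1 : (N : ℝ) / K ≤ ((N / K : ℕ) : ℝ) + 1 := (Nat.lt_floor_add_one _ |>.le).trans_eq (by
    rw [Nat.floor_div_eq_div])
  have hn2 : ((N / K : ℕ) : ℝ) * K ≤ N := by exact_mod_cast Nat.div_mul_le_self N K
  have hqK : (q : ℝ) * K ≤ N := by
    have h3 : (q : ℝ) ≤ ((N / K : ℕ) : ℝ) := by exact_mod_cast hqn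
    nlinarith
  have hβ : (q : ℝ) * |t - c / q| ≤ K / N := by
    have h2 : (q : ℝ) * |t - c / q| ≤ q * (1 / ((((N / K : ℕ) : ℝ) + 1) * q)) :=
      mul_le_mul_of_nonneg_left happ hq0.le
    have h3 : (q : ℝ) * (1 / ((((N / K : ℕ) : ℝ) + 1) * q)) = 1 / (((N / K : ℕ) : ℝ) + 1) := by
      field_simp
    have h4 : 1 / (((N / K : ℕ) : ℝ) + 1) ≤ 1 / ((N : ℝ) / K) :=
      one_div_le_one_div_of_le (by positivity) hn1
    rw [one_div_div] at h4
    linarith
  by_cases hqK' : K < q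
  · -- minor arc
    have happ2 : |t - c / q| ≤ 1 / (q : ℝ) ^ 2 := by
      refine happ.trans ?_
      apply one_div_le_one_div_of_le (by positivity)
      have h3 : (q : ℝ) ≤ ((N / K : ℕ) : ℝ) := by exact_mod_cast hqn
      nlinarith
    have h3 := hv N (by omega) t c q hq1 hcop happ2
    have h4 : |1 - Wt N K t| ≤ 1 := by
      have := hW t
      rw [abs_le]
      constructor <;> linarith [this.1, this.2]
    have e1 : (N : ℝ) / Real.sqrt q ≤ N / Real.sqrt K := by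
      apply div_le_div_of_nonneg_left (by positivity) hsq
      exact Real.sqrt_le_sqrt (by exact_mod_cast hqK'.le)
    have e2 : Real.sqrt (N * q) ≤ N / Real.sqrt K := by
      rw [le_div_iff₀ hsq, ← Real.sqrt_mul (by positivity)]
      rw [Real.sqrt_le_left (by positivity)]
      nlinarith
    calc ‖Ps N t‖ * |1 - Wt N K t| ≤ ‖Ps N t‖ * 1 :=
          mul_le_mul_of_nonneg_left h4 (norm_nonneg _)
      _ = ‖Ps N t‖ := mul_one _
      _ ≤ C * (N / Real.sqrt q + (N : ℝ) ^ (4 / 5 : ℝ) + Real.sqrt (N * q)) *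
          (1 + Real.log N) ^ 6 := h3
      _ ≤ C * (3 * (N / Real.sqrt K)) * (1 + Real.log N) ^ 6 := by
          apply mul_le_mul_of_nonneg_right _ hL60
          apply mul_le_mul_of_nonneg_left _ hC.le
          linarith
      _ ≤ (500 * C + 1) * (N / Real.sqrt K) * (1 + Real.log N) ^ 6 := by
          apply mul_le_mul_of_nonneg_right _ hL60
          nlinarith [mul_pos hC hNK]
  · push Not at hqK'
    have hqKr : (q : ℝ) ≤ K := by exact_mod_cast hqK'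
    have hb1 : |t - c / q| * (2 * (q * K)) ≤ 1 := by
      have h1 : (q : ℝ) * |t - c / q| * (2 * K) ≤ K / N * (2 * K) :=
        mul_le_mul_of_nonneg_right hβ (by positivity)
      have h2 : (K : ℝ) / N * (2 * K) ≤ 1 := by
        rw [div_mul_eq_mul_div, div_le_one hN0]
        nlinarith
      nlinarith
    have hw1 := hWm q (mem_Icc.2 ⟨hq1, hqK'⟩) c hcop t hb1
    have hPs := p05_Ps N (by omega) t
    -- the small part
    have hsmall : ‖Ps N t‖ * (N : ℝ) ^ (-(3 / 4) : ℝ) ≤ N / Real.sqrt K * (1 + Real.log N) ^ 6 := by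
      have h1 : (N : ℝ) ^ (-(3 / 4) : ℝ) ≤ 1 / Real.sqrt K := by
        rw [le_div_iff₀ hsq]
        calc (N : ℝ) ^ (-(3 / 4) : ℝ) * Real.sqrt K ≤
              (N : ℝ) ^ (-(3 / 4) : ℝ) * (N : ℝ) ^ (1 / 5 : ℝ) :=
              mul_le_mul_of_nonneg_left hsK (by positivity)
          _ = (N : ℝ) ^ (-(11 / 20) : ℝ) := by
              rw [← Real.rpow_add hN0]
              norm_num
          _ ≤ 1 := Real.rpow_le_one_of_one_le_of_nonpos (by linarith) (by norm_num)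
      have h8 : Real.log N ≤ (1 + Real.log N) ^ 6 := by
        have h9 : (1 + Real.log N) ^ 1 ≤ (1 + Real.log N) ^ 6 := pow_le_pow_right₀ hL1 (by norm_num)
        rw [pow_one] at h9
        linarith
      calc ‖Ps N t‖ * (N : ℝ) ^ (-(3 / 4) : ℝ) ≤ (N * Real.log N) * (1 / Real.sqrt K) :=
            mul_le_mul hPs h1 (by positivity) (by positivity)
        _ = N / Real.sqrt K * Real.log N := by ring
        _ ≤ N / Real.sqrt K * (1 + Real.log N) ^ 6 := mul_le_mul_of_nonneg_left h8 hNK.le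
    -- the large part
    have hlarge : ‖Ps N t‖ * (((q * lw N K : ℕ) : ℝ) * |t - c / q|) ^ 2 ≤
        5 * C * (N / Real.sqrt K) * (1 + Real.log N) ^ 6 := by
      rcases eq_or_ne (t - c / q : ℝ) 0 with hz | hz
      · rw [hz, abs_zero, mul_zero]
        have : ‖Ps N t‖ * (0 : ℝ) ^ 2 = 0 := by ring
        rw [this]
        positivity
      · have hbp : 0 < |t - c / q| := abs_pos.2 hz
        set β : ℝ := |t - c / q| with hβd
        have hqb : 0 < (q : ℝ) * β := by positivity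
        have hKN1 : (K : ℝ) / N ≤ 1 / 2 := by
          rw [div_le_div_iff₀ hN0 (by norm_num)]
          nlinarith
        -- the length of the window
        have hlwN : (lw N K : ℝ) ≤ N / K := by
          unfold lw
          refine (Nat.floor_le (by positivity)).trans ?_
          apply div_le_div_of_nonneg_left hN0.le hK0
          have : (1 : ℝ) ≤ Real.log N ^ 2 := one_le_pow₀ hlog1
          nlinarith
        have hlw0 : (0 : ℝ) ≤ (lw N K : ℝ) := Nat.cast_nonneg _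
        set τ : ℝ := ((q * lw N K : ℕ) : ℝ) * β with hτ
        have hτe : τ = lw N K * (q * β) := by
          rw [hτ]; push_cast; ring
        have hτ0 : 0 ≤ τ := by rw [hτe]; positivity
        have hτ1 : τ ≤ 1 := by
          rw [hτe]
          calc (lw N K : ℝ) * (q * β) ≤ (N / K) * (K / N) :=
                mul_le_mul hlwN hβ hqb.le (by positivity)
            _ = 1 := by field_simp
        -- the second approximation
        set H : ℕ := ⌈2 / ((q : ℝ) * β)⌉₊ with hH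
        have hH1 : 2 / ((q : ℝ) * β) ≤ H := Nat.le_ceil _
        have hH2 : (H : ℝ) < 2 / ((q : ℝ) * β) + 1 := Nat.ceil_lt_add_one (by positivity)
        have hH0 : 0 < H := by
          have : (0 : ℝ) < H := lt_of_lt_of_le (by positivity) hH1
          exact_mod_cast this
        have hHr : (0 : ℝ) < H := by exact_mod_cast hH0
        obtain ⟨c', q', hq'1, hq'H, hcop', happ'⟩ := c04_dir t H hH0
        have hq'0 : (0 : ℝ) < q' := by exact_mod_cast hq'1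
        have hq'Hr : (q' : ℝ) ≤ H := by exact_mod_cast hq'H
        have hH3 : 2 ≤ (H : ℝ) * (q * β) := by
          rwa [div_le_iff₀ hqb] at hH1
        have happ3 : |t - c' / q'| ≤ q * β / (2 * q') := by
          refine happ'.trans ?_
          rw [div_le_div_iff₀ (by positivity) (by positivity)]
          nlinarith [mul_pos hqb hq'0]
        have hne : ¬ q' = q ∨ ¬ (c : ℝ) / q = c' / q' := by
          by_contra hcon
          push Not at hcon
          obtain ⟨h1, h2⟩ := hcon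
          rw [← h2, h1] at happ3
          have h3 : (q : ℝ) * β / (2 * q) = β / 2 := by field_simp
          rw [h3] at happ3
          linarith
        have hsep := c04_sep c c' q q' hq1 hq'1 hcop hcop' hne
        have htri : |(c : ℝ) / q - c' / q'| ≤ β + q * β / (2 * q') := by
          have h1 : (c : ℝ) / q - c' / q' = (t - c' / q') - (t - c / q) := by ring
          rw [h1]
          refine (abs_sub _ _).trans ?_
          linarith
        have hlow : 1 ≤ 2 * (q' * (q * β)) := by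
          have h1 : 1 / ((q : ℝ) * q') ≤ β + q * β / (2 * q') := hsep.trans htri
          have h2 : 1 / ((q : ℝ) * q') * (q * q') ≤ (β + q * β / (2 * q')) * (q * q') :=
            mul_le_mul_of_nonneg_right h1 (by positivity)
          have h3 : 1 / ((q : ℝ) * q') * (q * q') = 1 := by field_simp
          have h4 : (β + q * β / (2 * q')) * (q * q') = q' * (q * β) + q * (q * β) / 2 := by
            field_simp
          rw [h3, h4] at h2
          have h5 : (q : ℝ) * (q * β) ≤ 1 / 2 := by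
            calc (q : ℝ) * (q * β) ≤ K * (K / N) := mul_le_mul hqKr hβ hqb.le hK0.le
              _ = (K : ℝ) ^ 2 / N := by ring
              _ ≤ 1 / 2 := by
                  rw [div_le_div_iff₀ hN0 (by norm_num)]
                  linarith
          linarith
        have hq'low : (N : ℝ) ≤ q' * (2 * K) := by
          have h1 : (q' : ℝ) * (q * β) ≤ q' * (K / N) := mul_le_mul_of_nonneg_left hβ hq'0.le
          have h2 : 1 ≤ 2 * ((q' : ℝ) * (K / N)) := by linarith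
          have h3 : 2 * ((q' : ℝ) * (K / N)) = q' * (2 * K) / N := by ring
          rw [h3, le_div_iff₀ hN0, one_mul] at h2
          exact h2
        have hq'up : (q' : ℝ) * (q * β) ≤ 3 := by
          have h1 : (q' : ℝ) ≤ 2 / ((q : ℝ) * β) + 1 := by linarith
          have h2 : (q' : ℝ) * (q * β) ≤ (2 / ((q : ℝ) * β) + 1) * (q * β) :=
            mul_le_mul_of_nonneg_right h1 hqb.le
          have h3 : (2 / ((q : ℝ) * β) + 1) * (q * β) = 2 + q * β := by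
            field_simp
          rw [h3] at h2
          linarith
        have happ4 : |t - c' / q'| ≤ 1 / (q' : ℝ) ^ 2 := by
          refine happ'.trans ?_
          apply one_div_le_one_div_of_le (by positivity)
          nlinarith
        have h3 := hv N (by omega) t c' q' hq'1 hcop' happ4
        -- the three terms
        have hNKs : ((N : ℝ) / Real.sqrt K) ^ 2 = N ^ 2 / K := by
          rw [div_pow, sq (Real.sqrt K), hsqK]
        have t1 : (N : ℝ) / Real.sqrt q' ≤ N / Real.sqrt K := by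
          apply div_le_div_of_nonneg_left hN0.le hsq
          apply Real.sqrt_le_sqrt
          by_contra hcon
          push Not at hcon
          have h1 : (q' : ℝ) * (2 * K) < K * (2 * K) := mul_lt_mul_of_pos_right hcon (by positivity)
          have h2 : (K : ℝ) * (2 * K) = 2 * (K : ℝ) ^ 2 := by ring
          linarith
        have t3 : Real.sqrt (N * q') * τ ^ 2 ≤ 2 * (N / Real.sqrt K) := by
          have h1 : Real.sqrt (N * q') * τ ^ 2 = Real.sqrt (N * q' * τ ^ 4) := by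
            rw [Real.sqrt_mul (by positivity) (τ ^ 4)]
            congr 1
            rw [show τ ^ 4 = (τ ^ 2) ^ 2 by ring, Real.sqrt_sq (by positivity)]
          have h5 : (2 * ((N : ℝ) / Real.sqrt K)) ^ 2 = 2 ^ 2 * (N ^ 2 / K) := by
            rw [mul_pow, hNKs]
          rw [h1, Real.sqrt_le_left (by positivity), h5]
          have h2 : (q' : ℝ) * τ ^ 4 ≤ 3 * (N / K) := by
            have h4 : τ ^ 4 ≤ τ := by
              have : τ ^ 3 ≤ 1 := pow_le_one₀ hτ0 hτ1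
              calc τ ^ 4 = τ ^ 3 * τ := by ring
                _ ≤ 1 * τ := mul_le_mul_of_nonneg_right this hτ0
                _ = τ := one_mul _
            calc (q' : ℝ) * τ ^ 4 ≤ q' * τ := mul_le_mul_of_nonneg_left h4 hq'0.le
              _ = (lw N K : ℝ) * (q' * (q * β)) := by rw [hτe]; ring
              _ ≤ (N / K) * 3 := mul_le_mul hlwN hq'up (by positivity) (by positivity)
              _ = 3 * (N / K) := by ring
          calc (N : ℝ) * q' * τ ^ 4 = N * (q' * τ ^ 4) := by ring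
            _ ≤ (N : ℝ) * (3 * ((N : ℝ) / K)) := mul_le_mul_of_nonneg_left h2 hN0.le
            _ = 3 * ((N : ℝ) ^ 2 / K) := by ring
            _ ≤ 2 ^ 2 * ((N : ℝ) ^ 2 / K) := by
                apply mul_le_mul_of_nonneg_right (by norm_num) (by positivity)
        have hτ2 : τ ^ 2 ≤ 1 := pow_le_one₀ hτ0 hτ1
        have hτ20 : 0 ≤ τ ^ 2 := by positivity
        calc ‖Ps N t‖ * τ ^ 2 ≤ (C * (N / Real.sqrt q' + (N : ℝ) ^ (4 / 5 : ℝ) +
              Real.sqrt (N * q')) * (1 + Real.log N) ^ 6) * τ ^ 2 :=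
              mul_le_mul_of_nonneg_right h3 hτ20
          _ = C * ((N / Real.sqrt q' + (N : ℝ) ^ (4 / 5 : ℝ)) * τ ^ 2 +
              Real.sqrt (N * q') * τ ^ 2) * (1 + Real.log N) ^ 6 := by ring
          _ ≤ C * ((N / Real.sqrt K + N / Real.sqrt K) * 1 + 2 * (N / Real.sqrt K)) *
              (1 + Real.log N) ^ 6 := by
              apply mul_le_mul_of_nonneg_right _ hL60
              apply mul_le_mul_of_nonneg_left _ hC.le
              apply add_le_add _ t3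
              exact mul_le_mul (add_le_add t1 h45) hτ2 hτ20 (by positivity)
          _ = 4 * C * (N / Real.sqrt K) * (1 + Real.log N) ^ 6 := by ring
          _ ≤ 5 * C * (N / Real.sqrt K) * (1 + Real.log N) ^ 6 := by
              apply mul_le_mul_of_nonneg_right _ hL60
              apply mul_le_mul_of_nonneg_right _ hNK.le
              linarith
    calc ‖Ps N t‖ * |1 - Wt N K t| ≤ ‖Ps N t‖ *
          (100 * (((q * lw N K : ℕ) : ℝ) * |t - c / q|) ^ 2 + (N : ℝ) ^ (-(3 / 4) : ℝ)) :=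
          mul_le_mul_of_nonneg_left hw1 (norm_nonneg _)
      _ = 100 * (‖Ps N t‖ * (((q * lw N K : ℕ) : ℝ) * |t - c / q|) ^ 2) +
          ‖Ps N t‖ * (N : ℝ) ^ (-(3 / 4) : ℝ) := by ring
      _ ≤ 100 * (5 * C * (N / Real.sqrt K) * (1 + Real.log N) ^ 6) +
          N / Real.sqrt K * (1 + Real.log N) ^ 6 :=
          add_le_add (mul_le_mul_of_nonneg_left hlarge (by norm_num)) hsmall
      _ = (500 * C + 1) * (N / Real.sqrt K) * (1 + Real.log N) ^ 6 := by ring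

end Pool.Agent.AAX

namespace Pool.Agent.AAX

/-- alias -/
theorem fh_sup : type_of% @fh_sup_pr := @fh_sup_pr

end Pool.Agent.AAX

/-! ### C05 -/

/-!
AAX, block C05: the decomposition, trigonometric polynomials, mean square of `fh + gh`
-/

namespace Pool.Agent.AAX

open Finset MeasureTheory Pool.Agent.Var35 Pool.Agent.Var73 Pool.Agent.PV Pool.Agent.FGP Pool.Agent.FGA
open scoped ArithmeticFunction ArithmeticFunction.Moebius

/-- C05a. `Fh = Ps * Wt - gh`. -/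
theorem decomp_pr (N K : ℕ) (t : ℝ) : Ps N t = fh N K t + gh N K t + Fh N K t := by
  have h1 : Fh N K t = ((Wt N K t : ℝ) : ℂ) * Ps N t - gh N K t := by
    unfold Fh gh Wt Xc
    push_cast
    rw [sum_mul, ← sum_sub_distrib]
    refine sum_congr rfl fun r _ => ?_
    rw [sum_mul, ← sum_sub_distrib]
    refine sum_congr rfl fun c _ => ?_
    ring
  rw [h1]
  unfold fh
  push_cast
  ring

theorem c05_Wr (N K r : ℕ) (h1 : 1 ≤ lw N K) (hr : r ∈ Icc 1 K) (s : ℝ) :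
    TP (-(4 * ((K * lw N K : ℕ) : ℤ))) (4 * ((K * lw N K : ℕ) : ℤ))
      (fun t => ((Wr N K r (t - s) : ℝ) : ℂ)) := by
  rw [mem_Icc] at hr
  have h2 : 1 ≤ r * lw N K := Nat.mul_pos hr.1 h1
  have h3 : 4 * (r * lw N K) ≤ 4 * (K * lw N K) :=
    Nat.mul_le_mul_left 4 (Nat.mul_le_mul_right _ hr.2)
  have h4 : TP (-(4 * ((K * lw N K : ℕ) : ℤ))) (4 * ((K * lw N K : ℕ) : ℤ))
      (fun t => ((Wr N K r t : ℝ) : ℂ)) := by
    refine ⟨fun m => ((vr N K r m : ℝ) : ℂ), fun t => ?_⟩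
    have h5 := (vr_facts N K r h2).2.2.2 (4 * (K * lw N K)) t h3
    dsimp only
    rw [h5]
    push_cast
    rfl
  exact p10_shift h4 s

theorem c05_Wt (N K : ℕ) (h1 : 1 ≤ lw N K) :
    TP (-(4 * ((K * lw N K : ℕ) : ℤ))) (4 * ((K * lw N K : ℕ) : ℤ))
      (fun t => ((1 - Wt N K t : ℝ) : ℂ)) := by
  have h2 : TP (-(4 * ((K * lw N K : ℕ) : ℤ))) (4 * ((K * lw N K : ℕ) : ℤ))
      (fun t => ((Wt N K t : ℝ) : ℂ)) := by
    refine p10_congr (p10_sum (Icc 1 K) (P := fun r t => ∑ c ∈ Cd r,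
      ((Wr N K r (t - c / r) : ℝ) : ℂ)) fun r hr => p10_sum _ fun c _ => c05_Wr N K r h1 hr _)
      fun t => ?_
    unfold Wt
    rw [Complex.ofReal_sum]
    refine sum_congr rfl fun r _ => ?_
    rw [Complex.ofReal_sum]
  have h3 := p10_add (p10_single (A := -(4 * ((K * lw N K : ℕ) : ℤ)))
    (B := 4 * ((K * lw N K : ℕ) : ℤ)) (k := 0) (by omega) (by omega) 1) (p10_const h2 (-1))
  refine p10_congr h3 fun t => ?_
  have h4 : (((0 : ℤ) : ℝ)) * t = 0 := by simp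
  rw [h4, e_zero]
  push_cast
  ring

theorem c05_fh (N K : ℕ) (h1 : 1 ≤ lw N K) :
    TP (1 - 4 * ((K * lw N K : ℕ) : ℤ)) (N + 4 * ((K * lw N K : ℕ) : ℤ)) (fh N K) := by
  have h2 := p10_mul (p10_Ps N) (c05_Wt N K h1)
  exact p10_mono (p10_congr h2 fun t => rfl) (by omega) (by omega)

theorem c05_gh (N K : ℕ) (h1 : 1 ≤ lw N K) :
    TP (1 - 4 * ((K * lw N K : ℕ) : ℤ)) (N + 4 * ((K * lw N K : ℕ) : ℤ)) (gh N K) := by
  refine p10_congr (p10_sum (Icc 1 K) (P := fun r t => ∑ c ∈ Cd r,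
    ((mr r : ℝ) : ℂ) * (((Wr N K r (t - c / r) : ℝ) : ℂ) * In N (t - c / r)))
    fun r hr => p10_sum _ fun c _ => ?_) fun t => ?_
  · refine p10_const ?_ _
    exact p10_mono (p10_mul (c05_Wr N K r h1 hr _) (p10_shift (p10_In N) _)) (by omega) (by omega)
  · unfold gh
    refine sum_congr rfl fun r _ => sum_congr rfl fun c _ => ?_
    push_cast
    ring

theorem c05_Fh (N K : ℕ) (h1 : 1 ≤ lw N K) :
    TP (1 - 4 * ((K * lw N K : ℕ) : ℤ)) (N + 4 * ((K * lw N K : ℕ) : ℤ)) (Fh N K) := by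
  have h0 : ∀ (r c : ℕ), TP 1 N (fun t => Xc N c r t) := by
    intro r c
    refine p10_congr (p10_add (p10_Ps N) (p10_const (p10_shift (p10_In N) (c / r))
      (-((mr r : ℝ) : ℂ)))) fun t => ?_
    unfold Xc
    ring
  refine p10_congr (p10_sum (Icc 1 K) (P := fun r t => ∑ c ∈ Cd r,
    (((Wr N K r (t - c / r) : ℝ) : ℂ) * Xc N c r t))
    fun r hr => p10_sum _ fun c _ => ?_) fun t => rfl
  exact p10_mono (p10_mul (c05_Wr N K r h1 hr _) (h0 r c)) (by omega) (by omega)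

/-- C05b. From `vr_facts` (model FGP/P10). -/
theorem tp_facts_pr (N K : ℕ) (h1 : 1 ≤ lw N K) :
    TP (1 - 4 * ((K * lw N K : ℕ) : ℤ)) (N + 4 * ((K * lw N K : ℕ) : ℤ)) (fh N K) ∧
    TP (1 - 4 * ((K * lw N K : ℕ) : ℤ)) (N + 4 * ((K * lw N K : ℕ) : ℤ)) (gh N K) ∧
    TP (1 - 4 * ((K * lw N K : ℕ) : ℤ)) (N + 4 * ((K * lw N K : ℕ) : ℤ)) (Fh N K) :=
  ⟨c05_fh N K h1, c05_gh N K h1, c05_Fh N K h1⟩

/-- C05c. `fh + gh = Ps - Fh`, `ms M (Ps N) = A2 N`, Cauchy. -/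
theorem ms_fg_pr (N K M : ℕ) (hN : 1 ≤ N) (hM : Good (2 * N) M) :
    |ms M (fun t => fh N K t + gh N K t) - A2 N| ≤
      2 * Real.sqrt (A2 N * ms M (Fh N K)) + ms M (Fh N K) := by
  have hM4 : 4 * N < M := by have := hM.1; omega
  have hP : ms M (Ps N) = A2 N := CSA_pars N M hM4
  have hdec : ∀ t, fh N K t + gh N K t = Ps N t - Fh N K t := fun t => by
    rw [decomp_pr N K t]; ring
  have key : |ms M (fun t => fh N K t + gh N K t) - ms M (Ps N)| ≤
      2 * mean M (range M) (fun t => ‖Ps N t‖ * ‖Fh N K t‖) + ms M (Fh N K) := by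
    simp_rw [hdec]
    unfold ms mean
    rw [← mul_sub, ← sum_sub_distrib, abs_mul, abs_of_nonneg (by positivity : (0:ℝ) ≤ 1 / (M : ℝ))]
    calc 1 / (M : ℝ) * |∑ j ∈ range M, (‖Ps N (j / M) - Fh N K (j / M)‖ ^ 2 - ‖Ps N (j / M)‖ ^ 2)|
        ≤ 1 / (M : ℝ) * ∑ j ∈ range M, (2 * (‖Ps N (j / M)‖ * ‖Fh N K (j / M)‖) +
          ‖Fh N K (j / M)‖ ^ 2) := by
          refine mul_le_mul_of_nonneg_left ?_ (by positivity)
          exact (abs_sum_le_sum_abs _ _).trans (sum_le_sum fun j _ => p16_pt _ _)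
      _ = _ := by
          rw [sum_add_distrib, ← mul_sum]
          ring
  rw [← hP]
  refine key.trans ?_
  have hcs := p16_cs M (Ps N) (Fh N K)
  linarith

end Pool.Agent.AAX

namespace Pool.Agent.AAX

/-- alias -/
theorem decomp : type_of% @decomp_pr := @decomp_pr

/-- alias -/
theorem tp_facts : type_of% @tp_facts_pr := @tp_facts_pr

/-- alias -/
theorem ms_fg : type_of% @ms_fg_pr := @ms_fg_pr

end Pool.Agent.AAX

/-! ### C06 -/

/-! AAX block C06: sampling with the divisor bound. -/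

namespace Pool.Agent.AAX

open Finset MeasureTheory Pool.Agent.Var35 Pool.Agent.Var73 Pool.Agent.PV Pool.Agent.FGP Pool.Agent.FGA
open scoped ArithmeticFunction ArithmeticFunction.Moebius

/-- the sum over `1 ≤ |h| ≤ N'` of the squares of the number of divisors in `(Y, 4Y]` -/
theorem c06_div (N' Y : ℕ) (hN : 1 ≤ N') :
    ∑ h ∈ (Icc (-(N' : ℤ)) N').erase 0,
      (((MQ Y).filter (fun Q : ℕ => (Q : ℤ) ∣ h)).card : ℝ) ^ 2 ≤
      2 * (N' * (1 + Real.log N') ^ 3) := by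
  classical
  have h1 : ∀ h ∈ (Icc (-(N' : ℤ)) N').erase 0,
      (((MQ Y).filter (fun Q : ℕ => (Q : ℤ) ∣ h)).card : ℝ) ^ 2 ≤
        ((h.natAbs.divisors.card : ℕ) : ℝ) ^ 2 := by
    intro h hh
    rw [mem_erase] at hh
    have h2 : ((MQ Y).filter (fun Q : ℕ => (Q : ℤ) ∣ h)) ⊆ h.natAbs.divisors := by
      intro Q hQ
      rw [mem_filter] at hQ
      rw [Nat.mem_divisors]
      exact ⟨by simpa using Int.natAbs_dvd_natAbs.2 hQ.2, by simpa using hh.1⟩
    have h3 := card_le_card h2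
    have h4 : (((MQ Y).filter (fun Q : ℕ => (Q : ℤ) ∣ h)).card : ℝ) ≤
        ((h.natAbs.divisors.card : ℕ) : ℝ) := by exact_mod_cast h3
    exact pow_le_pow_left₀ (Nat.cast_nonneg _) h4 2
  refine (sum_le_sum h1).trans ?_
  have h5 : ∑ h ∈ (Icc (-(N' : ℤ)) N').erase 0, ((h.natAbs.divisors.card : ℕ) : ℝ) ^ 2 =
      ∑ n ∈ Icc 1 N', ∑ h ∈ ((Icc (-(N' : ℤ)) N').erase 0).filter (fun h => h.natAbs = n),
        ((h.natAbs.divisors.card : ℕ) : ℝ) ^ 2 := by
    refine (sum_fiberwise_of_maps_to (fun h hh => ?_) _).symm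
    rw [mem_erase, mem_Icc] at hh
    rw [mem_Icc]
    omega
  rw [h5]
  have h6 : ∀ n ∈ Icc 1 N',
      ∑ h ∈ ((Icc (-(N' : ℤ)) N').erase 0).filter (fun h => h.natAbs = n),
        ((h.natAbs.divisors.card : ℕ) : ℝ) ^ 2 ≤ 2 * ((n.divisors.card : ℕ) : ℝ) ^ 2 := by
    intro n _
    have h7 : ∀ h ∈ ((Icc (-(N' : ℤ)) N').erase 0).filter (fun h => h.natAbs = n),
        ((h.natAbs.divisors.card : ℕ) : ℝ) ^ 2 = ((n.divisors.card : ℕ) : ℝ) ^ 2 := by
      intro h hh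
      rw [(mem_filter.1 hh).2]
    rw [sum_congr rfl h7, sum_const, nsmul_eq_mul]
    refine mul_le_mul_of_nonneg_right ?_ (by positivity)
    have h8 : ((Icc (-(N' : ℤ)) N').erase 0).filter (fun h => h.natAbs = n) ⊆
        {(n : ℤ), -(n : ℤ)} := by
      intro h hh
      have := (mem_filter.1 hh).2
      simp only [mem_insert, mem_singleton]
      omega
    exact_mod_cast (card_le_card h8).trans card_le_two
  refine (sum_le_sum h6).trans ?_
  rw [← mul_sum]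
  exact mul_le_mul_of_nonneg_left (sum_card_div_sq N') (by norm_num)

theorem sampling_pr : ∃ C : ℝ, 0 < C ∧ ∀ (N' Y M : ℕ) (Φ : ℝ → ℝ), 1 ≤ N' → 1 ≤ Y → 4 * N' < M →
    TP (-(N' : ℤ)) N' (fun t => (Φ t : ℂ)) →
    ∑ Q ∈ MQ Y, |(1 / (Q : ℝ)) * ∑ b ∈ range Q, Φ (b / Q) - mean M (range M) Φ| ≤
      C * Real.sqrt (N' * (1 + Real.log N') ^ 3) *
        Real.sqrt (mean M (range M) (fun t => Φ t ^ 2)) := by
  classical
  refine ⟨Real.sqrt 2, by positivity, ?_⟩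
  intro N' Y M Φ hN hY hM hTP
  obtain ⟨c, hc⟩ := hTP
  have hM0 : 0 < M := by omega
  set S : Finset ℤ := Icc (-(N' : ℤ)) N' with hS
  set H : Finset ℤ := S.erase 0 with hH
  have h0S : (0 : ℤ) ∈ S := by
    rw [hS, mem_Icc]
    omega
  have hmean : ((mean M (range M) Φ : ℝ) : ℂ) = c 0 := by
    have h1 := A03_avg (N' := N') (c := c) M hM0
    unfold mean
    rw [Complex.ofReal_mul, Complex.ofReal_sum]
    have h2 : ∀ j ∈ range M, ((Φ ((j : ℝ) / M) : ℝ) : ℂ) = ∑ h ∈ S, c h * e (h * ((j : ℝ) / M)) :=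
      fun j _ => hc _
    rw [sum_congr rfl h2]
    have h3 : (((1 / (M : ℝ) : ℝ)) : ℂ) = 1 / (M : ℂ) := by push_cast; rfl
    rw [h3, h1]
    have h4 : S.filter (fun h : ℤ => (M : ℤ) ∣ h) = {0} := by
      ext h
      rw [mem_filter, mem_singleton, hS, mem_Icc]
      constructor
      · rintro ⟨h5, h6⟩
        exact Int.eq_zero_of_abs_lt_dvd h6 (by rw [abs_lt]; omega)
      · rintro rfl
        exact ⟨by omega, dvd_zero _⟩
    rw [h4, sum_singleton]
  have hQ : ∀ Q ∈ MQ Y, |(1 / (Q : ℝ)) * ∑ b ∈ range Q, Φ (b / Q) - mean M (range M) Φ| ≤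
      ∑ h ∈ H.filter (fun h : ℤ => (Q : ℤ) ∣ h), ‖c h‖ := by
    intro Q hQ
    have hQ0 : 0 < Q := by
      rw [MQ, mem_Ioc] at hQ
      omega
    have h1 := A03_avg (N' := N') (c := c) Q hQ0
    have h2 : (((1 / (Q : ℝ)) * ∑ b ∈ range Q, Φ (b / Q) - mean M (range M) Φ : ℝ) : ℂ) =
        ∑ h ∈ H.filter (fun h : ℤ => (Q : ℤ) ∣ h), c h := by
      rw [Complex.ofReal_sub, Complex.ofReal_mul, Complex.ofReal_sum, hmean]
      have h3 : ∀ b ∈ range Q, ((Φ ((b : ℝ) / Q) : ℝ) : ℂ) =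
          ∑ h ∈ S, c h * e (h * ((b : ℝ) / Q)) := fun b _ => hc _
      have h4 : (((1 / (Q : ℝ) : ℝ)) : ℂ) = 1 / (Q : ℂ) := by push_cast; rfl
      rw [sum_congr rfl h3, h4, h1, hH, filter_erase]
      rw [← add_sum_erase _ _ (mem_filter.2 ⟨h0S, dvd_zero _⟩)]
      ring
    rw [← Real.norm_eq_abs, ← Complex.norm_real, h2]
    exact norm_sum_le _ _
  set d : ℤ → ℝ := fun h => (((MQ Y).filter (fun Q : ℕ => (Q : ℤ) ∣ h)).card : ℝ) with hd
  have h1 : ∑ Q ∈ MQ Y, ∑ h ∈ H.filter (fun h : ℤ => (Q : ℤ) ∣ h), ‖c h‖ =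
      ∑ h ∈ H, d h * ‖c h‖ := by
    simp only [sum_filter]
    rw [sum_comm]
    refine sum_congr rfl fun h _ => ?_
    rw [← sum_filter, sum_const, nsmul_eq_mul]
  have hl : 0 ≤ 1 + Real.log N' := by have := Real.log_natCast_nonneg N'; linarith
  have hsd2 : ∑ h ∈ H, d h ^ 2 ≤ 2 * (N' * (1 + Real.log N') ^ 3) := c06_div N' Y hN
  have h3 : (∑ h ∈ H, d h * ‖c h‖) ^ 2 ≤ (∑ h ∈ H, d h ^ 2) * ∑ h ∈ H, ‖c h‖ ^ 2 :=
    sum_mul_sq_le_sq_mul_sq H d (fun h => ‖c h‖)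
  have h5 : ∑ h ∈ H, ‖c h‖ ^ 2 ≤ mean M (range M) (fun t => Φ t ^ 2) := by
    rw [A03_pars hM hc]
    exact sum_le_sum_of_subset_of_nonneg (erase_subset _ _) fun _ _ _ => by positivity
  have h6 : ∑ h ∈ H, d h * ‖c h‖ ≤ Real.sqrt (2 * (N' * (1 + Real.log N') ^ 3)) *
      Real.sqrt (mean M (range M) (fun t => Φ t ^ 2)) := by
    rw [← Real.sqrt_mul (by positivity)]
    refine Real.le_sqrt_of_sq_le ?_
    exact h3.trans (mul_le_mul hsd2 h5 (sum_nonneg fun _ _ => by positivity) (by positivity))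
  rw [← Real.sqrt_mul (by norm_num : (0 : ℝ) ≤ 2)]
  exact (sum_le_sum hQ).trans (h1.le.trans h6)

end Pool.Agent.AAX

namespace Pool.Agent.AAX

/-- alias -/
theorem sampling : type_of% @sampling_pr := @sampling_pr

end Pool.Agent.AAX

/-! ### C07 -/

namespace Pool.Agent.AAX

open Finset MeasureTheory Pool.Agent.Var35 Pool.Agent.Var73 Pool.Agent.PV Pool.Agent.FGP Pool.Agent.FGA
open scoped ArithmeticFunction ArithmeticFunction.Moebius

lemma c07_add (A B : ℤ) (P R : ℝ → ℂ) (hP : TP A B P) (hR : TP A B R) :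
    TP A B (fun t => P t + R t) := by
  obtain ⟨c, hc⟩ := hP
  obtain ⟨d, hd⟩ := hR
  refine ⟨fun n => c n + d n, fun t => ?_⟩
  simp only [hc, hd]
  rw [← sum_add_distrib]
  exact sum_congr rfl fun n _ => by ring

lemma c07_sub (A B : ℤ) (P R : ℝ → ℂ) (hP : TP A B P) (hR : TP A B R) :
    TP A B (fun t => P t - R t) := by
  obtain ⟨c, hc⟩ := hP
  obtain ⟨d, hd⟩ := hR
  refine ⟨fun n => c n - d n, fun t => ?_⟩
  simp only [hc, hd]
  rw [← sum_sub_distrib]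
  exact sum_congr rfl fun n _ => by ring

lemma c07_sq (A B : ℤ) (N' : ℕ) (P : ℝ → ℂ) (h : TP A B P) (hN : B - A ≤ N') :
    TP (-(N' : ℤ)) N' (fun t => ((‖P t‖ ^ 2 : ℝ) : ℂ)) := by
  obtain ⟨c, hc⟩ := h
  refine ⟨fun k => ∑ n ∈ Icc A B, ∑ m ∈ Icc A B,
    if n - m = k then c n * (starRingEnd ℂ) (c m) else 0, fun t => ?_⟩
  simp only []
  rw [← Complex.normSq_eq_norm_sq, ← Complex.mul_conj, hc, map_sum, sum_mul_sum]
  have h1 : ∀ k ∈ Icc (-(N' : ℤ)) (N' : ℤ), (∑ n ∈ Icc A B, ∑ m ∈ Icc A B,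
      if n - m = k then c n * (starRingEnd ℂ) (c m) else 0) * e (k * t) =
      ∑ n ∈ Icc A B, ∑ m ∈ Icc A B,
        if n - m = k then c n * (starRingEnd ℂ) (c m) * e (k * t) else 0 := by
    intro k _
    rw [sum_mul]
    refine sum_congr rfl fun n _ => ?_
    rw [sum_mul]
    refine sum_congr rfl fun m _ => ?_
    split_ifs
    · rfl
    · rw [zero_mul]
  refine Eq.trans ?_ (sum_congr rfl h1).symm
  refine Eq.trans ?_ sum_comm
  refine sum_congr rfl fun n hn => ?_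
  refine Eq.trans ?_ sum_comm
  refine sum_congr rfl fun m hm => ?_
  rw [mem_Icc] at hn hm
  rw [sum_ite_eq, if_pos (by rw [mem_Icc]; omega)]
  rw [map_mul, ← e_neg]
  have : c n * e (n * t) * ((starRingEnd ℂ) (c m) * e (-(m * t))) =
      c n * (starRingEnd ℂ) (c m) * (e (n * t) * e (-(m * t))) := by ring
  rw [this, ← e_add]
  congr 2
  push_cast; ring

lemma c07_mean_mono (M : ℕ) (F G : ℝ → ℝ) (h : ∀ j ∈ range M, F (j / M) ≤ G (j / M)) :
    mean M (range M) F ≤ mean M (range M) G := by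
  unfold mean
  exact mul_le_mul_of_nonneg_left (sum_le_sum h) (by positivity)

lemma c07_pt (a b : ℂ) (S : ℝ) (hS : ‖a‖ ≤ S) :
    (‖a + b‖ ^ 2 - ‖b‖ ^ 2) ^ 2 ≤ S ^ 2 * (2 * ‖a‖ ^ 2 + 8 * ‖b‖ ^ 2) := by
  have ha := norm_nonneg a
  have hb := norm_nonneg b
  have h1 : |‖a + b‖ - ‖b‖| ≤ ‖a‖ := by
    have := abs_norm_sub_norm_le (a + b) b
    rwa [add_sub_cancel_right] at this
  have h3 : ‖a + b‖ ≤ ‖a‖ + ‖b‖ := norm_add_le a b
  have h4 : ‖a + b‖ ^ 2 - ‖b‖ ^ 2 = (‖a + b‖ - ‖b‖) * (‖a + b‖ + ‖b‖) := by ring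
  have h5 : |‖a + b‖ ^ 2 - ‖b‖ ^ 2| ≤ S * (‖a‖ + 2 * ‖b‖) := by
    rw [h4, abs_mul, abs_of_nonneg (by positivity : (0 : ℝ) ≤ ‖a + b‖ + ‖b‖)]
    exact mul_le_mul (h1.trans hS) (by linarith) (by positivity) (ha.trans hS)
  have h6 : (‖a + b‖ ^ 2 - ‖b‖ ^ 2) ^ 2 ≤ (S * (‖a‖ + 2 * ‖b‖)) ^ 2 := by
    rw [← sq_abs]
    exact pow_le_pow_left₀ (abs_nonneg _) h5 2
  refine h6.trans ?_
  rw [mul_pow]
  refine mul_le_mul_of_nonneg_left ?_ (sq_nonneg S)
  nlinarith [sq_nonneg (‖a‖ - 2 * ‖b‖)]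

lemma c07_norm3 (a b c : ℂ) : ‖a - b - c‖ ^ 2 ≤ 3 * (‖a‖ ^ 2 + ‖b‖ ^ 2 + ‖c‖ ^ 2) := by
  have h1 : ‖a - b - c‖ ≤ ‖a‖ + ‖b‖ + ‖c‖ :=
    (norm_sub_le _ _).trans (by linarith [norm_sub_le a b])
  have h2 : ‖a - b - c‖ ^ 2 ≤ (‖a‖ + ‖b‖ + ‖c‖) ^ 2 := pow_le_pow_left₀ (norm_nonneg _) h1 2
  nlinarith [sq_nonneg (‖a‖ - ‖b‖), sq_nonneg (‖a‖ - ‖c‖), sq_nonneg (‖b‖ - ‖c‖)]

theorem off_diag_pr : ∃ C : ℝ, 0 < C ∧ ∃ N0 : ℕ, ∀ N ≥ N0, ∀ K, Rg K N → ∀ M, Good (2 * N) M →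
    ∀ Y : ℕ, 1 ≤ Y → ms M (Fh N K) ≤ N →
    ∑ Q ∈ MQ Y, |(VA (fun t => fh N K t + gh N K t) Q - VA (gh N K) Q) -
        (ms M (fun t => fh N K t + gh N K t) - ms M (gh N K))| ≤
      C * ((N : ℝ) ^ 2 / Real.sqrt K) * (1 + Real.log N) ^ 9 := by
  obtain ⟨C3, hC3, h03⟩ := sampling
  obtain ⟨C5, hC5, N5, hK5⟩ := fh_sup
  obtain ⟨N4, hK4⟩ := wt_facts
  obtain ⟨N2, hK2⟩ := lw_facts
  obtain ⟨N1, hN1⟩ := a2_asym 1 one_pos
  refine ⟨C3 * 40 * C5, by positivity, max (max N5 N4) (max (max N2 N1) 10), ?_⟩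
  intro N hN K hR M hG Y hY hmF
  have hNa : N5 ≤ N := le_trans (le_trans (le_max_left _ _) (le_max_left _ _)) hN
  have hNb : N4 ≤ N := le_trans (le_trans (le_max_right _ _) (le_max_left _ _)) hN
  have hNc : N2 ≤ N :=
    le_trans (le_trans (le_trans (le_max_left _ _) (le_max_left _ _)) (le_max_right _ _)) hN
  have hNd : N1 ≤ N :=
    le_trans (le_trans (le_trans (le_max_right _ _) (le_max_left _ _)) (le_max_right _ _)) hN
  have hN10 : 10 ≤ N := le_trans (le_trans (le_max_right _ _) (le_max_right _ _)) hN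
  have hNr : (0 : ℝ) < N := by positivity
  set L : ℝ := Real.log N with hL
  have hL0 : 0 ≤ L := Real.log_nonneg (by exact_mod_cast (by omega : 1 ≤ N))
  have hM8 : 4 * (2 * N) < M := hG.1
  have hA2 : A2 N ≤ 2 * (N * L) := by
    have := hN1 N hNd
    rw [abs_le] at this
    linarith [this.2]
  have hP : ms M (Ps N) = A2 N := CSA_pars N M (by omega)
  obtain ⟨hlw1, hlw16, -, -, -⟩ := hK2 N hNc K hR
  obtain ⟨hW, -⟩ := hK4 N hNb K hR
  have hsup := hK5 N hNa K hR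
  obtain ⟨hf, hg, -⟩ := tp_facts N K hlw1
  set S : ℝ := C5 * (N / Real.sqrt K) * (1 + L) ^ 6 with hS
  have hS0 : 0 ≤ S := by positivity
  -- mean squares
  have hfP : ∀ t, ‖fh N K t‖ ≤ ‖Ps N t‖ := by
    intro t
    unfold fh
    rw [norm_mul, Complex.norm_real, Real.norm_eq_abs]
    have h1 : |1 - Wt N K t| ≤ 1 := by
      rw [abs_le]; constructor <;> linarith [(hW t).1, (hW t).2]
    exact mul_le_of_le_one_right (norm_nonneg _) h1
  have hmf : ms M (fh N K) ≤ 2 * (N * L) := by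
    refine le_trans ?_ hA2
    rw [← hP]
    exact c07_mean_mono M _ _ fun j _ => pow_le_pow_left₀ (norm_nonneg _) (hfP _) 2
  have hmg : ms M (gh N K) ≤ 12 * (N * L) + 3 * N := by
    have h1 : ms M (gh N K) ≤ 3 * (ms M (Ps N) + ms M (fh N K) + ms M (Fh N K)) := by
      have h2 : ms M (gh N K) ≤ mean M (range M)
          (fun t => 3 * (‖Ps N t‖ ^ 2 + ‖fh N K t‖ ^ 2 + ‖Fh N K t‖ ^ 2)) := by
        refine c07_mean_mono M _ _ fun j _ => ?_
        have h3 : gh N K ((j : ℝ) / M) = Ps N (j / M) - fh N K (j / M) - Fh N K (j / M) := by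
          rw [decomp N K]; ring
        rw [h3]
        exact c07_norm3 _ _ _
      refine h2.trans (le_of_eq ?_)
      unfold ms mean
      rw [← mul_sum, sum_add_distrib, sum_add_distrib]
      ring
    rw [hP] at h1
    linarith
  -- the polynomial
  set Φ : ℝ → ℝ := fun t => ‖fh N K t + gh N K t‖ ^ 2 - ‖gh N K t‖ ^ 2 with hΦ
  have hTP : TP (-((2 * N : ℕ) : ℤ)) ((2 * N : ℕ) : ℤ) (fun t => (Φ t : ℂ)) := by
    have h1 := c07_sq _ _ (2 * N) _ (c07_add _ _ _ _ hf hg) (by omega)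
    have h2 := c07_sq _ _ (2 * N) _ hg (by omega)
    have h3 := c07_sub _ _ _ _ h1 h2
    have h4 : (fun t => (Φ t : ℂ)) = fun t => (((‖fh N K t + gh N K t‖ ^ 2 : ℝ) : ℂ) -
        ((‖gh N K t‖ ^ 2 : ℝ) : ℂ)) := by
      funext t
      rw [hΦ]
      push_cast
      rfl
    rw [h4]
    exact h3
  have h12 := h03 (2 * N) Y M Φ (by omega) hY hM8 hTP
  have hlin : ∀ Q : ℕ, (VA (fun t => fh N K t + gh N K t) Q - VA (gh N K) Q) -
      (ms M (fun t => fh N K t + gh N K t) - ms M (gh N K)) =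
      (1 / (Q : ℝ)) * ∑ b ∈ range Q, Φ (b / Q) - mean M (range M) Φ := by
    intro Q
    unfold VA ms mean
    simp only [hΦ]
    rw [sum_sub_distrib, sum_sub_distrib]
    ring
  rw [sum_congr rfl fun Q _ => congrArg abs (hlin Q)]
  refine h12.trans ?_
  have hmΦ : mean M (range M) (fun t => Φ t ^ 2) ≤ S ^ 2 * (100 * (N * (1 + L))) := by
    have h1 : mean M (range M) (fun t => Φ t ^ 2) ≤ mean M (range M)
        (fun t => S ^ 2 * (2 * ‖fh N K t‖ ^ 2 + 8 * ‖gh N K t‖ ^ 2)) := by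
      refine c07_mean_mono M _ _ fun j hj => ?_
      exact c07_pt _ _ S (hsup _)
    have h2 : mean M (range M) (fun t => S ^ 2 * (2 * ‖fh N K t‖ ^ 2 + 8 * ‖gh N K t‖ ^ 2)) =
        S ^ 2 * (2 * ms M (fh N K) + 8 * ms M (gh N K)) := by
      unfold ms mean
      rw [← mul_sum, sum_add_distrib, ← mul_sum, ← mul_sum]
      ring
    rw [h2] at h1
    refine h1.trans (mul_le_mul_of_nonneg_left ?_ (sq_nonneg S))
    have : (0 : ℝ) ≤ N * L := by positivity
    nlinarith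
  have hlog2 : Real.log ((2 * N : ℕ) : ℝ) ≤ 1 + L := by
    push_cast
    rw [Real.log_mul (by norm_num) hNr.ne']
    have : Real.log 2 ≤ 1 := by
      have := Real.log_two_lt_d9
      linarith
    linarith
  have hlog0 : 0 ≤ Real.log ((2 * N : ℕ) : ℝ) :=
    Real.log_nonneg (by exact_mod_cast (by omega : 1 ≤ 2 * N))
  have hs1 : Real.sqrt (((2 * N : ℕ) : ℝ) * (1 + Real.log ((2 * N : ℕ) : ℝ)) ^ 3) ≤
      4 * (Real.sqrt N * (1 + L) ^ 2) := by
    refine Real.sqrt_le_iff.2 ⟨by positivity, ?_⟩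
    have h1 : (1 + Real.log ((2 * N : ℕ) : ℝ)) ^ 3 ≤ (2 * (1 + L)) ^ 3 :=
      pow_le_pow_left₀ (by linarith) (by linarith) 3
    have h2 : (4 * (Real.sqrt N * (1 + L) ^ 2)) ^ 2 = 16 * (Real.sqrt N) ^ 2 * (1 + L) ^ 4 := by
      ring
    rw [h2, Real.sq_sqrt hNr.le]
    have h3 : (1 + L) ^ 3 ≤ (1 + L) ^ 4 := pow_le_pow_right₀ (by linarith) (by norm_num)
    calc ((2 * N : ℕ) : ℝ) * (1 + Real.log ((2 * N : ℕ) : ℝ)) ^ 3
        ≤ ((2 * N : ℕ) : ℝ) * (2 * (1 + L)) ^ 3 := mul_le_mul_of_nonneg_left h1 (by positivity)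
      _ = 16 * N * (1 + L) ^ 3 := by push_cast; ring
      _ ≤ 16 * N * (1 + L) ^ 4 := mul_le_mul_of_nonneg_left h3 (by positivity)
  have hs2 : Real.sqrt (mean M (range M) (fun t => Φ t ^ 2)) ≤
      S * (10 * (Real.sqrt N * (1 + L))) := by
    refine (Real.sqrt_le_sqrt hmΦ).trans ?_
    rw [Real.sqrt_mul (sq_nonneg S), Real.sqrt_sq hS0]
    refine mul_le_mul_of_nonneg_left ?_ hS0
    refine Real.sqrt_le_iff.2 ⟨by positivity, ?_⟩
    have h2 : (10 * (Real.sqrt N * (1 + L))) ^ 2 = 100 * (Real.sqrt N) ^ 2 * (1 + L) ^ 2 := by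
      ring
    rw [h2, Real.sq_sqrt hNr.le]
    have h3 : (1 + L) ≤ (1 + L) ^ 2 := by nlinarith
    calc 100 * (N * (1 + L)) ≤ 100 * (N * (1 + L) ^ 2) := by gcongr
      _ = 100 * N * (1 + L) ^ 2 := by ring
  calc C3 * Real.sqrt (((2 * N : ℕ) : ℝ) * (1 + Real.log ((2 * N : ℕ) : ℝ)) ^ 3) *
        Real.sqrt (mean M (range M) (fun t => Φ t ^ 2))
      ≤ C3 * (4 * (Real.sqrt N * (1 + L) ^ 2)) * (S * (10 * (Real.sqrt N * (1 + L)))) := by
        gcongr
    _ = (Real.sqrt N * Real.sqrt N) * (C3 * 40 * S * (1 + L) ^ 3) := by ring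
    _ = N * (C3 * 40 * S * (1 + L) ^ 3) := by rw [Real.mul_self_sqrt hNr.le]
    _ = C3 * 40 * C5 * ((N : ℝ) ^ 2 / Real.sqrt K) * (1 + L) ^ 9 := by
        rw [hS]; ring

end Pool.Agent.AAX

namespace Pool.Agent.AAX

/-- alias -/
theorem off_diag : type_of% @off_diag_pr := @off_diag_pr

end Pool.Agent.AAX

/-! ### C08 -/

/-!
# AAX: block C08 (the small denominators)
-/

namespace Pool.Agent.AAX

open Finset MeasureTheory Pool.Agent.Var35 Pool.Agent.Var73 Pool.Agent.PV Pool.Agent.FGP Pool.Agent.FGA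
open scoped ArithmeticFunction ArithmeticFunction.Moebius

/-- the values at the fractions of denominator at most `K` -/
theorem c08_value : ∃ N0 : ℕ, ∀ N ≥ N0, ∀ K, Rg K N → ∀ r ∈ Icc 1 K, ∀ a ∈ Cd r,
    ‖fh N K ((a : ℝ) / r) + gh N K ((a : ℝ) / r) - ((mr r * N : ℝ) : ℂ)‖ ≤
      3 * (N : ℝ) ^ (1 / 4 : ℝ) := by
  obtain ⟨N1, h1⟩ := lw_facts
  obtain ⟨N2, h2⟩ := wt_other
  obtain ⟨N3, h3⟩ := wt_facts
  refine ⟨max (max N1 N2) (max N3 1), ?_⟩
  intro N hN K hR r hr a ha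
  have hNN1 : N1 ≤ N := le_trans (le_trans (le_max_left _ _) (le_max_left _ _)) hN
  have hNN2 : N2 ≤ N := le_trans (le_trans (le_max_right _ _) (le_max_left _ _)) hN
  have hNN3 : N3 ≤ N := le_trans (le_trans (le_max_left _ _) (le_max_right _ _)) hN
  have hNN4 : 1 ≤ N := le_trans (le_trans (le_max_right _ _) (le_max_right _ _)) hN
  obtain ⟨hlw, -, -, -, -⟩ := h1 N hNN1 K hR
  have hoth := h2 N hNN2 K hR r hr a ha ((a : ℝ) / r) (by
    rw [sub_self]
    unfold nn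
    simp)
  obtain ⟨-, hwt⟩ := h3 N hNN3 K hR
  have hNr : (1 : ℝ) ≤ N := by exact_mod_cast hNN4
  have hN0 : (0 : ℝ) < N := by linarith
  have hpow : (N : ℝ) * (N : ℝ) ^ (-(3 / 4) : ℝ) = (N : ℝ) ^ (1 / 4 : ℝ) := by
    have h4 : (N : ℝ) * (N : ℝ) ^ (-(3 / 4) : ℝ) = (N : ℝ) ^ (1 : ℝ) * (N : ℝ) ^ (-(3 / 4) : ℝ) := by
      rw [Real.rpow_one]
    rw [h4, ← Real.rpow_add hN0]
    norm_num
  have hr' := hr
  rw [mem_Icc] at hr'
  -- the small part
  have hf : ‖fh N K ((a : ℝ) / r)‖ ≤ 2 * (N : ℝ) ^ (1 / 4 : ℝ) := by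
    unfold fh
    rw [norm_mul, Complex.norm_real, Real.norm_eq_abs]
    have h4 := hwt r hr (a : ℤ) (by
      rw [A05_Cd] at ha
      exact Nat.isCoprime_iff_coprime.2 ha.2) ((a : ℝ) / r) (by
        push_cast
        simp)
    push_cast at h4
    rw [sub_self, abs_zero, mul_zero, zero_pow two_ne_zero, mul_zero, zero_add] at h4
    calc ‖Ps N ((a : ℝ) / r)‖ * |1 - Wt N K ((a : ℝ) / r)|
        ≤ 2 * N * (N : ℝ) ^ (-(3 / 4) : ℝ) :=
          mul_le_mul (A05_Ps_le N _) h4 (abs_nonneg _) (by positivity)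
      _ = 2 * (N : ℝ) ^ (1 / 4 : ℝ) := by rw [mul_assoc, hpow]
  -- the explicit part
  have hW0 : Wr N K r 0 = 1 := (wr_facts N K r (by
    have := Nat.mul_pos (show 0 < r by omega) (show 0 < lw N K by omega)
    omega)).2.1
  have hg : ‖gh N K ((a : ℝ) / r) - ((mr r * N : ℝ) : ℂ)‖ ≤ (N : ℝ) ^ (1 / 4 : ℝ) := by
    have e0 : ((mr r * N : ℝ) : ℂ) = ∑ q ∈ Icc 1 K, ∑ c ∈ Cd q,
        (if q = r ∧ c = a then ((mr r * N : ℝ) : ℂ) else 0) := by
      rw [sum_eq_single r]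
      · rw [sum_eq_single a]
        · simp
        · intro c _ hca
          simp [hca]
        · intro h
          exact absurd ha h
      · intro q _ hqr
        refine sum_eq_zero fun c _ => ?_
        simp [hqr]
      · intro h
        exact absurd hr h
    rw [e0]
    unfold gh
    rw [← sum_sub_distrib]
    calc ‖∑ q ∈ Icc 1 K, (∑ c ∈ Cd q, ((mr q * Wr N K q ((a : ℝ) / r - c / q) : ℝ) : ℂ) *
            In N ((a : ℝ) / r - c / q) -
          ∑ c ∈ Cd q, (if q = r ∧ c = a then ((mr r * N : ℝ) : ℂ) else 0))‖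
        ≤ ∑ q ∈ Icc 1 K, ‖∑ c ∈ Cd q, ((mr q * Wr N K q ((a : ℝ) / r - c / q) : ℝ) : ℂ) *
            In N ((a : ℝ) / r - c / q) -
          ∑ c ∈ Cd q, (if q = r ∧ c = a then ((mr r * N : ℝ) : ℂ) else 0)‖ := norm_sum_le _ _
      _ ≤ ∑ q ∈ Icc 1 K, ∑ c ∈ Cd q,
            (N : ℝ) * (if q = r ∧ c = a then 0 else Wr N K q ((a : ℝ) / r - c / q)) := by
          refine sum_le_sum fun q hq => ?_
          rw [← sum_sub_distrib]
          refine (norm_sum_le _ _).trans (sum_le_sum fun c hc => ?_)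
          by_cases h : q = r ∧ c = a
          · obtain ⟨rfl, rfl⟩ := h
            rw [sub_self, hW0, A05_In_zero]
            simp
          · simp only [h, if_false, sub_zero]
            rw [norm_mul, Complex.norm_real, Real.norm_eq_abs, abs_mul]
            have hq' := hq
            rw [mem_Icc] at hq'
            have hWn : 0 ≤ Wr N K q ((a : ℝ) / r - c / q) := ((wr_facts N K q (by
              have := Nat.mul_pos (show 0 < q by omega) (show 0 < lw N K by omega)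
              omega)).1 _).1
            rw [abs_of_nonneg hWn]
            have h5 := A05_mr_le q
            have h6 := A05_In_le N ((a : ℝ) / r - c / q)
            calc |mr q| * Wr N K q ((a : ℝ) / r - c / q) * ‖In N ((a : ℝ) / r - c / q)‖
                ≤ 1 * Wr N K q ((a : ℝ) / r - c / q) * N := by
                  refine mul_le_mul (mul_le_mul_of_nonneg_right h5 hWn) h6 (norm_nonneg _) ?_
                  rw [one_mul]
                  exact hWn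
              _ = (N : ℝ) * Wr N K q ((a : ℝ) / r - c / q) := by ring
      _ = (N : ℝ) * ∑ q ∈ Icc 1 K, ∑ c ∈ Cd q,
            (if q = r ∧ c = a then 0 else Wr N K q ((a : ℝ) / r - c / q)) := by
          rw [mul_sum]
          refine sum_congr rfl fun q _ => ?_
          rw [mul_sum]
      _ ≤ (N : ℝ) * (N : ℝ) ^ (-(3 / 4) : ℝ) := mul_le_mul_of_nonneg_left hoth hN0.le
      _ = (N : ℝ) ^ (1 / 4 : ℝ) := hpow
  have e2 : fh N K ((a : ℝ) / r) + gh N K ((a : ℝ) / r) - ((mr r * N : ℝ) : ℂ) =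
      fh N K ((a : ℝ) / r) + (gh N K ((a : ℝ) / r) - ((mr r * N : ℝ) : ℂ)) := by ring
  rw [e2]
  refine (norm_add_le _ _).trans ?_
  linarith

/-- C08 -/
theorem small_den_pr : ∃ N0 : ℕ, ∀ N ≥ N0, ∀ K, Rg K N → ∀ Q R : ℕ, 1 ≤ Q → R ≤ K →
    |VM (fun t => fh N K t + gh N K t) Q R - (N : ℝ) ^ 2 / Q * TL Q R| ≤
      (R : ℝ) ^ 2 / Q * (N : ℝ) ^ (4 / 3 : ℝ) := by
  obtain ⟨N0, hN0⟩ := c08_value
  refine ⟨max N0 (15 ^ 12), ?_⟩
  intro N hN K hR Q R hQ hRK
  have hpt := hN0 N (le_trans (le_max_left _ _) hN) K hR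
  have hN15 : 15 ^ 12 ≤ N := le_trans (le_max_right _ _) hN
  have hNr : ((15 : ℝ)) ^ 12 ≤ N := by exact_mod_cast hN15
  have hN1 : (1 : ℝ) ≤ N := by
    refine le_trans ?_ hNr
    norm_num
  have hNp : (0 : ℝ) < N := by linarith
  have hQ0 : (0 : ℝ) < Q := by exact_mod_cast (by omega : 0 < Q)
  set ε : ℝ := 3 * (N : ℝ) ^ (1 / 4 : ℝ) with hε
  have hε0 : 0 ≤ ε := by positivity
  have hεN : ε ≤ 3 * N := by
    rw [hε]
    have h1 : (N : ℝ) ^ (1 / 4 : ℝ) ≤ (N : ℝ) ^ (1 : ℝ) :=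
      Real.rpow_le_rpow_of_exponent_le hN1 (by norm_num)
    rw [Real.rpow_one] at h1
    linarith
  set D : ℝ := (N : ℝ) ^ (4 / 3 : ℝ) with hD
  have hD0 : 0 ≤ D := by positivity
  have hεD : ε * (2 * N + ε) ≤ D := by
    have h1 : ε * (2 * N + ε) ≤ ε * (5 * N) := mul_le_mul_of_nonneg_left (by linarith) hε0
    refine h1.trans ?_
    rw [hε, hD]
    have h2 : (15 : ℝ) ≤ (N : ℝ) ^ (1 / 12 : ℝ) := by
      have h3 : ((15 : ℝ) ^ (12 : ℕ)) ^ (1 / 12 : ℝ) ≤ (N : ℝ) ^ (1 / 12 : ℝ) :=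
        Real.rpow_le_rpow (by positivity) hNr (by norm_num)
      rw [← Real.rpow_natCast, ← Real.rpow_mul (by norm_num)] at h3
      norm_num at h3
      norm_num
      exact h3
    have h4 : (N : ℝ) ^ (4 / 3 : ℝ) = (N : ℝ) ^ (1 / 12 : ℝ) * ((N : ℝ) ^ (1 / 4 : ℝ) * N) := by
      have h5 : (N : ℝ) ^ (1 / 12 : ℝ) * ((N : ℝ) ^ (1 / 4 : ℝ) * N) =
          (N : ℝ) ^ (1 / 12 : ℝ) * ((N : ℝ) ^ (1 / 4 : ℝ) * (N : ℝ) ^ (1 : ℝ)) := by
        rw [Real.rpow_one]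
      rw [h5, ← Real.rpow_add hNp, ← Real.rpow_add hNp]
      norm_num
    rw [h4]
    have h6 : 3 * (N : ℝ) ^ (1 / 4 : ℝ) * (5 * N) = 15 * ((N : ℝ) ^ (1 / 4 : ℝ) * N) := by ring
    rw [h6]
    exact mul_le_mul_of_nonneg_right h2 (by positivity)
  -- one fraction
  have hone : ∀ r ∈ Q.divisors.filter (fun r => r ≤ R), ∀ c ∈ Cd r,
      |‖fh N K ((c : ℝ) / r) + gh N K ((c : ℝ) / r)‖ ^ 2 - (mr r * N) ^ 2| ≤ D := by
    intro r hr c hc
    rw [mem_filter] at hr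
    have hr1 : r ∈ Icc 1 K := by
      rw [mem_Icc]
      exact ⟨Nat.pos_of_mem_divisors hr.1, hr.2.trans hRK⟩
    have h1 := hpt r hr1 c hc
    have h2 : |mr r * N| ≤ N := by
      rw [abs_mul, abs_of_nonneg hNp.le]
      have := mul_le_mul_of_nonneg_right (A06_mr_le r) hNp.le
      linarith
    exact (A06_sq _ _ _ _ h2 h1).trans hεD
  have hVM : VM (fun t => fh N K t + gh N K t) Q R = (1 / (Q : ℝ)) *
      ∑ r ∈ Q.divisors.filter (fun r => r ≤ R), ∑ c ∈ Cd r,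
        ‖fh N K ((c : ℝ) / r) + gh N K ((c : ℝ) / r)‖ ^ 2 := by
    unfold VM
    rw [A06_reindex (fun t => ‖fh N K t + gh N K t‖ ^ 2) Q R hQ]
  have hTL : (N : ℝ) ^ 2 / Q * TL Q R = (1 / (Q : ℝ)) *
      ∑ r ∈ Q.divisors.filter (fun r => r ≤ R), ∑ c ∈ Cd r, (mr r * N) ^ 2 := by
    unfold TL
    have : ∀ r ∈ Q.divisors.filter (fun r => r ≤ R), ∑ c ∈ Cd r, (mr r * (N : ℝ)) ^ 2 =
        (N : ℝ) ^ 2 * (mr r ^ 2 * (Nat.totient r : ℝ)) := by
      intro r _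
      rw [sum_const, card_Cd, nsmul_eq_mul]
      ring
    rw [sum_congr rfl this, ← mul_sum]
    ring
  rw [hVM, hTL, ← mul_sub, abs_mul, abs_of_nonneg (by positivity : (0 : ℝ) ≤ 1 / (Q : ℝ)),
    ← sum_sub_distrib]
  have hmain : |∑ r ∈ Q.divisors.filter (fun r => r ≤ R), (∑ c ∈ Cd r,
      ‖fh N K ((c : ℝ) / r) + gh N K ((c : ℝ) / r)‖ ^ 2 - ∑ c ∈ Cd r, (mr r * (N : ℝ)) ^ 2)| ≤
      R * (R * D) := by
    refine (abs_sum_le_sum_abs _ _).trans ?_
    calc ∑ r ∈ Q.divisors.filter (fun r => r ≤ R), |∑ c ∈ Cd r,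
          ‖fh N K ((c : ℝ) / r) + gh N K ((c : ℝ) / r)‖ ^ 2 - ∑ c ∈ Cd r, (mr r * (N : ℝ)) ^ 2|
        ≤ ∑ r ∈ Q.divisors.filter (fun r => r ≤ R), (R : ℝ) * D := by
          refine sum_le_sum fun r hr => ?_
          rw [← sum_sub_distrib]
          refine (abs_sum_le_sum_abs _ _).trans ?_
          calc ∑ c ∈ Cd r, |‖fh N K ((c : ℝ) / r) + gh N K ((c : ℝ) / r)‖ ^ 2 -
                (mr r * (N : ℝ)) ^ 2| ≤ ∑ c ∈ Cd r, D :=
                sum_le_sum fun c hc => hone r hr c hc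
            _ = (Cd r).card * D := by rw [sum_const, nsmul_eq_mul]
            _ ≤ R * D := by
                refine mul_le_mul_of_nonneg_right ?_ hD0
                rw [card_Cd]
                rw [mem_filter] at hr
                exact_mod_cast (Nat.totient_le r).trans hr.2
      _ = ((Q.divisors.filter (fun r => r ≤ R)).card : ℝ) * (R * D) := by
          rw [sum_const, nsmul_eq_mul]
      _ ≤ R * (R * D) := by
          refine mul_le_mul_of_nonneg_right ?_ (by positivity)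
          have hsub : Q.divisors.filter (fun r => r ≤ R) ⊆ Icc 1 R := by
            intro r hr
            rw [mem_filter] at hr
            rw [mem_Icc]
            exact ⟨Nat.pos_of_mem_divisors hr.1, hr.2⟩
          have := card_le_card hsub
          rw [Nat.card_Icc, Nat.add_sub_cancel] at this
          exact_mod_cast this
  calc 1 / (Q : ℝ) * |∑ r ∈ Q.divisors.filter (fun r => r ≤ R), (∑ c ∈ Cd r,
      ‖fh N K ((c : ℝ) / r) + gh N K ((c : ℝ) / r)‖ ^ 2 - ∑ c ∈ Cd r, (mr r * (N : ℝ)) ^ 2)|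
      ≤ 1 / (Q : ℝ) * (R * (R * D)) := mul_le_mul_of_nonneg_left hmain (by positivity)
    _ = (R : ℝ) ^ 2 / Q * D := by ring

end Pool.Agent.AAX

namespace Pool.Agent.AAX

/-- alias -/
theorem small_den : type_of% @small_den_pr := @small_den_pr

end Pool.Agent.AAX

/-! ### C09 -/

/-!
# AAX: block C09 (the variance of `gh` and the correlations of its coefficients)
-/

namespace Pool.Agent.AAX

open Finset MeasureTheory Pool.Agent.Var35 Pool.Agent.Var73 Pool.Agent.PV Pool.Agent.FGP Pool.Agent.FGA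
open scoped ArithmeticFunction ArithmeticFunction.Moebius

theorem c09_gn_zero (N K : ℕ) (h1 : 1 ≤ lw N K) (n : ℤ)
    (h : n ∉ Icc (1 - ((4 * (K * lw N K) : ℕ) : ℤ)) ((N : ℤ) + (4 * (K * lw N K) : ℕ))) :
    gn N K n = 0 := by
  unfold gn
  refine sum_eq_zero fun r hr => ?_
  rw [mem_Icc] at hr
  have h3 : Ar N K r n = 0 := by
    unfold Ar
    refine sum_eq_zero fun m hm => ?_
    have hL : 1 ≤ r * lw N K := Nat.one_le_iff_ne_zero.2 (by
      have := Nat.mul_pos (show 0 < r by omega) (show 0 < lw N K by omega)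
      omega)
    refine (vr_facts N K r hL).2.1 _ ?_
    have h4 : r * lw N K ≤ K * lw N K := Nat.mul_le_mul_right _ hr.2
    have h5 : ((r * lw N K : ℕ) : ℤ) ≤ ((K * lw N K : ℕ) : ℤ) := by exact_mod_cast h4
    rw [mem_Icc] at hm h
    push_cast at h h5 ⊢
    by_cases h6 : n < 1 - 4 * ((K : ℤ) * lw N K)
    · exact le_trans (by omega) (le_abs_self _)
    · exact le_trans (by omega) (neg_le_abs _)
  rw [h3, zero_mul]

/-- one term of `gh` -/
theorem c09_term (N K r : ℕ) (hL : 1 ≤ r * lw N K) (B : ℕ) (hB : 4 * (r * lw N K) ≤ B) (x : ℝ) :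
    ((Wr N K r x : ℝ) : ℂ) * In N x =
      ∑ n ∈ Icc (1 - (B : ℤ)) ((N : ℤ) + B), ((Ar N K r n : ℝ) : ℂ) * e (n * x) := by
  obtain ⟨v1, v2, -, v4⟩ := vr_facts N K r hL
  have hz : ∀ k : ℤ, k ∉ Icc (-(B : ℤ)) (B : ℤ) → vr N K r k = 0 := by
    intro k hk
    refine v2 k ?_
    have h5 : ((4 * (r * lw N K) : ℕ) : ℤ) ≤ (B : ℤ) := by exact_mod_cast hB
    rw [mem_Icc] at hk
    push_cast at h5 ⊢
    by_cases h6 : k < -(B : ℤ)
    · exact le_trans (by omega) (neg_le_abs _)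
    · exact le_trans (by omega) (le_abs_self _)
  rw [v4 B x hB]
  unfold In
  rw [mul_comm, sum_mul_sum]
  have h1 : ∀ m ∈ Icc 1 N, ∑ k ∈ Icc (-(B : ℤ)) (B : ℤ),
      e ((m : ℕ) * x) * (((vr N K r k : ℝ) : ℂ) * e (k * x)) =
      ∑ n ∈ Icc (1 - (B : ℤ)) ((N : ℤ) + B),
        ((vr N K r ((m : ℤ) - n) : ℝ) : ℂ) * e (n * x) := by
    intro m hm
    rw [mem_Icc] at hm
    rw [p13a_shift (fun k => e ((m : ℕ) * x) * (((vr N K r k : ℝ) : ℂ) * e (k * x)))
      (-(B : ℤ)) (B : ℤ) (1 - (B : ℤ)) ((N : ℤ) + B)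
      (-(m : ℤ)) (fun k hk => by
        have := hz k hk
        simp only [this]; simp) (by omega) (by omega)]
    refine sum_congr rfl fun n _ => ?_
    have h3 : vr N K r (n + -(m : ℤ)) = vr N K r ((m : ℤ) - n) := by
      rw [← (v1 ((m : ℤ) - n)).2]
      exact congrArg _ (by ring)
    rw [h3]
    have h4 : e ((m : ℕ) * x) * (((vr N K r ((m : ℤ) - n) : ℝ) : ℂ) *
        e (((n + -(m : ℤ) : ℤ) : ℝ) * x)) =
      ((vr N K r ((m : ℤ) - n) : ℝ) : ℂ) * (e ((m : ℕ) * x) * e (((n + -(m : ℤ) : ℤ) : ℝ) * x)) := by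
      ring
    rw [h4, ← e_add]
    have h5 : (m : ℝ) * x + ((n + -(m : ℤ) : ℤ) : ℝ) * x = n * x := by
      push_cast
      ring
    rw [h5]
  rw [sum_congr rfl h1, sum_comm]
  refine sum_congr rfl fun n _ => ?_
  rw [← sum_mul]
  unfold Ar
  push_cast
  rfl

/-- `gh` as a trigonometric polynomial -/
theorem c09_gh (N K : ℕ) (h1 : 1 ≤ lw N K) (t : ℝ) :
    gh N K t = ∑ n ∈ Icc (1 - ((4 * (K * lw N K) : ℕ) : ℤ)) ((N : ℤ) + (4 * (K * lw N K) : ℕ)),
      ((gn N K n : ℝ) : ℂ) * e (n * t) := by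
  unfold gh
  have h2 : ∀ r ∈ Icc 1 K, ∑ c ∈ Cd r,
      ((mr r * Wr N K r (t - c / r) : ℝ) : ℂ) * In N (t - c / r) =
      ∑ n ∈ Icc (1 - ((4 * (K * lw N K) : ℕ) : ℤ)) ((N : ℤ) + (4 * (K * lw N K) : ℕ)),
        ((Ar N K r n : ℝ) : ℂ) * ((mr r : ℂ) * (cZ r n : ℂ)) * e (n * t) := by
    intro r hr
    rw [mem_Icc] at hr
    have hL : 1 ≤ r * lw N K := Nat.one_le_iff_ne_zero.2 (by
      have := Nat.mul_pos (show 0 < r by omega) (show 0 < lw N K by omega)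
      omega)
    have hB : 4 * (r * lw N K) ≤ 4 * (K * lw N K) :=
      Nat.mul_le_mul_left _ (Nat.mul_le_mul_right _ hr.2)
    have h3 : ∀ c ∈ Cd r, ((mr r * Wr N K r (t - c / r) : ℝ) : ℂ) * In N (t - c / r) =
        ∑ n ∈ Icc (1 - ((4 * (K * lw N K) : ℕ) : ℤ)) ((N : ℤ) + (4 * (K * lw N K) : ℕ)),
        ((Ar N K r n : ℝ) : ℂ) * ((mr r : ℂ) * e (-(n * (c / r)))) * e (n * t) := by
      intro c _
      rw [Complex.ofReal_mul, mul_assoc, c09_term N K r hL _ hB, mul_sum]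
      refine sum_congr rfl fun n _ => ?_
      have h3 : (n : ℝ) * (t - c / r) = -(n * (c / r)) + n * t := by ring
      rw [h3, e_add]
      ring
    rw [sum_congr rfl h3, sum_comm]
    refine sum_congr rfl fun n _ => ?_
    rw [← sum_mul, ← mul_sum, ← mul_sum, p13a_cZ r hr.1]
  rw [sum_congr rfl h2, sum_comm]
  refine sum_congr rfl fun n _ => ?_
  rw [← sum_mul]
  unfold gn
  push_cast
  rfl

/-- C09 -/
theorem var_gh_pr (N K M Q : ℕ) (hM : Good (2 * N) M) (h1 : 1 ≤ lw N K)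
    (h2 : 16 * (K * lw N K) ≤ N) (hQ : 1 ≤ Q) :
    VA (gh N K) Q - ms M (gh N K) = 2 * ∑ k ∈ Icc 1 (2 * N / Q), cg N K ((k * Q : ℕ) : ℤ) := by
  have hM0 : 4 * (2 * N) < M := hM.1
  have hN1 : 1 ≤ N ∨ K = 0 := by
    rcases Nat.eq_zero_or_pos K with h | h
    · exact Or.inr h
    · left
      have := Nat.mul_pos h (show 0 < lw N K by omega)
      omega
  have hK : K ≠ 0 := by
    rintro rfl
    have h3 : lw N 0 = 0 := by
      unfold lw
      simp
    omega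
  have hN : 1 ≤ N := hN1.resolve_right hK
  set B : ℕ := 4 * (K * lw N K) with hB
  have hBN : 4 * B ≤ N := by omega
  have hAB : ((N : ℤ) + B) - (1 - (B : ℤ)) < 2 * (N : ℤ) := by omega
  have hcg : ∀ h : ℤ, cg N K h = ∑ n ∈ Icc (1 - (B : ℤ)) ((N : ℤ) + B), gn N K n * gn N K (n + h) := by
    intro h
    unfold cg
    symm
    refine sum_subset ?_ ?_
    · intro k hk
      rw [mem_Icc] at hk ⊢
      omega
    · intro k _ hk
      rw [c09_gn_zero N K h1 k hk, zero_mul]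
  have key : ∀ Q : ℕ, 1 ≤ Q → VA (gh N K) Q = cg N K 0 +
      2 * ∑ k ∈ Icc 1 (2 * N / Q), cg N K ((k * Q : ℕ) : ℤ) := by
    intro Q hQ
    rw [p13a_va (gn N K) _ _ (gh N K) (c09_gh N K h1) Q hQ,
      p13a_corr (gn N K) _ _ (c09_gn_zero N K h1) N hAB Q hQ, hcg 0]
    simp only [hcg]
    rfl
  have h3 : ms M (gh N K) = VA (gh N K) M := rfl
  have h4 : 2 * N / M = 0 := Nat.div_eq_of_lt (by omega)
  rw [h3, key Q hQ, key M (by omega), h4]
  simp

end Pool.Agent.AAX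

namespace Pool.Agent.AAX

/-- alias -/
theorem var_gh : type_of% @var_gh_pr := @var_gh_pr

end Pool.Agent.AAX
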