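import Pool.Agent.Lib_helper3.FGP.P13b
import Pool.Agent.Lib_helper92.PVF.SHO
import Pool.Agent.Lib_helper61.FG.DivB
import Pool.Agent.Lib_helper99.FGA.EE
import Pool.Agent.Lib_helper3.FGP.P14a
import Pool.Agent.Lib_helper3.FGP.E14dF
import Pool.Agent.Lib_helper65.FGA.A08
import Pool.Agent.Lib_helper67.FGA.A09
import Pool.Agent.Lib_helper10.FGA.A10
import Pool.Agent.Lib_helper85.FGA.A11
import Pool.Agent.Lib_helper65.FGA.A12
import Pool.Agent.Lib_helper25.FGA.A14E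
import Pool.Agent.Lib_helper65.FGA.A15E
import Pool.Agent.Lib_helper67.FGA.A16
import Pool.Agent.Lib_helper16.FGA.A18bE
import Pool.Agent.Lib_helper3.FGP.P10
import Pool.Agent.Lib_helper3.FGP.P06
import Pool.Agent.Lib_helper3.FGP.P07
import Pool.Agent.Lib_helper92.PVF.LQB
import Pool.Agent.Lib_helper92.PVF.LQC
import Pool.Agent.Lib_helper92.PVF.REM
import Pool.Agent.Lib_helper99.AAXG.A

/-! AAX, circle part: blocks C10a C10b C10c C10d C11 C12 C13 C14 C15 C16a C16b C17a -/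

set_option autoImplicit false

/-! ### C10a -/

/-!
# AAX, block C10a: the smoothed interval
-/

namespace Pool.Agent.AAX

open Finset MeasureTheory Pool.Agent.Var35 Pool.Agent.Var73 Pool.Agent.PV Pool.Agent.FGP Pool.Agent.FGA
open scoped ArithmeticFunction ArithmeticFunction.Moebius

/-- `Ar` as a sum over consecutive integers -/
theorem c10a_eq (N K r : ℕ) (n : ℤ) :
    Ar N K r n = ∑ j ∈ Icc (1 - n) ((N : ℤ) - n), vr N K r j := by
  unfold Ar
  refine Finset.sum_nbij' (fun m : ℕ => (m : ℤ) - n) (fun j : ℤ => (j + n).toNat)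
    ?_ ?_ ?_ ?_ ?_
  · intro m hm
    rw [mem_Icc] at hm ⊢
    omega
  · intro k hk
    rw [mem_Icc] at hk ⊢
    omega
  · intro m hm
    omega
  · intro k hk
    rw [mem_Icc] at hk
    omega
  · intro m hm
    rfl

/-- the sum over any finite set of integers is at most `1` -/
theorem c10a_le (N K r : ℕ) (h : 1 ≤ r * lw N K) (S : Finset ℤ) :
    ∑ j ∈ S, vr N K r j ≤ 1 := by
  obtain ⟨h1, -, h3, -⟩ := vr_facts N K r h
  have h4 := h3 (4 * (r * lw N K) + S.sup Int.natAbs) (by omega)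
  rw [← h4]
  refine sum_le_sum_of_subset_of_nonneg (fun j hj => ?_) fun j _ _ => (h1 j).1
  have h5 : j.natAbs ≤ S.sup Int.natAbs := le_sup (f := Int.natAbs) hj
  rw [mem_Icc]
  omega

/-- the increments of `Ar` -/
theorem c10a_diff (N K r : ℕ) (n : ℤ) :
    Ar N K r (n + 1) - Ar N K r n = vr N K r (-n) - vr N K r ((N : ℤ) - n) := by
  have e1 : ∀ f : ℕ → ℝ, ∑ m ∈ Icc 1 N, f m = ∑ i ∈ range N, f (i + 1) := by
    intro f
    rw [range_eq_Ico, sum_Ico_add' f 0 N 1]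
    rfl
  unfold Ar
  rw [e1, e1, ← sum_sub_distrib]
  have e2 : ∀ i ∈ range N, vr N K r (((i + 1 : ℕ) : ℤ) - (n + 1)) - vr N K r (((i + 1 : ℕ) : ℤ) - n)
      = (fun i : ℕ => vr N K r ((i : ℤ) - n)) i - (fun i : ℕ => vr N K r ((i : ℤ) - n)) (i + 1) := by
    intro i _
    have : ((i + 1 : ℕ) : ℤ) - (n + 1) = (i : ℤ) - n := by push_cast; ring
    simp only [this]
  rw [sum_congr rfl e2, sum_range_sub' (fun i : ℕ => vr N K r ((i : ℤ) - n)) N]
  simp

/-- C10a -/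
theorem ar_facts_pr (N K r : ℕ) (h : 1 ≤ r * lw N K) :
    (∀ n, 0 ≤ Ar N K r n ∧ Ar N K r n ≤ 1) ∧
    (∀ n : ℤ, n ≤ 1 - 4 * ((r * lw N K : ℕ) : ℤ) → Ar N K r n = 0) ∧
    (∀ n : ℤ, (N : ℤ) + 4 * ((r * lw N K : ℕ) : ℤ) ≤ n → Ar N K r n = 0) ∧
    (∀ n : ℤ, 4 * ((r * lw N K : ℕ) : ℤ) ≤ n → n ≤ (N : ℤ) - 4 * ((r * lw N K : ℕ) : ℤ) →
      Ar N K r n = 1) ∧
    (∀ A B : ℤ, ∑ n ∈ Icc A B, |Ar N K r (n + 1) - Ar N K r n| ≤ 2) := by
  obtain ⟨h1, h2, h3, -⟩ := vr_facts N K r h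
  refine ⟨fun n => ⟨sum_nonneg fun m _ => (h1 _).1, ?_⟩, fun n hn => ?_, fun n hn => ?_,
    fun n hn hn' => ?_, fun A B => ?_⟩
  · rw [c10a_eq]
    exact c10a_le N K r h _
  · rw [c10a_eq]
    refine sum_eq_zero fun j hj => h2 j ?_
    rw [mem_Icc] at hj
    exact le_trans (by linarith) (le_abs_self j)
  · rw [c10a_eq]
    refine sum_eq_zero fun j hj => h2 j ?_
    rw [mem_Icc] at hj
    exact le_trans (by linarith) (neg_le_abs j)
  · rw [c10a_eq, ← h3 (4 * (r * lw N K) + N + n.natAbs) (by omega)]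
    refine sum_subset (fun j hj => ?_) fun j _ hj' => h2 j ?_
    · rw [mem_Icc] at hj ⊢
      omega
    · rw [mem_Icc, not_and_or] at hj'
      rcases hj' with hj' | hj'
      · exact le_trans (by linarith) (neg_le_abs j)
      · exact le_trans (by linarith) (le_abs_self j)
  · have e1 : ∀ n ∈ Icc A B, |Ar N K r (n + 1) - Ar N K r n| ≤
        vr N K r (-n) + vr N K r ((N : ℤ) - n) := by
      intro n _
      rw [c10a_diff, abs_le]
      have a := (h1 (-n)).1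
      have b := (h1 ((N : ℤ) - n)).1
      constructor <;> linarith
    refine (sum_le_sum e1).trans ?_
    rw [sum_add_distrib]
    have e2 : ∑ n ∈ Icc A B, vr N K r (-n) ≤ 1 := by
      rw [← sum_image (f := fun j => vr N K r j) (g := fun n : ℤ => -n) (s := Icc A B)
        (fun a _ b _ hab => by simpa using hab)]
      exact c10a_le N K r h _
    have e3 : ∑ n ∈ Icc A B, vr N K r ((N : ℤ) - n) ≤ 1 := by
      rw [← sum_image (f := fun j => vr N K r j) (g := fun n : ℤ => (N : ℤ) - n) (s := Icc A B)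
        (fun a _ b _ hab => by simpa using hab)]
      exact c10a_le N K r h _
    linarith

end Pool.Agent.AAX

namespace Pool.Agent.AAX

/-- alias -/
theorem ar_facts : type_of% @ar_facts_pr := @ar_facts_pr

end Pool.Agent.AAX

/-! ### C10b -/

/-!
# AAX, block C10b: the sum over the spaced points
-/

namespace Pool.Agent.AAX

open Finset MeasureTheory Pool.Agent.Var35 Pool.Agent.Var73 Pool.Agent.PV Pool.Agent.FGP Pool.Agent.FGA
open scoped ArithmeticFunction ArithmeticFunction.Moebius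

/-- The distance to the nearest integer and the fractional part. -/
theorem c10b_nn (x : ℝ) : Int.fract x ≤ nn x ∨ 1 - Int.fract x ≤ nn x := by
  unfold nn
  rcases abs_cases (x - round x) with ⟨h1, h2⟩ | ⟨h1, h2⟩
  · left
    rw [h1]
    have h3 : (round x : ℤ) ≤ ⌊x⌋ := Int.le_floor.mpr (by linarith)
    have h4 : ((round x : ℤ) : ℝ) ≤ (⌊x⌋ : ℝ) := by exact_mod_cast h3
    have h5 := Int.self_sub_floor x
    linarith
  · right
    rw [h1]
    have h3 : ⌊x⌋ < (round x : ℤ) := Int.floor_lt.mpr (by linarith)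
    have h4 : (⌊x⌋ : ℝ) + 1 ≤ ((round x : ℤ) : ℝ) := by exact_mod_cast h3
    have h5 := Int.self_sub_floor x
    linarith

/-- One term, in terms of the cell. -/
theorem c10b_term (g : ℕ) (hg : 1 ≤ g) (x : ℝ) (h : nn x ≠ 0 → 1 ≤ (g : ℝ) * nn x) :
    (if nn x = 0 then 0 else 1 / nn x) ≤
      (g : ℝ) * (1 / (max 1 ⌊(g : ℝ) * Int.fract x⌋₊ : ℕ) +
        1 / (max 1 (g - 1 - ⌊(g : ℝ) * Int.fract x⌋₊) : ℕ)) := by
  have hg0 : (0 : ℝ) < g := by exact_mod_cast hg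
  have ha : (0 : ℝ) < (max 1 ⌊(g : ℝ) * Int.fract x⌋₊ : ℕ) := by
    exact_mod_cast lt_of_lt_of_le one_pos (le_max_left _ _)
  have hb : (0 : ℝ) < (max 1 (g - 1 - ⌊(g : ℝ) * Int.fract x⌋₊) : ℕ) := by
    exact_mod_cast lt_of_lt_of_le one_pos (le_max_left _ _)
  by_cases h0 : nn x = 0
  · rw [if_pos h0]
    positivity
  · rw [if_neg h0]
    have h1 := h h0
    have hn : 0 < nn x := lt_of_le_of_ne (abs_nonneg _) (Ne.symm h0)
    have hfl : (⌊(g : ℝ) * Int.fract x⌋₊ : ℝ) ≤ (g : ℝ) * Int.fract x :=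
      Nat.floor_le (mul_nonneg hg0.le (Int.fract_nonneg x))
    have hfu : (g : ℝ) * Int.fract x < ⌊(g : ℝ) * Int.fract x⌋₊ + 1 := Nat.lt_floor_add_one _
    rcases c10b_nn x with h2 | h2
    · have h3 : ((max 1 ⌊(g : ℝ) * Int.fract x⌋₊ : ℕ) : ℝ) ≤ (g : ℝ) * nn x := by
        push_cast
        refine max_le h1 (hfl.trans (mul_le_mul_of_nonneg_left h2 hg0.le))
      have h4 : 1 / nn x ≤ (g : ℝ) * (1 / (max 1 ⌊(g : ℝ) * Int.fract x⌋₊ : ℕ)) := by
        rw [mul_one_div, div_le_div_iff₀ hn ha, one_mul]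
        exact h3
      refine h4.trans (mul_le_mul_of_nonneg_left ?_ hg0.le)
      have : (0 : ℝ) ≤ 1 / (max 1 (g - 1 - ⌊(g : ℝ) * Int.fract x⌋₊) : ℕ) := by positivity
      linarith
    · have h3 : ((max 1 (g - 1 - ⌊(g : ℝ) * Int.fract x⌋₊) : ℕ) : ℝ) ≤ (g : ℝ) * nn x := by
        rw [Nat.cast_max, Nat.cast_one]
        refine max_le h1 ?_
        have h5 : ((g - 1 - ⌊(g : ℝ) * Int.fract x⌋₊ : ℕ) : ℝ) ≤
            (g : ℝ) * (1 - Int.fract x) := by
          rcases le_total (⌊(g : ℝ) * Int.fract x⌋₊ + 1) g with h6 | h6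
          · have h7 : ((g - 1 - ⌊(g : ℝ) * Int.fract x⌋₊ : ℕ) : ℝ) =
                (g : ℝ) - 1 - ⌊(g : ℝ) * Int.fract x⌋₊ := by
              rw [Nat.sub_sub, Nat.cast_sub (by omega)]
              push_cast
              ring
            rw [h7]
            nlinarith
          · have h7 : g - 1 - ⌊(g : ℝ) * Int.fract x⌋₊ = 0 := by omega
            rw [h7, Nat.cast_zero]
            have := Int.fract_lt_one x
            have h8 : 0 ≤ 1 - Int.fract x := by linarith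
            positivity
        exact h5.trans (mul_le_mul_of_nonneg_left h2 hg0.le)
      have h4 : 1 / nn x ≤ (g : ℝ) * (1 / (max 1 (g - 1 - ⌊(g : ℝ) * Int.fract x⌋₊) : ℕ)) := by
        rw [mul_one_div, div_le_div_iff₀ hn hb, one_mul]
        exact h3
      refine h4.trans (mul_le_mul_of_nonneg_left ?_ hg0.le)
      have : (0 : ℝ) ≤ 1 / (max 1 ⌊(g : ℝ) * Int.fract x⌋₊ : ℕ) := by positivity
      linarith

/-- The harmonic sum over the cells. -/
theorem c10b_harm (g : ℕ) (hg : 1 ≤ g) :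
    ∑ j ∈ range g, ((g : ℝ) * (1 / (max 1 j : ℕ) + 1 / (max 1 (g - 1 - j) : ℕ))) ≤
      4 * (g * (1 + Real.log g)) := by
  have hg0 : (0 : ℝ) < g := by exact_mod_cast hg
  have hlog : 0 ≤ Real.log g := Real.log_nonneg (by exact_mod_cast hg)
  have h1 : ∑ j ∈ range g, (1 / (max 1 (g - 1 - j) : ℕ) : ℝ) =
      ∑ j ∈ range g, (1 / (max 1 j : ℕ) : ℝ) :=
    Finset.sum_range_reflect (fun j => (1 / (max 1 j : ℕ) : ℝ)) g
  have h2 : ∑ j ∈ range g, (1 / (max 1 j : ℕ) : ℝ) ≤ 2 + Real.log g := by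
    obtain ⟨n, rfl⟩ : ∃ n, g = n + 1 := ⟨g - 1, by omega⟩
    rw [sum_range_succ']
    have h3 : ∑ k ∈ range n, (1 / (max 1 (k + 1) : ℕ) : ℝ) = ((harmonic n : ℚ) : ℝ) := by
      rw [harmonic]
      push_cast
      refine sum_congr rfl fun k _ => ?_
      have : max 1 ((k : ℝ) + 1) = k + 1 := max_eq_right (by
        have : (0 : ℝ) ≤ k := Nat.cast_nonneg k
        linarith)
      rw [this, one_div]
    rw [h3]
    have h4 := harmonic_le_one_add_log n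
    have h5 : Real.log n ≤ Real.log ((n + 1 : ℕ) : ℝ) := by
      rcases Nat.eq_zero_or_pos n with h6 | h6
      · subst h6; simp
      · exact Real.log_le_log (by exact_mod_cast h6) (by push_cast; linarith)
    have h6 : (1 / (max 1 0 : ℕ) : ℝ) = 1 := by norm_num
    rw [h6]
    linarith
  rw [← mul_sum, sum_add_distrib, h1]
  have h3 : (g : ℝ) * (∑ j ∈ range g, (1 / (max 1 j : ℕ) : ℝ) +
      ∑ j ∈ range g, (1 / (max 1 j : ℕ) : ℝ)) ≤ g * ((2 + Real.log g) + (2 + Real.log g)) :=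
    mul_le_mul_of_nonneg_left (add_le_add h2 h2) hg0.le
  refine h3.trans ?_
  nlinarith [mul_nonneg hg0.le hlog]

/-- The points are not close to each other. -/
theorem c10b_sep (K : ℕ) {r1 c1 r2 c2 : ℕ} (hr1 : r1 ∈ Icc 1 K) (hr2 : r2 ∈ Icc 1 K)
    (m : ℤ) (h : (K : ℝ) ^ 2 * |(c1 : ℝ) / r1 - c2 / r2 - m| < 1) :
    (c1 : ℝ) / r1 - c2 / r2 = m := by
  rw [mem_Icc] at hr1 hr2
  have h1 : (0 : ℝ) < r1 := by exact_mod_cast hr1.1
  have h2 : (0 : ℝ) < r2 := by exact_mod_cast hr2.1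
  have h1K : (r1 : ℝ) ≤ K := by exact_mod_cast hr1.2
  have h2K : (r2 : ℝ) ≤ K := by exact_mod_cast hr2.2
  have h3 : (r1 : ℝ) * r2 * |(c1 : ℝ) / r1 - c2 / r2 - m| < 1 := by
    refine lt_of_le_of_lt (mul_le_mul_of_nonneg_right ?_ (abs_nonneg _)) h
    nlinarith
  have h4 : (r1 : ℝ) * r2 * |(c1 : ℝ) / r1 - c2 / r2 - m| =
      |(((c1 : ℤ) * r2 - c2 * r1 - m * (r1 * r2) : ℤ) : ℝ)| := by
    rw [← abs_of_pos (mul_pos h1 h2), ← abs_mul]
    congr 1
    push_cast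
    field_simp
  rw [h4, ← Int.cast_abs] at h3
  have h5 : |(c1 : ℤ) * r2 - c2 * r1 - m * (r1 * r2)| < 1 := by exact_mod_cast h3
  have h6 : (c1 : ℤ) * r2 - c2 * r1 - m * (r1 * r2) = 0 := Int.abs_lt_one_iff.mp h5
  have h7 : (c1 : ℝ) * r2 - c2 * r1 - m * (r1 * r2) = 0 := by exact_mod_cast h6
  have h8 : (c1 : ℝ) / r1 - c2 / r2 = (c1 * r2 - c2 * r1) / (r1 * r2) := by
    field_simp
  rw [h8, div_eq_iff (mul_pos h1 h2).ne']
  linarith

/-- The value of `nn` at such a point is not small. -/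
theorem c10b_big (K : ℕ) {r1 c1 r2 c2 : ℕ} (hr1 : r1 ∈ Icc 1 K) (hr2 : r2 ∈ Icc 1 K)
    (h : nn ((c1 : ℝ) / r1 + c2 / r2) ≠ 0) :
    1 ≤ ((K ^ 2 : ℕ) : ℝ) * nn ((c1 : ℝ) / r1 + c2 / r2) := by
  by_contra hlt
  push Not at hlt
  rw [mem_Icc] at hr1 hr2
  have h1 : (0 : ℝ) < r1 := by exact_mod_cast hr1.1
  have h2 : (0 : ℝ) < r2 := by exact_mod_cast hr2.1
  have h1K : (r1 : ℝ) ≤ K := by exact_mod_cast hr1.2
  have h2K : (r2 : ℝ) ≤ K := by exact_mod_cast hr2.2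
  set m : ℤ := round ((c1 : ℝ) / r1 + c2 / r2) with hm
  have hnn : nn ((c1 : ℝ) / r1 + c2 / r2) = |(c1 : ℝ) / r1 + c2 / r2 - m| := rfl
  rw [hnn] at hlt h
  have h3 : (r1 : ℝ) * r2 * |(c1 : ℝ) / r1 + c2 / r2 - m| < 1 := by
    refine lt_of_le_of_lt (mul_le_mul_of_nonneg_right ?_ (abs_nonneg _)) hlt
    push_cast
    nlinarith
  have h4 : (r1 : ℝ) * r2 * |(c1 : ℝ) / r1 + c2 / r2 - m| =
      |(((c1 : ℤ) * r2 + c2 * r1 - m * (r1 * r2) : ℤ) : ℝ)| := by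
    rw [← abs_of_pos (mul_pos h1 h2), ← abs_mul]
    congr 1
    push_cast
    field_simp
  rw [h4, ← Int.cast_abs] at h3
  have h5 : |(c1 : ℤ) * r2 + c2 * r1 - m * (r1 * r2)| < 1 := by exact_mod_cast h3
  have h6 : (c1 : ℤ) * r2 + c2 * r1 - m * (r1 * r2) = 0 := Int.abs_lt_one_iff.mp h5
  have h7 : (c1 : ℝ) * r2 + c2 * r1 - m * (r1 * r2) = 0 := by exact_mod_cast h6
  apply h
  have h8 : (c1 : ℝ) / r1 + c2 / r2 - m = (c1 * r2 + c2 * r1 - m * (r1 * r2)) / (r1 * r2) := by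
    field_simp
  rw [h8, h7, zero_div, abs_zero]

/-- C10b -/
theorem inv_spacing_pr : ∃ C : ℝ, 0 < C ∧ ∀ K : ℕ, 1 ≤ K → ∀ r ∈ Icc 1 K, ∀ c ∈ Cd r,
    ∑ r' ∈ Icc 1 K, ∑ c' ∈ Cd r', (if nn ((c : ℝ) / r + c' / r') = 0 then 0 else
      1 / nn ((c : ℝ) / r + c' / r')) ≤ C * (K : ℝ) ^ 2 * (1 + Real.log K) := by
  refine ⟨8, by norm_num, ?_⟩
  intro K hK r hr c hc
  have hK1 : (1 : ℝ) ≤ K := by exact_mod_cast hK
  have hlK : 0 ≤ Real.log K := Real.log_nonneg hK1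
  have hg : 1 ≤ K ^ 2 := Nat.one_le_pow _ _ hK
  have hg0 : (0 : ℝ) < ((K ^ 2 : ℕ) : ℝ) := by exact_mod_cast hg
  rw [Finset.sum_sigma']
  set Sg := (Icc 1 K).sigma (fun r' => Cd r') with hSg
  let y : (Σ _ : ℕ, ℕ) → ℝ := fun s => (c : ℝ) / r + s.2 / s.1
  let f : (Σ _ : ℕ, ℕ) → ℕ := fun s => ⌊((K ^ 2 : ℕ) : ℝ) * Int.fract (y s)⌋₊
  let F : ℕ → ℝ := fun j => ((K ^ 2 : ℕ) : ℝ) * (1 / (max 1 j : ℕ) + 1 / (max 1 (K ^ 2 - 1 - j) : ℕ))
  have hF0 : ∀ j, 0 ≤ F j := fun j => by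
    have : (0 : ℝ) ≤ 1 / (max 1 j : ℕ) + 1 / (max 1 (K ^ 2 - 1 - j) : ℕ) := by positivity
    exact mul_nonneg hg0.le this
  have hmaps : ∀ s ∈ Sg, f s ∈ range (K ^ 2) := by
    intro s _
    rw [mem_range]
    have h1 : ((K ^ 2 : ℕ) : ℝ) * Int.fract (y s) < ((K ^ 2 : ℕ) : ℝ) := by
      have := Int.fract_lt_one (y s)
      nlinarith
    exact (Nat.floor_lt (mul_nonneg hg0.le (Int.fract_nonneg _))).mpr h1
  have hinj : Set.InjOn f (Sg : Set (Σ _ : ℕ, ℕ)) := by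
    rintro ⟨r1, c1⟩ h1 ⟨r2, c2⟩ h2 h12
    rw [mem_coe, hSg, mem_sigma] at h1 h2
    obtain ⟨hr1, hc1⟩ := h1
    obtain ⟨hr2, hc2⟩ := h2
    dsimp only at hr1 hc1 hr2 hc2
    have a1 := Nat.floor_le (mul_nonneg hg0.le (Int.fract_nonneg (y ⟨r1, c1⟩)))
    have a2 := Nat.floor_le (mul_nonneg hg0.le (Int.fract_nonneg (y ⟨r2, c2⟩)))
    have b1 := Nat.lt_floor_add_one (((K ^ 2 : ℕ) : ℝ) * Int.fract (y ⟨r1, c1⟩))
    have b2 := Nat.lt_floor_add_one (((K ^ 2 : ℕ) : ℝ) * Int.fract (y ⟨r2, c2⟩))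
    have h12' : ⌊((K ^ 2 : ℕ) : ℝ) * Int.fract (y ⟨r1, c1⟩)⌋₊ =
      ⌊((K ^ 2 : ℕ) : ℝ) * Int.fract (y ⟨r2, c2⟩)⌋₊ := h12
    rw [h12'] at a1 b1
    have h3 : ((K ^ 2 : ℕ) : ℝ) * |Int.fract (y ⟨r1, c1⟩) - Int.fract (y ⟨r2, c2⟩)| < 1 := by
      rw [← abs_of_pos hg0, ← abs_mul, abs_lt]
      constructor <;> nlinarith
    have h4 : Int.fract (y ⟨r1, c1⟩) - Int.fract (y ⟨r2, c2⟩) =
        (c1 : ℝ) / r1 - c2 / r2 - ((⌊y ⟨r1, c1⟩⌋ - ⌊y ⟨r2, c2⟩⌋ : ℤ) : ℝ) := by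
      rw [← Int.self_sub_floor, ← Int.self_sub_floor]
      push_cast
      simp only [y]
      ring
    rw [h4] at h3
    have h5 := c10b_sep (c1 := c1) (c2 := c2) K hr1 hr2 (⌊y ⟨r1, c1⟩⌋ - ⌊y ⟨r2, c2⟩⌋ : ℤ)
      (by rw [Nat.cast_pow] at h3; exact h3)
    -- the integer is zero
    have hc1' := mem_filter.mp hc1
    have hc2' := mem_filter.mp hc2
    rw [mem_range] at hc1' hc2'
    rw [mem_Icc] at hr1 hr2
    have p1 : (0 : ℝ) < r1 := by exact_mod_cast hr1.1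
    have p2 : (0 : ℝ) < r2 := by exact_mod_cast hr2.1
    have q1 : (c1 : ℝ) / r1 < 1 := by
      rw [div_lt_one p1]; exact_mod_cast hc1'.1
    have q2 : (c2 : ℝ) / r2 < 1 := by
      rw [div_lt_one p2]; exact_mod_cast hc2'.1
    have q3 : (0 : ℝ) ≤ (c1 : ℝ) / r1 := by positivity
    have q4 : (0 : ℝ) ≤ (c2 : ℝ) / r2 := by positivity
    have h6 : (⌊y ⟨r1, c1⟩⌋ - ⌊y ⟨r2, c2⟩⌋ : ℤ) = 0 := by
      have u1 : ((⌊y ⟨r1, c1⟩⌋ - ⌊y ⟨r2, c2⟩⌋ : ℤ) : ℝ) < 1 := by rw [← h5]; linarith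
      have u2 : (-1 : ℝ) < ((⌊y ⟨r1, c1⟩⌋ - ⌊y ⟨r2, c2⟩⌋ : ℤ) : ℝ) := by rw [← h5]; linarith
      have u3 : (⌊y ⟨r1, c1⟩⌋ - ⌊y ⟨r2, c2⟩⌋ : ℤ) < 1 := by exact_mod_cast u1
      have u4 : (-1 : ℤ) < (⌊y ⟨r1, c1⟩⌋ - ⌊y ⟨r2, c2⟩⌋ : ℤ) := by exact_mod_cast u2
      omega
    rw [h6, Int.cast_zero, sub_eq_zero, div_eq_div_iff p1.ne' p2.ne'] at h5
    have h7 : c1 * r2 = c2 * r1 := by exact_mod_cast h5
    have e1 : r1 ∣ r2 := hc1'.2.symm.dvd_of_dvd_mul_left (h7 ▸ Dvd.intro_left c2 rfl)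
    have e2 : r2 ∣ r1 := hc2'.2.symm.dvd_of_dvd_mul_left (h7 ▸ Dvd.intro_left c1 rfl)
    have e3 : r1 = r2 := Nat.dvd_antisymm e1 e2
    subst e3
    have e4 : c1 = c2 := Nat.eq_of_mul_eq_mul_right (by omega) h7
    rw [e4]
  have hterm : ∀ s ∈ Sg, (if nn ((c : ℝ) / r + s.2 / s.1) = 0 then 0 else
      1 / nn ((c : ℝ) / r + s.2 / s.1)) ≤ F (f s) := by
    rintro ⟨r1, c1⟩ h1
    rw [hSg, mem_sigma] at h1
    exact c10b_term (K ^ 2) hg ((c : ℝ) / r + (c1 : ℝ) / r1) (fun h => c10b_big K hr h1.1 h)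
  calc ∑ s ∈ Sg, (if nn ((c : ℝ) / r + s.2 / s.1) = 0 then 0 else
      1 / nn ((c : ℝ) / r + s.2 / s.1)) ≤ ∑ s ∈ Sg, F (f s) := sum_le_sum hterm
    _ = ∑ j ∈ Sg.image f, F j := (sum_image hinj).symm
    _ ≤ ∑ j ∈ range (K ^ 2), F j := by
        refine sum_le_sum_of_subset_of_nonneg ?_ (fun j _ _ => hF0 j)
        intro j hj
        obtain ⟨s, hs, rfl⟩ := mem_image.mp hj
        exact hmaps s hs
    _ ≤ 4 * (((K ^ 2 : ℕ) : ℝ) * (1 + Real.log ((K ^ 2 : ℕ) : ℝ))) := c10b_harm (K ^ 2) hg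
    _ ≤ 8 * (K : ℝ) ^ 2 * (1 + Real.log K) := by
        push_cast
        rw [Real.log_pow]
        push_cast
        nlinarith [sq_nonneg (K : ℝ)]

end Pool.Agent.AAX

namespace Pool.Agent.AAX

/-- alias -/
theorem inv_spacing : type_of% @inv_spacing_pr := @inv_spacing_pr

end Pool.Agent.AAX

/-! ### C10c -/

/-!
# AAX, block C10c: a sum of Ramanujan sums
-/

namespace Pool.Agent.AAX

open Finset MeasureTheory Pool.Agent.Var35 Pool.Agent.Var73 Pool.Agent.PV Pool.Agent.FGP Pool.Agent.FGA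
open scoped ArithmeticFunction ArithmeticFunction.Moebius

theorem c10c_cR (r k : ℕ) : cR r k = (ram r (k : ℤ)).re := by
  unfold cR ram Cd
  rw [Complex.re_sum]
  refine sum_congr rfl fun c _ => ?_
  unfold e
  rw [Complex.exp_ofReal_mul_I_re]
  congr 1
  push_cast
  ring

/-- The bound of a Ramanujan sum by a sum of divisors. -/
theorem c10c_abs (r h : ℕ) (hr : 1 ≤ r) :
    |cR r h| ≤ ∑ d ∈ r.divisors, (if d ∣ h then (d : ℝ) else 0) := by
  rw [c10c_cR]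
  refine (Complex.abs_re_le_norm _).trans ?_
  rw [ram_eq r hr, ← Nat.sum_div_divisors r (fun d => if d ∣ h then (d : ℝ) else 0)]
  refine (norm_sum_le _ _).trans (sum_le_sum fun d _ => ?_)
  rw [norm_mul]
  have h1 : ‖((μ d : ℤ) : ℂ)‖ ≤ 1 := by
    rw [Complex.norm_intCast]
    exact_mod_cast ArithmeticFunction.abs_moebius_le_one (n := d)
  have h4 : (((r / d : ℕ) : ℤ) ∣ (h : ℤ)) ↔ (r / d) ∣ h := Int.natCast_dvd_natCast
  by_cases h5 : (r / d) ∣ h
  · rw [if_pos (h4.2 h5), if_pos h5, Complex.norm_natCast]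
    calc _ ≤ 1 * ((r / d : ℕ) : ℝ) := mul_le_mul_of_nonneg_right h1 (Nat.cast_nonneg _)
      _ = _ := one_mul _
  · rw [if_neg (fun h => h5 (h4.1 h)), if_neg h5, norm_zero, mul_zero]

/-- The weight. -/
theorem c10c_wt (K r : ℕ) (hr : r ∈ Icc 1 K) :
    mr r ^ 2 * r ≤ 4 * (1 + Real.log K) ^ 2 * (1 / r) := by
  rw [mem_Icc] at hr
  have hr1 : (1 : ℝ) ≤ r := by exact_mod_cast hr.1
  have hr0 : (0 : ℝ) < r := by linarith
  have hrK : (r : ℝ) ≤ K := by exact_mod_cast hr.2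
  have hphi : (0 : ℝ) < Nat.totient r := by exact_mod_cast Nat.totient_pos.2 hr.1
  have hl : Real.log r ≤ Real.log K := Real.log_le_log hr0 hrK
  have hl0 : 0 ≤ Real.log r := Real.log_nonneg hr1
  have h1 := totient_ge r hr.1
  have h2 : (r : ℝ) ≤ 2 * (1 + Real.log K) * Nat.totient r := by
    refine h1.trans (mul_le_mul_of_nonneg_right ?_ hphi.le)
    linarith
  have h3 : mr r ^ 2 ≤ 1 / (Nat.totient r : ℝ) ^ 2 := by
    unfold mr
    rw [div_pow]
    refine div_le_div_of_nonneg_right ?_ (by positivity)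
    have h4 : |((μ r : ℤ) : ℝ)| ≤ 1 := by
      have := ArithmeticFunction.abs_moebius_le_one (n := r)
      exact_mod_cast this
    rw [← sq_abs]
    nlinarith [abs_nonneg ((μ r : ℤ) : ℝ)]
  have h5 : (r : ℝ) * r ≤ (2 * (1 + Real.log K) * Nat.totient r) *
      (2 * (1 + Real.log K) * Nat.totient r) :=
    mul_le_mul h2 h2 hr0.le (by nlinarith)
  calc mr r ^ 2 * r ≤ 1 / (Nat.totient r : ℝ) ^ 2 * r := mul_le_mul_of_nonneg_right h3 hr0.le
    _ ≤ 4 * (1 + Real.log K) ^ 2 * (1 / r) := by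
      rw [mul_one_div, one_div_mul_eq_div, div_le_div_iff₀ (by positivity) hr0]
      nlinarith

/-- C10c -/
theorem cr_sum_pr : ∃ C : ℝ, 0 < C ∧ ∀ K h : ℕ, 1 ≤ K → 1 ≤ h →
    ∑ r ∈ Icc 1 K, mr r ^ 2 * |cR r h| * r ≤ C * (1 + Real.log K) ^ 3 * (h.divisors.card : ℝ) := by
  refine ⟨4, by norm_num, ?_⟩
  intro K h hK hh
  have hK1 : (1 : ℝ) ≤ K := by exact_mod_cast hK
  have hlK : 0 ≤ Real.log K := Real.log_nonneg hK1
  have hL : 0 ≤ 1 + Real.log K := by linarith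
  -- first step
  have h1 : ∑ r ∈ Icc 1 K, mr r ^ 2 * |cR r h| * r ≤
      4 * (1 + Real.log K) ^ 2 * ∑ r ∈ Icc 1 K, ∑ d ∈ r.divisors,
        (if d ∣ h then (d : ℝ) / r else 0) := by
    rw [mul_sum]
    refine sum_le_sum fun r hr => ?_
    have hr' := mem_Icc.mp hr
    have hr0 : (0 : ℝ) < r := by exact_mod_cast hr'.1
    have h2 := c10c_abs r h hr'.1
    have h3 := c10c_wt K r hr
    have h4 : ∑ d ∈ r.divisors, (if d ∣ h then (d : ℝ) / r else 0) =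
        (1 / r) * ∑ d ∈ r.divisors, (if d ∣ h then (d : ℝ) else 0) := by
      rw [mul_sum]
      refine sum_congr rfl fun d _ => ?_
      split_ifs
      · ring
      · ring
    have h5 : 0 ≤ ∑ d ∈ r.divisors, (if d ∣ h then (d : ℝ) else 0) :=
      sum_nonneg fun d _ => by split_ifs <;> positivity
    rw [h4]
    calc mr r ^ 2 * |cR r h| * r = (mr r ^ 2 * r) * |cR r h| := by ring
      _ ≤ (4 * (1 + Real.log K) ^ 2 * (1 / r)) *
          ∑ d ∈ r.divisors, (if d ∣ h then (d : ℝ) else 0) :=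
        mul_le_mul h3 h2 (abs_nonneg _) (by positivity)
      _ = _ := by ring
  -- interchange
  have h2 : ∑ r ∈ Icc 1 K, ∑ d ∈ r.divisors, (if d ∣ h then (d : ℝ) / r else 0) =
      ∑ d ∈ Icc 1 K, ∑ r ∈ Icc 1 K, (if d ∣ r then (if d ∣ h then (d : ℝ) / r else 0) else 0) := by
    rw [sum_comm]
    refine sum_congr rfl fun r hr => ?_
    have hr' := mem_Icc.mp hr
    rw [← sum_filter (fun d => d ∣ r) (fun d => if d ∣ h then (d : ℝ) / r else 0)]
    refine sum_congr ?_ fun _ _ => rfl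
    ext d
    rw [mem_filter, Nat.mem_divisors, mem_Icc]
    constructor
    · rintro ⟨h3, h4⟩
      exact ⟨⟨Nat.pos_of_dvd_of_pos h3 hr'.1, (Nat.le_of_dvd hr'.1 h3).trans hr'.2⟩, h3⟩
    · rintro ⟨_, h4⟩
      exact ⟨h4, by omega⟩
  have h3 : ∀ d ∈ Icc 1 K, ∑ r ∈ Icc 1 K,
      (if d ∣ r then (if d ∣ h then (d : ℝ) / r else 0) else 0) ≤
      (if d ∣ h then 1 + Real.log K else 0) := by
    intro d hd
    have hd' := mem_Icc.mp hd
    have hd0 : (0 : ℝ) < d := by exact_mod_cast hd'.1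
    by_cases h4 : d ∣ h
    · simp only [if_pos h4]
      rw [← sum_filter]
      have h5 : (Icc 1 K).filter (fun r => d ∣ r) = (Icc 1 (K / d)).image (fun m => d * m) := by
        ext r
        rw [mem_filter, mem_image, mem_Icc]
        constructor
        · rintro ⟨⟨h6, h7⟩, m, rfl⟩
          refine ⟨m, ?_, rfl⟩
          rw [mem_Icc]
          refine ⟨Nat.pos_of_ne_zero (fun h8 => by subst h8; omega), ?_⟩
          rw [Nat.le_div_iff_mul_le hd'.1]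
          linarith [mul_comm d m]
        · rintro ⟨m, hm, rfl⟩
          rw [mem_Icc, Nat.le_div_iff_mul_le hd'.1] at hm
          refine ⟨⟨Nat.mul_pos hd'.1 hm.1, ?_⟩, Dvd.intro m rfl⟩
          linarith [mul_comm d m]
      rw [h5, sum_image (fun a _ b _ hab => Nat.eq_of_mul_eq_mul_left hd'.1 hab)]
      have h6 : ∑ m ∈ Icc 1 (K / d), ((d : ℝ) / ((d * m : ℕ) : ℝ)) =
          ((harmonic (K / d) : ℚ) : ℝ) := by
        rw [harmonic_eq_sum_Icc]
        push_cast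
        refine sum_congr rfl fun m hm => ?_
        have hm0 : (0 : ℝ) < m := by exact_mod_cast (mem_Icc.mp hm).1
        field_simp
      rw [h6]
      refine (harmonic_le_one_add_log _).trans ?_
      have h7 : Real.log ((K / d : ℕ) : ℝ) ≤ Real.log K := by
        rcases Nat.eq_zero_or_pos (K / d) with h8 | h8
        · rw [h8]; simpa using hlK
        · exact Real.log_le_log (by exact_mod_cast h8) (by exact_mod_cast Nat.div_le_self K d)
      linarith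
    · simp only [if_neg h4, ite_self, sum_const_zero, le_refl]
  have h4 : ∑ d ∈ Icc 1 K, (if d ∣ h then 1 + Real.log K else 0) ≤
      (h.divisors.card : ℝ) * (1 + Real.log K) := by
    rw [← sum_filter, sum_const, nsmul_eq_mul]
    refine mul_le_mul_of_nonneg_right ?_ hL
    have h5 : (Icc 1 K).filter (fun d => d ∣ h) ⊆ h.divisors := by
      intro d hd
      rw [mem_filter] at hd
      exact Nat.mem_divisors.mpr ⟨hd.2, by omega⟩
    exact_mod_cast card_le_card h5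
  calc ∑ r ∈ Icc 1 K, mr r ^ 2 * |cR r h| * r
      ≤ 4 * (1 + Real.log K) ^ 2 * ∑ r ∈ Icc 1 K, ∑ d ∈ r.divisors,
        (if d ∣ h then (d : ℝ) / r else 0) := h1
    _ ≤ 4 * (1 + Real.log K) ^ 2 * ((h.divisors.card : ℝ) * (1 + Real.log K)) := by
        refine mul_le_mul_of_nonneg_left ?_ (by positivity)
        rw [h2]
        exact (sum_le_sum h3).trans h4
    _ = _ := by ring

end Pool.Agent.AAX

namespace Pool.Agent.AAX

/-- alias -/
theorem cr_sum : type_of% @cr_sum_pr := @cr_sum_pr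

end Pool.Agent.AAX

/-! ### C10d -/

/-!
# AAX, block C10d: the correlations of `gh`
-/

namespace Pool.Agent.AAX

open Finset MeasureTheory Pool.Agent.Var35 Pool.Agent.Var73 Pool.Agent.PV Pool.Agent.FGP Pool.Agent.FGA
open scoped ArithmeticFunction ArithmeticFunction.Moebius

/-! ### partial summation -/

theorem c10d_abel (a : ℕ → ℝ) (z : ℕ → ℂ) (M : ℝ) (hz : ∀ n, ‖∑ j ∈ range n, z j‖ ≤ M) (n : ℕ) :
    ‖∑ j ∈ range n, (a j : ℂ) * z j‖ ≤ M * (|a n| + ∑ j ∈ range n, |a (j + 1) - a j|) := by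
  have key : ∀ n : ℕ, ∑ j ∈ range n, (a j : ℂ) * z j = (a n : ℂ) * ∑ j ∈ range n, z j
      - ∑ j ∈ range n, ((a (j + 1) - a j : ℝ) : ℂ) * ∑ i ∈ range (j + 1), z i := by
    intro n
    induction n with
    | zero => simp
    | succ n ih =>
      rw [sum_range_succ (fun j => (a j : ℂ) * z j), ih,
        sum_range_succ (fun j => ((a (j + 1) - a j : ℝ) : ℂ) * ∑ i ∈ range (j + 1), z i),
        sum_range_succ z]
      push_cast
      ring
  rw [key]
  refine (norm_sub_le _ _).trans ?_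
  rw [mul_add, mul_sum (range n) (fun j => |a (j + 1) - a j|) M]
  refine add_le_add ?_ ((norm_sum_le _ _).trans (sum_le_sum fun j _ => ?_))
  · rw [norm_mul, Complex.norm_real, Real.norm_eq_abs, mul_comm]
    exact mul_le_mul_of_nonneg_right (hz n) (abs_nonneg _)
  · rw [norm_mul, Complex.norm_real, Real.norm_eq_abs, mul_comm]
    exact mul_le_mul_of_nonneg_right (hz _) (abs_nonneg _)

theorem c10d_nn {x : ℝ} : nn x = 0 ↔ ∃ k : ℤ, x = k := by
  unfold nn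
  constructor
  · intro h
    exact ⟨round x, by linarith [abs_eq_zero.1 h]⟩
  · rintro ⟨k, rfl⟩
    rw [round_intCast, sub_self, abs_zero]

theorem c10d_geom (A : ℤ) (x : ℝ) (hx : nn x ≠ 0) (n : ℕ) :
    ‖∑ j ∈ range n, e (((A + (j : ℤ) : ℤ) : ℝ) * x)‖ ≤ 1 / (2 * nn x) := by
  set a : ℝ := x - round x with ha
  have ha0 : 0 < |a| := lt_of_le_of_ne (abs_nonneg _) (Ne.symm hx)
  have ha1 : |a| ≤ 1 / 2 := abs_sub_round x
  have h1 : ∀ j ∈ range n, e (((A + (j : ℤ) : ℤ) : ℝ) * x) = e (A * a) * e ((j : ℝ) * a) := by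
    intro j _
    have e1 : ((A + (j : ℤ) : ℤ) : ℝ) * x = (A * a + j * a) + (((A + j) * round x : ℤ) : ℝ) := by
      rw [ha]; push_cast; ring
    rw [e1, e_add_int, e_add]
  rw [sum_congr rfl h1, ← mul_sum, norm_mul, norm_e, one_mul]
  exact geom_bound ha0 ha1 n

theorem c10d_Icc {M : Type*} [AddCommMonoid M] (A B : ℤ) (f : ℤ → M) :
    ∑ n ∈ Icc A B, f n = ∑ j ∈ range (B + 1 - A).toNat, f (A + j) := by
  symm
  refine Finset.sum_nbij' (fun j => A + (j : ℤ)) (fun n => (n - A).toNat) ?_ ?_ ?_ ?_ ?_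
  · intro j hj
    rw [mem_range] at hj
    rw [mem_Icc]
    omega
  · intro n hn
    rw [mem_Icc] at hn
    rw [mem_range]
    omega
  · intro j hj
    simp
  · intro n hn
    rw [mem_Icc] at hn
    omega
  · intro j hj
    rfl

/-- a sequence of bounded variation against an exponential -/
theorem c10d_bv {A B : ℤ} (hAB : A ≤ B + 1) (a : ℤ → ℝ) (x : ℝ) (hx : nn x ≠ 0)
    (hB : a (B + 1) = 0) (V : ℝ) (hV : ∑ n ∈ Icc A B, |a (n + 1) - a n| ≤ V) :
    ‖∑ n ∈ Icc A B, (a n : ℂ) * e (n * x)‖ ≤ V / (2 * nn x) := by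
  have h0 : 0 ≤ nn x := abs_nonneg _
  rw [c10d_Icc] at hV ⊢
  have h1 := c10d_abel (fun j => a (A + j)) (fun j => e (((A + (j : ℤ) : ℤ) : ℝ) * x))
    (1 / (2 * nn x)) (c10d_geom A x hx) (B + 1 - A).toNat
  have h2 : A + (((B + 1 - A).toNat : ℕ) : ℤ) = B + 1 := by omega
  rw [h2, hB, abs_zero, zero_add] at h1
  refine h1.trans ?_
  rw [div_eq_mul_one_div V, mul_comm V]
  refine mul_le_mul_of_nonneg_left (le_trans (le_of_eq ?_) hV) (by positivity)
  refine sum_congr rfl fun j _ => ?_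
  have e1 : A + ((j + 1 : ℕ) : ℤ) = A + (j : ℤ) + 1 := by push_cast; ring
  rw [e1]

/-! ### the smoothed interval -/

/-- `[1, N]` -/
noncomputable def c10dI (N : ℕ) (n : ℤ) : ℝ := if 1 ≤ n ∧ n ≤ N then 1 else 0

/-- the ends of `[1, N]` -/
noncomputable def c10dJ (N L : ℕ) (n : ℤ) : ℝ :=
  if n ∈ Ioo (1 - 4 * (L : ℤ)) (4 * (L : ℤ)) ∪ Ioo ((N : ℤ) - 4 * L) (N + 4 * L) then 1 else 0

theorem c10d_AI {N K r : ℕ} (h : 1 ≤ r * lw N K) (n : ℤ) :
    |Ar N K r n - c10dI N n| ≤ c10dJ N (r * lw N K) n := by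
  obtain ⟨h1, h2, h3, h4, -⟩ := ar_facts N K r h
  unfold c10dJ
  split_ifs with hJ
  · have a := h1 n
    unfold c10dI
    split_ifs
    · rw [abs_le]; constructor <;> linarith
    · rw [abs_le]; constructor <;> linarith
  · rw [mem_union, mem_Ioo, mem_Ioo] at hJ
    have hc : n ≤ 1 - 4 * ((r * lw N K : ℕ) : ℤ) ∨ (N : ℤ) + 4 * ((r * lw N K : ℕ) : ℤ) ≤ n ∨
        (4 * ((r * lw N K : ℕ) : ℤ) ≤ n ∧ n ≤ (N : ℤ) - 4 * ((r * lw N K : ℕ) : ℤ)) := by
      omega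
    unfold c10dI
    rcases hc with hc | hc | hc
    · rw [h2 n hc, if_neg (by omega)]
      simp
    · rw [h3 n hc, if_neg (by omega)]
      simp
    · rw [h4 n hc.1 hc.2, if_pos (by omega)]
      simp

theorem c10d_J (N L : ℕ) (S : Finset ℤ) : ∑ n ∈ S, c10dJ N L n ≤ 16 * L := by
  unfold c10dJ
  rw [← sum_filter, sum_const, nsmul_eq_mul, mul_one]
  have h1 : (S.filter (fun n => n ∈ Ioo (1 - 4 * (L : ℤ)) (4 * (L : ℤ)) ∪
      Ioo ((N : ℤ) - 4 * L) (N + 4 * L))).card ≤ 16 * L := by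
    refine (card_le_card (t := Ioo (1 - 4 * (L : ℤ)) (4 * (L : ℤ)) ∪
      Ioo ((N : ℤ) - 4 * L) (N + 4 * L)) fun n hn => (mem_filter.1 hn).2).trans ?_
    refine (card_union_le _ _).trans ?_
    rw [Int.card_Ioo, Int.card_Ioo]
    omega
  exact_mod_cast h1

theorem c10d_II (N h : ℕ) (hh : 1 ≤ h) :
    ∑ n ∈ Icc (1 - (N : ℤ)) (2 * N), c10dI N n * c10dI N (n + h) = max 0 ((N : ℝ) - h) := by
  have e1 : ∀ n ∈ Icc (1 - (N : ℤ)) (2 * N), c10dI N n * c10dI N (n + h) =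
      if n ∈ Icc (1 : ℤ) ((N : ℤ) - h) then 1 else 0 := by
    intro n _
    unfold c10dI
    by_cases h1 : n ∈ Icc (1 : ℤ) ((N : ℤ) - h)
    · rw [if_pos h1]
      rw [mem_Icc] at h1
      rw [if_pos (by omega), if_pos (by omega), mul_one]
    · rw [if_neg h1]
      rw [mem_Icc] at h1
      by_cases h2 : 1 ≤ n ∧ n ≤ N
      · rw [if_neg (fun h3 : 1 ≤ n + (h : ℤ) ∧ n + (h : ℤ) ≤ N => h1 ⟨by omega, by omega⟩), mul_zero]
      · rw [if_neg h2, zero_mul]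
  rw [sum_congr rfl e1, ← sum_filter, sum_const, nsmul_eq_mul, mul_one]
  have e2 : (Icc (1 - (N : ℤ)) (2 * N)).filter (fun n => n ∈ Icc (1 : ℤ) ((N : ℤ) - h)) =
      Icc (1 : ℤ) ((N : ℤ) - h) := by
    ext n
    rw [mem_filter, mem_Icc, mem_Icc]
    omega
  rw [e2, Int.card_Icc]
  have e3 : (((((N : ℤ) - h + 1 - 1).toNat : ℕ) : ℤ) : ℝ) = ((max 0 ((N : ℤ) - h) : ℤ) : ℝ) := by
    congr 1
    omega
  have e4 : ((max 0 ((N : ℤ) - h) : ℤ) : ℝ) = max 0 ((N : ℝ) - h) := by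
    push_cast
    rfl
  rw [← e4, ← e3]
  norm_cast

/-- the diagonal sum -/
theorem c10d_D {N K r : ℕ} (h : 1 ≤ r * lw N K) (s : ℕ) (hs : 1 ≤ s) :
    |∑ n ∈ Icc (1 - (N : ℤ)) (2 * N), Ar N K r n * Ar N K r (n + s) - max 0 ((N : ℝ) - s)| ≤
      32 * ((r * lw N K : ℕ) : ℝ) := by
  obtain ⟨h1, -⟩ := ar_facts N K r h
  rw [← c10d_II N s hs, ← sum_sub_distrib]
  refine (abs_sum_le_sum_abs _ _).trans ?_
  have e1 : ∀ n ∈ Icc (1 - (N : ℤ)) (2 * N),
      |Ar N K r n * Ar N K r (n + s) - c10dI N n * c10dI N (n + s)| ≤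
      c10dJ N (r * lw N K) n + c10dJ N (r * lw N K) (n + s) := by
    intro n _
    have a1 := c10d_AI h n
    have a2 := c10d_AI h (n + s)
    have b1 := h1 n
    have b2 := h1 (n + s)
    have hI : 0 ≤ c10dI N n ∧ c10dI N n ≤ 1 := by
      unfold c10dI
      split_ifs <;> norm_num
    have e2 : Ar N K r n * Ar N K r (n + s) - c10dI N n * c10dI N (n + s) =
        (Ar N K r n - c10dI N n) * Ar N K r (n + s) +
        c10dI N n * (Ar N K r (n + s) - c10dI N (n + s)) := by ring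
    rw [e2]
    refine (abs_add_le _ _).trans (add_le_add ?_ ?_)
    · rw [abs_mul, abs_of_nonneg b2.1]
      exact (mul_le_of_le_one_right (abs_nonneg _) b2.2).trans a1
    · rw [abs_mul, abs_of_nonneg hI.1]
      exact (mul_le_of_le_one_left (abs_nonneg _) hI.2).trans a2
  refine (sum_le_sum e1).trans ?_
  rw [sum_add_distrib]
  have e3 := c10d_J N (r * lw N K) (Icc (1 - (N : ℤ)) (2 * N))
  have e4 : ∑ n ∈ Icc (1 - (N : ℤ)) (2 * N), c10dJ N (r * lw N K) (n + s) ≤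
      16 * ((r * lw N K : ℕ) : ℝ) := by
    rw [← sum_image (f := fun j => c10dJ N (r * lw N K) j) (g := fun n : ℤ => n + (s : ℤ))
      (s := Icc (1 - (N : ℤ)) (2 * N)) (fun a _ b _ hab => by simpa using hab)]
    exact c10d_J N (r * lw N K) _
  linarith

/-- the variation of the product -/
theorem c10d_var {N K r r' : ℕ} (h : 1 ≤ r * lw N K) (h' : 1 ≤ r' * lw N K) (s A B : ℤ) :
    ∑ n ∈ Icc A B, |Ar N K r (n + 1) * Ar N K r' (n + 1 + s) - Ar N K r n * Ar N K r' (n + s)| ≤ 4 := by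
  obtain ⟨h1, -, -, -, h5⟩ := ar_facts N K r h
  obtain ⟨h1', -, -, -, h5'⟩ := ar_facts N K r' h'
  have e1 : ∀ n ∈ Icc A B,
      |Ar N K r (n + 1) * Ar N K r' (n + 1 + s) - Ar N K r n * Ar N K r' (n + s)| ≤
      |Ar N K r (n + 1) - Ar N K r n| + |Ar N K r' (n + s + 1) - Ar N K r' (n + s)| := by
    intro n _
    have e0 : n + 1 + s = n + s + 1 := by ring
    rw [e0]
    have e2 : Ar N K r (n + 1) * Ar N K r' (n + s + 1) - Ar N K r n * Ar N K r' (n + s) =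
        (Ar N K r (n + 1) - Ar N K r n) * Ar N K r' (n + s + 1) +
        Ar N K r n * (Ar N K r' (n + s + 1) - Ar N K r' (n + s)) := by ring
    rw [e2]
    have b1 := h1 n
    have b2 := h1' (n + s + 1)
    refine (abs_add_le _ _).trans (add_le_add ?_ ?_)
    · rw [abs_mul, abs_of_nonneg b2.1]
      exact mul_le_of_le_one_right (abs_nonneg _) b2.2
    · rw [abs_mul, abs_of_nonneg b1.1]
      exact mul_le_of_le_one_left (abs_nonneg _) b1.2
  refine (sum_le_sum e1).trans ?_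
  rw [sum_add_distrib]
  have e3 := h5 A B
  have e4 : ∑ n ∈ Icc A B, |Ar N K r' (n + s + 1) - Ar N K r' (n + s)| ≤ 2 := by
    rw [← sum_image (f := fun j => |Ar N K r' (j + 1) - Ar N K r' j|) (g := fun n : ℤ => n + s)
      (s := Icc A B) (fun a _ b _ hab => by simpa using hab)]
    refine le_trans (le_of_eq ?_) (h5' (A + s) (B + s))
    congr 1
    ext j
    rw [mem_image, mem_Icc]
    constructor
    · rintro ⟨n, hn, rfl⟩
      rw [mem_Icc] at hn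
      omega
    · intro hj
      exact ⟨j - s, mem_Icc.2 (by omega), by ring⟩
  linarith

/-! ### the terms -/

/-- one term -/
noncomputable def c10dT (N K s : ℕ) (p p' : Σ _ : ℕ, ℕ) : ℂ :=
  ((mr p.1 * mr p'.1 : ℝ) : ℂ) * (e ((p'.2 : ℝ) * (s : ℤ) / p'.1) *
    ∑ n ∈ Icc (1 - (N : ℤ)) (2 * N), ((Ar N K p.1 n * Ar N K p'.1 (n + s) : ℝ) : ℂ) *
      e (n * ((p.2 : ℝ) / p.1 + p'.2 / p'.1)))

/-- the fractions -/
def c10dP (K : ℕ) : Finset (Σ _ : ℕ, ℕ) := (Icc 1 K).sigma (fun r => Cd r)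

theorem c10d_gn (N K : ℕ) (n : ℤ) : (gn N K n : ℂ) = ∑ p ∈ c10dP K,
    ((mr p.1 * Ar N K p.1 n : ℝ) : ℂ) * e ((p.2 : ℝ) * n / p.1) := by
  unfold c10dP gn
  rw [sum_sigma, Complex.ofReal_sum]
  refine sum_congr rfl fun r _ => ?_
  rw [Complex.ofReal_mul, Complex.ofReal_mul, P13b_cZ, mul_sum, mul_sum]
  refine sum_congr rfl fun c _ => ?_
  push_cast
  ring

theorem c10d_cg (N K s : ℕ) :
    (cg N K (s : ℤ) : ℂ) = ∑ p ∈ c10dP K, ∑ p' ∈ c10dP K, c10dT N K s p p' := by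
  unfold cg
  rw [Complex.ofReal_sum]
  have e1 : ∀ n ∈ Icc (1 - (N : ℤ)) (2 * N), ((gn N K n * gn N K (n + s) : ℝ) : ℂ) =
      ∑ p ∈ c10dP K, ∑ p' ∈ c10dP K, ((mr p.1 * mr p'.1 : ℝ) : ℂ) *
        (e ((p'.2 : ℝ) * (s : ℤ) / p'.1) *
          (((Ar N K p.1 n * Ar N K p'.1 (n + s) : ℝ) : ℂ) *
            e (n * ((p.2 : ℝ) / p.1 + p'.2 / p'.1)))) := by
    intro n _
    rw [Complex.ofReal_mul, c10d_gn, c10d_gn, sum_mul_sum]
    refine sum_congr rfl fun p _ => sum_congr rfl fun p' _ => ?_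
    have e2 : e (n * ((p.2 : ℝ) / p.1 + p'.2 / p'.1)) * e ((p'.2 : ℝ) * (s : ℤ) / p'.1) =
        e ((p.2 : ℝ) * n / p.1) * e ((p'.2 : ℝ) * ((n + (s : ℤ) : ℤ) : ℝ) / p'.1) := by
      rw [← e_add, ← e_add]
      congr 1
      push_cast
      ring
    calc _ = ((mr p.1 * Ar N K p.1 n : ℝ) : ℂ) * ((mr p'.1 * Ar N K p'.1 (n + s) : ℝ) : ℂ) *
          (e ((p.2 : ℝ) * n / p.1) * e ((p'.2 : ℝ) * ((n + (s : ℤ) : ℤ) : ℝ) / p'.1)) := by ring
      _ = _ := by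
          rw [← e2]
          push_cast
          ring
  rw [sum_congr rfl e1]
  unfold c10dT
  simp only [mul_sum]
  rw [sum_comm]
  refine sum_congr rfl fun p _ => ?_
  rw [sum_comm]

/-- the opposite fraction -/
theorem c10d_inv {r c : ℕ} (hr : 1 ≤ r) (hc : c ∈ Cd r) : ∃ c₀ ∈ Cd r,
    nn ((c : ℝ) / r + c₀ / r) = 0 ∧ ∀ r' c' : ℕ, 1 ≤ r' → c' ∈ Cd r' →
      nn ((c : ℝ) / r + c' / r') = 0 → r' = r ∧ c' = c₀ := by
  have hr0 : (r : ℝ) ≠ 0 := by positivity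
  obtain ⟨c₀, hc₀, hn⟩ : ∃ c₀ ∈ Cd r, nn ((c : ℝ) / r + c₀ / r) = 0 := by
    rcases Nat.lt_or_ge r 2 with h2 | h2
    · have h1 : r = 1 := by omega
      subst h1
      refine ⟨0, by decide, ?_⟩
      rw [c10d_nn]
      exact ⟨c, by simp⟩
    · simp only [Cd, mem_filter, mem_range] at hc
      refine ⟨r - c, ?_, ?_⟩
      · simp only [Cd, mem_filter, mem_range]
        have h0 : c ≠ 0 := by
          rintro rfl
          have := hc.2
          simp at this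
          omega
        refine ⟨by omega, ?_⟩
        rw [Nat.coprime_self_sub_left hc.1.le]
        exact hc.2
      · rw [c10d_nn]
        refine ⟨1, ?_⟩
        rw [Nat.cast_sub hc.1.le]
        field_simp
        push_cast
        ring
  refine ⟨c₀, hc₀, hn, fun r' c' hr' hc' hn' => ?_⟩
  have hr0' : (r' : ℝ) ≠ 0 := by positivity
  obtain ⟨k, hk⟩ := c10d_nn.1 hn
  obtain ⟨k', hk'⟩ := c10d_nn.1 hn'
  by_contra hne
  refine P13b_frac hr hr' hc₀ hc' (fun h => hne ⟨h.1.symm, h.2.symm⟩) ⟨k - k', ?_⟩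
  have h1 : ((c₀ : ℝ) * r' - c' * r) = (r * r') * (k - k') := by
    have h2 : (c₀ : ℝ) / r - c' / r' = k - k' := by linarith
    rw [← h2]
    field_simp
  exact_mod_cast h1

theorem c10d_diag_term {N K s r c c₀ : ℕ}
    (hn : nn ((c : ℝ) / r + c₀ / r) = 0) :
    c10dT N K s ⟨r, c⟩ ⟨r, c₀⟩ = ((mr r ^ 2 : ℝ) : ℂ) * (e (-((c : ℝ) * (s : ℤ) / r)) *
      ((∑ n ∈ Icc (1 - (N : ℤ)) (2 * N), Ar N K r n * Ar N K r (n + s) : ℝ) : ℂ)) := by
  obtain ⟨k, hk⟩ := c10d_nn.1 hn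
  unfold c10dT
  simp only
  have e1 : e ((c₀ : ℝ) * (s : ℤ) / r) = e (-((c : ℝ) * (s : ℤ) / r)) := by
    have : (c₀ : ℝ) * (s : ℤ) / r = -((c : ℝ) * (s : ℤ) / r) + ((s * k : ℤ) : ℝ) := by
      push_cast
      rw [← hk]
      ring
    rw [this, e_add_int]
  have e2 : ∀ n ∈ Icc (1 - (N : ℤ)) (2 * N), ((Ar N K r n * Ar N K r (n + s) : ℝ) : ℂ) *
      e (n * ((c : ℝ) / r + c₀ / r)) = ((Ar N K r n * Ar N K r (n + s) : ℝ) : ℂ) := by
    intro n _
    have : (n : ℝ) * ((c : ℝ) / r + c₀ / r) = 0 + ((n * k : ℤ) : ℝ) := by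
      rw [hk]
      push_cast
      ring
    rw [this, e_add_int, e_zero, mul_one]
  rw [sum_congr rfl e2, e1, Complex.ofReal_sum, pow_two]

/-- the diagonal terms -/
theorem c10d_diag (N K s : ℕ) :
    ∑ p ∈ c10dP K, ∑ p' ∈ c10dP K,
      (if nn ((p.2 : ℝ) / p.1 + p'.2 / p'.1) = 0 then c10dT N K s p p' else 0) =
    ((∑ r ∈ Icc 1 K, mr r ^ 2 * cR r s * ∑ n ∈ Icc (1 - (N : ℤ)) (2 * N),
      Ar N K r n * Ar N K r (n + s) : ℝ) : ℂ) := by
  unfold c10dP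
  rw [sum_sigma, Complex.ofReal_sum]
  refine sum_congr rfl fun r hr => ?_
  have hr1 := (mem_Icc.1 hr).1
  rw [Complex.ofReal_mul, Complex.ofReal_mul, P13b_cR, P13b_cZ', mul_sum, sum_mul]
  refine sum_congr rfl fun c hc => ?_
  obtain ⟨c₀, hc₀, hn, huniq⟩ := c10d_inv hr1 hc
  rw [sum_eq_single (⟨r, c₀⟩ : Σ _ : ℕ, ℕ)]
  · simp only [hn, if_true]
    rw [c10d_diag_term hn]
    ring
  · rintro ⟨r', c'⟩ hp' hne
    rw [mem_sigma] at hp'
    rw [if_neg]
    intro h0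
    obtain ⟨h1, h2⟩ := huniq r' c' (mem_Icc.1 hp'.1).1 hp'.2 h0
    subst h1
    subst h2
    exact hne rfl
  · intro h0
    exact absurd (mem_sigma.2 ⟨hr, hc₀⟩) h0

/-- the size of one other term -/
theorem c10d_off_term {N K s : ℕ} (h1 : 1 ≤ lw N K) (h2 : 16 * (K * lw N K) ≤ N)
    {p p' : Σ _ : ℕ, ℕ} (hp : p ∈ c10dP K) (hp' : p' ∈ c10dP K)
    (hn : nn ((p.2 : ℝ) / p.1 + p'.2 / p'.1) ≠ 0) :
    ‖c10dT N K s p p'‖ ≤ (1 / (Nat.totient p.1 : ℝ)) * (1 / (Nat.totient p'.1 : ℝ)) *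
      (2 * (1 / nn ((p.2 : ℝ) / p.1 + p'.2 / p'.1))) := by
  rw [c10dP, mem_sigma, mem_Icc] at hp hp'
  have hφ : (0 : ℝ) < Nat.totient p.1 := by exact_mod_cast Nat.totient_pos.mpr hp.1.1
  have hφ' : (0 : ℝ) < Nat.totient p'.1 := by exact_mod_cast Nat.totient_pos.mpr hp'.1.1
  have hL : 1 ≤ p.1 * lw N K := Nat.mul_pos hp.1.1 h1
  have hL' : 1 ≤ p'.1 * lw N K := Nat.mul_pos hp'.1.1 h1
  have hLK : p.1 * lw N K ≤ K * lw N K := Nat.mul_le_mul_right _ hp.1.2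
  have h0 : 0 ≤ nn ((p.2 : ℝ) / p.1 + p'.2 / p'.1) := abs_nonneg _
  unfold c10dT
  rw [norm_mul, norm_mul, norm_e, one_mul, Complex.norm_real, Real.norm_eq_abs, abs_mul]
  have m1 : |mr p.1| ≤ 1 / (Nat.totient p.1 : ℝ) := by
    rw [le_div_iff₀ hφ]
    exact P13b_mr_le p.1 hp.1.1
  have m2 : |mr p'.1| ≤ 1 / (Nat.totient p'.1 : ℝ) := by
    rw [le_div_iff₀ hφ']
    exact P13b_mr_le p'.1 hp'.1.1
  refine mul_le_mul (mul_le_mul m1 m2 (abs_nonneg _) (by positivity)) ?_ (norm_nonneg _)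
    (by positivity)
  have hN : (1 : ℤ) - N ≤ 2 * N + 1 := by omega
  have h3 := c10d_bv hN (fun n => Ar N K p.1 n * Ar N K p'.1 (n + s)) _ hn ?_ 4
    (c10d_var hL hL' s _ _)
  · refine h3.trans (le_of_eq ?_)
    have : nn ((p.2 : ℝ) / p.1 + p'.2 / p'.1) ≠ 0 := hn
    field_simp
    norm_num
  · rw [(ar_facts N K p.1 hL).2.2.1 _ (by omega), zero_mul]

/-- the other terms -/
theorem c10d_off {N K s : ℕ} (h1 : 1 ≤ lw N K) (h2 : 16 * (K * lw N K) ≤ N)
    {S : ℝ} (hS : ∀ r ∈ Icc 1 K, ∀ c ∈ Cd r,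
      ∑ r' ∈ Icc 1 K, ∑ c' ∈ Cd r', (if nn ((c : ℝ) / r + c' / r') = 0 then 0 else
        1 / nn ((c : ℝ) / r + c' / r')) ≤ S) :
    ‖∑ p ∈ c10dP K, ∑ p' ∈ c10dP K,
      (if nn ((p.2 : ℝ) / p.1 + p'.2 / p'.1) = 0 then 0 else c10dT N K s p p')‖ ≤
      2 * (S * ∑ r ∈ Icc 1 K, 1 / (Nat.totient r : ℝ)) := by
  set w : ℕ → ℝ := fun r => 1 / (Nat.totient r : ℝ) with hw
  set κ : (Σ _ : ℕ, ℕ) → (Σ _ : ℕ, ℕ) → ℝ := fun p p' =>
    if nn ((p.2 : ℝ) / p.1 + p'.2 / p'.1) = 0 then 0 else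
      1 / nn ((p.2 : ℝ) / p.1 + p'.2 / p'.1) with hκ
  have hκ0 : ∀ p p', 0 ≤ κ p p' := by
    intro p p'
    simp only [hκ]
    split_ifs
    · exact le_rfl
    · exact div_nonneg zero_le_one (abs_nonneg _)
  have hκs : ∀ p p', κ p p' = κ p' p := by
    intro p p'
    simp only [hκ]
    rw [add_comm]
  have e1 : ∀ p ∈ c10dP K, ∀ p' ∈ c10dP K,
      ‖(if nn ((p.2 : ℝ) / p.1 + p'.2 / p'.1) = 0 then 0 else c10dT N K s p p')‖ ≤
      w p.1 ^ 2 * κ p p' + w p'.1 ^ 2 * κ p' p := by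
    intro p hp p' hp'
    rw [hκs p' p, ← add_mul]
    by_cases h0 : nn ((p.2 : ℝ) / p.1 + p'.2 / p'.1) = 0
    · rw [if_pos h0, norm_zero]
      exact mul_nonneg (by positivity) (hκ0 _ _)
    · rw [if_neg h0]
      refine (c10d_off_term h1 h2 hp hp' h0).trans ?_
      have e2 : κ p p' = 1 / nn ((p.2 : ℝ) / p.1 + p'.2 / p'.1) := by
        simp only [hκ]
        rw [if_neg h0]
      rw [← e2]
      have h3 := hκ0 p p'
      have h4 : 2 * (w p.1 * w p'.1) ≤ w p.1 ^ 2 + w p'.1 ^ 2 := by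
        nlinarith [sq_nonneg (w p.1 - w p'.1)]
      calc w p.1 * w p'.1 * (2 * κ p p') = 2 * (w p.1 * w p'.1) * κ p p' := by ring
        _ ≤ _ := mul_le_mul_of_nonneg_right h4 h3
  refine (norm_sum_le _ _).trans ((sum_le_sum fun p hp => (norm_sum_le _ _).trans
    (sum_le_sum (e1 p hp))).trans ?_)
  simp only [sum_add_distrib]
  rw [sum_comm (f := fun p p' => w p'.1 ^ 2 * κ p' p), ← two_mul]
  refine mul_le_mul_of_nonneg_left ?_ (by norm_num)
  have e3 : ∀ p ∈ c10dP K, ∑ p' ∈ c10dP K, w p.1 ^ 2 * κ p p' ≤ w p.1 ^ 2 * S := by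
    intro p hp
    rw [← mul_sum]
    refine mul_le_mul_of_nonneg_left ?_ (by positivity)
    rw [c10dP, mem_sigma] at hp
    refine le_trans (le_of_eq ?_) (hS p.1 hp.1 p.2 hp.2)
    rw [c10dP, sum_sigma]
  refine (sum_le_sum e3).trans ?_
  rw [c10dP, sum_sigma, mul_sum]
  refine le_of_eq (sum_congr rfl fun r hr => ?_)
  have hφ : (Nat.totient r : ℝ) ≠ 0 := by
    have := Nat.totient_pos.mpr (mem_Icc.1 hr).1
    positivity
  simp only [sum_const, nsmul_eq_mul, card_Cd, hw]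
  field_simp

/-- the sum of `1/φ` -/
theorem c10d_tot : ∃ C : ℝ, 1 ≤ C ∧ ∀ Y : ℕ, 1 ≤ Y →
    ∑ m ∈ Icc 1 Y, 1 / (Nat.totient m : ℝ) ≤ C * (2 + Real.log Y) := by
  obtain ⟨C, hC, h⟩ := Pool.Agent.PV.shortsum_pr
  refine ⟨max 1 C, le_max_left _ _, fun Y hY => ?_⟩
  have hY1 : (1 : ℝ) ≤ Y := by exact_mod_cast hY
  have h1 := h (1 / 2) Y (by norm_num) (by linarith)
  rw [Nat.floor_natCast] at h1
  have e1 : (Icc 1 Y).filter (fun m : ℕ => (1 / 2 : ℝ) < m) = Icc 1 Y := by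
    refine filter_true_of_mem fun m hm => ?_
    have : (1 : ℝ) ≤ m := by exact_mod_cast (mem_Icc.1 hm).1
    linarith
  rw [e1] at h1
  refine h1.trans ?_
  have e2 : (Y : ℝ) / (1 / 2) = 2 * Y := by ring
  rw [e2, Real.log_mul (by norm_num) (by linarith)]
  have h2 := Real.log_two_lt_d9
  have h3 : 0 ≤ Real.log (Y : ℝ) := Real.log_nonneg hY1
  calc C * (1 + (Real.log 2 + Real.log Y)) ≤ C * (2 + Real.log Y) := by
        apply mul_le_mul_of_nonneg_left _ hC.le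
        linarith
    _ ≤ _ := mul_le_mul_of_nonneg_right (le_max_right _ _) (by linarith)

/-- C10d -/
theorem cg_asym_pr : ∃ C : ℝ, 0 < C ∧ ∃ N0 : ℕ, ∀ N ≥ N0, ∀ K, Rg K N → ∀ h : ℕ, 1 ≤ h → h ≤ 2 * N →
    |cg N K (h : ℤ) - SK K h * max 0 ((N : ℝ) - h)| ≤
      C * ((K : ℝ) ^ 2 * (1 + Real.log N) ^ 2 +
        N / K * (1 + Real.log N) ^ 3 * (h.divisors.card : ℝ)) := by
  obtain ⟨C₁, hC₁, H₁⟩ := inv_spacing
  obtain ⟨C₂, hC₂, H₂⟩ := cr_sum
  obtain ⟨C₃, hC₃, H₃⟩ := c10d_tot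
  obtain ⟨N0, H₀⟩ := lw_facts
  refine ⟨4 * C₁ * C₃ + 2 * C₂, by positivity, N0, fun N hN K hK s hs _ => ?_⟩
  obtain ⟨l1, l2, -, -, -⟩ := H₀ N hN K hK
  have hK10 := hK.hK
  have hK1 : 1 ≤ K := by omega
  have hKN : K ≤ N := by
    have : K * 1 ≤ K * lw N K := Nat.mul_le_mul_left _ l1
    omega
  have hK0 : (0 : ℝ) < K := by exact_mod_cast hK1
  have hK1' : (1 : ℝ) ≤ K := by exact_mod_cast hK1
  have hKN' : (K : ℝ) ≤ N := by exact_mod_cast hKN
  have hlK : 0 ≤ Real.log K := Real.log_nonneg hK1'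
  have hlN : Real.log K ≤ Real.log N := Real.log_le_log hK0 hKN'
  -- the diagonal
  set D : ℕ → ℝ := fun r => ∑ n ∈ Icc (1 - (N : ℤ)) (2 * N), Ar N K r n * Ar N K r (n + s) with hD
  set Mn : ℝ := ∑ r ∈ Icc 1 K, mr r ^ 2 * cR r s * D r with hMn
  have hd : |Mn - SK K s * max 0 ((N : ℝ) - s)| ≤
      2 * C₂ * (N / K * (1 + Real.log N) ^ 3 * (s.divisors.card : ℝ)) := by
    have e1 : Mn - SK K s * max 0 ((N : ℝ) - s) =
        ∑ r ∈ Icc 1 K, mr r ^ 2 * cR r s * (D r - max 0 ((N : ℝ) - s)) := by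
      rw [hMn, SK, sum_mul, ← sum_sub_distrib]
      refine sum_congr rfl fun r _ => ?_
      ring
    rw [e1]
    refine (abs_sum_le_sum_abs _ _).trans ?_
    have e2 : ∀ r ∈ Icc 1 K, |mr r ^ 2 * cR r s * (D r - max 0 ((N : ℝ) - s))| ≤
        (32 * (lw N K : ℝ)) * (mr r ^ 2 * |cR r s| * r) := by
      intro r hr
      have hL : 1 ≤ r * lw N K := Nat.mul_pos (mem_Icc.1 hr).1 l1
      have h3 := c10d_D hL s hs
      rw [abs_mul, abs_mul, abs_of_nonneg (sq_nonneg (mr r))]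
      refine (mul_le_mul_of_nonneg_left h3 (by positivity)).trans (le_of_eq ?_)
      push_cast
      ring
    refine (sum_le_sum e2).trans ?_
    rw [← mul_sum]
    have e3 := H₂ K s hK1 hs
    refine (mul_le_mul_of_nonneg_left e3 (by positivity)).trans ?_
    have e4 : 16 * (K * (lw N K : ℝ)) ≤ N := by exact_mod_cast l2
    have e5 : 16 * (lw N K : ℝ) ≤ N / K := by
      rw [le_div_iff₀ hK0]
      linarith
    have e6 : (1 + Real.log K) ^ 3 ≤ (1 + Real.log N) ^ 3 :=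
      pow_le_pow_left₀ (by linarith) (by linarith) 3
    calc 32 * (lw N K : ℝ) * (C₂ * (1 + Real.log K) ^ 3 * (s.divisors.card : ℝ))
        = 2 * C₂ * ((16 * (lw N K : ℝ)) * (1 + Real.log K) ^ 3 * (s.divisors.card : ℝ)) := by ring
      _ ≤ _ := by
          refine mul_le_mul_of_nonneg_left (mul_le_mul_of_nonneg_right ?_ (by positivity))
            (by positivity)
          exact mul_le_mul e5 e6 (by positivity) (by positivity)
  -- the other terms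
  have ho : |cg N K (s : ℤ) - Mn| ≤ 4 * C₁ * C₃ * ((K : ℝ) ^ 2 * (1 + Real.log N) ^ 2) := by
    rw [← Real.norm_eq_abs, ← Complex.norm_real, Complex.ofReal_sub, c10d_cg, hMn, hD,
      ← c10d_diag, ← sum_sub_distrib]
    have e1 : ∀ p ∈ c10dP K, (∑ p' ∈ c10dP K, c10dT N K s p p') - (∑ p' ∈ c10dP K,
        (if nn ((p.2 : ℝ) / p.1 + p'.2 / p'.1) = 0 then c10dT N K s p p' else 0)) =
        ∑ p' ∈ c10dP K,
          (if nn ((p.2 : ℝ) / p.1 + p'.2 / p'.1) = 0 then 0 else c10dT N K s p p') := by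
      intro p _
      rw [← sum_sub_distrib]
      refine sum_congr rfl fun p' _ => ?_
      split_ifs <;> simp
    rw [sum_congr rfl e1]
    refine (c10d_off l1 l2 (H₁ K hK1)).trans ?_
    have e2 := H₃ K hK1
    have hS0 : 0 ≤ C₁ * (K : ℝ) ^ 2 * (1 + Real.log K) := by positivity
    calc 2 * (C₁ * (K : ℝ) ^ 2 * (1 + Real.log K) * ∑ r ∈ Icc 1 K, 1 / (Nat.totient r : ℝ))
        ≤ 2 * (C₁ * (K : ℝ) ^ 2 * (1 + Real.log K) * (C₃ * (2 + Real.log K))) := by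
          refine mul_le_mul_of_nonneg_left (mul_le_mul_of_nonneg_left e2 hS0) (by norm_num)
      _ = 2 * C₁ * C₃ * (K : ℝ) ^ 2 * ((1 + Real.log K) * (2 + Real.log K)) := by ring
      _ ≤ 2 * C₁ * C₃ * (K : ℝ) ^ 2 * (2 * (1 + Real.log N) ^ 2) := by
          refine mul_le_mul_of_nonneg_left ?_ (by positivity)
          nlinarith
      _ = _ := by ring
  have e0 : cg N K (s : ℤ) - SK K s * max 0 ((N : ℝ) - s) =
      (cg N K (s : ℤ) - Mn) + (Mn - SK K s * max 0 ((N : ℝ) - s)) := by ring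
  rw [e0]
  refine (abs_add_le _ _).trans ((add_le_add ho hd).trans ?_)
  have p1 : 0 ≤ (K : ℝ) ^ 2 * (1 + Real.log N) ^ 2 := by positivity
  have p2 : 0 ≤ N / K * (1 + Real.log N) ^ 3 * (s.divisors.card : ℝ) := by
    have : 0 ≤ Real.log N := by linarith
    positivity
  have q1 : 0 ≤ 4 * C₁ * C₃ := by positivity
  have q2 : 0 ≤ 2 * C₂ := by positivity
  nlinarith [mul_nonneg q1 p2, mul_nonneg q2 p1]

end Pool.Agent.AAX

namespace Pool.Agent.AAX

/-- alias -/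
theorem cg_asym : type_of% @cg_asym_pr := @cg_asym_pr

end Pool.Agent.AAX

/-! ### C11 -/

namespace Pool.Agent.AAX

open Finset MeasureTheory Pool.Agent.Var35 Pool.Agent.Var73 Pool.Agent.PV Pool.Agent.FGP Pool.Agent.FGA
open scoped ArithmeticFunction ArithmeticFunction.Moebius

theorem c11_num {e C D : ℝ} (he : 0 < e) (hC : 0 < C) (hD : 0 < D) :
    ∃ N0 : ℕ, 1 ≤ N0 ∧ ∀ N : ℕ, N0 ≤ N → 4 * C * ((1 + Real.log N) ^ 2 +
      (1 + Real.log N) ^ 3 * (D * (2 * (N : ℝ)) ^ (e / 16))) ≤ (N : ℝ) ^ (e / 4) := by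
  set c : ℝ := 1 + 48 / e with hc
  have hc0 : 0 < c := by positivity
  set A : ℝ := 4 * C * (c ^ 3 * (1 + D * (2 : ℝ) ^ (e / 16))) with hA
  have hA0 : 0 < A := by positivity
  have ht : Filter.Tendsto (fun N : ℕ => (N : ℝ) ^ (e / 8)) Filter.atTop Filter.atTop :=
    (tendsto_rpow_atTop (by positivity)).comp tendsto_natCast_atTop_atTop
  obtain ⟨N1, hN1⟩ := Filter.eventually_atTop.1 (ht.eventually_ge_atTop A)
  refine ⟨max N1 1, le_max_right _ _, fun N hN => ?_⟩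
  have hN1' : 1 ≤ N := le_trans (le_max_right _ _) hN
  have hNr : (1 : ℝ) ≤ N := by exact_mod_cast hN1'
  have hN0 : (0 : ℝ) < N := by linarith
  have h1 := hN1 N (le_trans (le_max_left _ _) hN)
  have hlog : 1 + Real.log N ≤ c * (N : ℝ) ^ (e / 48) := by
    have h2 := Real.log_le_rpow_div hN0.le (show (0 : ℝ) < e / 48 by positivity)
    have h3 : (1 : ℝ) ≤ (N : ℝ) ^ (e / 48) := Real.one_le_rpow hNr (by positivity)
    have h4 : (N : ℝ) ^ (e / 48) / (e / 48) = 48 / e * (N : ℝ) ^ (e / 48) := by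
      field_simp
    rw [h4] at h2
    rw [hc]
    linarith
  have hL1 : 1 ≤ 1 + Real.log N := by
    have := Real.log_nonneg hNr
    linarith
  have hL0 : 0 ≤ 1 + Real.log N := by linarith
  have hL3 : (1 + Real.log N) ^ 3 ≤ c ^ 3 * (N : ℝ) ^ (e / 16) := by
    calc (1 + Real.log N) ^ 3 ≤ (c * (N : ℝ) ^ (e / 48)) ^ 3 := by gcongr
      _ = c ^ 3 * (N : ℝ) ^ (e / 16) := by
        rw [mul_pow, ← Real.rpow_natCast ((N : ℝ) ^ (e / 48)) 3, ← Real.rpow_mul hN0.le]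
        congr 2
        push_cast
        ring
  have hL2 : (1 + Real.log N) ^ 2 ≤ (1 + Real.log N) ^ 3 := pow_le_pow_right₀ hL1 (by norm_num)
  have hN16 : (1 : ℝ) ≤ (N : ℝ) ^ (e / 16) := Real.one_le_rpow hNr (by positivity)
  have h2N : (2 * (N : ℝ)) ^ (e / 16) = (2 : ℝ) ^ (e / 16) * (N : ℝ) ^ (e / 16) :=
    Real.mul_rpow (by norm_num) hN0.le
  have h8 : (N : ℝ) ^ (e / 16) * (N : ℝ) ^ (e / 16) = (N : ℝ) ^ (e / 8) := by
    rw [← Real.rpow_add hN0]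
    congr 1
    ring
  have h4 : (N : ℝ) ^ (e / 8) * (N : ℝ) ^ (e / 8) = (N : ℝ) ^ (e / 4) := by
    rw [← Real.rpow_add hN0]
    congr 1
    ring
  have hbig : (1 + Real.log N) ^ 2 + (1 + Real.log N) ^ 3 * (D * (2 * (N : ℝ)) ^ (e / 16)) ≤
      c ^ 3 * (1 + D * (2 : ℝ) ^ (e / 16)) * (N : ℝ) ^ (e / 8) := by
    calc (1 + Real.log N) ^ 2 + (1 + Real.log N) ^ 3 * (D * (2 * (N : ℝ)) ^ (e / 16))
        ≤ c ^ 3 * (N : ℝ) ^ (e / 16) + c ^ 3 * (N : ℝ) ^ (e / 16) *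
          (D * ((2 : ℝ) ^ (e / 16) * (N : ℝ) ^ (e / 16))) := by
          rw [h2N]
          gcongr
          exact hL2.trans hL3
      _ ≤ c ^ 3 * (N : ℝ) ^ (e / 16) * (N : ℝ) ^ (e / 16) + c ^ 3 * (N : ℝ) ^ (e / 16) *
          (D * ((2 : ℝ) ^ (e / 16) * (N : ℝ) ^ (e / 16))) := by
          gcongr
          exact le_mul_of_one_le_right (by positivity) hN16
      _ = c ^ 3 * (1 + D * (2 : ℝ) ^ (e / 16)) * ((N : ℝ) ^ (e / 16) * (N : ℝ) ^ (e / 16)) := by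
          ring
      _ = _ := by rw [h8]
  calc 4 * C * ((1 + Real.log N) ^ 2 + (1 + Real.log N) ^ 3 * (D * (2 * (N : ℝ)) ^ (e / 16)))
      ≤ 4 * C * (c ^ 3 * (1 + D * (2 : ℝ) ^ (e / 16)) * (N : ℝ) ^ (e / 8)) := by gcongr
    _ = A * (N : ℝ) ^ (e / 8) := by
        rw [hA]
        ring
    _ ≤ (N : ℝ) ^ (e / 8) * (N : ℝ) ^ (e / 8) := by gcongr
    _ = _ := h4

/-- C11 -/
theorem var_gh_asym_pr {e : ℝ} (he : 0 < e) : ∃ N0 : ℕ, ∀ N ≥ N0, ∀ K, Rg K N → ∀ M,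
    Good (2 * N) M → ∀ Y, RY e K N Y → ∀ Q ∈ MQ Y,
    |VA (gh N K) Q - ms M (gh N K) -
        2 * ∑ k ∈ Icc 1 (N / Q), SK K (k * Q) * ((N : ℝ) - k * Q)| ≤
      (N : ℝ) ^ (1 - e / 4) := by
  obtain ⟨C, hC, N1, h1⟩ := cg_asym
  obtain ⟨N2, h2⟩ := lw_facts
  obtain ⟨D, hD, hdiv⟩ := Pool.Agent.FG61.divisor_bound (show 0 < e / 16 by positivity)
  obtain ⟨N3, hN3, h3⟩ := c11_num he hC hD
  refine ⟨max N1 (max N2 N3), fun N hN K hR M hM Y hY Q hQ => ?_⟩
  have hNN1 : N1 ≤ N := le_trans (le_max_left _ _) hN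
  have hNN2 : N2 ≤ N := le_trans (le_trans (le_max_left _ _) (le_max_right _ _)) hN
  have hNN3 : N3 ≤ N := le_trans (le_trans (le_max_right _ _) (le_max_right _ _)) hN
  have hN1' : 1 ≤ N := hN3.trans hNN3
  have hNr : (1 : ℝ) ≤ N := by exact_mod_cast hN1'
  have hN0 : (0 : ℝ) < N := by linarith
  have hK10 : 10 ≤ K := hR.hK
  have hKr : (10 : ℝ) ≤ K := by exact_mod_cast hK10
  have hK0 : (0 : ℝ) < K := by linarith
  have hK1 : (1 : ℝ) ≤ K := by linarith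
  obtain ⟨hl1, hl2, -⟩ := h2 N hNN2 K hR
  have hYpos : (0 : ℝ) < Y := by exact_mod_cast hY.hY1
  rw [MQ, mem_Ioc] at hQ
  obtain ⟨hYQ, _⟩ := hQ
  have hYQr : (Y : ℝ) ≤ Q := by exact_mod_cast hYQ.le
  have hQ0 : (0 : ℝ) < Q := by linarith
  have hQ1 : 1 ≤ Q := by omega
  have hL0 : 0 ≤ Real.log N := Real.log_nonneg hNr
  have hsum : ∑ k ∈ Icc 1 (N / Q), SK K (k * Q) * ((N : ℝ) - k * Q) =
      ∑ k ∈ Icc 1 (2 * N / Q), SK K (k * Q) * max 0 ((N : ℝ) - (k * Q : ℕ)) := by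
    have hsub : Icc 1 (N / Q) ⊆ Icc 1 (2 * N / Q) := by
      apply Icc_subset_Icc_right
      apply Nat.div_le_div_right
      omega
    rw [← Finset.sum_subset hsub]
    · refine Finset.sum_congr rfl fun k hk => ?_
      rw [mem_Icc] at hk
      have h2 : k * Q ≤ N := (Nat.le_div_iff_mul_le (by omega)).1 hk.2
      have h3 : ((k * Q : ℕ) : ℝ) ≤ N := by exact_mod_cast h2
      rw [max_eq_right (by linarith)]
      push_cast
      ring
    · intro k hk hk2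
      rw [mem_Icc] at hk hk2
      have h2 : N < k * Q := by
        by_contra h3
        push Not at h3
        exact hk2 ⟨hk.1, (Nat.le_div_iff_mul_le (by omega)).2 h3⟩
      have h3 : (N : ℝ) ≤ ((k * Q : ℕ) : ℝ) := by exact_mod_cast h2.le
      rw [max_eq_left (by linarith), mul_zero]
  set E : ℝ := C * ((K : ℝ) ^ 2 * (1 + Real.log N) ^ 2 +
    N / K * (1 + Real.log N) ^ 3 * (D * (2 * (N : ℝ)) ^ (e / 16))) with hE
  have hE0 : 0 ≤ E := by positivity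
  have hterm : ∀ k ∈ Icc 1 (2 * N / Q), |cg N K ((k * Q : ℕ) : ℤ) -
      SK K (k * Q) * max 0 ((N : ℝ) - (k * Q : ℕ))| ≤ E := by
    intro k hk
    rw [mem_Icc] at hk
    have h2 : k * Q ≤ 2 * N := (Nat.le_div_iff_mul_le (by omega)).1 hk.2
    have h3 : 1 ≤ k * Q := Nat.mul_pos (by omega) (by omega)
    refine (h1 N hNN1 K hR (k * Q) h3 h2).trans ?_
    rw [hE]
    have h4 : (((k * Q).divisors.card : ℕ) : ℝ) ≤ D * (2 * (N : ℝ)) ^ (e / 16) := by
      refine (hdiv (k * Q) h3).trans ?_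
      have h5 : ((k * Q : ℕ) : ℝ) ≤ 2 * N := by exact_mod_cast h2
      gcongr
    gcongr
  rw [var_gh N K M Q hM hl1 hl2 hQ1, hsum, ← mul_sub, ← Finset.sum_sub_distrib, abs_mul,
    abs_of_pos (by norm_num : (0 : ℝ) < 2)]
  have hcard : ((2 * N / Q : ℕ) : ℝ) ≤ 2 * (N / Y) := by
    have h2 : ((2 * N / Q : ℕ) : ℝ) ≤ ((2 * N : ℕ) : ℝ) / Q := Nat.cast_div_le
    refine h2.trans ?_
    push_cast
    rw [mul_div_assoc]
    gcongr
  have hB : ∑ k ∈ Icc 1 (2 * N / Q), |cg N K ((k * Q : ℕ) : ℤ) -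
      SK K (k * Q) * max 0 ((N : ℝ) - (k * Q : ℕ))| ≤ 2 * (N / Y) * E := by
    calc ∑ k ∈ Icc 1 (2 * N / Q), |cg N K ((k * Q : ℕ) : ℤ) -
        SK K (k * Q) * max 0 ((N : ℝ) - (k * Q : ℕ))|
        ≤ ∑ _k ∈ Icc 1 (2 * N / Q), E := Finset.sum_le_sum hterm
      _ = ((2 * N / Q : ℕ) : ℝ) * E := by
          rw [Finset.sum_const, Nat.card_Icc, Nat.add_sub_cancel, nsmul_eq_mul]
      _ ≤ 2 * (N / Y) * E := by gcongr
  -- `N / Y ≤ √K N^(-e/2)`
  set P : ℝ := (N : ℝ) ^ (e / 2) with hP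
  have hP0 : 0 < P := by positivity
  have hx : (N : ℝ) / Y * P ≤ Real.sqrt K := by
    apply Real.le_sqrt_of_sq_le
    have h4 : P ^ 2 = (N : ℝ) ^ e := by
      rw [hP, ← Real.rpow_natCast, ← Real.rpow_mul hN0.le]
      congr 1
      push_cast
      ring
    have h5 : (N : ℝ) ^ (2 + e) = (N : ℝ) ^ 2 * (N : ℝ) ^ e := by
      rw [Real.rpow_add hN0]
      norm_num
    have h6 := hY.hY
    rw [h5] at h6
    rw [mul_pow, div_pow, h4, div_mul_eq_mul_div, div_le_iff₀ (by positivity)]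
    linarith
  have hsq : Real.sqrt K ^ 2 = K := Real.sq_sqrt hK0.le
  have hs1 : 1 ≤ Real.sqrt K := Real.one_le_sqrt.2 hK1
  have hb1 : Real.sqrt K * (K : ℝ) ^ 2 ≤ N := by
    have h5 : ((K : ℝ)) ^ 5 ≤ (N : ℝ) ^ 2 := by exact_mod_cast hR.hN
    refine le_of_sq_le_sq ?_ hN0.le
    calc (Real.sqrt K * (K : ℝ) ^ 2) ^ 2 = Real.sqrt K ^ 2 * (K : ℝ) ^ 4 := by ring
      _ = (K : ℝ) ^ 5 := by
        rw [hsq]
        ring
      _ ≤ _ := h5
  have hb2 : Real.sqrt K * (N / K) ≤ N := by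
    have h5 : Real.sqrt K ≤ K := by nlinarith
    calc Real.sqrt K * (N / K) ≤ K * (N / K) := by gcongr
      _ = N := by field_simp
  have hfin : 2 * (2 * (N / Y) * E) * P ≤ N * (N : ℝ) ^ (e / 4) := by
    have h4 := h3 N hNN3
    calc 2 * (2 * (N / Y) * E) * P
        = 4 * C * ((N / Y * P) * (K : ℝ) ^ 2 * (1 + Real.log N) ^ 2 +
          (N / Y * P) * (N / K) * ((1 + Real.log N) ^ 3 *
            (D * (2 * (N : ℝ)) ^ (e / 16)))) := by
          rw [hE]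
          ring
      _ ≤ 4 * C * (Real.sqrt K * (K : ℝ) ^ 2 * (1 + Real.log N) ^ 2 +
          Real.sqrt K * (N / K) * ((1 + Real.log N) ^ 3 *
            (D * (2 * (N : ℝ)) ^ (e / 16)))) := by gcongr
      _ ≤ 4 * C * (N * (1 + Real.log N) ^ 2 +
          N * ((1 + Real.log N) ^ 3 * (D * (2 * (N : ℝ)) ^ (e / 16)))) := by gcongr
      _ = N * (4 * C * ((1 + Real.log N) ^ 2 +
          (1 + Real.log N) ^ 3 * (D * (2 * (N : ℝ)) ^ (e / 16)))) := by ring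
      _ ≤ N * (N : ℝ) ^ (e / 4) := by gcongr
  have hpow : (N : ℝ) ^ (1 - e / 4) * P = N * (N : ℝ) ^ (e / 4) := by
    rw [hP, ← Real.rpow_add hN0, ← Real.rpow_one_add' hN0.le (by positivity)]
    congr 1
    ring
  have hle : 2 * (2 * (N / Y) * E) ≤ (N : ℝ) ^ (1 - e / 4) := by
    refine le_of_mul_le_mul_right ?_ hP0
    rw [hpow]
    exact hfin
  calc 2 * |∑ k ∈ Icc 1 (2 * N / Q), (cg N K ((k * Q : ℕ) : ℤ) -
        SK K (k * Q) * max 0 ((N : ℝ) - (k * Q : ℕ)))|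
      ≤ 2 * ∑ k ∈ Icc 1 (2 * N / Q), |cg N K ((k * Q : ℕ) : ℤ) -
        SK K (k * Q) * max 0 ((N : ℝ) - (k * Q : ℕ))| := by
          gcongr
          exact Finset.abs_sum_le_sum_abs _ _
    _ ≤ 2 * (2 * (N / Y) * E) := by gcongr
    _ ≤ _ := hle

end Pool.Agent.AAX

namespace Pool.Agent.AAX

/-- alias -/
theorem var_gh_asym : type_of% @var_gh_asym_pr := @var_gh_asym_pr

end Pool.Agent.AAX

/-! ### C12 -/

/-! Block C12 of AAX (helper48): the main term for one modulus, with a better tail. -/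

namespace Pool.Agent.AAX

open Finset Pool.Agent.Var35 Pool.Agent.Var73 Pool.Agent.PV Pool.Agent.FGP Pool.Agent.FGA
open scoped ArithmeticFunction ArithmeticFunction.Moebius

theorem c12_15e : A15E :=
  A15E_pr W14a_pr A08_pr A09_pr (A14E_pr A10_pr A11_pr A12_pr (A13E_pr E14d_pr))

/-- the sum of the weights -/
theorem c12_ks {C : ℝ} (h : ∀ Y : ℕ, 1 ≤ Y → ∑ Q ∈ Icc 1 Y, ks Q ^ 8 ≤ C * Y) (Y : ℕ)
    (hY : 1 ≤ Y) : ∑ k ∈ Icc 1 Y, ks k ^ 2 ≤ C * Y := by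
  refine le_trans (sum_le_sum fun k _ => ?_) (h Y hY)
  exact pow_le_pow_right₀ (a15e_ks_one k) (by norm_num)

/-- the replacement of `SK` by `SG` -/
theorem c12_SG {C8 C16 : ℝ} (hC8 : 0 < C8)
    (h8 : ∀ K h : ℕ, 1 ≤ K → 1 ≤ h → |SG h - SK K h| ≤ C8 * ks h ^ 2 / Real.sqrt K)
    (h16 : ∀ Y : ℕ, 1 ≤ Y → ∑ Q ∈ Icc 1 Y, ks Q ^ 8 ≤ C16 * Y) (hC16 : 0 < C16)
    (N K Q : ℕ) (hQ : 1 ≤ Q) (hK : 1 ≤ K) (hQN : Q ≤ N) :
    |2 * ∑ k ∈ Icc 1 (N / Q), SK K (k * Q) * ((N : ℝ) - k * Q) -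
      2 * ∑ k ∈ Icc 1 (N / Q), SG (k * Q) * ((N : ℝ) - k * Q)| ≤
      2 * C8 * C16 * ((N : ℝ) / Q / Real.sqrt K) * (N * ks Q ^ 4) := by
  have hQ0 : (0 : ℝ) < Q := by exact_mod_cast hQ
  have hN0 : (0 : ℝ) ≤ N := Nat.cast_nonneg N
  have hK0 : (0 : ℝ) < K := by exact_mod_cast hK
  have hsK : 0 < Real.sqrt K := Real.sqrt_pos.2 hK0
  have hk1 := a15e_ks_one Q
  have hk0 : 0 < ks Q := by linarith
  have hfl : (((N / Q : ℕ)) : ℝ) ≤ (N : ℝ) / Q := Nat.cast_div_le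
  have hNQ : 1 ≤ N / Q := (Nat.one_le_div_iff (by omega)).2 hQN
  rw [← mul_sub, ← sum_sub_distrib, abs_mul, abs_of_pos (by norm_num : (0 : ℝ) < 2)]
  have e3 : ∀ k ∈ Icc 1 (N / Q), |SK K (k * Q) * ((N : ℝ) - k * Q) -
      SG (k * Q) * ((N : ℝ) - k * Q)| ≤ C8 * ks Q ^ 2 / Real.sqrt K * N * ks k ^ 2 := by
    intro k hk
    rw [mem_Icc] at hk
    have hkz : (k : ℝ) ≤ (N : ℝ) / Q := le_trans (by exact_mod_cast hk.2) hfl
    have hkQ : (k : ℝ) * Q ≤ N := by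
      rw [le_div_iff₀ hQ0] at hkz
      exact hkz
    have hkQ0 : (0 : ℝ) ≤ (k : ℝ) * Q := by positivity
    have e4 := h8 K (k * Q) hK (Nat.mul_pos hk.1 hQ)
    have e5 : ks (k * Q) ≤ ks k * ks Q := a15e_ks_mul k Q (by omega) (by omega)
    rw [← sub_mul, abs_mul, abs_of_nonneg (by linarith : 0 ≤ (N : ℝ) - k * Q), abs_sub_comm]
    have e6 : ks (k * Q) ^ 2 ≤ (ks k * ks Q) ^ 2 :=
      pow_le_pow_left₀ (zero_le_one.trans (a15e_ks_one _)) e5 2
    calc |SG (k * Q) - SK K (k * Q)| * ((N : ℝ) - k * Q)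
        ≤ (C8 * (ks k * ks Q) ^ 2 / Real.sqrt K) * N := by
          refine mul_le_mul (e4.trans ?_) (by linarith) (by linarith) (by positivity)
          gcongr
      _ = _ := by ring
  refine (mul_le_mul_of_nonneg_left ((abs_sum_le_sum_abs _ _).trans (sum_le_sum e3))
    (by norm_num)).trans ?_
  rw [← mul_sum]
  have e7 := c12_ks h16 (N / Q) hNQ
  have h4 : ks Q ^ 2 ≤ ks Q ^ 4 := pow_le_pow_right₀ hk1 (by norm_num)
  calc 2 * (C8 * ks Q ^ 2 / Real.sqrt K * N * ∑ k ∈ Icc 1 (N / Q), ks k ^ 2)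
      ≤ 2 * (C8 * ks Q ^ 4 / Real.sqrt K * N * (C16 * ((N : ℝ) / Q))) := by
        have h5 : ∑ k ∈ Icc 1 (N / Q), ks k ^ 2 ≤ C16 * ((N : ℝ) / Q) :=
          e7.trans (mul_le_mul_of_nonneg_left hfl hC16.le)
        have h6 : 0 ≤ ∑ k ∈ Icc 1 (N / Q), ks k ^ 2 := sum_nonneg fun k _ => by positivity
        gcongr
    _ = _ := by ring

theorem main_one_pr : ∀ η : ℝ, 0 < η → ∃ Z0 : ℕ, 1 ≤ Z0 ∧ ∀ N K Q : ℕ, 1 ≤ Q → Z0 * Q ≤ N →
    Z0 * N ^ 2 ≤ Q ^ 2 * K →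
    |2 * ∑ k ∈ Icc 1 (N / Q), SK K (k * Q) * ((N : ℝ) - k * Q) -
        ((N : ℝ) ^ 2 / Nat.totient Q - N * (Real.log ((N : ℝ) / Q) + HC.CQ Q - 1))| ≤
      η * N * ks Q ^ 4 := by
  obtain ⟨C8, hC8, h8⟩ := A08_pr
  obtain ⟨C16', hC16', h16'⟩ := A16_pr
  obtain ⟨C16, hC16, h16⟩ : ∃ C : ℝ, 0 < C ∧ ∀ Y : ℕ, 1 ≤ Y → ∑ Q ∈ Icc 1 Y, ks Q ^ 8 ≤ C * Y :=
    ⟨C16', hC16', h16'⟩
  obtain ⟨C15, hC15, h15⟩ := c12_15e
  intro η hη
  set A : ℝ := 2 * C8 * C16 + C15 + 2 * C8 with hA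
  have hA0 : 0 < A := by positivity
  obtain ⟨Z1, hZ1⟩ := exists_nat_ge ((A / η) ^ 4)
  refine ⟨max Z1 1, le_max_right _ _, fun N K Q hQ hZQ hZK => ?_⟩
  set Z0 : ℕ := max Z1 1 with hZ0
  have hZ01 : 1 ≤ Z0 := le_max_right _ _
  have hZr : (1 : ℝ) ≤ Z0 := by exact_mod_cast hZ01
  have hZA : (A / η) ^ 4 ≤ Z0 := hZ1.trans (by exact_mod_cast le_max_left _ _)
  have hQ0 : (0 : ℝ) < Q := by exact_mod_cast hQ
  have hQN : Q ≤ N := le_trans (Nat.le_mul_of_pos_left Q hZ01) hZQ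
  have hN1 : 1 ≤ N := hQ.trans hQN
  have hN0 : (0 : ℝ) < N := by exact_mod_cast hN1
  have hK1 : 1 ≤ K := by
    rcases Nat.eq_zero_or_pos K with h | h
    · rw [h, mul_zero] at hZK
      have h1 : 0 < Z0 * N ^ 2 := by positivity
      omega
    · exact h
  have hK0 : (0 : ℝ) < K := by exact_mod_cast hK1
  have hk1 := a15e_ks_one Q
  have hk4 : 0 < ks Q ^ 4 := by positivity
  -- the small quantity
  obtain ⟨w, hw⟩ : ∃ w : ℝ, w = ((Q : ℝ) / N) ^ (1 / 4 : ℝ) := ⟨_, rfl⟩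
  have hw0 : 0 < w := by
    rw [hw]
    exact Real.rpow_pos_of_pos (by positivity) _
  obtain ⟨v, hv⟩ : ∃ v : ℝ, v = (Z0 : ℝ) ^ (-(1 / 4) : ℝ) := ⟨_, rfl⟩
  have hZp : (0 : ℝ) < Z0 := by linarith
  have hv0 : 0 < v := by rw [hv]; exact Real.rpow_pos_of_pos hZp _
  have hQNZ : (Q : ℝ) / N ≤ (Z0 : ℝ)⁻¹ := by
    rw [div_le_iff₀ hN0, inv_mul_eq_div, le_div_iff₀ hZp]
    have : ((Z0 * Q : ℕ) : ℝ) ≤ N := by exact_mod_cast hZQ
    push_cast at this
    linarith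
  have hwv : w ≤ v := by
    rw [hw, hv, Real.rpow_neg hZp.le, ← Real.inv_rpow hZp.le]
    exact Real.rpow_le_rpow (by positivity) hQNZ (by norm_num)
  have hAv : A * v ≤ η := by
    have h1 : A / η ≤ (Z0 : ℝ) ^ (1 / 4 : ℝ) := by
      have h2 : A / η = ((A / η) ^ 4) ^ (1 / 4 : ℝ) := by
        rw [← Real.rpow_natCast, ← Real.rpow_mul (by positivity)]
        norm_num
      rw [h2]
      exact Real.rpow_le_rpow (by positivity) hZA (by norm_num)
    rw [hv, Real.rpow_neg hZp.le]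
    have h3 : 0 < (Z0 : ℝ) ^ (1 / 4 : ℝ) := Real.rpow_pos_of_pos hZp _
    rw [← div_eq_mul_inv, div_le_iff₀ h3]
    rw [div_le_iff₀ hη] at h1
    linarith
  -- from `SK K` to `SG`
  have e1 := c12_SG hC8 h8 h16 hC16 N K Q hQ hK1 hQN
  have hzK : (N : ℝ) / Q / Real.sqrt K ≤ v := by
    have hsK : 0 < Real.sqrt K := Real.sqrt_pos.2 hK0
    have h1 : ((N : ℝ) / Q / Real.sqrt K) ^ 2 ≤ (Z0 : ℝ)⁻¹ := by
      rw [div_pow, Real.sq_sqrt hK0.le, div_pow, div_div, div_le_iff₀ (by positivity),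
        inv_mul_eq_div, le_div_iff₀ hZp]
      have h2 : ((Z0 * N ^ 2 : ℕ) : ℝ) ≤ ((Q ^ 2 * K : ℕ) : ℝ) := by exact_mod_cast hZK
      push_cast at h2
      linarith
    have h2 : (Z0 : ℝ)⁻¹ ≤ v ^ 2 := by
      have h3 : v ^ 2 = (Z0 : ℝ) ^ (-(1 / 2) : ℝ) := by
        rw [hv, ← Real.rpow_natCast, ← Real.rpow_mul hZp.le]
        norm_num
      rw [h3, ← Real.rpow_neg_one]
      exact Real.rpow_le_rpow_of_exponent_le hZr (by norm_num)
    exact (pow_le_pow_iff_left₀ (by positivity) hv0.le two_ne_zero).1 (h1.trans h2)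
  -- from `SK (N ^ 16)` to `SG`
  have hz1 : (1 : ℝ) ≤ (N : ℝ) / Q := by
    rw [le_div_iff₀ hQ0, one_mul]
    exact_mod_cast hQN
  have hK' : N ^ 16 ≤ Q ^ 16 * N ^ 16 := Nat.le_mul_of_pos_left _ (by positivity)
  have e2 := a15e_SG C8 hC8 h8 N (N ^ 16) Q hQ ((N : ℝ) / Q) rfl hz1 hK'
  have e3 := h15 N (N ^ 16) Q hQ hQN hK'
  rw [← hw] at e3
  have hzw : 1 / ((N : ℝ) / Q) ≤ w := by
    have h1 : (Q : ℝ) / N ≤ 1 := by
      rw [div_le_one hN0]
      exact_mod_cast hQN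
    rw [one_div_div, hw]
    calc (Q : ℝ) / N = ((Q : ℝ) / N) ^ (1 : ℝ) := (Real.rpow_one _).symm
      _ ≤ _ := Real.rpow_le_rpow_of_exponent_ge (by positivity) h1 (by norm_num)
  set P : ℝ := 2 * ∑ k ∈ Icc 1 (N / Q), SK K (k * Q) * ((N : ℝ) - k * Q) with hP
  set P' : ℝ := 2 * ∑ k ∈ Icc 1 (N / Q), SK (N ^ 16) (k * Q) * ((N : ℝ) - k * Q) with hP'
  set G : ℝ := 2 * ∑ k ∈ Icc 1 (N / Q), SG (k * Q) * ((N : ℝ) - k * Q) with hG
  set M : ℝ := (N : ℝ) ^ 2 / Nat.totient Q - N * (Real.log ((N : ℝ) / Q) + HC.CQ Q - 1) with hM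
  have f1 : |P - G| ≤ 2 * C8 * C16 * v * (N * ks Q ^ 4) := by
    refine e1.trans ?_
    gcongr
  have f2 : |P' - G| ≤ 2 * C8 * v * (N * ks Q ^ 4) := by
    refine e2.trans ?_
    have := hzw.trans hwv
    gcongr
  have f3 : |P' - M| ≤ C15 * v * (N * ks Q ^ 4) := by
    refine e3.trans ?_
    calc C15 * N * w * ks Q ^ 4 ≤ C15 * N * v * ks Q ^ 4 := by gcongr
      _ = _ := by ring
  have f4 : |P - M| ≤ |P - G| + |P' - G| + |P' - M| := by
    have h1 := abs_sub_le P G M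
    have h2 := abs_sub_le G P' M
    rw [abs_sub_comm G P'] at h2
    linarith
  calc |P - M| ≤ _ := f4
    _ ≤ 2 * C8 * C16 * v * (N * ks Q ^ 4) + 2 * C8 * v * (N * ks Q ^ 4) +
        C15 * v * (N * ks Q ^ 4) := by linarith
    _ = A * v * (N * ks Q ^ 4) := by rw [hA]; ring
    _ ≤ η * (N * ks Q ^ 4) := mul_le_mul_of_nonneg_right hAv (by positivity)
    _ = η * N * ks Q ^ 4 := by ring

end Pool.Agent.AAX

namespace Pool.Agent.AAX

/-- alias -/
theorem main_one : type_of% @main_one_pr := @main_one_pr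

end Pool.Agent.AAX

/-! ### C13 -/

/-! Block C13 of AAX (helper48): from the von Mangoldt function to the primes `> √N`. -/

namespace Pool.Agent.AAX

open Finset Pool.Agent.Var35 Pool.Agent.Var73 Pool.Agent.PV Pool.Agent.FGP Pool.Agent.FGA
open scoped ArithmeticFunction ArithmeticFunction.Moebius

theorem c13_E : ∃ N0 : ℕ, ∀ N ≥ N0, ∀ Q R : ℕ, N ^ 4 ≤ Q ^ 5 → Q ≤ 4 * N →
    |(1 / (Q : ℝ)) * ∑ l ∈ (range Q).filter (fun l : ℕ => R < HC.den l Q), HC.Sq HC.Lam N (l / Q) -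
      VP (Ps N) Q R| ≤ N / Real.log N := by
  obtain ⟨C, hC, hrem⟩ := rem_sum
  obtain ⟨N0, hN0⟩ := cmp_final (2 / 15) (2 + 4 * C) (by norm_num)
  refine ⟨max N0 2, ?_⟩
  intro N hN Q R hQN _
  have hN2 : 2 ≤ N := le_trans (le_max_right _ _) hN
  have hfin := hN0 N (le_trans (le_max_left _ _) hN)
  obtain ⟨hρ, hS⟩ := hrem N hN2
  have hNr : (2 : ℝ) ≤ N := by exact_mod_cast hN2
  have hNp : (0 : ℝ) < N := by linarith
  have hN1 : (1 : ℝ) ≤ N := by linarith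
  have hQ : 1 ≤ Q := by
    rcases Nat.eq_zero_or_pos Q with h | h
    · rw [h] at hQN
      have : 0 < N ^ 4 := by positivity
      simp at hQN
      omega
    · exact h
  have hQ0 : (0 : ℝ) < Q := by exact_mod_cast hQ
  have hL0 : 0 ≤ Real.log N := Real.log_natCast_nonneg N
  obtain ⟨L, hLd⟩ : ∃ L, L = 1 + Real.log N := ⟨_, rfl⟩
  rw [← hLd] at hfin hS
  have hL1 : 1 ≤ L := by linarith
  have hlL : Real.log N ≤ L := by linarith
  -- `N / Q ≤ N ^ (1/5)`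
  have hNQ : (N : ℝ) / Q ≤ (N : ℝ) ^ (1 / 5 : ℝ) := by
    have h1 : ((N : ℝ) / Q) ^ 5 ≤ N := by
      rw [div_pow, div_le_iff₀ (by positivity)]
      have h2 : (N : ℝ) ^ 4 ≤ (Q : ℝ) ^ 5 := by exact_mod_cast hQN
      calc (N : ℝ) ^ 5 = N * (N : ℝ) ^ 4 := by ring
        _ ≤ N * (Q : ℝ) ^ 5 := mul_le_mul_of_nonneg_left h2 hNp.le
    have h3 : (N : ℝ) / Q = (((N : ℝ) / Q) ^ 5) ^ (1 / 5 : ℝ) := by
      rw [← Real.rpow_natCast, ← Real.rpow_mul (by positivity)]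
      norm_num
    rw [h3]
    exact Real.rpow_le_rpow (by positivity) h1 (by norm_num)
  have hT1 : (1 : ℝ) ≤ (N : ℝ) ^ (1 / 5 : ℝ) := Real.one_le_rpow hN1 (by norm_num)
  have hNQ1 : (N : ℝ) / Q + 1 ≤ 2 * (N : ℝ) ^ (1 / 5 : ℝ) := by linarith
  obtain ⟨δ, hδ⟩ : ∃ δ, δ = (N : ℝ) ^ (-(1 / 4) : ℝ) := ⟨_, rfl⟩
  have hδ0 : 0 < δ := by rw [hδ]; exact Real.rpow_pos_of_pos hNp _
  have hδ1 : 1 / δ = (N : ℝ) ^ (1 / 4 : ℝ) := by
    rw [hδ, one_div, ← Real.rpow_neg hNp.le]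
    norm_num
  have hδ2 : 1 + 1 / δ ≤ 2 * (N : ℝ) ^ (1 / 4 : ℝ) := by
    have : (1 : ℝ) ≤ (N : ℝ) ^ (1 / 4 : ℝ) := Real.one_le_rpow hN1 (by norm_num)
    rw [hδ1]
    linarith
  have hb : ∀ n ∈ Icc 1 N, 0 ≤ a18b_b N n := by
    intro n _
    have := hρ n
    rw [a18b_b]
    linarith
  have hbL : ∀ n ∈ Icc 1 N, a18b_b N n ≤ L := by
    intro n hn
    rw [Finset.mem_Icc] at hn
    have h1 : ArithmeticFunction.vonMangoldt n ≤ Real.log n :=
      ArithmeticFunction.vonMangoldt_le_log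
    have h2 : Real.log n ≤ Real.log N := by
      apply Real.log_le_log
      · exact_mod_cast hn.1
      · exact_mod_cast hn.2
    have h3 := cmp_aS_nonneg N n
    rw [a18b_b]
    linarith
  have hone := a18b_one N Q R δ hδ0 hQ
  have hA := cmp_sqA N Q hQ
  have hB := a18b_sq (a18b_b N) N Q L hQ hb hbL (by linarith)
  have hS' : ∑ n ∈ Icc 1 N, a18b_b N n ≤ C * Real.sqrt N * L ^ 2 := hS
  obtain ⟨W, hW⟩ : ∃ W, W = (N : ℝ) ^ (19 / 20 : ℝ) := ⟨_, rfl⟩
  have hW0 : 0 < W := by rw [hW]; exact Real.rpow_pos_of_pos hNp _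
  have hL23 : L ^ 2 ≤ L ^ 3 := pow_le_pow_right₀ hL1 (by norm_num)
  have hl2 : Real.log N ^ 2 ≤ L ^ 2 := pow_le_pow_left₀ hL0 hlL 2
  have t1 : δ * ∑ a ∈ range Q, cmpC (aS N) N Q a ^ 2 ≤ 2 * L ^ 3 * W := by
    have e1 : δ * ((N : ℝ) ^ (1 / 5 : ℝ) * N) = W := by
      rw [hδ, hW]
      nth_rewrite 3 [← Real.rpow_one (N : ℝ)]
      rw [← Real.rpow_add hNp, ← Real.rpow_add hNp]
      norm_num
    calc δ * ∑ a ∈ range Q, cmpC (aS N) N Q a ^ 2
        ≤ δ * (((N : ℝ) / Q + 1) * (N * Real.log N ^ 2)) := mul_le_mul_of_nonneg_left hA hδ0.le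
      _ ≤ δ * ((2 * (N : ℝ) ^ (1 / 5 : ℝ)) * (N * L ^ 3)) := by
          apply mul_le_mul_of_nonneg_left _ hδ0.le
          apply mul_le_mul hNQ1 _ (by positivity) (by positivity)
          exact mul_le_mul_of_nonneg_left (le_trans hl2 hL23) hNp.le
      _ = 2 * L ^ 3 * (δ * ((N : ℝ) ^ (1 / 5 : ℝ) * N)) := by ring
      _ = 2 * L ^ 3 * W := by rw [e1]
  have t2 : (1 + 1 / δ) * ∑ a ∈ range Q, cmpC (a18b_b N) N Q a ^ 2 ≤ 4 * C * L ^ 3 * W := by
    have e1 : (N : ℝ) ^ (1 / 4 : ℝ) * ((N : ℝ) ^ (1 / 5 : ℝ) * Real.sqrt N) = W := by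
      rw [hW, Real.sqrt_eq_rpow, ← Real.rpow_add hNp, ← Real.rpow_add hNp]
      norm_num
    have h1 : ∑ a ∈ range Q, cmpC (a18b_b N) N Q a ^ 2 ≤
        (2 * (N : ℝ) ^ (1 / 5 : ℝ)) * L * (C * Real.sqrt N * L ^ 2) := by
      refine le_trans hB ?_
      apply mul_le_mul _ hS' (Finset.sum_nonneg hb) (by positivity)
      exact mul_le_mul_of_nonneg_right hNQ1 (by linarith)
    calc (1 + 1 / δ) * ∑ a ∈ range Q, cmpC (a18b_b N) N Q a ^ 2
        ≤ (2 * (N : ℝ) ^ (1 / 4 : ℝ)) * ((2 * (N : ℝ) ^ (1 / 5 : ℝ)) * L *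
          (C * Real.sqrt N * L ^ 2)) := by
          apply mul_le_mul hδ2 h1 (Finset.sum_nonneg (fun _ _ => sq_nonneg _)) (by positivity)
      _ = 4 * C * L ^ 3 * ((N : ℝ) ^ (1 / 4 : ℝ) * ((N : ℝ) ^ (1 / 5 : ℝ) * Real.sqrt N)) := by
          ring
      _ = 4 * C * L ^ 3 * W := by rw [e1]
  have hlog : 0 < Real.log N := Real.log_pos (by linarith)
  have hfin' : (2 + 4 * C) * L ^ 3 * W ≤ N / Real.log N := by
    have e1 : (N : ℝ) ^ (3 * (2 / 15) / 8 : ℝ) * W = N := by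
      rw [hW, ← Real.rpow_add hNp]
      norm_num
    rw [le_div_iff₀ hlog]
    calc (2 + 4 * C) * L ^ 3 * W * Real.log N ≤ (2 + 4 * C) * L ^ 3 * W * L :=
          mul_le_mul_of_nonneg_left hlL (by positivity)
      _ = (2 + 4 * C) * L ^ 4 * W := by ring
      _ ≤ (N : ℝ) ^ (3 * (2 / 15) / 8 : ℝ) * W := mul_le_mul_of_nonneg_right hfin hW0.le
      _ = N := e1
  calc _ ≤ _ := hone
    _ ≤ 2 * L ^ 3 * W + 4 * C * L ^ 3 * W := add_le_add t1 t2
    _ = (2 + 4 * C) * L ^ 3 * W := by ring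
    _ ≤ N / Real.log N := hfin'

theorem lam_ps_pr : ∀ η : ℝ, 0 < η → ∃ N0 : ℕ, ∀ N ≥ N0, ∀ Q R : ℕ, N ^ 4 ≤ Q ^ 5 → Q ≤ 4 * N →
    |(1 / (Q : ℝ)) * ∑ l ∈ (range Q).filter (fun l : ℕ => R < HC.den l Q), HC.Sq HC.Lam N (l / Q) -
        VP (Ps N) Q R| ≤ η * N := by
  intro η hη
  obtain ⟨N0, hN0⟩ := c13_E
  have h1 := (Real.tendsto_log_atTop.comp tendsto_natCast_atTop_atTop).eventually_ge_atTop (1 / η)
  obtain ⟨N1, hN1⟩ := Filter.eventually_atTop.1 h1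
  refine ⟨max N0 N1, ?_⟩
  intro N hN Q R hQN hQ
  refine (hN0 N (le_trans (le_max_left _ _) hN) Q R hQN hQ).trans ?_
  have h2 : 1 / η ≤ Real.log N := hN1 N (le_trans (le_max_right _ _) hN)
  have h3 : 0 < 1 / η := by positivity
  have h4 : 0 < Real.log N := lt_of_lt_of_le h3 h2
  rw [div_le_iff₀ h4]
  have h5 : 1 ≤ η * Real.log N := by
    rw [div_le_iff₀ hη] at h2
    linarith
  have h6 : (0 : ℝ) ≤ N := Nat.cast_nonneg N
  nlinarith

end Pool.Agent.AAX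

namespace Pool.Agent.AAX

/-- alias -/
theorem lam_ps : type_of% @lam_ps_pr := @lam_ps_pr

end Pool.Agent.AAX

/-! ### C14 -/

/-! # AAX, block C14: the mean square of `Fh` -/

namespace Pool.Agent.AAX

open Finset MeasureTheory Pool.Agent.Var35 Pool.Agent.Var73 Pool.Agent.PV Pool.Agent.FGP Pool.Agent.FGA
open scoped ArithmeticFunction ArithmeticFunction.Moebius

theorem c14_cont : Continuous e := by
  unfold e
  fun_prop

/-- the mean of an exponential over the grid -/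
theorem c14_grid (M : ℕ) (n : ℤ) (hn : n ≠ 0) (h1 : -(M : ℤ) < n) (h2 : n < M) :
    ∑ j ∈ range M, e (n * ((j : ℝ) / M)) = 0 := by
  have hM : 0 < M := by omega
  have hM0 : (M : ℝ) ≠ 0 := by positivity
  have h3 : ∀ j : ℕ, e (n * ((j : ℝ) / M)) = e (n / M) ^ j := by
    intro j
    rw [← e_nat_mul]
    congr 1
    ring
  rw [sum_congr rfl fun j _ => h3 j]
  have h4 : e ((n : ℝ) / M) ≠ 1 := by
    intro h
    unfold e at h
    rw [Complex.exp_eq_one_iff] at h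
    obtain ⟨k, hk⟩ := h
    have hk2 : ((n : ℝ) / M) = k := by
      have hpi : (2 * (Real.pi : ℂ) * Complex.I) ≠ 0 := by
        simp [Real.pi_ne_zero, Complex.I_ne_zero]
      have h5 : ((((n : ℝ) / M : ℝ) : ℂ)) * (2 * (Real.pi : ℂ) * Complex.I) =
          (k : ℂ) * (2 * (Real.pi : ℂ) * Complex.I) := by
        rw [← hk]
        push_cast
        ring
      have h6 := mul_right_cancel₀ hpi h5
      exact_mod_cast h6
    have h7 : (n : ℝ) = k * M := by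
      field_simp at hk2
      linarith
    have h8 : n = k * M := by exact_mod_cast h7
    rcases lt_trichotomy k 0 with hk0 | hk0 | hk0
    · have : k * (M : ℤ) ≤ -1 * M := mul_le_mul_of_nonneg_right (by omega) (by omega)
      omega
    · subst hk0
      simp at h8
      exact hn h8
    · have : 1 * (M : ℤ) ≤ k * M := mul_le_mul_of_nonneg_right (by omega) (by omega)
      omega
  have h9 := geom_sum_mul (e ((n : ℝ) / M)) M
  have h10 : e ((n : ℝ) / M) ^ M = 1 := by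
    rw [← e_nat_mul]
    have : (M : ℝ) * ((n : ℝ) / M) = n := by field_simp
    rw [this, e_int]
  rw [h10, sub_self] at h9
  rcases mul_eq_zero.1 h9 with h | h
  · exact h
  · exact absurd (sub_eq_zero.1 h) h4

/-- the integral of an exponential over a period -/
theorem c14_int (n : ℤ) (hn : n ≠ 0) : ∫ b in (-(1 / 2 : ℝ))..(1 / 2), e (n * b) = 0 := by
  have hc : (2 * (Real.pi : ℂ) * Complex.I * n) ≠ 0 := by
    have : (n : ℂ) ≠ 0 := by exact_mod_cast hn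
    simp [Real.pi_ne_zero, Complex.I_ne_zero, this]
  have h1 : ∀ b : ℝ, e (n * b) = Complex.exp ((2 * (Real.pi : ℂ) * Complex.I * n) * b) := by
    intro b
    unfold e
    congr 1
    push_cast
    ring
  simp_rw [h1]
  rw [integral_exp_mul_complex hc]
  have h2 : Complex.exp ((2 * (Real.pi : ℂ) * Complex.I * n) * ((1 / 2 : ℝ) : ℂ)) =
      Complex.exp ((2 * (Real.pi : ℂ) * Complex.I * n) * ((-(1 / 2 : ℝ) : ℝ) : ℂ)) := by
    rw [Complex.exp_eq_exp_iff_exists_int]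
    refine ⟨n, ?_⟩
    push_cast
    ring
  rw [h2, sub_self, zero_div]

/-- the mean of a trigonometric polynomial over the grid is its mean over a period -/
theorem c14_mean {A B : ℤ} {G : ℝ → ℂ} (hG : TP A B G) (M : ℕ) (hM : 1 ≤ M) (hA : -(M : ℤ) < A)
    (hB : B < M) (s : ℝ) :
    (1 / (M : ℂ)) * ∑ j ∈ range M, G (j / M) = ∫ b in (-(1 / 2 : ℝ))..(1 / 2), G (s + b) := by
  obtain ⟨c, hc⟩ := hG
  have hM0 : (M : ℂ) ≠ 0 := by
    have : M ≠ 0 := by omega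
    exact_mod_cast this
  have h1 : (1 / (M : ℂ)) * ∑ j ∈ range M, G (j / M) =
      ∑ n ∈ Icc A B, if n = 0 then c n else 0 := by
    have h2 : ∑ j ∈ range M, G (j / M) = ∑ n ∈ Icc A B, c n * ∑ j ∈ range M, e (n * ((j : ℝ) / M)) := by
      rw [sum_congr rfl fun j _ => hc _]
      rw [sum_comm]
      refine sum_congr rfl fun n _ => ?_
      rw [mul_sum]
    rw [h2, mul_sum]
    refine sum_congr rfl fun n hn => ?_
    rw [mem_Icc] at hn
    by_cases h0 : n = 0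
    · rw [if_pos h0]
      subst h0
      have h3 : ∑ j ∈ range M, e (((0 : ℤ) : ℝ) * ((j : ℝ) / M)) = M := by
        simp [e_zero]
      rw [h3]
      field_simp
    · rw [if_neg h0, c14_grid M n h0 (by omega) (by omega)]
      simp
  rw [h1]
  have h4 : ∀ b : ℝ, G (s + b) = ∑ n ∈ Icc A B, (c n * e (n * s)) * e (n * b) := by
    intro b
    rw [hc]
    refine sum_congr rfl fun n _ => ?_
    have : (n : ℝ) * (s + b) = n * s + n * b := by ring
    rw [this, e_add]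
    ring
  simp_rw [h4]
  rw [intervalIntegral.integral_finsetSum]
  · refine sum_congr rfl fun n _ => ?_
    rw [intervalIntegral.integral_const_mul]
    by_cases h0 : n = 0
    · rw [if_pos h0]
      subst h0
      have h5 : ∀ b : ℝ, e (((0 : ℤ) : ℝ) * b) = 1 := by
        intro b
        simp [e_zero]
      simp_rw [h5]
      simp
      norm_num
    · rw [if_neg h0, c14_int n h0, mul_zero]
  · intro n _
    apply Continuous.intervalIntegrable
    exact continuous_const.mul (c14_cont.comp (by fun_prop))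

theorem c14_conj {A B : ℤ} {G : ℝ → ℂ} (hG : TP A B G) :
    TP (-B) (-A) (fun t => (starRingEnd ℂ) (G t)) := by
  obtain ⟨c, hc⟩ := hG
  refine p10_congr (p10_sum (Icc A B) (P := fun n t => (starRingEnd ℂ) (c n) *
    e (((-n : ℤ) : ℝ) * t)) fun n hn => ?_) fun t => ?_
  · rw [mem_Icc] at hn
    exact p10_single (by omega) (by omega) _
  · rw [hc, map_sum]
    refine sum_congr rfl fun n _ => ?_
    rw [map_mul, ← e_neg]
    congr 2
    push_cast
    ring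

theorem c14_TPWr (N K r : ℕ) (h : 1 ≤ r * lw N K) (s : ℝ) :
    TP (-(4 * ((r * lw N K : ℕ) : ℤ))) (4 * ((r * lw N K : ℕ) : ℤ))
      (fun t => ((Wr N K r (t - s) : ℝ) : ℂ)) := by
  have h1 := (vr_facts N K r h).2.2.2
  have h2 : TP (-(4 * ((r * lw N K : ℕ) : ℤ))) (4 * ((r * lw N K : ℕ) : ℤ))
      (fun t => ((Wr N K r t : ℝ) : ℂ)) := by
    refine ⟨fun m => ((vr N K r m : ℝ) : ℂ), fun t => ?_⟩
    have h3 := h1 (4 * (r * lw N K)) t le_rfl
    dsimp only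
    rw [h3]
    have h4 : ((4 * (r * lw N K) : ℕ) : ℤ) = 4 * ((r * lw N K : ℕ) : ℤ) := by push_cast; ring
    rw [h4]
  exact p10_shift h2 s

theorem c14_TPXc (N r c : ℕ) : TP 1 N (fun t => Xc N c r t) := by
  refine p10_congr (p10_add (p10_Ps N) (p10_const (p10_shift (p10_In N) (c / r))
    (-((mr r : ℝ) : ℂ)))) fun t => ?_
  unfold Xc
  ring

theorem c14_one (N K r c M : ℕ) (h : 1 ≤ r * lw N K) (hN : 1 ≤ N) (hM : 4 * (r * lw N K) + N ≤ M) :
    mean M (range M) (fun t => Wr N K r (t - c / r) * ‖Xc N c r t‖ ^ 2) =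
      ∫ b in (-(1 / 2 : ℝ))..(1 / 2), Wr N K r b *
        ‖Ps N (c / r + b) - ((mr r : ℝ) : ℂ) * In N b‖ ^ 2 := by
  have hTP := p10_mul (c14_TPWr N K r h (c / r)) (p10_mul (c14_TPXc N r c) (c14_conj (c14_TPXc N r c)))
  have h1 := c14_mean hTP M (by omega) (by push_cast; omega) (by push_cast; omega) (c / r)
  have h2 : ∀ t : ℝ, ((Wr N K r (t - c / r) : ℝ) : ℂ) * (Xc N c r t * (starRingEnd ℂ) (Xc N c r t)) =
      ((Wr N K r (t - c / r) * ‖Xc N c r t‖ ^ 2 : ℝ) : ℂ) := by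
    intro t
    rw [Complex.mul_conj, Complex.normSq_eq_norm_sq]
    push_cast
    ring
  simp_rw [h2] at h1
  rw [intervalIntegral.integral_ofReal] at h1
  have h3 : ((mean M (range M) (fun t => Wr N K r (t - c / r) * ‖Xc N c r t‖ ^ 2) : ℝ) : ℂ) =
      1 / (M : ℂ) * ∑ j ∈ range M,
        ((Wr N K r (j / M - c / r) * ‖Xc N c r (j / M)‖ ^ 2 : ℝ) : ℂ) := by
    unfold mean
    push_cast
    rfl
  rw [← h3] at h1
  have h4 := Complex.ofReal_injective h1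
  rw [h4]
  refine intervalIntegral.integral_congr fun b _ => ?_
  have h5 : (c : ℝ) / r + b - c / r = b := by ring
  unfold Xc
  rw [h5]

theorem c14_cs {ι : Type} (s : Finset ι) (w : ι → ℝ) (x : ι → ℂ) (hw : ∀ i ∈ s, 0 ≤ w i) :
    ‖∑ i ∈ s, ((w i : ℝ) : ℂ) * x i‖ ^ 2 ≤ (∑ i ∈ s, w i) * ∑ i ∈ s, w i * ‖x i‖ ^ 2 := by
  have h1 : ‖∑ i ∈ s, ((w i : ℝ) : ℂ) * x i‖ ≤ ∑ i ∈ s, Real.sqrt (w i) * (Real.sqrt (w i) * ‖x i‖) := by
    refine (norm_sum_le _ _).trans (sum_le_sum fun i hi => ?_)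
    rw [norm_mul, Complex.norm_real, Real.norm_eq_abs, abs_of_nonneg (hw i hi), ← mul_assoc,
      Real.mul_self_sqrt (hw i hi)]
  have h2 : (∑ i ∈ s, Real.sqrt (w i) * (Real.sqrt (w i) * ‖x i‖)) ^ 2 ≤
      (∑ i ∈ s, Real.sqrt (w i) ^ 2) * ∑ i ∈ s, (Real.sqrt (w i) * ‖x i‖) ^ 2 :=
    sum_mul_sq_le_sq_mul_sq _ _ _
  have h3 : ∑ i ∈ s, Real.sqrt (w i) ^ 2 = ∑ i ∈ s, w i :=
    sum_congr rfl fun i hi => Real.sq_sqrt (hw i hi)
  have h4 : ∑ i ∈ s, (Real.sqrt (w i) * ‖x i‖) ^ 2 = ∑ i ∈ s, w i * ‖x i‖ ^ 2 := by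
    refine sum_congr rfl fun i hi => ?_
    rw [mul_pow, Real.sq_sqrt (hw i hi)]
  rw [h3, h4] at h2
  exact (pow_le_pow_left₀ (norm_nonneg _) h1 2).trans h2

theorem c14_contWr (N K r : ℕ) : Continuous (Wr N K r) := by
  unfold Wr Dk
  have := c14_cont
  fun_prop

theorem c14_contPs (N : ℕ) : Continuous (Ps N) := by
  unfold Ps Bs
  have := c14_cont
  fun_prop

theorem c14_contIn (N : ℕ) : Continuous (In N) := by
  unfold In
  have := c14_cont
  fun_prop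

/-- C14 -/
theorem ms_Fh_pr : ∃ N0 : ℕ, ∀ N ≥ N0, ∀ K, Rg K N → ∀ M, Good (2 * N) M →
    ms M (Fh N K) ≤ 2 * msT N K := by
  obtain ⟨N1, hN1⟩ := lw_facts
  obtain ⟨N2, hN2⟩ := wt_facts
  refine ⟨max (max N1 N2) 1, ?_⟩
  intro N hN K hR M hG
  have hNa : N1 ≤ N := le_trans (le_trans (le_max_left _ _) (le_max_left _ _)) hN
  have hNb : N2 ≤ N := le_trans (le_trans (le_max_right _ _) (le_max_left _ _)) hN
  have hNc : 1 ≤ N := le_trans (le_max_right _ _) hN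
  obtain ⟨hl1, hl2, -, -, -⟩ := hN1 N hNa K hR
  obtain ⟨hW, -⟩ := hN2 N hNb K hR
  have hM : 4 * (2 * N) < M := hG.1
  have hrl : ∀ r ∈ Icc 1 K, 1 ≤ r * lw N K := by
    intro r hr
    rw [mem_Icc] at hr
    exact Nat.mul_pos hr.1 hl1
  have hrM : ∀ r ∈ Icc 1 K, 4 * (r * lw N K) + N ≤ M := by
    intro r hr
    rw [mem_Icc] at hr
    have : r * lw N K ≤ K * lw N K := Nat.mul_le_mul_right _ hr.2
    omega
  have hW0 : ∀ r ∈ Icc 1 K, ∀ b, 0 ≤ Wr N K r b := fun r hr b =>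
    ((wr_facts N K r (hrl r hr)).1 b).1
  -- the pointwise bound
  have hpt : ∀ t : ℝ, ‖Fh N K t‖ ^ 2 ≤
      2 * ∑ r ∈ Icc 1 K, ∑ c ∈ Cd r, Wr N K r (t - c / r) * ‖Xc N c r t‖ ^ 2 := by
    intro t
    have h1 := c14_cs ((Icc 1 K).sigma fun r => Cd r)
      (fun p => Wr N K p.1 (t - p.2 / p.1)) (fun p => Xc N p.2 p.1 t)
      (fun p hp => hW0 p.1 (mem_sigma.1 hp).1 _)
    rw [sum_sigma, sum_sigma, sum_sigma] at h1
    have h2 : Fh N K t = ∑ r ∈ Icc 1 K, ∑ c ∈ Cd r, ((Wr N K r (t - c / r) : ℝ) : ℂ) * Xc N c r t := rfl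
    rw [h2]
    refine h1.trans (mul_le_mul_of_nonneg_right (hW t).2 ?_)
    exact sum_nonneg fun r hr => sum_nonneg fun c _ => mul_nonneg (hW0 r hr _) (sq_nonneg _)
  have h3 : ms M (Fh N K) ≤ 2 * ∑ r ∈ Icc 1 K, ∑ c ∈ Cd r,
      mean M (range M) (fun t => Wr N K r (t - c / r) * ‖Xc N c r t‖ ^ 2) := by
    unfold ms mean
    calc 1 / (M : ℝ) * ∑ j ∈ range M, ‖Fh N K (j / M)‖ ^ 2
        ≤ 1 / (M : ℝ) * ∑ j ∈ range M, 2 * ∑ r ∈ Icc 1 K, ∑ c ∈ Cd r,
            Wr N K r (j / M - c / r) * ‖Xc N c r (j / M)‖ ^ 2 :=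
          mul_le_mul_of_nonneg_left (sum_le_sum fun j _ => hpt _) (by positivity)
      _ = 2 * ∑ r ∈ Icc 1 K, ∑ c ∈ Cd r, (1 / (M : ℝ) * ∑ j ∈ range M,
            Wr N K r (j / M - c / r) * ‖Xc N c r (j / M)‖ ^ 2) := by
          rw [← mul_sum, mul_left_comm]
          congr 1
          rw [sum_comm, mul_sum]
          refine sum_congr rfl fun r _ => ?_
          rw [sum_comm, mul_sum]
  refine h3.trans (mul_le_mul_of_nonneg_left (le_of_eq ?_) (by norm_num))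
  unfold msT
  refine sum_congr rfl fun r hr => ?_
  rw [sum_congr rfl fun c _ => c14_one N K r c M (hrl r hr) hNc (hrM r hr)]
  rw [← intervalIntegral.integral_finsetSum]
  · refine intervalIntegral.integral_congr fun b _ => ?_
    rw [mul_sum]
  · intro c _
    apply Continuous.intervalIntegrable
    have h4 := c14_contWr N K r
    have h5 : Continuous fun b : ℝ => Ps N (c / r + b) := (c14_contPs N).comp (by fun_prop)
    have h6 := c14_contIn N
    fun_prop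

end Pool.Agent.AAX

namespace Pool.Agent.AAX

/-- alias -/
theorem ms_Fh : type_of% @ms_Fh_pr := @ms_Fh_pr

end Pool.Agent.AAX

/-! ### C15 -/

/-! AAX, block C15 -/

namespace Pool.Agent.AAX

open Finset MeasureTheory Pool.Agent.Var35 Pool.Agent.Var73 Pool.Agent.PV Pool.Agent.FGP Pool.Agent.FGA
open scoped ArithmeticFunction ArithmeticFunction.Moebius

theorem c15_e_cont (x : ℝ) : Continuous (fun b : ℝ => e (x * b)) := by
  unfold e
  fun_prop

theorem c15_Dk_cont (L : ℕ) : Continuous (fun b : ℝ => Dk L b) := by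
  unfold Dk
  exact continuous_finsetSum _ (fun n _ => c15_e_cont n)

theorem c15_Wr_cont (N K r : ℕ) : Continuous (fun b : ℝ => Wr N K r b) := by
  unfold Wr
  exact ((c15_Dk_cont _).norm.div_const _).pow 8

theorem c15_uw_cont (L : ℝ) : Continuous (fun b : ℝ => uw L b) := by
  unfold uw
  refine Continuous.div continuous_const (by fun_prop) ?_
  intro b
  positivity

theorem c15_uw_nonneg (L b : ℝ) : 0 ≤ uw L b := by
  unfold uw
  positivity

theorem c15_uw_anti {L L' : ℝ} (h0 : 0 ≤ L') (h : L' ≤ L) (b : ℝ) : uw L b ≤ uw L' b := by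
  unfold uw
  have h1 : (L' * b) ^ 2 ≤ (L * b) ^ 2 := by
    rw [mul_pow, mul_pow]
    have : L' ^ 2 ≤ L ^ 2 := pow_le_pow_left₀ h0 h 2
    gcongr
  gcongr

theorem c15_Ps_cont (N : ℕ) : Continuous (fun b : ℝ => Ps N b) := by
  unfold Ps Bs
  exact continuous_finsetSum _ (fun n _ => continuous_const.mul (c15_e_cont n))

theorem c15_In_cont (N : ℕ) : Continuous (fun b : ℝ => In N b) := by
  unfold In
  exact continuous_finsetSum _ (fun n _ => c15_e_cont n)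

theorem c15_Tp_cont (N q : ℕ) :
    Continuous (fun b : ℝ => Tp (fun n => (aS N n : ℂ) * e (n * b)) N q) := by
  unfold Tp
  refine continuous_finsetSum _ (fun ψ _ => ?_)
  refine (Continuous.norm ?_).pow 2
  refine continuous_finsetSum _ (fun n _ => ?_)
  exact (continuous_const.mul (c15_e_cont n)).mul continuous_const

theorem c15_Tp_nonneg (b : ℕ → ℂ) (N q : ℕ) : 0 ≤ Tp b N q :=
  Finset.sum_nonneg (fun _ _ => by positivity)

theorem c15_Eg_nonneg (N K q : ℕ) : 0 ≤ Eg N K q := by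
  unfold Eg
  refine intervalIntegral.integral_nonneg (by norm_num) (fun b _ => ?_)
  exact mul_nonneg (c15_uw_nonneg _ _) (c15_Tp_nonneg _ _ _)

theorem c15_Eg1_nonneg (N K : ℕ) : 0 ≤ Eg1 N K := by
  unfold Eg1
  refine intervalIntegral.integral_nonneg (by norm_num) (fun b _ => ?_)
  exact mul_nonneg (c15_uw_nonneg _ _) (by positivity)

/-- the coefficient -/
noncomputable def c15_g (q m : ℕ) : ℝ :=
  if Squarefree m ∧ Nat.Coprime m q then (q / Nat.totient q : ℝ) * (1 / (Nat.totient m : ℝ)) else 0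

theorem c15_g_nonneg (q m : ℕ) : 0 ≤ c15_g q m := by
  unfold c15_g
  split_ifs <;> positivity

/-- the bound for one denominator -/
theorem c15_one {N K r : ℕ} (hlw : 1 ≤ lw N K) (hr : 1 ≤ r) (hrN : r ≤ Nat.sqrt N) :
    ∫ b in (-(1 / 2 : ℝ))..(1 / 2),
      Wr N K r b * ∑ c ∈ Cd r, ‖Ps N (c / r + b) - ((mr r : ℝ) : ℂ) * In N b‖ ^ 2 ≤
    16 * ((∑ q ∈ r.divisors.erase 1, c15_g q (r / q) * Eg N K q) +
      (if Squarefree r then 1 / (Nat.totient r : ℝ) else 0) * Eg1 N K) := by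
  have hL : 1 ≤ r * lw N K := Nat.one_le_iff_ne_zero.2 (by positivity)
  obtain ⟨_, _, _, _, hW⟩ := wr_facts N K r hL
  set h : ℝ := (if Squarefree r then 1 / (Nat.totient r : ℝ) else 0) with hh
  have hh0 : 0 ≤ h := by
    rw [hh]
    split_ifs <;> positivity
  -- the right hand side as an integral
  have hR : 16 * ((∑ q ∈ r.divisors.erase 1, c15_g q (r / q) * Eg N K q) + h * Eg1 N K) =
      ∫ b in (-(1 / 2 : ℝ))..(1 / 2), 16 * ((∑ q ∈ r.divisors.erase 1, c15_g q (r / q) *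
        (uw ((q * lw N K : ℕ) : ℝ) b * Tp (fun n => (aS N n : ℂ) * e (n * b)) N q)) +
        h * (uw ((lw N K : ℕ) : ℝ) b * ‖Ps N b - In N b‖ ^ 2)) := by
    rw [intervalIntegral.integral_const_mul, intervalIntegral.integral_add,
      intervalIntegral.integral_finsetSum, intervalIntegral.integral_const_mul]
    · congr 2
      refine sum_congr rfl fun q _ => ?_
      rw [intervalIntegral.integral_const_mul]
      rfl
    · intro q _
      refine Continuous.intervalIntegrable ?_ _ _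
      exact continuous_const.mul ((c15_uw_cont _).mul (c15_Tp_cont N q))
    · refine Continuous.intervalIntegrable ?_ _ _
      refine continuous_finsetSum _ (fun q _ => ?_)
      exact continuous_const.mul ((c15_uw_cont _).mul (c15_Tp_cont N q))
    · refine Continuous.intervalIntegrable ?_ _ _
      exact continuous_const.mul ((c15_uw_cont _).mul
        (((c15_Ps_cont N).sub (c15_In_cont N)).norm.pow 2))
  rw [hR]
  refine intervalIntegral.integral_mono_on (by norm_num) ?_ ?_ ?_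
  · refine Continuous.intervalIntegrable ?_ _ _
    refine (c15_Wr_cont N K r).mul (continuous_finsetSum _ (fun c _ => ?_))
    have h1 : Continuous (fun b : ℝ => Ps N ((c : ℝ) / r + b)) :=
      (c15_Ps_cont N).comp (continuous_const.add continuous_id)
    exact ((h1.sub (continuous_const.mul (c15_In_cont N))).norm).pow 2
  · refine Continuous.intervalIntegrable ?_ _ _
    refine continuous_const.mul ((continuous_finsetSum _ (fun q _ => ?_)).add ?_)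
    · exact continuous_const.mul ((c15_uw_cont _).mul (c15_Tp_cont N q))
    · exact continuous_const.mul ((c15_uw_cont _).mul
        (((c15_Ps_cont N).sub (c15_In_cont N)).norm.pow 2))
  · intro b hb
    have hb' : |b| ≤ 1 / 2 := abs_le.2 ⟨hb.1, hb.2⟩
    rw [W06_pr N r b hr hrN]
    have h1 := hW b hb'
    have hT : ∀ q, 0 ≤ Tp (fun n => (aS N n : ℂ) * e (n * b)) N q := fun q => c15_Tp_nonneg _ _ _
    have hZ : 0 ≤ ‖Ps N b - In N b‖ ^ 2 := by positivity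
    have hS : 0 ≤ (∑ q ∈ r.divisors.erase 1, (if Squarefree (r / q) ∧ Nat.Coprime (r / q) q then
      (q / Nat.totient q : ℝ) * (1 / (Nat.totient (r / q) : ℝ)) else 0) *
        Tp (fun n => (aS N n : ℂ) * e (n * b)) N q) +
    (if Squarefree r then 1 / (Nat.totient r : ℝ) else 0) * ‖Ps N b - In N b‖ ^ 2 := by
      refine add_nonneg (sum_nonneg fun q _ => mul_nonneg ?_ (hT q)) (mul_nonneg hh0 hZ)
      exact c15_g_nonneg q (r / q)
    refine (mul_le_mul_of_nonneg_right h1 hS).trans ?_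
    rw [mul_assoc, mul_add]
    refine mul_le_mul_of_nonneg_left (add_le_add ?_ ?_) (by norm_num)
    · rw [mul_sum]
      refine sum_le_sum fun q hq => ?_
      have hq1 : q ∣ r := (Nat.mem_divisors.1 (mem_of_mem_erase hq)).1
      have hq2 : q ≤ r := Nat.le_of_dvd hr hq1
      have h2 : uw ((r * lw N K : ℕ) : ℝ) b ≤ uw ((q * lw N K : ℕ) : ℝ) b := by
        apply c15_uw_anti (by positivity)
        exact_mod_cast Nat.mul_le_mul_right _ hq2
      have h3 := c15_g_nonneg q (r / q)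
      show uw ((r * lw N K : ℕ) : ℝ) b * (c15_g q (r / q) *
        Tp (fun n => (aS N n : ℂ) * e (n * b)) N q) ≤ _
      calc uw ((r * lw N K : ℕ) : ℝ) b * (c15_g q (r / q) *
        Tp (fun n => (aS N n : ℂ) * e (n * b)) N q)
          ≤ uw ((q * lw N K : ℕ) : ℝ) b * (c15_g q (r / q) *
        Tp (fun n => (aS N n : ℂ) * e (n * b)) N q) :=
            mul_le_mul_of_nonneg_right h2 (mul_nonneg h3 (hT q))
        _ = _ := by ring
    · have h2 : uw ((r * lw N K : ℕ) : ℝ) b ≤ uw ((lw N K : ℕ) : ℝ) b := by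
        apply c15_uw_anti (by positivity)
        have : lw N K ≤ r * lw N K := Nat.le_mul_of_pos_left _ hr
        exact_mod_cast this
      calc uw ((r * lw N K : ℕ) : ℝ) b * (h * ‖Ps N b - In N b‖ ^ 2)
          ≤ uw ((lw N K : ℕ) : ℝ) b * (h * ‖Ps N b - In N b‖ ^ 2) :=
            mul_le_mul_of_nonneg_right h2 (mul_nonneg hh0 hZ)
        _ = _ := by ring

theorem msT_le_pr : ∃ C : ℝ, 0 < C ∧ ∃ N0 : ℕ, ∀ N ≥ N0, ∀ K, Rg K N →
    msT N K ≤ C * (1 + Real.log N) ^ 2 * (∑ q ∈ Icc 2 K, Eg N K q + Eg1 N K) := by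
  obtain ⟨C, hC, hLq⟩ := lq_one_upper_pr
  obtain ⟨N0, hlwf⟩ := lw_facts
  refine ⟨16 * (1 + C), by positivity, N0, ?_⟩
  intro N hN K hR
  obtain ⟨hlw, _, hKs, _⟩ := hlwf N hN K hR
  have hK10 := hR.hK
  have hKN : K ≤ N := hKs.trans (Nat.sqrt_le_self N)
  have hlogK : 0 ≤ Real.log K := Real.log_natCast_nonneg K
  have hlogKN : Real.log K ≤ Real.log N :=
    Real.log_le_log (by exact_mod_cast (by omega : 0 < K)) (by exact_mod_cast hKN)
  have hLK : ∀ z : ℕ, 1 ≤ z → z ≤ K → Lq 1 z ≤ (1 + C) * (1 + Real.log N) := by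
    intro z hz hzK
    have h1 := hLq z hz
    have h2 : Real.log z ≤ Real.log K :=
      Real.log_le_log (by exact_mod_cast hz) (by exact_mod_cast hzK)
    nlinarith
  -- the sum over the denominators
  have h1 : msT N K ≤ ∑ r ∈ Icc 1 K, 16 * ((∑ q ∈ r.divisors.erase 1, c15_g q (r / q) * Eg N K q) +
      (if Squarefree r then 1 / (Nat.totient r : ℝ) else 0) * Eg1 N K) := by
    unfold msT
    refine sum_le_sum fun r hr => ?_
    have hr1 := mem_Icc.1 hr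
    exact c15_one hlw hr1.1 (hr1.2.trans hKs)
  have h2 : ∑ r ∈ Icc 1 K, 16 * ((∑ q ∈ r.divisors.erase 1, c15_g q (r / q) * Eg N K q) +
      (if Squarefree r then 1 / (Nat.totient r : ℝ) else 0) * Eg1 N K) =
      16 * ((∑ q ∈ Ioc 1 K, ∑ m ∈ Icc 1 (K / q), c15_g q m * Eg N K q) +
        (∑ r ∈ Icc 1 K, (if Squarefree r then 1 / (Nat.totient r : ℝ) else 0)) * Eg1 N K) := by
    have e0 := p07_exch K (fun q m => c15_g q m * Eg N K q)
    rw [← mul_sum, sum_add_distrib, sum_mul, e0]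
  have h3 : ∑ q ∈ Ioc 1 K, ∑ m ∈ Icc 1 (K / q), c15_g q m * Eg N K q ≤
      (1 + C) * (1 + Real.log N) * ∑ q ∈ Icc 2 K, Eg N K q := by
    have e1 : Ioc 1 K = Icc 2 K := by
      ext q
      simp only [mem_Ioc, mem_Icc]
      omega
    rw [e1, mul_sum]
    refine sum_le_sum fun q hq => ?_
    have hq1 := mem_Icc.1 hq
    rw [← sum_mul]
    refine mul_le_mul_of_nonneg_right ?_ (c15_Eg_nonneg N K q)
    have hq0 : (0 : ℝ) < q := by exact_mod_cast (by omega : 0 < q)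
    have hφ : (0 : ℝ) < Nat.totient q := by exact_mod_cast Nat.totient_pos.2 (by omega : 0 < q)
    have e2 : ∑ m ∈ Icc 1 (K / q), c15_g q m = (q / Nat.totient q : ℝ) * Lq q (K / q) := by
      unfold Lq c15_g
      rw [sum_filter, mul_sum]
      refine sum_congr rfl fun m _ => ?_
      split_ifs <;> ring
    rw [e2]
    have e3 := lq_upper_pr q (K / q) (by omega)
    have e4 : (q / Nat.totient q : ℝ) * Lq q (K / q) ≤ Lq 1 (q * (K / q)) := by
      calc (q / Nat.totient q : ℝ) * Lq q (K / q)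
          ≤ (q / Nat.totient q : ℝ) * ((Nat.totient q / q : ℝ) * Lq 1 (q * (K / q))) := by
            gcongr
        _ = Lq 1 (q * (K / q)) := by
            field_simp
    refine e4.trans (hLK _ ?_ (Nat.mul_div_le K q))
    exact Nat.mul_pos (by omega) (Nat.div_pos hq1.2 (by omega))
  have h4 : ∑ r ∈ Icc 1 K, (if Squarefree r then 1 / (Nat.totient r : ℝ) else 0) ≤
      (1 + C) * (1 + Real.log N) := by
    refine le_of_eq_of_le ?_ (hLK K (by omega) le_rfl)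
    unfold Lq
    rw [sum_filter]
    refine sum_congr rfl fun m _ => ?_
    simp only [Nat.coprime_one_right_iff, and_true]
  have h5 := c15_Eg1_nonneg N K
  have h6 : 0 ≤ ∑ q ∈ Icc 2 K, Eg N K q := sum_nonneg fun q _ => c15_Eg_nonneg N K q
  have hlogN : 0 ≤ Real.log N := hlogK.trans hlogKN
  rw [h2] at h1
  have h8 := mul_le_mul_of_nonneg_right h4 h5
  have h9 : 0 ≤ (1 + C) * (1 + Real.log N) := by positivity
  obtain ⟨L, hL⟩ : ∃ L : ℝ, L = 1 + Real.log N := ⟨_, rfl⟩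
  obtain ⟨A, hA⟩ : ∃ A : ℝ, A = ∑ q ∈ Icc 2 K, Eg N K q := ⟨_, rfl⟩
  obtain ⟨B, hB⟩ : ∃ B : ℝ, B = Eg1 N K := ⟨_, rfl⟩
  have hL1 : 1 ≤ L := by rw [hL]; linarith
  rw [← hL, ← hA] at h3
  rw [← hL, ← hB] at h8
  rw [← hB] at h1 h5
  rw [← hA] at h6
  rw [← hL, ← hA, ← hB]
  have h10 : msT N K ≤ 16 * ((1 + C) * L * A + (1 + C) * L * B) := by linarith
  refine h10.trans ?_
  have h11 : 16 * ((1 + C) * L * A + (1 + C) * L * B) = (16 * (1 + C) * (A + B)) * L := by ring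
  have h12 : 16 * (1 + C) * L ^ 2 * (A + B) = (16 * (1 + C) * (A + B)) * L ^ 2 := by ring
  rw [h11, h12]
  have h13 : 0 ≤ 16 * (1 + C) * (A + B) := by positivity
  refine mul_le_mul_of_nonneg_left ?_ h13
  nlinarith

end Pool.Agent.AAX

namespace Pool.Agent.AAX

/-- alias -/
theorem msT_le : type_of% @msT_le_pr := @msT_le_pr

end Pool.Agent.AAX

/-! ### C16a -/

/-! AAX, block C16a: conversion to `EB`, moduli at least two (helper16) -/

namespace Pool.Agent.AAX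

open Finset MeasureTheory Pool.Agent.Var35 Pool.Agent.Var73 Pool.Agent.PV Pool.Agent.FGP
  Pool.Agent.FGA
open scoped ArithmeticFunction ArithmeticFunction.Moebius

theorem c16a_ne_one {q : ℕ} (hq : 2 ≤ q) {ψ : DirichletCharacter ℂ q} (h : ψ ∈ Pr q) : ψ ≠ 1 := by
  rintro rfl
  have h0 : NeZero q := ⟨by omega⟩
  have h1 : (1 : DirichletCharacter ℂ q).IsPrimitive := (mem_Pr _).1 h
  rw [DirichletCharacter.isPrimitive_def, DirichletCharacter.conductor_one] at h1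
  omega

theorem c16a_cont {q : ℕ} (ψ : DirichletCharacter ℂ q) (N : ℕ) (a : ℕ → ℂ) :
    Continuous fun b : ℝ => ∑ n ∈ Icc 1 N, (a n * e (n * b)) * ψ (n : ZMod q) := by
  unfold e
  fun_prop

theorem c16a_sq (x y z : ℂ) (h : x = y - z) : ‖x‖ ^ 2 ≤ 2 * ‖y‖ ^ 2 + 2 * ‖z‖ ^ 2 := by
  have h1 : ‖x‖ ≤ ‖y‖ + ‖z‖ := by
    rw [h]
    exact norm_sub_le _ _
  have h2 : ‖x‖ ^ 2 ≤ (‖y‖ + ‖z‖) ^ 2 := pow_le_pow_left₀ (norm_nonneg _) h1 2
  nlinarith [sq_nonneg (‖y‖ - ‖z‖)]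

/-- C16a -/
theorem conv_ge2_pr : ∃ C : ℝ, 0 < C ∧ ∀ (N R : ℕ) (D : ℝ), 2 ≤ N → 2 ≤ R → 0 ≤ D →
    ∑ q ∈ Ico R (2 * R), ∫ b in (-D)..D, Tp (fun n => (aS N n : ℂ) * e (n * b)) N q ≤
      2 * XS.SP R (fun _ χ => ∫ b in (-D)..D, ‖XS.EB χ N b‖ ^ 2) +
        C * D * ((N : ℝ) + R ^ 2) * Real.sqrt N * (1 + Real.log N) ^ 3 := by
  obtain ⟨C, hC, hCN⟩ := PV.rem_sum
  refine ⟨352 * C, by positivity, fun N R D hN hR hD => ?_⟩
  obtain ⟨hle, hsum⟩ := hCN N hN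
  have hN1 : (1 : ℝ) ≤ N := by exact_mod_cast (by omega : 1 ≤ N)
  have hl : 0 ≤ Real.log N := Real.log_nonneg hN1
  set d : ℕ → ℝ := fun n => ArithmeticFunction.vonMangoldt n - aS N n with hd
  have hd2 : ∑ n ∈ Icc 1 N, d n ^ 2 ≤ C * Real.sqrt N * (1 + Real.log N) ^ 3 := by
    calc ∑ n ∈ Icc 1 N, d n ^ 2
        ≤ ∑ n ∈ Icc 1 N, (1 + Real.log N) * d n := by
          refine sum_le_sum fun n hn => ?_
          rw [mem_Icc] at hn
          rw [sq]
          have h4 : 0 ≤ d n := by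
            have := hle n
            simp only [hd]
            linarith
          have h5 : d n ≤ 1 + Real.log N := by
            have h6 : ArithmeticFunction.vonMangoldt n ≤ Real.log n :=
              ArithmeticFunction.vonMangoldt_le_log
            have h7 : Real.log n ≤ Real.log N :=
              Real.log_le_log (by exact_mod_cast hn.1) (by exact_mod_cast hn.2)
            have h8 : 0 ≤ aS N n := by
              unfold aS
              split_ifs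
              · exact Real.log_nonneg (by exact_mod_cast hn.1)
              · exact le_rfl
            simp only [hd]
            linarith
          exact mul_le_mul_of_nonneg_right h5 h4
      _ = (1 + Real.log N) * ∑ n ∈ Icc 1 N, d n := by rw [mul_sum]
      _ ≤ (1 + Real.log N) * (C * Real.sqrt N * (1 + Real.log N) ^ 2) := by gcongr
      _ = C * Real.sqrt N * (1 + Real.log N) ^ 3 := by ring
  set U : (q : ℕ) → DirichletCharacter ℂ q → ℝ → ℂ := fun q ψ b =>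
    ∑ n ∈ Icc 1 N, ((aS N n : ℂ) * e (n * b)) * ψ (n : ZMod q) with hU
  set V : (q : ℕ) → DirichletCharacter ℂ q → ℝ → ℂ := fun q ψ b =>
    ∑ n ∈ Icc 1 N, ((d n : ℂ) * e (n * b)) * ψ (n : ZMod q) with hV
  set Z : (q : ℕ) → DirichletCharacter ℂ q → ℝ → ℂ := fun q ψ b =>
    ∑ n ∈ Icc 1 N, ((ArithmeticFunction.vonMangoldt n : ℂ) * e (n * b)) * ψ (n : ZMod q) with hZ
  have hUc : ∀ q (ψ : DirichletCharacter ℂ q), Continuous fun b => ‖U q ψ b‖ ^ 2 := fun q ψ =>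
    (c16a_cont ψ N fun n => (aS N n : ℂ)).norm.pow 2
  have hVc : ∀ q (ψ : DirichletCharacter ℂ q), Continuous fun b => ‖V q ψ b‖ ^ 2 := fun q ψ =>
    (c16a_cont ψ N fun n => (d n : ℂ)).norm.pow 2
  have hZc : ∀ q (ψ : DirichletCharacter ℂ q), Continuous fun b => ‖Z q ψ b‖ ^ 2 := fun q ψ =>
    (c16a_cont ψ N fun n => (ArithmeticFunction.vonMangoldt n : ℂ)).norm.pow 2
  have hUVZ : ∀ q (ψ : DirichletCharacter ℂ q) b, U q ψ b = Z q ψ b - V q ψ b := by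
    intro q ψ b
    simp only [hU, hV, hZ, hd]
    rw [← sum_sub_distrib]
    refine sum_congr rfl fun n _ => ?_
    push_cast
    ring
  have hEB : ∀ q, 2 ≤ q → ∀ ψ ∈ Pr q, ∀ b, XS.EB ψ N b = Z q ψ b := by
    intro q hq ψ hψ b
    unfold XS.EB
    rw [if_neg (c16a_ne_one hq hψ), sub_zero, Nat.floor_natCast]
    simp only [hZ]
    refine sum_congr rfl fun n _ => ?_
    show ((ArithmeticFunction.vonMangoldt n : ℝ) : ℂ) * ψ (n : ZMod q) * e (n * b) = _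
    ring
  have hDD : -D ≤ D := by linarith
  -- one character
  have hone : ∀ q, 2 ≤ q → ∀ ψ ∈ Pr q, ∫ b in (-D)..D, ‖U q ψ b‖ ^ 2 ≤
      2 * (∫ b in (-D)..D, ‖XS.EB ψ N b‖ ^ 2) + 2 * ∫ b in (-D)..D, ‖V q ψ b‖ ^ 2 := by
    intro q hq ψ hψ
    have e1 : ∀ b, ‖XS.EB ψ N b‖ ^ 2 = ‖Z q ψ b‖ ^ 2 := fun b => by rw [hEB q hq ψ hψ b]
    simp_rw [e1]
    rw [← intervalIntegral.integral_const_mul, ← intervalIntegral.integral_const_mul,
      ← intervalIntegral.integral_add (((hZc q ψ).const_mul 2).intervalIntegrable _ _)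
        (((hVc q ψ).const_mul 2).intervalIntegrable _ _)]
    apply intervalIntegral.integral_mono_on hDD ((hUc q ψ).intervalIntegrable _ _)
      ((((hZc q ψ).const_mul 2).add ((hVc q ψ).const_mul 2)).intervalIntegrable _ _)
    intro b _
    exact c16a_sq _ _ _ (hUVZ q ψ b)
  have hTp : ∀ q, ∫ b in (-D)..D, Tp (fun n => (aS N n : ℂ) * e (n * b)) N q =
      ∑ ψ ∈ Pr q, ∫ b in (-D)..D, ‖U q ψ b‖ ^ 2 := by
    intro q
    unfold Tp
    rw [intervalIntegral.integral_finsetSum]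
    intro ψ _
    exact (hUc q ψ).intervalIntegrable _ _
  -- the large sieve
  have hls : ∀ b, ∑ q ∈ Ico R (2 * R), ∑ ψ ∈ Pr q, ‖V q ψ b‖ ^ 2 ≤
      88 * ((N : ℝ) + R ^ 2) * (C * Real.sqrt N * (1 + Real.log N) ^ 3) := by
    intro b
    have h1 := mlsP (Ico R (2 * R)) (2 * R) (fun q hq => by
      rw [mem_Ico] at hq
      omega) (by omega) (fun n => (d n : ℂ) * e (n * b)) 0 N
    rw [zero_add] at h1
    have hI : Ioc 0 N = Icc 1 N := by
      ext n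
      simp only [mem_Icc, mem_Ioc]
      omega
    rw [hI] at h1
    have h2 : ∑ q ∈ Ico R (2 * R), ∑ ψ ∈ Pr q, ‖V q ψ b‖ ^ 2 ≤
        ∑ q ∈ Ico R (2 * R), ∑ ψ ∈ Pr q, ((q : ℝ) / Nat.totient q) *
          ‖∑ m ∈ Icc 1 N, ((d m : ℂ) * e (m * b)) * ψ (m : ZMod q)‖ ^ 2 := by
      refine sum_le_sum fun q hq => sum_le_sum fun ψ _ => ?_
      rw [mem_Ico] at hq
      have hφ : (0 : ℝ) < Nat.totient q := by
        exact_mod_cast Nat.totient_pos.mpr (by omega)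
      have h3 : 1 ≤ (q : ℝ) / Nat.totient q := by
        rw [le_div_iff₀ hφ, one_mul]
        exact_mod_cast Nat.totient_le q
      calc ‖V q ψ b‖ ^ 2 = 1 * ‖V q ψ b‖ ^ 2 := (one_mul _).symm
        _ ≤ _ := mul_le_mul_of_nonneg_right h3 (by positivity)
    have h4 : ∀ m ∈ Icc 1 N, ‖(d m : ℂ) * e (m * b)‖ ^ 2 = d m ^ 2 := by
      intro m _
      rw [norm_mul, Complex.norm_real, norm_e, mul_one, Real.norm_eq_abs, sq_abs]
    rw [sum_congr rfl h4] at h1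
    refine (h2.trans h1).trans ?_
    have h5 : 22 * ((N : ℝ) + ((2 * R : ℕ) : ℝ) ^ 2) ≤ 88 * ((N : ℝ) + R ^ 2) := by
      push_cast
      nlinarith [sq_nonneg (R : ℝ)]
    exact mul_le_mul h5 hd2 (sum_nonneg fun n _ => sq_nonneg _) (by positivity)
  have hV2 : ∑ q ∈ Ico R (2 * R), ∑ ψ ∈ Pr q, ∫ b in (-D)..D, ‖V q ψ b‖ ^ 2 ≤
      176 * D * ((N : ℝ) + R ^ 2) * (C * Real.sqrt N * (1 + Real.log N) ^ 3) := by
    have e1 : ∑ q ∈ Ico R (2 * R), ∑ ψ ∈ Pr q, ∫ b in (-D)..D, ‖V q ψ b‖ ^ 2 =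
        ∫ b in (-D)..D, ∑ q ∈ Ico R (2 * R), ∑ ψ ∈ Pr q, ‖V q ψ b‖ ^ 2 := by
      rw [intervalIntegral.integral_finsetSum]
      · refine sum_congr rfl fun q _ => ?_
        rw [intervalIntegral.integral_finsetSum]
        intro ψ _
        exact (hVc q ψ).intervalIntegrable _ _
      · intro q _
        exact (continuous_finsetSum _ fun ψ _ => hVc q ψ).intervalIntegrable _ _
    rw [e1]
    calc ∫ b in (-D)..D, ∑ q ∈ Ico R (2 * R), ∑ ψ ∈ Pr q, ‖V q ψ b‖ ^ 2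
        ≤ ∫ _ in (-D)..D, 88 * ((N : ℝ) + R ^ 2) *
            (C * Real.sqrt N * (1 + Real.log N) ^ 3) := by
          apply intervalIntegral.integral_mono_on hDD
            ((continuous_finsetSum _ fun q _ => continuous_finsetSum _ fun ψ _ =>
              hVc q ψ).intervalIntegrable _ _) intervalIntegrable_const
          intro b _
          exact hls b
      _ = _ := by
          rw [intervalIntegral.integral_const, smul_eq_mul]
          ring
  calc ∑ q ∈ Ico R (2 * R), ∫ b in (-D)..D, Tp (fun n => (aS N n : ℂ) * e (n * b)) N q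
      = ∑ q ∈ Ico R (2 * R), ∑ ψ ∈ Pr q, ∫ b in (-D)..D, ‖U q ψ b‖ ^ 2 :=
        sum_congr rfl fun q _ => hTp q
    _ ≤ ∑ q ∈ Ico R (2 * R), ∑ ψ ∈ Pr q, (2 * (∫ b in (-D)..D, ‖XS.EB ψ N b‖ ^ 2) +
          2 * ∫ b in (-D)..D, ‖V q ψ b‖ ^ 2) :=
        sum_le_sum fun q hq => sum_le_sum fun ψ hψ => hone q (by
          rw [mem_Ico] at hq
          omega) ψ hψ
    _ = 2 * XS.SP R (fun _ χ => ∫ b in (-D)..D, ‖XS.EB χ N b‖ ^ 2) +
          2 * ∑ q ∈ Ico R (2 * R), ∑ ψ ∈ Pr q, ∫ b in (-D)..D, ‖V q ψ b‖ ^ 2 := by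
        unfold XS.SP
        simp_rw [sum_add_distrib, ← mul_sum]
    _ ≤ 2 * XS.SP R (fun _ χ => ∫ b in (-D)..D, ‖XS.EB χ N b‖ ^ 2) +
          2 * (176 * D * ((N : ℝ) + R ^ 2) * (C * Real.sqrt N * (1 + Real.log N) ^ 3)) := by
        linarith
    _ = _ := by ring

end Pool.Agent.AAX

namespace Pool.Agent.AAX

/-- alias -/
theorem conv_ge2 : type_of% @conv_ge2_pr := @conv_ge2_pr

end Pool.Agent.AAX

/-! ### C16b -/

/-! AAX, block C16b (helper35): the trivial character, from the primes `> √N` to `EB` -/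

namespace Pool.Agent.AAX

open Finset MeasureTheory Pool.Agent.Var35 Pool.Agent.Var73 Pool.Agent.PV Pool.Agent.FGP Pool.Agent.FGA
open scoped ArithmeticFunction ArithmeticFunction.Moebius

/-! ### The integral against the sum -/

theorem c16b_step (x β : ℝ) : ∫ t in x..(x + 1), e (t * β) =
    e ((x + 1) * β) * ∫ s in (-1 : ℝ)..0, e (s * β) := by
  have h := intervalIntegral.integral_comp_add_right (a := (-1 : ℝ)) (b := 0)
    (fun t : ℝ => e (t * β)) (x + 1)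
  have h1 : (-1 : ℝ) + (x + 1) = x := by ring
  have h2 : (0 : ℝ) + (x + 1) = x + 1 := by ring
  rw [h1, h2] at h
  rw [← h, ← intervalIntegral.integral_const_mul]
  refine intervalIntegral.integral_congr fun s _ => ?_
  rw [← e_add]
  congr 1
  ring

theorem c16b_Ic_nat (β : ℝ) (N : ℕ) :
    HC.Ic N β = In N β * ∫ s in (-1 : ℝ)..0, e (s * β) := by
  have hc : Continuous fun t : ℝ => e (t * β) := by unfold e; fun_prop
  induction N with
  | zero =>
    unfold HC.Ic In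
    simp
  | succ N ih =>
    have h1 : HC.Ic ((N + 1 : ℕ) : ℝ) β = HC.Ic N β + ∫ t in (N : ℝ)..(N + 1), e (t * β) := by
      unfold HC.Ic
      rw [intervalIntegral.integral_add_adjacent_intervals (hc.intervalIntegrable _ _)
        (hc.intervalIntegrable _ _)]
      push_cast
      rfl
    have h2 : In (N + 1) β = In N β + e ((N + 1) * β) := by
      unfold In
      rw [Finset.sum_Icc_succ_top (by omega)]
      push_cast
      rfl
    rw [h1, ih, c16b_step, h2]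
    ring

theorem c16b_kappa (β : ℝ) : ‖(∫ s in (-1 : ℝ)..0, e (s * β)) - 1‖ ≤ 2 * Real.pi * |β| := by
  have hc : Continuous fun t : ℝ => e (t * β) := by unfold e; fun_prop
  have h1 : (∫ s in (-1 : ℝ)..0, e (s * β)) - 1 = ∫ s in (-1 : ℝ)..0, (e (s * β) - 1) := by
    rw [intervalIntegral.integral_sub (hc.intervalIntegrable _ _) intervalIntegrable_const]
    simp
  rw [h1]
  have h2 := intervalIntegral.norm_integral_le_of_norm_le_const (a := (-1 : ℝ)) (b := 0)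
    (f := fun s => e (s * β) - 1) (C := 2 * Real.pi * |β|) (fun s hs => by
      rw [Set.uIoc_of_le (by norm_num)] at hs
      refine (norm_e_sub_one_le _).trans ?_
      have h3 : |s * β| ≤ |β| := by
        rw [abs_mul]
        have : |s| ≤ 1 := by rw [abs_le]; exact ⟨by linarith [hs.1], by linarith [hs.2]⟩
        calc |s| * |β| ≤ 1 * |β| := by gcongr
          _ = |β| := one_mul _
      have hπ := Real.pi_pos
      gcongr)
  refine h2.trans (le_of_eq ?_)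
  norm_num

theorem c16b_In_inv (N : ℕ) (β : ℝ) (h0 : 0 < |β|) (h : |β| ≤ 1 / 2) :
    ‖In N β‖ ≤ 1 / (2 * |β|) := by
  have h1 : In N β = e β * ∑ j ∈ range N, e (j * β) := by
    unfold In
    rw [mul_sum, Finset.range_eq_Ico, Finset.sum_Ico_eq_sum_range, Nat.sub_zero]
    have h2 : Icc 1 N = Ico 1 (N + 1) := by ext x; simp only [mem_Icc, mem_Ico]; omega
    rw [h2, Finset.sum_Ico_eq_sum_range, Nat.add_sub_cancel]
    refine sum_congr rfl fun k _ => ?_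
    rw [← e_add]
    congr 1
    push_cast
    ring
  rw [h1, norm_mul, norm_e, one_mul]
  exact geom_bound h0 h N

theorem c16b_diff (N : ℕ) (β : ℝ) (h : |β| ≤ 1 / 2) : ‖HC.Ic N β - In N β‖ ≤ 4 := by
  rw [c16b_Ic_nat]
  have e1 : In N β * (∫ s in (-1 : ℝ)..0, e (s * β)) - In N β =
      In N β * ((∫ s in (-1 : ℝ)..0, e (s * β)) - 1) := by ring
  rw [e1, norm_mul]
  have hk := c16b_kappa β
  have hπ := Real.pi_lt_four
  have hπ0 := Real.pi_pos
  rcases (abs_nonneg β).eq_or_lt with h0 | h0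
  · rw [← h0, mul_zero] at hk
    have : ‖(∫ s in (-1 : ℝ)..0, e (s * β)) - 1‖ = 0 := le_antisymm hk (norm_nonneg _)
    rw [this, mul_zero]
    norm_num
  · have hI := c16b_In_inv N β h0 h
    calc ‖In N β‖ * ‖(∫ s in (-1 : ℝ)..0, e (s * β)) - 1‖
        ≤ 1 / (2 * |β|) * (2 * Real.pi * |β|) := by gcongr
      _ = Real.pi := by field_simp
      _ ≤ 4 := hπ.le

/-! ### The trivial character -/

theorem c16b_mem : (1 : DirichletCharacter ℂ 1) ∈ Pr 1 := by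
  rw [mem_Pr]
  exact DirichletCharacter.isPrimitive_one_level_one

theorem c16b_SP (f : (r : ℕ) → DirichletCharacter ℂ r → ℝ) : XS.SP 1 f = f 1 1 := by
  unfold XS.SP
  have hIco : Ico 1 (2 * 1) = {1} := by decide
  have hsub : Subsingleton (DirichletCharacter ℂ 1) :=
    ⟨fun a b => by rw [DirichletCharacter.level_one a, DirichletCharacter.level_one b]⟩
  have hP : Pr 1 = {1} := by
    ext χ
    rw [Finset.mem_singleton]
    constructor
    · intro _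
      exact Subsingleton.elim _ _
    · rintro rfl
      exact c16b_mem
  rw [hIco, Finset.sum_singleton, hP, Finset.sum_singleton]

theorem c16b_EB (N : ℕ) (b : ℝ) : XS.EB (1 : DirichletCharacter ℂ 1) N b =
    ∑ n ∈ Icc 1 N, (HC.Lam n : ℂ) * e (n * b) - HC.Ic N b := by
  unfold XS.EB
  rw [if_pos rfl, Nat.floor_natCast]
  congr 1
  refine sum_congr rfl fun n _ => ?_
  rw [MulChar.one_apply (isUnit_of_subsingleton _), mul_one]

theorem c16b_EB_cont (N : ℕ) : Continuous fun b : ℝ => XS.EB (1 : DirichletCharacter ℂ 1) N b := by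
  have h1 : (fun b : ℝ => XS.EB (1 : DirichletCharacter ℂ 1) N b) =
      fun b : ℝ => ∑ n ∈ Icc 1 N, (HC.Lam n : ℂ) * e (n * b) - HC.Ic N b :=
    funext fun b => c16b_EB N b
  rw [h1]
  have h2 : Continuous fun p : ℝ × ℝ => e (p.2 * p.1) := by unfold e; fun_prop
  have h3 : Continuous fun b : ℝ => HC.Ic N b := by
    unfold HC.Ic
    exact intervalIntegral.continuous_parametric_intervalIntegral_of_continuous' h2 0 N
  refine Continuous.sub ?_ h3
  unfold e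
  fun_prop

theorem c16b_Ps_cont (N : ℕ) : Continuous fun b : ℝ => Ps N b - In N b := by
  unfold Ps Bs In e
  fun_prop

/-- the pointwise bound -/
theorem c16b_pt {C : ℝ} (_hC : 0 < C) {N : ℕ} (hN : 2 ≤ N)
    (h1 : ∀ n, aS N n ≤ Λ n)
    (h2 : ∑ n ∈ Icc 1 N, (Λ n - aS N n) ≤ C * Real.sqrt N * (1 + Real.log N) ^ 2)
    {b : ℝ} (hb : |b| ≤ 1 / 2) :
    ‖Ps N b - In N b‖ ^ 2 ≤ 2 * ‖XS.EB (1 : DirichletCharacter ℂ 1) N b‖ ^ 2 +
      2 * (C + 4) ^ 2 * N * (1 + Real.log N) ^ 4 := by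
  have hN1 : (1 : ℝ) ≤ N := by exact_mod_cast (by omega : 1 ≤ N)
  have hl : 0 ≤ Real.log N := Real.log_nonneg hN1
  have hs : 1 ≤ Real.sqrt N := Real.one_le_sqrt.2 hN1
  have hs2 : Real.sqrt N ^ 2 = N := Real.sq_sqrt (by linarith)
  have h3 : Ps N b - In N b = XS.EB (1 : DirichletCharacter ℂ 1) N b +
      (-(∑ n ∈ Icc 1 N, ((Λ n - aS N n : ℝ) : ℂ) * e (n * b)) + (HC.Ic N b - In N b)) := by
    rw [c16b_EB]
    have : ∑ n ∈ Icc 1 N, ((Λ n - aS N n : ℝ) : ℂ) * e (n * b) =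
        ∑ n ∈ Icc 1 N, (HC.Lam n : ℂ) * e (n * b) - Ps N b := by
      unfold Ps Bs
      rw [← sum_sub_distrib]
      refine sum_congr rfl fun n _ => ?_
      push_cast
      ring
    rw [this]
    ring
  have h4 : ‖∑ n ∈ Icc 1 N, ((Λ n - aS N n : ℝ) : ℂ) * e (n * b)‖ ≤
      C * Real.sqrt N * (1 + Real.log N) ^ 2 := by
    refine (norm_sum_le _ _).trans (le_trans (le_of_eq ?_) h2)
    refine sum_congr rfl fun n _ => ?_
    rw [norm_mul, norm_e, mul_one, Complex.norm_real, Real.norm_eq_abs,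
      abs_of_nonneg (by linarith [h1 n])]
  have h5 := c16b_diff N b hb
  have h6 : ‖-(∑ n ∈ Icc 1 N, ((Λ n - aS N n : ℝ) : ℂ) * e (n * b)) + (HC.Ic N b - In N b)‖ ≤
      (C + 4) * Real.sqrt N * (1 + Real.log N) ^ 2 := by
    refine (norm_add_le _ _).trans ?_
    rw [norm_neg]
    have h7 : (1 : ℝ) ≤ (1 + Real.log N) ^ 2 := one_le_pow₀ (by linarith)
    have h8 : (4 : ℝ) ≤ 4 * (Real.sqrt N * (1 + Real.log N) ^ 2) := by nlinarith
    calc _ ≤ C * Real.sqrt N * (1 + Real.log N) ^ 2 + 4 := add_le_add h4 h5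
      _ ≤ C * Real.sqrt N * (1 + Real.log N) ^ 2 + 4 * (Real.sqrt N * (1 + Real.log N) ^ 2) := by
          linarith
      _ = _ := by ring
  set x := XS.EB (1 : DirichletCharacter ℂ 1) N b with hx
  set y := -(∑ n ∈ Icc 1 N, ((Λ n - aS N n : ℝ) : ℂ) * e (n * b)) + (HC.Ic N b - In N b) with hy
  rw [h3]
  have h9 : ‖x + y‖ ^ 2 ≤ 2 * ‖x‖ ^ 2 + 2 * ‖y‖ ^ 2 := by
    have g1 : ‖x + y‖ ^ 2 ≤ (‖x‖ + ‖y‖) ^ 2 := pow_le_pow_left₀ (norm_nonneg _) (norm_add_le _ _) 2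
    nlinarith [sq_nonneg (‖x‖ - ‖y‖)]
  have h10 : ‖y‖ ^ 2 ≤ ((C + 4) * Real.sqrt N * (1 + Real.log N) ^ 2) ^ 2 :=
    pow_le_pow_left₀ (norm_nonneg _) h6 2
  have h11 : ((C + 4) * Real.sqrt N * (1 + Real.log N) ^ 2) ^ 2 =
      (C + 4) ^ 2 * N * (1 + Real.log N) ^ 4 := by
    calc ((C + 4) * Real.sqrt N * (1 + Real.log N) ^ 2) ^ 2
        = (C + 4) ^ 2 * Real.sqrt N ^ 2 * (1 + Real.log N) ^ 4 := by ring
      _ = _ := by rw [hs2]
  rw [h11] at h10
  linarith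

theorem conv_one_pr : ∃ C : ℝ, 0 < C ∧ ∀ (N : ℕ) (D : ℝ), 2 ≤ N → 0 ≤ D → D ≤ 1 / 2 →
    ∫ b in (-D)..D, ‖Ps N b - In N b‖ ^ 2 ≤
      4 * XS.SP 1 (fun _ χ => ∫ b in (-D)..D, ‖XS.EB χ N b‖ ^ 2) +
        C * D * N * (1 + Real.log N) ^ 4 := by
  obtain ⟨C, hC, hCN⟩ := rem_sum_pr
  refine ⟨4 * (C + 4) ^ 2, by positivity, fun N D hN hD hD1 => ?_⟩
  obtain ⟨h1, h2⟩ := hCN N hN
  rw [c16b_SP]
  have hc1 : Continuous fun b : ℝ => ‖Ps N b - In N b‖ ^ 2 := (c16b_Ps_cont N).norm.pow 2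
  have hc2 : Continuous fun b : ℝ => ‖XS.EB (1 : DirichletCharacter ℂ 1) N b‖ ^ 2 :=
    (c16b_EB_cont N).norm.pow 2
  have hnn : 0 ≤ ∫ b in (-D)..D, ‖XS.EB (1 : DirichletCharacter ℂ 1) N b‖ ^ 2 :=
    intervalIntegral.integral_nonneg (by linarith) fun b _ => by positivity
  calc ∫ b in (-D)..D, ‖Ps N b - In N b‖ ^ 2
      ≤ ∫ b in (-D)..D, (2 * ‖XS.EB (1 : DirichletCharacter ℂ 1) N b‖ ^ 2 +
          2 * (C + 4) ^ 2 * N * (1 + Real.log N) ^ 4) := by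
        refine intervalIntegral.integral_mono_on (by linarith) (hc1.intervalIntegrable _ _)
          (((hc2.const_mul 2).add continuous_const).intervalIntegrable _ _) fun b hb => ?_
        refine c16b_pt hC hN h1 h2 ?_
        rw [abs_le]
        exact ⟨by linarith [hb.1], by linarith [hb.2]⟩
    _ = 2 * (∫ b in (-D)..D, ‖XS.EB (1 : DirichletCharacter ℂ 1) N b‖ ^ 2) +
          (D - -D) * (2 * (C + 4) ^ 2 * N * (1 + Real.log N) ^ 4) := by
        rw [intervalIntegral.integral_add ((hc2.const_mul 2).intervalIntegrable _ _)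
          intervalIntegrable_const, intervalIntegral.integral_const_mul,
          intervalIntegral.integral_const, smul_eq_mul]
    _ ≤ 4 * (∫ b in (-D)..D, ‖XS.EB (1 : DirichletCharacter ℂ 1) N b‖ ^ 2) +
          4 * (C + 4) ^ 2 * D * N * (1 + Real.log N) ^ 4 := by
        have : (D - -D) * (2 * (C + 4) ^ 2 * N * (1 + Real.log N) ^ 4) =
          4 * (C + 4) ^ 2 * D * N * (1 + Real.log N) ^ 4 := by ring
        linarith

end Pool.Agent.AAX

namespace Pool.Agent.AAX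

/-- alias -/
theorem conv_one : type_of% @conv_one_pr := @conv_one_pr

end Pool.Agent.AAX

/-! ### C17a -/

/-! AAX, block C17a: dyadic annuli (helper16) -/

namespace Pool.Agent.AAX

open Finset MeasureTheory Pool.Agent.Var35 Pool.Agent.Var73 Pool.Agent.PV Pool.Agent.FGP
  Pool.Agent.FGA
open scoped ArithmeticFunction ArithmeticFunction.Moebius

theorem c17a_cont (L : ℝ) : Continuous (uw L) := by
  unfold uw
  refine continuous_const.div (by fun_prop) fun b => ?_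
  positivity

theorem c17a_nonneg (L b : ℝ) : 0 ≤ uw L b := by
  unfold uw
  positivity

theorem c17a_le_one (L b : ℝ) : uw L b ≤ 1 := by
  unfold uw
  rw [div_le_one (by positivity)]
  exact one_le_pow₀ (by nlinarith [sq_nonneg (L * b)])

theorem c17a_le {L D b : ℝ} (hL : 0 < L) (hD : 0 < D) (hb : D / 2 ≤ |b|) :
    uw L b ≤ 256 / (L * D) ^ 8 := by
  unfold uw
  have h1 : (L * D / 2) ^ 2 ≤ 1 + (L * b) ^ 2 := by
    have h2 : (L * D / 2) ^ 2 ≤ (L * |b|) ^ 2 := by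
      apply pow_le_pow_left₀ (by positivity)
      have := mul_le_mul_of_nonneg_left hb hL.le
      linarith
    have h3 : (L * |b|) ^ 2 = (L * b) ^ 2 := by
      rw [mul_pow, mul_pow, sq_abs]
    linarith
  rw [div_le_div_iff₀ (by positivity) (by positivity)]
  calc 1 * (L * D) ^ 8 = 256 * ((L * D / 2) ^ 2) ^ 4 := by ring
    _ ≤ 256 * (1 + (L * b) ^ 2) ^ 4 := by gcongr

/-- C17a -/
theorem dyad_pr (f : ℝ → ℝ) (hf : Continuous f) (hf0 : ∀ b, 0 ≤ f b) (L A B E : ℝ) (hL : 2 ≤ L)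
    (hA : 0 ≤ A) (hB : 0 ≤ B) (hE : 0 ≤ E)
    (h : ∀ D : ℝ, 1 / L ≤ D → D ≤ 1 / 2 → ∫ b in (-D)..D, f b ≤ A * (1 + B * (L * D) ^ 2) + E * D) :
    ∫ b in (-(1 / 2 : ℝ))..(1 / 2), uw L b * f b ≤ 1000 * (A * (1 + B) + E / L) := by
  have hL0 : 0 < L := by linarith
  have hu := c17a_cont L
  set Q := A * (1 + B) + E / L with hQ
  have hQ0 : 0 ≤ Q := by positivity
  have hcf : Continuous fun b => uw L b * f b := hu.mul hf
  have hx : ∀ D, 1 / L ≤ D → 1 ≤ L * D := by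
    intro D h1
    have h2 := mul_le_mul_of_nonneg_left h1 hL0.le
    rwa [mul_one_div_cancel hL0.ne'] at h2
  have hF : ∀ D, 1 / L ≤ D → D ≤ 1 / 2 → ∫ b in (-D)..D, f b ≤ Q * (L * D) ^ 2 := by
    intro D h1 h2
    have hx1 := hx D h1
    have hx2 : 1 ≤ (L * D) ^ 2 := one_le_pow₀ hx1
    have e1 : A * (1 + B * (L * D) ^ 2) ≤ A * (1 + B) * (L * D) ^ 2 := by
      have : 0 ≤ A * ((L * D) ^ 2 - 1) := mul_nonneg hA (by linarith)
      nlinarith
    have e2 : E * D ≤ E / L * (L * D) ^ 2 := by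
      have e3 : E * D = E / L * (L * D) := by field_simp
      rw [e3]
      have : L * D ≤ (L * D) ^ 2 := by nlinarith
      exact mul_le_mul_of_nonneg_left this (by positivity)
    calc ∫ b in (-D)..D, f b ≤ A * (1 + B * (L * D) ^ 2) + E * D := h D h1 h2
      _ ≤ A * (1 + B) * (L * D) ^ 2 + E / L * (L * D) ^ 2 := add_le_add e1 e2
      _ = Q * (L * D) ^ 2 := by rw [hQ]; ring
  have hbase : ∀ D, 1 / L ≤ D → D ≤ 1 / 2 → D ≤ 2 / L →
      ∫ b in (-D)..D, uw L b * f b ≤ Q * (9 - 5 / (L * D) ^ 6) := by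
    intro D h1 h2 h3
    have hx1 := hx D h1
    have hD0 : 0 < D := lt_of_lt_of_le (by positivity) h1
    have e1 : ∫ b in (-D)..D, uw L b * f b ≤ ∫ b in (-D)..D, f b := by
      apply intervalIntegral.integral_mono (by linarith) (hcf.intervalIntegrable _ _)
        (hf.intervalIntegrable _ _)
      intro b
      have := mul_le_mul_of_nonneg_right (c17a_le_one L b) (hf0 b)
      simpa using this
    have e2 : L * D ≤ 2 := by
      have := mul_le_mul_of_nonneg_left h3 hL0.le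
      rwa [mul_div_cancel₀ _ hL0.ne'] at this
    have e3 : (L * D) ^ 2 ≤ 4 := by nlinarith
    have e4 : 5 / (L * D) ^ 6 ≤ 5 := div_le_self (by norm_num) (one_le_pow₀ hx1)
    calc ∫ b in (-D)..D, uw L b * f b ≤ Q * (L * D) ^ 2 := e1.trans (hF D h1 h2)
      _ ≤ Q * (9 - 5 / (L * D) ^ 6) := mul_le_mul_of_nonneg_left (by linarith) hQ0
  have hstep : ∀ n : ℕ, ∀ D, 1 / L ≤ D → D ≤ 1 / 2 → D ≤ 2 ^ (n + 1) / L →
      ∫ b in (-D)..D, uw L b * f b ≤ Q * (9 - 5 / (L * D) ^ 6) := by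
    intro n
    induction n with
    | zero =>
      intro D h1 h2 h3
      exact hbase D h1 h2 (by simpa using h3)
    | succ n ih =>
      intro D h1 h2 h3
      by_cases h4 : D ≤ 2 / L
      · exact hbase D h1 h2 h4
      push Not at h4
      have hx1 := hx D h1
      have hD0 : 0 < D := lt_of_lt_of_le (by positivity) h1
      have k1 : 1 / L ≤ D / 2 := by
        have : 1 / L = 2 / L / 2 := by ring
        rw [this]
        linarith
      have k2 : D / 2 ≤ 2 ^ (n + 1) / L := by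
        have : (2 : ℝ) ^ (n + 1) / L = 2 ^ (n + 1 + 1) / L / 2 := by ring
        rw [this]
        linarith
      have k3 := ih (D / 2) k1 (by linarith) k2
      have i1 : ∀ a b, IntervalIntegrable (fun b => uw L b * f b) volume a b := fun a b =>
        hcf.intervalIntegrable _ _
      have i2 : ∀ a b, IntervalIntegrable f volume a b := fun a b => hf.intervalIntegrable _ _
      have s1 : ∫ b in (-D)..D, uw L b * f b = (∫ b in (-D)..(-(D / 2)), uw L b * f b) +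
          (∫ b in (-(D / 2))..(D / 2), uw L b * f b) + ∫ b in (D / 2)..D, uw L b * f b := by
        rw [intervalIntegral.integral_add_adjacent_intervals (i1 _ _) (i1 _ _),
          intervalIntegral.integral_add_adjacent_intervals (i1 _ _) (i1 _ _)]
      have s2 : ∫ b in (-D)..D, f b = (∫ b in (-D)..(-(D / 2)), f b) +
          (∫ b in (-(D / 2))..(D / 2), f b) + ∫ b in (D / 2)..D, f b := by
        rw [intervalIntegral.integral_add_adjacent_intervals (i2 _ _) (i2 _ _),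
          intervalIntegral.integral_add_adjacent_intervals (i2 _ _) (i2 _ _)]
      have p1 : ∫ b in (-D)..(-(D / 2)), uw L b * f b ≤
          256 / (L * D) ^ 8 * ∫ b in (-D)..(-(D / 2)), f b := by
        rw [← intervalIntegral.integral_const_mul]
        apply intervalIntegral.integral_mono_on (by linarith) (i1 _ _) ((i2 _ _).const_mul _)
        intro b hb
        refine mul_le_mul_of_nonneg_right (c17a_le hL0 hD0 ?_) (hf0 b)
        rw [abs_of_nonpos (by linarith [hb.2])]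
        linarith [hb.2]
      have p2 : ∫ b in (D / 2)..D, uw L b * f b ≤
          256 / (L * D) ^ 8 * ∫ b in (D / 2)..D, f b := by
        rw [← intervalIntegral.integral_const_mul]
        apply intervalIntegral.integral_mono_on (by linarith) (i1 _ _) ((i2 _ _).const_mul _)
        intro b hb
        refine mul_le_mul_of_nonneg_right (c17a_le hL0 hD0 ?_) (hf0 b)
        rw [abs_of_nonneg (by linarith [hb.1])]
        linarith [hb.1]
      have p3 : 0 ≤ ∫ b in (-(D / 2))..(D / 2), f b :=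
        intervalIntegral.integral_nonneg (by linarith) fun b _ => hf0 b
      have p4 : 256 / (L * D) ^ 8 * ∫ b in (-D)..D, f b ≤ Q * (256 / (L * D) ^ 6) := by
        calc 256 / (L * D) ^ 8 * ∫ b in (-D)..D, f b ≤ 256 / (L * D) ^ 8 * (Q * (L * D) ^ 2) :=
              mul_le_mul_of_nonneg_left (hF D h1 h2) (by positivity)
          _ = Q * (256 / (L * D) ^ 6) := by field_simp
      have p5 : 0 ≤ 256 / (L * D) ^ 8 := by positivity
      have k4 : 5 / (L * (D / 2)) ^ 6 = 320 / (L * D) ^ 6 := by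
        field_simp
        norm_num
      rw [k4] at k3
      have k5 : 0 ≤ 1 / (L * D) ^ 6 := by positivity
      have k6 : Q * (256 / (L * D) ^ 6) + Q * (9 - 320 / (L * D) ^ 6) ≤
          Q * (9 - 5 / (L * D) ^ 6) := by
        have e : Q * (256 / (L * D) ^ 6) + Q * (9 - 320 / (L * D) ^ 6) =
          Q * (9 - 64 * (1 / (L * D) ^ 6)) := by ring
        have e2 : Q * (9 - 5 / (L * D) ^ 6) = Q * (9 - 5 * (1 / (L * D) ^ 6)) := by ring
        rw [e, e2]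
        exact mul_le_mul_of_nonneg_left (by linarith) hQ0
      have p6 : 256 / (L * D) ^ 8 * (∫ b in (-D)..(-(D / 2)), f b) +
          256 / (L * D) ^ 8 * (∫ b in (D / 2)..D, f b) ≤
          256 / (L * D) ^ 8 * ∫ b in (-D)..D, f b := by
        rw [s2]
        have := mul_nonneg p5 p3
        nlinarith
      rw [s1]
      linarith
  obtain ⟨n, hn⟩ := pow_unbounded_of_one_lt L (by norm_num : (1 : ℝ) < 2)
  have hfin := hstep n (1 / 2) (by
      apply one_div_le_one_div_of_le (by norm_num) hL) le_rfl (by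
      rw [le_div_iff₀ hL0, pow_succ]
      linarith)
  refine hfin.trans ?_
  have : 0 ≤ 5 / (L * (1 / 2)) ^ 6 := by positivity
  calc Q * (9 - 5 / (L * (1 / 2)) ^ 6) ≤ Q * 1000 := mul_le_mul_of_nonneg_left (by linarith) hQ0
    _ = 1000 * Q := by ring

end Pool.Agent.AAX

namespace Pool.Agent.AAX

/-- alias -/
theorem dyad : type_of% @dyad_pr := @dyad_pr

end Pool.Agent.AAX
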