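import Pool.Agent.Lib_helper59.XTG.E
import Pool.Agent.Lib_helper99.FGA.Basic
import Pool.Agent.Lib_helper34.FGA.A02
import Pool.Agent.Lib_helper67.FGA.A16
import Pool.Agent.Lib_helper72.FGA.A17
import Pool.Agent.Lib_helper3.FGP.P15
import Pool.Agent.Lib_helper61.FGA.A18aE
import Pool.Agent.Lib_helper92.HCF.IDN
import Pool.Agent.Lib_helper99.FGA.A20
import Pool.Agent.Lib_helper59.XTG.D
import Pool.Agent.Lib_helper26.XSF.DA1
import Pool.Agent.Lib_helper26.XSF.UPP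
import Pool.Agent.Lib_helper99.AAXG.B

/-! AAX, circle part: blocks C17b C18 C19 C20 -/

set_option autoImplicit false

/-! ### C17b -/

/-! AAX block C17b: the total mass on the arcs. -/

namespace Pool.Agent.AAX

open Finset MeasureTheory Pool.Agent.Var35 Pool.Agent.Var73 Pool.Agent.PV Pool.Agent.FGP Pool.Agent.FGA
open scoped ArithmeticFunction ArithmeticFunction.Moebius

lemma c17b_cont (N q : ℕ) :
    Continuous (fun b : ℝ => Tp (fun n => (aS N n : ℂ) * e (n * b)) N q) := by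
  unfold Tp e
  fun_prop

lemma c17b_nonneg (N q : ℕ) (b : ℝ) : 0 ≤ Tp (fun n => (aS N n : ℂ) * e (n * b)) N q := by
  unfold Tp
  exact sum_nonneg fun _ _ => by positivity

lemma c17b_cont1 (N : ℕ) : Continuous (fun b : ℝ => ‖Ps N b - In N b‖ ^ 2) := by
  unfold Ps Bs In e
  fun_prop

lemma c17b_uw_nonneg (L b : ℝ) : 0 ≤ uw L b := by
  unfold uw
  positivity

lemma c17b_uw_cont (L : ℝ) : Continuous (uw L) := by
  unfold uw
  refine continuous_const.div (by fun_prop) fun b => ?_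
  positivity

lemma c17b_uw_anti {L L' : ℝ} (h0 : 0 ≤ L) (h : L ≤ L') (b : ℝ) : uw L' b ≤ uw L b := by
  unfold uw
  have h1 : (L * b) ^ 2 ≤ (L' * b) ^ 2 := by
    rw [mul_pow, mul_pow]
    exact mul_le_mul_of_nonneg_right (pow_le_pow_left₀ h0 h 2) (sq_nonneg b)
  refine one_div_le_one_div_of_le (by positivity) ?_
  exact pow_le_pow_left₀ (by positivity) (by linarith) 4

lemma c17b_Eg_nonneg (N K q : ℕ) : 0 ≤ Eg N K q := by
  unfold Eg
  refine intervalIntegral.integral_nonneg (by norm_num) fun b _ => ?_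
  exact mul_nonneg (c17b_uw_nonneg _ _) (c17b_nonneg _ _ _)

/-- one dyadic block -/
lemma c17b_block {C2 P Ln : ℝ} {N K R : ℕ} (hC2 : 0 ≤ C2) (hP : 0 ≤ P)
    (hLn : Real.log N ^ 2 ≤ Ln) (hR : 2 ≤ R) (hRK : R ≤ K) (hN : 2 ≤ N)
    (h1 : 1 ≤ lw N K) (h2 : 16 * (K * lw N K) ≤ N)
    (h4 : (N : ℝ) ≤ 2 * Real.log N ^ 2 * (K * lw N K))
    (hconv : ∀ D : ℝ, 0 ≤ D →
      ∑ q ∈ Ico R (2 * R), ∫ b in (-D)..D, Tp (fun n => (aS N n : ℂ) * e (n * b)) N q ≤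
      2 * XS.SP R (fun _ χ => ∫ b in (-D)..D, ‖XS.EB χ N b‖ ^ 2) +
        C2 * D * ((N : ℝ) + R ^ 2) * Real.sqrt N * (1 + Real.log N) ^ 3)
    (hmass : ∀ D : ℝ, 1 / (N : ℝ) ≤ D → D ≤ 1 →
      XS.SP R (fun _ χ => ∫ b in (-D)..D, ‖XS.EB χ N b‖ ^ 2) ≤
        P * (1 + (R * (D * N) / K) ^ 2)) :
    ∑ q ∈ Ico R (2 * R), Eg N K q ≤
      1000 * (2 * P * (1 + (2 * Ln) ^ 2) +
        (C2 * ((N : ℝ) + R ^ 2) * Real.sqrt N * (1 + Real.log N) ^ 3) /
          ((R * lw N K : ℕ) : ℝ)) := by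
  have hlog : 0 ≤ Real.log N := Real.log_natCast_nonneg N
  have hR0 : (0 : ℝ) < R := by exact_mod_cast (by omega : 0 < R)
  have hK0 : (0 : ℝ) < K := by exact_mod_cast (by omega : 0 < K)
  have hl0 : (0 : ℝ) < lw N K := by exact_mod_cast (by omega : 0 < lw N K)
  have hN0 : (0 : ℝ) < N := by exact_mod_cast (by omega : 0 < N)
  set L : ℝ := ((R * lw N K : ℕ) : ℝ) with hL
  have hLe : L = R * lw N K := by rw [hL]; push_cast; ring
  have hL2 : 2 ≤ L := by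
    rw [hL]
    exact_mod_cast (by nlinarith : 2 ≤ R * lw N K)
  have hLN : L ≤ N := by
    rw [hL]
    have : R * lw N K ≤ K * lw N K := Nat.mul_le_mul_right _ hRK
    exact_mod_cast (by omega : R * lw N K ≤ N)
  set f : ℝ → ℝ := fun b => ∑ q ∈ Ico R (2 * R), Tp (fun n => (aS N n : ℂ) * e (n * b)) N q with hf
  have hfc : Continuous f := by
    rw [hf]
    exact continuous_finsetSum _ fun q _ => c17b_cont N q
  have hf0 : ∀ b, 0 ≤ f b := fun b => sum_nonneg fun q _ => c17b_nonneg N q b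
  have h5 : ∑ q ∈ Ico R (2 * R), Eg N K q ≤ ∫ b in (-(1 / 2 : ℝ))..(1 / 2), uw L b * f b := by
    have h6 : ∀ b, uw L b * f b = ∑ q ∈ Ico R (2 * R),
        uw L b * Tp (fun n => (aS N n : ℂ) * e (n * b)) N q := fun b => by
      rw [hf]
      simp only [mul_sum]
    simp only [h6]
    rw [intervalIntegral.integral_finsetSum]
    · refine sum_le_sum fun q hq => ?_
      rw [mem_Ico] at hq
      unfold Eg
      refine intervalIntegral.integral_mono (by norm_num) ?_ ?_ ?_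
      · exact ((c17b_uw_cont _).mul (c17b_cont N q)).intervalIntegrable _ _
      · exact ((c17b_uw_cont _).mul (c17b_cont N q)).intervalIntegrable _ _
      · intro b
        refine mul_le_mul_of_nonneg_right (c17b_uw_anti (by positivity) ?_ b) (c17b_nonneg N q b)
        rw [hL]
        exact_mod_cast Nat.mul_le_mul_right _ hq.1
    · intro q _
      exact ((c17b_uw_cont _).mul (c17b_cont N q)).intervalIntegrable _ _
  refine h5.trans ?_
  refine dyad f hfc hf0 L (2 * P) ((2 * Ln) ^ 2) _ hL2 (by positivity) (by positivity)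
    (by positivity) ?_
  intro D hD hD2
  have hD0 : 0 ≤ D := le_trans (by positivity) hD
  have h7 : ∫ b in (-D)..D, f b =
      ∑ q ∈ Ico R (2 * R), ∫ b in (-D)..D, Tp (fun n => (aS N n : ℂ) * e (n * b)) N q := by
    rw [hf]
    rw [intervalIntegral.integral_finsetSum]
    intro q _
    exact (c17b_cont N q).intervalIntegrable _ _
  rw [h7]
  have h8 := hconv D hD0
  have h9 := hmass D (le_trans (one_div_le_one_div_of_le (by linarith) hLN) hD) (by linarith)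
  have h10 : (R * (D * N) / K) ^ 2 ≤ (2 * Ln) ^ 2 * (L * D) ^ 2 := by
    rw [← mul_pow]
    refine pow_le_pow_left₀ (by positivity) ?_ 2
    rw [div_le_iff₀ hK0, hLe]
    calc R * (D * N) ≤ R * (D * (2 * Real.log N ^ 2 * (K * lw N K))) := by gcongr
      _ ≤ R * (D * (2 * Ln * (K * lw N K))) := by gcongr
      _ = 2 * Ln * (R * lw N K * D) * K := by ring
  calc _ ≤ _ := h8
    _ ≤ 2 * (P * (1 + (2 * Ln) ^ 2 * (L * D) ^ 2)) +
        C2 * D * ((N : ℝ) + R ^ 2) * Real.sqrt N * (1 + Real.log N) ^ 3 := by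
        have h11 : P * (1 + (R * (D * N) / K) ^ 2) ≤ P * (1 + (2 * Ln) ^ 2 * (L * D) ^ 2) := by
          refine mul_le_mul_of_nonneg_left ?_ hP
          linarith
        linarith
    _ = _ := by ring

/-- the principal characters -/
lemma c17b_one {C3 P Ln : ℝ} {N K : ℕ} (hC3 : 0 ≤ C3) (hP : 0 ≤ P)
    (hLn : Real.log N ^ 2 ≤ Ln) (hK : 1 ≤ K) (hN : 2 ≤ N)
    (h1 : 2 ≤ lw N K) (h2 : 16 * (K * lw N K) ≤ N)
    (h4 : (N : ℝ) ≤ 2 * Real.log N ^ 2 * (K * lw N K))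
    (hconv : ∀ D : ℝ, 0 ≤ D → D ≤ 1 / 2 →
      ∫ b in (-D)..D, ‖Ps N b - In N b‖ ^ 2 ≤
      4 * XS.SP 1 (fun _ χ => ∫ b in (-D)..D, ‖XS.EB χ N b‖ ^ 2) +
        C3 * D * N * (1 + Real.log N) ^ 4)
    (hmass : ∀ D : ℝ, 1 / (N : ℝ) ≤ D → D ≤ 1 →
      XS.SP 1 (fun _ χ => ∫ b in (-D)..D, ‖XS.EB χ N b‖ ^ 2) ≤
        P * (1 + (D * N / K) ^ 2)) :
    Eg1 N K ≤
      1000 * (4 * P * (1 + (2 * Ln) ^ 2) +
        (C3 * N * (1 + Real.log N) ^ 4) / (lw N K : ℝ)) := by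
  have hlog : 0 ≤ Real.log N := Real.log_natCast_nonneg N
  have hK0 : (0 : ℝ) < K := by exact_mod_cast (by omega : 0 < K)
  have hl0 : (0 : ℝ) < lw N K := by exact_mod_cast (by omega : 0 < lw N K)
  have hN0 : (0 : ℝ) < N := by exact_mod_cast (by omega : 0 < N)
  have hL2 : (2 : ℝ) ≤ (lw N K : ℝ) := by exact_mod_cast h1
  have hLN : (lw N K : ℝ) ≤ N := by
    have : lw N K ≤ K * lw N K := Nat.le_mul_of_pos_left _ (by omega)
    exact_mod_cast (by omega : lw N K ≤ N)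
  unfold Eg1
  refine dyad _ (c17b_cont1 N) (fun b => by positivity) (lw N K : ℝ) (4 * P) ((2 * Ln) ^ 2) _ hL2
    (by positivity) (by positivity) (by positivity) ?_
  intro D hD hD2
  have hD0 : 0 ≤ D := le_trans (by positivity) hD
  have h8 := hconv D hD0 hD2
  have h9 := hmass D (le_trans (one_div_le_one_div_of_le (by linarith) hLN) hD) (by linarith)
  have h10 : (D * N / K) ^ 2 ≤ (2 * Ln) ^ 2 * ((lw N K : ℝ) * D) ^ 2 := by
    rw [← mul_pow]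
    refine pow_le_pow_left₀ (by positivity) ?_ 2
    rw [div_le_iff₀ hK0]
    calc D * N ≤ D * (2 * Real.log N ^ 2 * (K * lw N K)) := by gcongr
      _ ≤ D * (2 * Ln * (K * lw N K)) := by gcongr
      _ = 2 * Ln * (lw N K * D) * K := by ring
  calc _ ≤ _ := h8
    _ ≤ 4 * (P * (1 + (2 * Ln) ^ 2 * ((lw N K : ℝ) * D) ^ 2)) +
        C3 * D * N * (1 + Real.log N) ^ 4 := by
        have h11 : P * (1 + (D * N / K) ^ 2) ≤
            P * (1 + (2 * Ln) ^ 2 * ((lw N K : ℝ) * D) ^ 2) := by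
          refine mul_le_mul_of_nonneg_left ?_ hP
          linarith
        linarith
    _ = _ := by ring

/-- `Icc 2 K` in dyadic blocks -/
lemma c17b_dyadic (K : ℕ) (f : ℕ → ℝ) (hf : ∀ q, 0 ≤ f q) {M : ℝ}
    (h : ∀ R, 2 ≤ R → R ≤ K → ∑ q ∈ Ico R (2 * R), f q ≤ M) :
    ∑ q ∈ Icc 2 K, f q ≤ (Nat.log 2 K : ℝ) * M := by
  have h1 : ∑ q ∈ Icc 2 K, f q = ∑ i ∈ Icc 1 (Nat.log 2 K),
      ∑ q ∈ (Icc 2 K).filter (fun q => Nat.log 2 q = i), f q := by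
    refine (sum_fiberwise_of_maps_to (fun q hq => ?_) _).symm
    rw [mem_Icc] at hq ⊢
    exact ⟨Nat.log_pos (by norm_num) hq.1, Nat.log_mono_right hq.2⟩
  rw [h1]
  have h2 : ∀ i ∈ Icc 1 (Nat.log 2 K),
      ∑ q ∈ (Icc 2 K).filter (fun q => Nat.log 2 q = i), f q ≤ M := by
    intro i hi
    rw [mem_Icc] at hi
    have hK : K ≠ 0 := by
      rintro rfl
      simp at hi
      omega
    have h3 : 2 ≤ 2 ^ i := by
      calc 2 = 2 ^ 1 := by norm_num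
        _ ≤ 2 ^ i := Nat.pow_le_pow_right (by norm_num) hi.1
    have h4 : 2 ^ i ≤ K :=
      (Nat.pow_le_pow_right (by norm_num) hi.2).trans (Nat.pow_log_le_self 2 hK)
    refine le_trans (sum_le_sum_of_subset_of_nonneg ?_ fun q _ _ => hf q) (h (2 ^ i) h3 h4)
    intro q hq
    rw [mem_filter, mem_Icc] at hq
    rw [mem_Ico]
    obtain ⟨⟨h5, h6⟩, h7⟩ := hq
    constructor
    · rw [← h7]
      exact Nat.pow_log_le_self 2 (by omega)
    · rw [← h7, ← pow_succ']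
      exact Nat.lt_pow_succ_log_self (by norm_num) q
  refine (sum_le_sum h2).trans ?_
  rw [sum_const, Nat.card_Icc, nsmul_eq_mul]
  simp

/-- `C (1 + log N)^8 ≤ N^δ` -/
lemma c17b_log (C : ℝ) {δ : ℝ} (hδ : 0 < δ) : ∃ N0 : ℕ, ∀ N ≥ N0,
    C * (1 + Real.log N) ^ 8 ≤ (N : ℝ) ^ δ := by
  have h1 : (fun x : ℝ => C * (1 + Real.log x) ^ 8) =o[Filter.atTop] fun x : ℝ => x ^ δ := by
    refine Asymptotics.IsLittleO.const_mul_left ?_ C
    have h2 : (fun x : ℝ => 1 + Real.log x) =o[Filter.atTop] fun x : ℝ => x ^ (δ / 8) := by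
      refine Asymptotics.IsLittleO.add ?_ (isLittleO_log_rpow_atTop (by positivity))
      exact Asymptotics.isLittleO_const_left.2 (Or.inr (by
        refine Filter.Tendsto.congr' ?_ (tendsto_rpow_atTop (by positivity : 0 < δ / 8))
        filter_upwards [Filter.eventually_ge_atTop 0] with x hx
        rw [Function.comp, Real.norm_of_nonneg (Real.rpow_nonneg hx _)]))
    refine (h2.pow (by norm_num : 0 < 8)).congr' (Filter.EventuallyEq.refl _ _) ?_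
    filter_upwards [Filter.eventually_ge_atTop 0] with x hx
    rw [← Real.rpow_natCast, ← Real.rpow_mul hx]
    congr 1
    push_cast
    ring
  have h3 := (h1.bound (c := 1) (by norm_num))
  have h4 : ∀ᶠ N : ℕ in Filter.atTop, C * (1 + Real.log N) ^ 8 ≤ (N : ℝ) ^ δ := by
    filter_upwards [tendsto_natCast_atTop_atTop.eventually h3] with N hN
    rw [one_mul, Real.norm_of_nonneg (by positivity : (0 : ℝ) ≤ (N : ℝ) ^ δ)] at hN
    exact (le_abs_self _).trans hN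
  exact Filter.eventually_atTop.1 h4

theorem mass_total_pr {θ e : ℝ} (hθ : 9 / 10 ≤ θ) (hθ1 : θ < 1) (h : XS.ZF θ) (he : 0 < e)
    (he1 : e ≤ 1 / 10) : ∃ N0 : ℕ, ∀ N ≥ N0, ∀ K : ℕ, (N : ℝ) ^ e ≤ K →
    (K : ℝ) ≤ (N : ℝ) ^ (4 * (1 - θ) - e) → msT N K ≤ (N : ℝ) ^ (1 - e / 20) := by
  obtain ⟨C1, hC1, N1, hN1⟩ := msT_le
  obtain ⟨N2, hN2⟩ := lw_facts
  obtain ⟨C2, hC2, hconv⟩ := conv_ge2
  obtain ⟨C3, hC3, hconv1⟩ := conv_one
  obtain ⟨X4, hX4⟩ := XT.mass_ge2 hθ hθ1 h he he1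
  obtain ⟨X5, hX5⟩ := XT.mass_one hθ hθ1 h he he1
  set A : ℝ := C1 * (2 * (1000 * (10 + 4 * C2)) + 1000 * (20 + 2 * C3)) with hA
  obtain ⟨N6, hN6⟩ := c17b_log A (δ := e / 20) (by positivity)
  obtain ⟨N7, hN7⟩ := c17b_log 10 (δ := e) he
  refine ⟨max (max (max N1 N2) (max ⌈X4⌉₊ ⌈X5⌉₊)) (max (max N6 N7) 2), ?_⟩
  intro N hN K hK1 hK2
  simp only [ge_iff_le, max_le_iff, Nat.ceil_le] at hN
  obtain ⟨⟨⟨ha1, ha2⟩, ha4, ha5⟩, ⟨ha6, ha7⟩, ha8⟩ := hN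
  have hlog : 0 ≤ Real.log N := Real.log_natCast_nonneg N
  have hNr : (1 : ℝ) ≤ N := by exact_mod_cast (by omega : 1 ≤ N)
  have hN0 : (0 : ℝ) < N := by linarith
  have hK10r : (10 : ℝ) ≤ K := by
    have h10 := hN7 N ha7
    have h11 : (1 : ℝ) ≤ (1 + Real.log N) ^ 8 := one_le_pow₀ (by linarith)
    linarith
  have hK10 : 10 ≤ K := by exact_mod_cast hK10r
  have hKr : (K : ℝ) ≤ (N : ℝ) ^ (2 / 5 : ℝ) :=
    hK2.trans (Real.rpow_le_rpow_of_exponent_le hNr (by linarith))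
  have hRg : Rg K N := by
    refine ⟨hK10, ?_⟩
    have h12 : (K : ℝ) ^ 5 ≤ (N : ℝ) ^ 2 := by
      calc (K : ℝ) ^ 5 ≤ ((N : ℝ) ^ (2 / 5 : ℝ)) ^ 5 := pow_le_pow_left₀ (by positivity) hKr 5
        _ = (N : ℝ) ^ 2 := by
          rw [← Real.rpow_natCast, ← Real.rpow_mul hN0.le, ← Real.rpow_natCast]
          norm_num
    exact_mod_cast h12
  obtain ⟨hl1, hl2, hl3, hl4, hl5⟩ := hN2 N ha2 K hRg
  have hK0 : (0 : ℝ) < K := by linarith
  have hl0 : (0 : ℝ) < lw N K := by exact_mod_cast (by omega : 0 < lw N K)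
  have hlw2 : 2 ≤ lw N K := by
    by_contra hcon
    have h13 : lw N K = 1 := by omega
    rw [h13] at hl5
    have h14 : (1 : ℝ) ≤ (N : ℝ) ^ (3 / 4 : ℝ) := Real.one_le_rpow hNr (by norm_num)
    have h15 : (1 : ℝ) < (K : ℝ) ^ 10 := one_lt_pow₀ (by linarith) (by norm_num)
    have h16 : (1 : ℝ) < (K : ℝ) ^ 10 * (N : ℝ) ^ (3 / 4 : ℝ) := by nlinarith
    simp at hl5
    linarith
  set P : ℝ := (N : ℝ) ^ (1 - e / 10) with hP
  have hP0 : 0 < P := Real.rpow_pos_of_pos hN0 _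
  set l : ℝ := 1 + Real.log N with hl
  have hl1' : 1 ≤ l := by rw [hl]; linarith
  have hlogl : Real.log N ≤ l := by rw [hl]; linarith
  have hlog2 : Real.log N ^ 2 ≤ l ^ 2 := pow_le_pow_left₀ hlog hlogl 2
  have hP9 : (N : ℝ) ^ (9 / 10 : ℝ) ≤ P :=
    Real.rpow_le_rpow_of_exponent_le hNr (by linarith)
  have hNK : Real.sqrt N * K ≤ P := by
    refine le_trans ?_ hP9
    calc Real.sqrt N * K ≤ (N : ℝ) ^ (1 / 2 : ℝ) * (N : ℝ) ^ (2 / 5 : ℝ) := by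
          rw [Real.sqrt_eq_rpow]
          exact mul_le_mul_of_nonneg_left hKr (by positivity)
      _ = (N : ℝ) ^ (9 / 10 : ℝ) := by
          rw [← Real.rpow_add hN0]
          norm_num
  have hKP : (K : ℝ) ≤ P := by
    have : (1 : ℝ) ≤ Real.sqrt N := Real.one_le_sqrt.2 hNr
    nlinarith
  have hNl : (N : ℝ) / lw N K ≤ 2 * l ^ 2 * K := by
    rw [div_le_iff₀ hl0]
    calc (N : ℝ) ≤ 2 * Real.log N ^ 2 * (K * lw N K) := hl4
      _ ≤ 2 * l ^ 2 * (K * lw N K) := by gcongr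
      _ = _ := by ring
  have h54 : 1 + (2 * l ^ 2) ^ 2 ≤ 5 * l ^ 4 := by
    have : (1 : ℝ) ≤ l ^ 4 := one_le_pow₀ hl1'
    nlinarith
  -- the blocks
  have hblock : ∀ R, 2 ≤ R → R ≤ K → ∑ q ∈ Ico R (2 * R), Eg N K q ≤
      1000 * (10 + 4 * C2) * (P * l ^ 5) := by
    intro R hR hRK
    have hb := c17b_block (C2 := C2) (P := P) (Ln := l ^ 2) hC2.le hP0.le hlog2 hR hRK ha8 hl1 hl2
      hl4 (fun D hD => hconv N R D ha8 hR hD)
      (fun D hD hD1 => hX4 N K ha4 hK1 hK2 R D hR hRK hD hD1)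
    refine hb.trans ?_
    have hR0 : (0 : ℝ) < R := by exact_mod_cast (by omega : 0 < R)
    have hR1 : (1 : ℝ) ≤ R := by exact_mod_cast (by omega : 1 ≤ R)
    have hR2 : (R : ℝ) ^ 2 ≤ N := by
      have : R ^ 2 ≤ N := by
        calc R ^ 2 ≤ (Nat.sqrt N) ^ 2 := Nat.pow_le_pow_left (hRK.trans hl3) 2
          _ ≤ N := Nat.sqrt_le' N
      exact_mod_cast this
    have hE : (C2 * ((N : ℝ) + R ^ 2) * Real.sqrt N * (1 + Real.log N) ^ 3) /
        ((R * lw N K : ℕ) : ℝ) ≤ 4 * C2 * (P * l ^ 5) := by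
      rw [← hl]
      have h20 : ((R * lw N K : ℕ) : ℝ) = R * lw N K := by push_cast; ring
      rw [h20]
      calc (C2 * ((N : ℝ) + R ^ 2) * Real.sqrt N * l ^ 3) / (R * lw N K)
          ≤ (C2 * ((N : ℝ) + N) * Real.sqrt N * l ^ 3) / (1 * lw N K) := by gcongr
        _ = 2 * C2 * Real.sqrt N * l ^ 3 * ((N : ℝ) / lw N K) := by
            field_simp
            ring
        _ ≤ 2 * C2 * Real.sqrt N * l ^ 3 * (2 * l ^ 2 * K) := by gcongr
        _ = 4 * C2 * ((Real.sqrt N * K) * l ^ 5) := by ring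
        _ ≤ 4 * C2 * (P * l ^ 5) := by gcongr
    have hM : 2 * P * (1 + (2 * l ^ 2) ^ 2) ≤ 10 * (P * l ^ 5) := by
      calc 2 * P * (1 + (2 * l ^ 2) ^ 2) ≤ 2 * P * (5 * l ^ 4) := by gcongr
        _ = 10 * (P * (l ^ 4 * 1)) := by ring
        _ ≤ 10 * (P * (l ^ 4 * l)) := by gcongr
        _ = 10 * (P * l ^ 5) := by ring
    calc _ ≤ 1000 * (10 * (P * l ^ 5) + 4 * C2 * (P * l ^ 5)) := by
          refine mul_le_mul_of_nonneg_left (add_le_add hM hE) (by norm_num)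
      _ = _ := by ring
  have hsum := c17b_dyadic K (Eg N K) (c17b_Eg_nonneg N K) hblock
  have hlogK : (Nat.log 2 K : ℝ) ≤ 2 * l := by
    have h30 : (2 : ℝ) ^ (Nat.log 2 K) ≤ N := by
      have h31 : 2 ^ Nat.log 2 K ≤ K := Nat.pow_log_le_self 2 (by omega)
      have h32 : K ≤ N := hl3.trans (Nat.sqrt_le_self N)
      exact_mod_cast h31.trans h32
    have h33 := Real.log_le_log (by positivity) h30
    rw [Real.log_pow] at h33
    have h34 : (1 / 2 : ℝ) ≤ Real.log 2 := by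
      have := Real.log_two_gt_d9
      linarith
    have h35 : (0 : ℝ) ≤ (Nat.log 2 K : ℝ) := Nat.cast_nonneg _
    nlinarith
  have hone : Eg1 N K ≤ 1000 * (20 + 2 * C3) * (P * l ^ 6) := by
    have hb := c17b_one (C3 := C3) (P := P) (Ln := l ^ 2) hC3.le hP0.le hlog2
      (by omega : 1 ≤ K) ha8 hlw2 hl2 hl4 (fun D hD hD2 => hconv1 N D ha8 hD hD2)
      (fun D hD hD1 => hX5 N K ha5 hK1 hK2 D hD hD1)
    refine hb.trans ?_
    have hE : (C3 * N * (1 + Real.log N) ^ 4) / (lw N K : ℝ) ≤ 2 * C3 * (P * l ^ 6) := by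
      rw [← hl]
      calc (C3 * N * l ^ 4) / (lw N K : ℝ) = C3 * l ^ 4 * ((N : ℝ) / lw N K) := by ring
        _ ≤ C3 * l ^ 4 * (2 * l ^ 2 * K) := by gcongr
        _ = 2 * C3 * (K * l ^ 6) := by ring
        _ ≤ 2 * C3 * (P * l ^ 6) := by gcongr
    have hM : 4 * P * (1 + (2 * l ^ 2) ^ 2) ≤ 20 * (P * l ^ 6) := by
      have h40 : l ^ 4 ≤ l ^ 6 := pow_le_pow_right₀ hl1' (by norm_num)
      calc 4 * P * (1 + (2 * l ^ 2) ^ 2) ≤ 4 * P * (5 * l ^ 4) := by gcongr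
        _ = 20 * (P * l ^ 4) := by ring
        _ ≤ 20 * (P * l ^ 6) := by gcongr
    calc _ ≤ 1000 * (20 * (P * l ^ 6) + 2 * C3 * (P * l ^ 6)) := by
          refine mul_le_mul_of_nonneg_left (add_le_add hM hE) (by norm_num)
      _ = _ := by ring
  have hsum2 : ∑ q ∈ Icc 2 K, Eg N K q ≤ 2 * (1000 * (10 + 4 * C2)) * (P * l ^ 6) := by
    refine hsum.trans ?_
    calc (Nat.log 2 K : ℝ) * (1000 * (10 + 4 * C2) * (P * l ^ 5))
        ≤ 2 * l * (1000 * (10 + 4 * C2) * (P * l ^ 5)) := by gcongr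
      _ = _ := by ring
  have hfin := hN1 N ha1 K hRg
  have h50 := hN6 N ha6
  rw [← hl] at h50 hfin
  calc msT N K ≤ C1 * l ^ 2 * (∑ q ∈ Icc 2 K, Eg N K q + Eg1 N K) := hfin
    _ ≤ C1 * l ^ 2 * (2 * (1000 * (10 + 4 * C2)) * (P * l ^ 6) +
        1000 * (20 + 2 * C3) * (P * l ^ 6)) := by gcongr
    _ = P * (A * l ^ 8) := by rw [hA]; ring
    _ ≤ P * (N : ℝ) ^ (e / 20) := by gcongr
    _ = (N : ℝ) ^ (1 - e / 20) := by
        rw [hP, ← Real.rpow_add hN0]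
        congr 1
        ring

end Pool.Agent.AAX

namespace Pool.Agent.AAX

/-- alias -/
theorem mass_total : type_of% @mass_total_pr := @mass_total_pr

end Pool.Agent.AAX

/-! ### C18 -/

/-!
# AAX, block C18: assembly for the primes
-/

namespace Pool.Agent.AAX

open Finset MeasureTheory Pool.Agent.Var35 Pool.Agent.Var73 Pool.Agent.PV Pool.Agent.FGP Pool.Agent.FGA
open scoped ArithmeticFunction ArithmeticFunction.Moebius

/-- logarithms against powers -/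
theorem c18_log (δ C : ℝ) (k : ℕ) (hδ : 0 < δ) : ∃ N0 : ℕ, 1 ≤ N0 ∧ ∀ N : ℕ, N0 ≤ N →
    C * (1 + Real.log N) ^ k ≤ (N : ℝ) ^ δ := by
  set a : ℝ := min 1 (δ / (2 * (k + 1))) with ha
  have ha0 : 0 < a := lt_min one_pos (by positivity)
  have ha1 : a ≤ 1 := min_le_left _ _
  have hak : a * k ≤ δ / 2 := by
    have h1 : a ≤ δ / (2 * (k + 1)) := min_le_right _ _
    have h2 : a * (2 * ((k : ℝ) + 1)) ≤ δ := by
      rwa [le_div_iff₀ (by positivity)] at h1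
    nlinarith
  set B : ℝ := |C| * (1 / a) ^ k with hB
  have hB0 : 0 ≤ B := by positivity
  obtain ⟨N1, hN1⟩ := exists_nat_gt ((B + 1) ^ (2 / δ))
  refine ⟨N1 + 1, by omega, fun N hN => ?_⟩
  have hNR : ((N1 : ℝ)) ≤ N := by
    have : N1 ≤ N := by omega
    exact_mod_cast this
  have hN1' : (1 : ℝ) ≤ N := by
    have : 1 ≤ N := by omega
    exact_mod_cast this
  have hN0 : (0 : ℝ) < N := by linarith
  have hl : 0 ≤ Real.log N := Real.log_nonneg hN1'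
  have h1 : 1 + Real.log N ≤ 1 / a * (N : ℝ) ^ a := by
    have h2 : (N : ℝ) ^ a = Real.exp (a * Real.log N) := by
      rw [Real.rpow_def_of_pos hN0]
      ring_nf
    rw [h2]
    have h3 := Real.add_one_le_exp (a * Real.log N)
    have h4 : 1 / a * (a * Real.log N + 1) ≤ 1 / a * Real.exp (a * Real.log N) :=
      mul_le_mul_of_nonneg_left h3 (by positivity)
    have h5 : 1 / a * (a * Real.log N + 1) = Real.log N + 1 / a := by
      field_simp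
    have h6 : 1 ≤ 1 / a := by
      rw [le_div_iff₀ ha0]
      linarith
    linarith
  have h2 : (1 + Real.log N) ^ k ≤ (1 / a) ^ k * (N : ℝ) ^ (δ / 2) := by
    calc (1 + Real.log N) ^ k ≤ (1 / a * (N : ℝ) ^ a) ^ k := pow_le_pow_left₀ (by linarith) h1 k
      _ = (1 / a) ^ k * (N : ℝ) ^ (a * k) := by
          rw [mul_pow, ← Real.rpow_natCast ((N : ℝ) ^ a) k, ← Real.rpow_mul hN0.le]
      _ ≤ _ := by
          apply mul_le_mul_of_nonneg_left _ (by positivity)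
          exact Real.rpow_le_rpow_of_exponent_le hN1' hak
  have h3 : B ≤ (N : ℝ) ^ (δ / 2) := by
    have h4 : (B + 1) = ((B + 1) ^ (2 / δ)) ^ (δ / 2) := by
      rw [← Real.rpow_mul (by linarith)]
      have : 2 / δ * (δ / 2) = 1 := by field_simp
      rw [this, Real.rpow_one]
    have h5 : ((B + 1) ^ (2 / δ)) ^ (δ / 2) ≤ (N : ℝ) ^ (δ / 2) := by
      apply Real.rpow_le_rpow (by positivity) _ (by positivity)
      linarith
    linarith
  calc C * (1 + Real.log N) ^ k ≤ |C| * (1 + Real.log N) ^ k :=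
        mul_le_mul_of_nonneg_right (le_abs_self C) (by positivity)
    _ ≤ |C| * ((1 / a) ^ k * (N : ℝ) ^ (δ / 2)) := mul_le_mul_of_nonneg_left h2 (abs_nonneg _)
    _ = B * (N : ℝ) ^ (δ / 2) := by rw [hB]; ring
    _ ≤ (N : ℝ) ^ (δ / 2) * (N : ℝ) ^ (δ / 2) := mul_le_mul_of_nonneg_right h3 (by positivity)
    _ = (N : ℝ) ^ δ := by
        rw [← Real.rpow_add hN0]
        congr 1
        ring

/-- the pointwise decomposition -/
theorem c18_pt (N K M Q R : ℕ) (hN : 1 ≤ N) (hQ : 1 ≤ Q) (P : ℝ → ℂ) (a1 a2 a3 a4 a5 a6 a7 : ℝ)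
    (h1 : |(VA P Q - VA (gh N K) Q) - (ms M P - ms M (gh N K))| ≤ a1)
    (h2 : |VA (gh N K) Q - ms M (gh N K) -
      2 * ∑ k ∈ Icc 1 (N / Q), SK K (k * Q) * ((N : ℝ) - k * Q)| ≤ a2)
    (h3 : |ms M P - A2 N| ≤ a3)
    (h4 : |A2 N - (N * Real.log N - N)| ≤ a4)
    (h5 : |2 * ∑ k ∈ Icc 1 (N / Q), SK K (k * Q) * ((N : ℝ) - k * Q) -
      ((N : ℝ) ^ 2 / Nat.totient Q - N * (Real.log ((N : ℝ) / Q) + HC.CQ Q - 1))| ≤ a5)
    (h6 : |VM P Q R - (N : ℝ) ^ 2 / Q * TL Q R| ≤ a6)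
    (h7 : |(N : ℝ) ^ 2 / Q * TL Q R - (N : ℝ) ^ 2 / Nat.totient Q| ≤ a7) :
    |VP P Q R - N * (Real.log Q - HC.CQ Q)| ≤ a1 + a2 + a3 + a4 + a5 + a6 + a7 := by
  have hQ0 : (0 : ℝ) < Q := by exact_mod_cast hQ
  have hN0 : (0 : ℝ) < N := by exact_mod_cast hN
  have hlog : Real.log ((N : ℝ) / Q) = Real.log N - Real.log Q := Real.log_div hN0.ne' hQ0.ne'
  rw [hlog] at h5
  have hs := a01_split P Q R
  set S : ℝ := ∑ k ∈ Icc 1 (N / Q), SK K (k * Q) * ((N : ℝ) - k * Q)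
  have h9 : VP P Q R - N * (Real.log Q - HC.CQ Q) =
      ((VA P Q - VA (gh N K) Q) - (ms M P - ms M (gh N K))) +
      (VA (gh N K) Q - ms M (gh N K) - 2 * S) + (ms M P - A2 N) +
      (A2 N - (N * Real.log N - N)) +
      (2 * S - ((N : ℝ) ^ 2 / Nat.totient Q - N * (Real.log N - Real.log Q + HC.CQ Q - 1))) -
      (VM P Q R - (N : ℝ) ^ 2 / Q * TL Q R) -
      ((N : ℝ) ^ 2 / Q * TL Q R - (N : ℝ) ^ 2 / Nat.totient Q) := by
    have : VP P Q R = VA P Q - VM P Q R := by linarith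
    rw [this]
    ring
  rw [h9]
  rw [abs_le] at *
  constructor
  · linarith [h1.1, h2.1, h3.1, h4.1, h5.1, h6.2, h7.2]
  · linarith [h1.2, h2.2, h3.2, h4.2, h5.2, h6.1, h7.1]

/-- `fh + gh` is a trigonometric polynomial -/
theorem c18_tp {A B : ℤ} {F G : ℝ → ℂ} (hF : TP A B F) (hG : TP A B G) :
    TP A B (fun t => F t + G t) := by
  obtain ⟨c1, hc1⟩ := hF
  obtain ⟨c2, hc2⟩ := hG
  refine ⟨fun n => c1 n + c2 n, fun t => ?_⟩
  simp only
  rw [hc1 t, hc2 t, ← sum_add_distrib]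
  refine sum_congr rfl fun n _ => ?_
  ring

set_option maxHeartbeats 1000000 in
/-- the estimate for one value of the parameters: `s` bounds `ms M Fh / N`, `κ` the other small
quantities -/
theorem c18_one {C02 C17 Ck η s κ κ1 : ℝ} {N K Y M R : ℕ}
    (hC02 : 0 < C02) (hC17 : 0 < C17) (hη : 0 < η) (hs0 : 0 ≤ s)
    (hN3 : 100 ≤ N) (hY1 : 1 ≤ Y) (hR1 : 1 ≤ R)
    (hM : Good (2 * N) M)
    (hRL : N * Real.log N ^ 7 ≤ (R : ℝ) * Y)
    (hmF : ms M (Fh N K) ≤ s ^ 2 * N) (hs1 : s ≤ 1)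
    (hlw : 1 ≤ lw N K) (hlw2 : 16 * (K * lw N K) ≤ N)
    (h02 : ∀ (N' M Y R : ℕ) (A B : ℤ) (P : ℝ → ℂ), TP A B P →
      B - A ≤ N' → N' < M → 1 ≤ Y → 1 ≤ R → 1 ≤ N' →
      ∑ Q ∈ MQ Y, VP P Q R ≤ C02 * ((Y : ℝ) + N' / R) * ms M P)
    (h04 : ∑ Q ∈ MQ Y, |(VA (fun t => fh N K t + gh N K t) Q - VA (gh N K) Q) -
      (ms M (fun t => fh N K t + gh N K t) - ms M (gh N K))| ≤ κ * N * Y)
    (h06 : ∀ Q ∈ MQ Y, |VM (fun t => fh N K t + gh N K t) Q R - (N : ℝ) ^ 2 / Q * TL Q R| ≤ κ * N)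
    (h07 : ∀ Q ∈ MQ Y, |VA (gh N K) Q - ms M (gh N K) -
      2 * ∑ k ∈ Icc 1 (N / Q), SK K (k * Q) * ((N : ℝ) - k * Q)| ≤ κ * N)
    (h15 : |A2 N - (N * Real.log N - N)| ≤ κ1 * N) (hκ1' : κ1 ≤ 1)
    (hA15 : ∀ Q ∈ MQ Y, |2 * ∑ k ∈ Icc 1 (N / Q), SK K (k * Q) * ((N : ℝ) - k * Q) -
      ((N : ℝ) ^ 2 / Nat.totient Q - N * (Real.log ((N : ℝ) / Q) + HC.CQ Q - 1))| ≤
      η * N * ks Q ^ 4)
    (hk : ∑ Q ∈ Icc 1 (4 * Y), ks Q ^ 8 ≤ Ck * ((4 * Y : ℕ) : ℝ))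
    (h17 : ∑ Q ∈ MQ Y, |TL Q R - (Q / Nat.totient Q : ℝ)| ≤ C17 * Y / R) :
    ∑ Q ∈ MQ Y, |VP (Ps N) Q R - N * (Real.log Q - HC.CQ Q)| ≤
      (7 * κ + 3 * κ1 + 4 * η * Ck + C17 / Real.log N ^ 7 +
        (15 + 21 * C02) * s * Real.log N) * N * Y := by
  have hNR : (100 : ℝ) ≤ N := by exact_mod_cast hN3
  have hN0 : (0 : ℝ) < N := by linarith
  have hYR : (1 : ℝ) ≤ Y := by exact_mod_cast hY1
  have hY0 : (0 : ℝ) < Y := by linarith
  have hR0 : (0 : ℝ) < R := by exact_mod_cast hR1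
  have hL1 : 1 ≤ Real.log N := by
    rw [Real.le_log_iff_exp_le hN0]
    have := Real.exp_one_lt_d9
    linarith
  have hL0 : 0 < Real.log N := by linarith
  set L : ℝ := Real.log N with hL
  have hNR7 : (N : ℝ) / R ≤ Y / L ^ 7 := by
    rw [div_le_div_iff₀ hR0 (by positivity)]
    linarith
  have hNR' : (N : ℝ) / R ≤ Y := by
    refine hNR7.trans ?_
    apply div_le_self hY0.le
    exact one_le_pow₀ hL1
  set P : ℝ → ℂ := fun t => fh N K t + gh N K t with hP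
  have hms0 : ∀ F : ℝ → ℂ, 0 ≤ ms M F := by
    intro F
    unfold ms mean
    positivity
  have hmF0 := hms0 (Fh N K)
  -- second moments
  have hA2 : A2 N ≤ 2 * N * L := by
    have h1 := (abs_le.1 h15).2
    nlinarith
  have hA20 : 0 ≤ A2 N := by
    unfold A2
    positivity
  have hsq : Real.sqrt (A2 N * ms M (Fh N K)) ≤ s * N * (2 * L) := by
    apply Real.sqrt_le_iff.2
    refine ⟨by positivity, ?_⟩
    calc A2 N * ms M (Fh N K) ≤ (2 * N * L) * (s ^ 2 * N) := by gcongr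
      _ = s ^ 2 * N ^ 2 * (2 * L * 1) := by ring
      _ ≤ s ^ 2 * N ^ 2 * (2 * L * (2 * L)) := by
          gcongr
          linarith
      _ = (s * N * (2 * L)) ^ 2 := by ring
  have hss : s ^ 2 ≤ s := by nlinarith
  have h16 : |ms M P - A2 N| ≤ 5 * s * L * N := by
    refine (ms_fg N K M (by omega) hM).trans ?_
    have h1 : s ^ 2 * N ≤ s * L * N := by
      have : s ≤ s * L := by nlinarith
      nlinarith
    nlinarith
  have hmsP : ms M P ≤ 7 * N * L := by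
    have h1 := (abs_le.1 h16).2
    have h2 : 5 * s * L * N ≤ 5 * N * L := by
      have : s * (L * N) ≤ 1 * (L * N) := by gcongr
      nlinarith
    linarith
  -- pointwise
  set a1 : ℕ → ℝ := fun Q => |(VA P Q - VA (gh N K) Q) - (ms M P - ms M (gh N K))| with ha1
  have hpt : ∀ Q ∈ MQ Y, |VP P Q R - N * (Real.log Q - HC.CQ Q)| ≤ a1 Q + (κ * N +
      5 * s * L * N + κ1 * N + κ * N) + η * N * ks Q ^ 4 +
      (N : ℝ) ^ 2 / Y * |TL Q R - (Q / Nat.totient Q : ℝ)| := by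
    intro Q hQ
    have hQ' := hQ
    unfold MQ at hQ'
    rw [mem_Ioc] at hQ'
    have hQ1 : 1 ≤ Q := by omega
    have hQY : (Y : ℝ) ≤ Q := by exact_mod_cast hQ'.1.le
    have hQ0 : (0 : ℝ) < Q := by linarith
    have h6 : |(N : ℝ) ^ 2 / Q * TL Q R - (N : ℝ) ^ 2 / Nat.totient Q| ≤
        (N : ℝ) ^ 2 / Y * |TL Q R - (Q / Nat.totient Q : ℝ)| := by
      have h61 : (N : ℝ) ^ 2 / Q * TL Q R - (N : ℝ) ^ 2 / Nat.totient Q =
          (N : ℝ) ^ 2 / Q * (TL Q R - (Q / Nat.totient Q : ℝ)) := by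
        field_simp
      rw [h61, abs_mul, abs_of_nonneg (by positivity)]
      gcongr
    have h1 := c18_pt N K M Q R (by omega) hQ1 P (a1 Q) _ _ _ _ _ _ le_rfl (h07 Q hQ) h16 h15
      (hA15 Q hQ) (h06 Q hQ) h6
    refine h1.trans (le_of_eq ?_)
    ring
  have hks : ∑ Q ∈ MQ Y, ks Q ^ 4 ≤ Ck * (4 * Y) := by
    calc ∑ Q ∈ MQ Y, ks Q ^ 4 ≤ ∑ Q ∈ MQ Y, ks Q ^ 8 :=
          sum_le_sum fun Q _ => pow_le_pow_right₀ (a01_ks_ge Q) (by norm_num)
      _ ≤ ∑ Q ∈ Icc 1 (4 * Y), ks Q ^ 8 := by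
          apply sum_le_sum_of_subset_of_nonneg
          · intro Q hQ
            unfold MQ at hQ
            rw [mem_Ioc] at hQ
            rw [mem_Icc]
            omega
          · intro Q _ _
            have := a01_ks_ge Q
            positivity
      _ ≤ _ := by
          refine hk.trans (le_of_eq ?_)
          push_cast
          ring
  have hS1 : ∑ Q ∈ MQ Y, |VP P Q R - N * (Real.log Q - HC.CQ Q)| ≤
      κ * N * Y + 3 * Y * (κ * N + 5 * s * L * N + κ1 * N + κ * N) +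
      η * N * (Ck * (4 * Y)) + C17 * N * (Y / L ^ 7) := by
    refine (sum_le_sum hpt).trans ?_
    rw [sum_add_distrib, sum_add_distrib, sum_add_distrib, sum_const,
      ← mul_sum, ← mul_sum, nsmul_eq_mul, a01_card Y]
    have e1 : η * N * ∑ Q ∈ MQ Y, ks Q ^ 4 ≤ η * N * (Ck * (4 * Y)) := by gcongr
    have e2 : (N : ℝ) ^ 2 / Y * ∑ Q ∈ MQ Y, |TL Q R - (Q / Nat.totient Q : ℝ)| ≤
        C17 * N * (Y / L ^ 7) := by
      calc (N : ℝ) ^ 2 / Y * ∑ Q ∈ MQ Y, |TL Q R - (Q / Nat.totient Q : ℝ)| ≤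
          (N : ℝ) ^ 2 / Y * (C17 * Y / R) := by gcongr
        _ = C17 * N * (N / R) := by field_simp
        _ ≤ C17 * N * (Y / L ^ 7) := by gcongr
    have e3 : ∑ Q ∈ MQ Y, a1 Q ≤ κ * N * Y := h04
    linarith
  -- Minkowski
  have hmk := a01_mink_sum P (Fh N K) R (MQ Y)
  have hSP0 : 0 ≤ ∑ Q ∈ MQ Y, VP P Q R := sum_nonneg fun Q _ => a01_VP_nonneg _ _ _
  have hSF0 : 0 ≤ ∑ Q ∈ MQ Y, VP (Fh N K) Q R := sum_nonneg fun Q _ => a01_VP_nonneg _ _ _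
  have hNM : 2 * N < M := by
    have := hM.1
    omega
  obtain ⟨t1, t2, t3⟩ := tp_facts N K hlw
  have hTPf := c18_tp t1 t2
  have hAB : ((N : ℤ) + 4 * ((K * lw N K : ℕ) : ℤ)) - (1 - 4 * ((K * lw N K : ℕ) : ℤ)) ≤
      ((2 * N : ℕ) : ℤ) := by
    have h1 : (16 : ℤ) * ((K * lw N K : ℕ) : ℤ) ≤ N := by exact_mod_cast hlw2
    push_cast at h1 ⊢
    have h2 : (0 : ℤ) ≤ N := by positivity
    linarith
  have hbd : (Y : ℝ) + ((2 * N : ℕ) : ℝ) / R ≤ 3 * Y := by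
    have : ((2 * N : ℕ) : ℝ) / R = 2 * ((N : ℝ) / R) := by push_cast; ring
    rw [this]
    linarith
  have hSP : ∑ Q ∈ MQ Y, VP P Q R ≤ 3 * C02 * Y * (7 * N * L) := by
    have h1 := h02 (2 * N) M Y R _ _ P hTPf hAB hNM hY1 hR1 (by omega)
    refine h1.trans ?_
    calc C02 * ((Y : ℝ) + ((2 * N : ℕ) : ℝ) / R) * ms M P ≤
        C02 * (3 * Y) * (7 * N * L) := by
          have := hms0 P
          gcongr
      _ = _ := by ring
  have hSF : ∑ Q ∈ MQ Y, VP (Fh N K) Q R ≤ 3 * C02 * Y * (s ^ 2 * N) := by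
    have h1 := h02 (2 * N) M Y R _ _ (Fh N K) t3 hAB hNM hY1 hR1 (by omega)
    refine h1.trans ?_
    calc C02 * ((Y : ℝ) + ((2 * N : ℕ) : ℝ) / R) * ms M (Fh N K) ≤
        C02 * (3 * Y) * (s ^ 2 * N) := by
          gcongr
      _ = _ := by ring
  have hPs : ∀ Q, VP (Ps N) Q R = VP (fun t => P t + Fh N K t) Q R := by
    intro Q
    congr 1
    funext t
    exact decomp N K t
  have htot : ∑ Q ∈ MQ Y, |VP (Ps N) Q R - N * (Real.log Q - HC.CQ Q)| ≤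
      ∑ Q ∈ MQ Y, |VP P Q R - N * (Real.log Q - HC.CQ Q)| +
      (2 * Real.sqrt ((∑ Q ∈ MQ Y, VP P Q R) * ∑ Q ∈ MQ Y, VP (Fh N K) Q R) +
        ∑ Q ∈ MQ Y, VP (Fh N K) Q R) := by
    have h1 : ∑ Q ∈ MQ Y, |VP (Ps N) Q R - N * (Real.log Q - HC.CQ Q)| ≤
        ∑ Q ∈ MQ Y, |VP P Q R - N * (Real.log Q - HC.CQ Q)| +
        ∑ Q ∈ MQ Y, |VP (fun t => P t + Fh N K t) Q R - VP P Q R| := by
      rw [← sum_add_distrib]
      refine sum_le_sum fun Q _ => ?_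
      rw [hPs Q]
      have h2 : VP (fun t => P t + Fh N K t) Q R - N * (Real.log Q - HC.CQ Q) =
          (VP P Q R - N * (Real.log Q - HC.CQ Q)) +
          (VP (fun t => P t + Fh N K t) Q R - VP P Q R) := by ring
      rw [h2]
      exact abs_add_le _ _
    linarith
  have hq : Real.sqrt ((∑ Q ∈ MQ Y, VP P Q R) * ∑ Q ∈ MQ Y, VP (Fh N K) Q R) ≤
      9 * C02 * s * L * N * Y := by
    apply Real.sqrt_le_iff.2
    refine ⟨by positivity, ?_⟩
    calc (∑ Q ∈ MQ Y, VP P Q R) * ∑ Q ∈ MQ Y, VP (Fh N K) Q R ≤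
        (3 * C02 * Y * (7 * N * L)) * (3 * C02 * Y * (s ^ 2 * N)) := by gcongr
      _ = C02 ^ 2 * s ^ 2 * N ^ 2 * Y ^ 2 * (63 * L * 1) := by ring
      _ ≤ C02 ^ 2 * s ^ 2 * N ^ 2 * Y ^ 2 * (81 * L * L) := by
          gcongr
          norm_num
      _ = (9 * C02 * s * L * N * Y) ^ 2 := by ring
  have hSF' : ∑ Q ∈ MQ Y, VP (Fh N K) Q R ≤ 3 * C02 * s * L * N * Y := by
    refine hSF.trans ?_
    calc 3 * C02 * Y * (s ^ 2 * N) ≤ 3 * C02 * Y * ((s * L) * N) := by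
          gcongr
          nlinarith
      _ = _ := by ring
  have e5 : (0 : ℝ) ≤ s * L * N * Y := by positivity
  have e6 : (0 : ℝ) ≤ C02 * (s * L * N * Y) := by positivity
  calc ∑ Q ∈ MQ Y, |VP (Ps N) Q R - N * (Real.log Q - HC.CQ Q)| ≤
      (κ * N * Y + 3 * Y * (κ * N + 5 * s * L * N + κ1 * N + κ * N) +
      η * N * (Ck * (4 * Y)) + C17 * N * (Y / L ^ 7)) +
      (2 * (9 * C02 * s * L * N * Y) + 3 * C02 * s * L * N * Y) := by linarith
    _ = (7 * κ + 3 * κ1 + 4 * η * Ck + C17 / L ^ 7 + (15 + 21 * C02) * s * L) * N * Y := by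
        ring

set_option maxHeartbeats 1000000 in
theorem primes_all_pr {θ e η : ℝ} (hθ : 9 / 10 ≤ θ) (hθ1 : θ < 1) (h : XS.ZF θ) (he : 0 < e)
    (he1 : e ≤ 1 / 10) (hη : 0 < η) : ∃ N0 : ℕ, ∀ N ≥ N0, ∀ K : ℕ, (N : ℝ) ^ e ≤ K →
    (K : ℝ) ≤ (N : ℝ) ^ (4 * (1 - θ) - e) → ∀ Y, RY e K N Y → N0 * Y ≤ N → ∀ R : ℕ,
    N * Real.log N ^ 7 ≤ (R : ℝ) * Y → (R : ℝ) * Y ≤ N * Real.log N ^ 9 →
    ∑ Q ∈ MQ Y, |VP (Ps N) Q R - N * (Real.log Q - HC.CQ Q)| ≤ η * N * Y := by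
  obtain ⟨N1, H1⟩ := lw_facts
  obtain ⟨C04, hC04, N4, H4⟩ := off_diag
  obtain ⟨N6, H6⟩ := small_den
  obtain ⟨N7, H7⟩ := var_gh_asym he
  obtain ⟨N8, H8⟩ := ms_Fh
  obtain ⟨N9, H9⟩ := mass_total hθ hθ1 h he he1
  obtain ⟨C02, hC02, H02⟩ := A02_pr
  obtain ⟨Ck, hCk, Hk⟩ := A16_pr
  obtain ⟨C17, hC17, H17⟩ := A17_pr
  -- the small parameters
  set κ1 : ℝ := min 1 (η / 16) with hκ1
  have hκ10 : 0 < κ1 := lt_min one_pos (by positivity)
  obtain ⟨N15, H15⟩ := FGP.W15_pr κ1 hκ10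
  set η1 : ℝ := η / (32 * Ck) with hη1
  have hη10 : 0 < η1 := by positivity
  obtain ⟨Z0, hZ0, HZ⟩ := main_one η1 hη10
  -- thresholds
  obtain ⟨M1, hM1, T1⟩ := c18_log (e / 2) (C04 * (64 / η)) 9 (by positivity)
  obtain ⟨M2, hM2, T2⟩ := c18_log (e / 4) (64 / η) 0 (by positivity)
  obtain ⟨M3, hM3, T3⟩ := c18_log (e / 40) (2 * (15 + 21 * C02) * (64 / η + 1)) 1 (by positivity)
  obtain ⟨M4, hM4, T4⟩ := c18_log (1 / 15) (64 / η) 18 (by positivity)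
  obtain ⟨M5, hM5, T5⟩ := c18_log e (Z0 : ℝ) 0 he
  obtain ⟨M6, hM6, T6⟩ := c18_log e 10 0 he
  obtain ⟨M7, hM7, T7⟩ := c18_log (e / 2) 1 9 (by positivity)
  obtain ⟨M8, hM8⟩ := exists_nat_gt (Real.exp (8 * C17 / η))
  refine ⟨N1 + N4 + N6 + N7 + N8 + N9 + N15 + M1 + M2 + M3 + M4 + M5 + M6 + M7 + M8 + 4 * Z0 + 100,
    fun N hN K hKl hKu Y hRY hYN R hRL hRU => ?_⟩
  have hN100 : 100 ≤ N := by omega
  have hNR : (100 : ℝ) ≤ N := by exact_mod_cast hN100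
  have hN0 : (0 : ℝ) < N := by linarith
  have hNone : (1 : ℝ) ≤ N := by linarith
  have hL1 : 1 ≤ Real.log N := by
    rw [Real.le_log_iff_exp_le hN0]
    have := Real.exp_one_lt_d9
    linarith
  have hL0 : 0 < Real.log N := by linarith
  replace T1 := T1 N (by omega)
  replace T2 := T2 N (by omega)
  replace T3 := T3 N (by omega)
  replace T4 := T4 N (by omega)
  replace T5 := T5 N (by omega)
  replace T6 := T6 N (by omega)
  replace T7 := T7 N (by omega)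
  rw [pow_zero, mul_one] at T2 T5 T6
  rw [pow_one] at T3
  rw [one_mul] at T7
  set L : ℝ := Real.log N with hL
  -- `K`
  have hK10 : 10 ≤ K := by
    have h1 : (10 : ℝ) ≤ K := T6.trans hKl
    exact_mod_cast h1
  have hK25 : (K : ℝ) ≤ (N : ℝ) ^ (2 / 5 : ℝ) :=
    hKu.trans (Real.rpow_le_rpow_of_exponent_le hNone (by linarith))
  have hK0 : (0 : ℝ) < K := by
    have : (10 : ℝ) ≤ K := by exact_mod_cast hK10
    linarith
  have hK1 : (1 : ℝ) ≤ K := by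
    have : (10 : ℝ) ≤ K := by exact_mod_cast hK10
    linarith
  have hRg : Rg K N := by
    refine ⟨hK10, ?_⟩
    have h1 : (K : ℝ) ^ 5 ≤ (N : ℝ) ^ 2 := by
      calc (K : ℝ) ^ 5 ≤ ((N : ℝ) ^ (2 / 5 : ℝ)) ^ 5 := pow_le_pow_left₀ hK0.le hK25 5
        _ = (N : ℝ) ^ 2 := by
            rw [← Real.rpow_natCast ((N : ℝ) ^ (2 / 5 : ℝ)) 5, ← Real.rpow_mul hN0.le,
              ← Real.rpow_natCast (N : ℝ) 2]
            norm_num
    exact_mod_cast h1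
  -- `Y`
  have hY1 : 1 ≤ Y := hRY.hY1
  have hYR : (1 : ℝ) ≤ Y := by exact_mod_cast hY1
  have hY0 : (0 : ℝ) < Y := by linarith
  have hsK0 : 0 < Real.sqrt K := Real.sqrt_pos.2 hK0
  have hYK : (N : ℝ) ^ (1 + e / 2) ≤ Y * Real.sqrt K := by
    apply le_of_pow_le_pow_left₀ (n := 2) (by norm_num) (by positivity)
    calc ((N : ℝ) ^ (1 + e / 2)) ^ 2 = (N : ℝ) ^ (2 + e) := by
          rw [← Real.rpow_natCast ((N : ℝ) ^ (1 + e / 2)) 2, ← Real.rpow_mul hN0.le]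
          congr 1
          push_cast
          ring
      _ ≤ (Y : ℝ) ^ 2 * K := hRY.hY
      _ = (Y * Real.sqrt K) ^ 2 := by
          rw [mul_pow, Real.sq_sqrt hK0.le]
  have hNe : (N : ℝ) ^ (1 + e / 2) = N * (N : ℝ) ^ (e / 2) := by
    rw [Real.rpow_add hN0, Real.rpow_one]
  have hY45 : (N : ℝ) ^ (4 / 5 : ℝ) ≤ Y := by
    apply le_of_pow_le_pow_left₀ (n := 2) (by norm_num) hY0.le
    have h1 : (N : ℝ) ^ (8 / 5 : ℝ) * (N : ℝ) ^ (2 / 5 : ℝ) ≤ (Y : ℝ) ^ 2 * (N : ℝ) ^ (2 / 5 : ℝ) := by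
      calc (N : ℝ) ^ (8 / 5 : ℝ) * (N : ℝ) ^ (2 / 5 : ℝ) = (N : ℝ) ^ (2 : ℝ) := by
            rw [← Real.rpow_add hN0]
            norm_num
        _ ≤ (N : ℝ) ^ (2 + e) := Real.rpow_le_rpow_of_exponent_le hNone (by linarith)
        _ ≤ (Y : ℝ) ^ 2 * K := hRY.hY
        _ ≤ _ := by gcongr
    have h2 : (N : ℝ) ^ (8 / 5 : ℝ) ≤ (Y : ℝ) ^ 2 := le_of_mul_le_mul_right h1 (by positivity)
    calc ((N : ℝ) ^ (4 / 5 : ℝ)) ^ 2 = (N : ℝ) ^ (8 / 5 : ℝ) := by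
          rw [← Real.rpow_natCast ((N : ℝ) ^ (4 / 5 : ℝ)) 2, ← Real.rpow_mul hN0.le]
          norm_num
      _ ≤ _ := h2
  -- `R`
  have hR0 : 0 < (R : ℝ) := by
    by_contra hc
    push Not at hc
    have h1 : 0 < (N : ℝ) * L ^ 7 := by positivity
    have h2 : (R : ℝ) * Y ≤ 0 := mul_nonpos_of_nonpos_of_nonneg hc hY0.le
    linarith
  have hR1 : 1 ≤ R := by
    have : 0 < R := by exact_mod_cast hR0
    omega
  have hL9 : L ^ 9 ≤ (1 + L) ^ 9 := pow_le_pow_left₀ hL0.le (by linarith) 9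
  have hRK : R ≤ K := by
    have h1 : (R : ℝ) * Y ≤ K * Y := by
      calc (R : ℝ) * Y ≤ N * L ^ 9 := hRU
        _ ≤ N * (1 + L) ^ 9 := by gcongr
        _ ≤ N * (N : ℝ) ^ (e / 2) := by gcongr
        _ ≤ Y * Real.sqrt K := by rw [← hNe]; exact hYK
        _ ≤ Y * K := by
            gcongr
            rw [Real.sqrt_le_left hK0.le]
            nlinarith
        _ = K * Y := by ring
    have h2 : (R : ℝ) ≤ K := le_of_mul_le_mul_right h1 hY0
    exact_mod_cast h2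
  -- the grid
  obtain ⟨M, hM⟩ : ∃ M, Good (2 * N) M := ⟨_, CSB_good (2 * N)⟩
  -- the mass
  set s : ℝ := 2 * (N : ℝ) ^ (-(e / 40)) with hs
  have hs0 : 0 ≤ s := by positivity
  have hse : s * (N : ℝ) ^ (e / 40) = 2 := by
    rw [hs, mul_assoc, ← Real.rpow_add hN0]
    simp
  have he40 : (0 : ℝ) < (N : ℝ) ^ (e / 40) := by positivity
  have hs2 : s ^ 2 * N = 4 * (N : ℝ) ^ (1 - e / 20) := by
    have h1 : ((N : ℝ) ^ (-(e / 40))) ^ 2 * N = (N : ℝ) ^ (1 - e / 20) := by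
      rw [← Real.rpow_natCast ((N : ℝ) ^ (-(e / 40))) 2, ← Real.rpow_mul hN0.le]
      nth_rewrite 2 [← Real.rpow_one (N : ℝ)]
      rw [← Real.rpow_add hN0]
      congr 1
      push_cast
      ring
    rw [hs, mul_pow, mul_assoc, h1]
    norm_num
  have hmF : ms M (Fh N K) ≤ s ^ 2 * N := by
    have h1 := H8 N (by omega) K hRg M hM
    have h2 := H9 N (by omega) K hKl hKu
    have h3 : (0 : ℝ) < (N : ℝ) ^ (1 - e / 20) := by positivity
    rw [hs2]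
    linarith
  have hη64 : 0 < 64 / η := by positivity
  have hsL : (15 + 21 * C02) * s * L ≤ η / 64 := by
    have h1 : (15 + 21 * C02) * s * L * (64 / η) * (N : ℝ) ^ (e / 40) ≤ 1 * (N : ℝ) ^ (e / 40) := by
      calc (15 + 21 * C02) * s * L * (64 / η) * (N : ℝ) ^ (e / 40) =
          (15 + 21 * C02) * L * (64 / η) * (s * (N : ℝ) ^ (e / 40)) := by ring
        _ = 2 * (15 + 21 * C02) * (64 / η) * L := by rw [hse]; ring
        _ ≤ 2 * (15 + 21 * C02) * (64 / η + 1) * (1 + L) := by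
            gcongr
            · linarith
            · linarith
        _ ≤ _ := by rw [one_mul]; exact T3
    have h2 := le_of_mul_le_mul_right h1 he40
    have h3 : (15 + 21 * C02) * s * L * (64 / η) = (15 + 21 * C02) * s * L / (η / 64) := by
      field_simp
    rw [h3, div_le_one (by positivity)] at h2
    exact h2
  have hs1 : s ≤ 1 := by
    have h1 : s * (N : ℝ) ^ (e / 40) ≤ 1 * (N : ℝ) ^ (e / 40) := by
      rw [hse, one_mul]
      refine le_trans ?_ T3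
      have h2 : (1 : ℝ) ≤ (15 + 21 * C02) * (64 / η + 1) * (1 + L) := by
        have a1 : (1 : ℝ) ≤ 15 + 21 * C02 := by linarith
        have a2 : (1 : ℝ) ≤ 64 / η + 1 := by linarith
        have a3 : (1 : ℝ) ≤ 1 + L := by linarith
        have a4 := one_le_mul_of_one_le_of_one_le a1 a2
        exact one_le_mul_of_one_le_of_one_le a4 a3
      linarith
    exact le_of_mul_le_mul_right h1 he40
  have hmN : ms M (Fh N K) ≤ N := by
    refine hmF.trans ?_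
    have : s ^ 2 ≤ 1 := pow_le_one₀ hs0 hs1
    nlinarith
  -- the other terms
  have h4 := H4 N (by omega) K hRg M hM Y hY1 hmN
  have h4' : C04 * ((N : ℝ) ^ 2 / Real.sqrt K) * (1 + L) ^ 9 ≤ η / 64 * N * Y := by
    have h1 : (N : ℝ) * (N : ℝ) ^ (e / 2) / Real.sqrt K ≤ Y := by
      rw [div_le_iff₀ hsK0, ← hNe]
      exact hYK
    have h2 : C04 * (1 + L) ^ 9 ≤ η / 64 * (N : ℝ) ^ (e / 2) := by
      have h3 : C04 * (64 / η) * (1 + L) ^ 9 = C04 * (1 + L) ^ 9 / (η / 64) := by field_simp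
      rw [h3, div_le_iff₀ (by positivity)] at T1
      linarith
    calc C04 * ((N : ℝ) ^ 2 / Real.sqrt K) * (1 + L) ^ 9 =
        (N : ℝ) ^ 2 / Real.sqrt K * (C04 * (1 + L) ^ 9) := by ring
      _ ≤ (N : ℝ) ^ 2 / Real.sqrt K * (η / 64 * (N : ℝ) ^ (e / 2)) := by gcongr
      _ = η / 64 * N * (N * (N : ℝ) ^ (e / 2) / Real.sqrt K) := by ring
      _ ≤ η / 64 * N * Y := by gcongr
  have h6 : ∀ Q ∈ MQ Y, |VM (fun t => fh N K t + gh N K t) Q R - (N : ℝ) ^ 2 / Q * TL Q R| ≤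
      η / 64 * N := by
    intro Q hQ
    unfold MQ at hQ
    rw [mem_Ioc] at hQ
    have hQY : (Y : ℝ) ≤ Q := by exact_mod_cast hQ.1.le
    refine (H6 N (by omega) K hRg Q R (by omega) hRK).trans ?_
    have g1 : (R : ℝ) ≤ N * (1 + L) ^ 9 / Y := by
      rw [le_div_iff₀ hY0]
      refine hRU.trans ?_
      gcongr
    have g2 : (64 / η) * (1 + L) ^ 18 ≤ (N : ℝ) ^ (1 / 15 : ℝ) := T4
    have g3 : (1 + L) ^ 18 ≤ η / 64 * (N : ℝ) ^ (1 / 15 : ℝ) := by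
      have h3 : (64 / η) * (1 + L) ^ 18 = (1 + L) ^ 18 / (η / 64) := by field_simp
      rw [h3, div_le_iff₀ (by positivity)] at g2
      linarith
    have g4 : (N : ℝ) ^ (12 / 5 : ℝ) ≤ (Y : ℝ) ^ 3 := by
      calc (N : ℝ) ^ (12 / 5 : ℝ) = ((N : ℝ) ^ (4 / 5 : ℝ)) ^ 3 := by
            rw [← Real.rpow_natCast ((N : ℝ) ^ (4 / 5 : ℝ)) 3, ← Real.rpow_mul hN0.le]
            norm_num
        _ ≤ _ := pow_le_pow_left₀ (by positivity) hY45 3
    calc (R : ℝ) ^ 2 / Q * (N : ℝ) ^ (4 / 3 : ℝ) ≤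
        (N * (1 + L) ^ 9 / Y) ^ 2 / Y * (N : ℝ) ^ (4 / 3 : ℝ) := by gcongr
      _ = N ^ 2 * (N : ℝ) ^ (4 / 3 : ℝ) * (1 + L) ^ 18 / Y ^ 3 := by
          field_simp
      _ ≤ N ^ 2 * (N : ℝ) ^ (4 / 3 : ℝ) * (η / 64 * (N : ℝ) ^ (1 / 15 : ℝ)) /
          (N : ℝ) ^ (12 / 5 : ℝ) := by gcongr
      _ = η / 64 * N := by
          rw [div_eq_iff (by positivity)]
          have e1 : (N : ℝ) * (N : ℝ) ^ (12 / 5 : ℝ) =
              N ^ 2 * (N : ℝ) ^ (4 / 3 : ℝ) * (N : ℝ) ^ (1 / 15 : ℝ) := by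
            nth_rewrite 1 [← Real.rpow_one (N : ℝ)]
            rw [← Real.rpow_natCast (N : ℝ) 2, ← Real.rpow_add hN0, ← Real.rpow_add hN0,
              ← Real.rpow_add hN0]
            norm_num
          calc N ^ 2 * (N : ℝ) ^ (4 / 3 : ℝ) * (η / 64 * (N : ℝ) ^ (1 / 15 : ℝ)) =
              η / 64 * (N ^ 2 * (N : ℝ) ^ (4 / 3 : ℝ) * (N : ℝ) ^ (1 / 15 : ℝ)) := by ring
            _ = η / 64 * ((N : ℝ) * (N : ℝ) ^ (12 / 5 : ℝ)) := by rw [e1]
            _ = _ := by ring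
  have h7 : ∀ Q ∈ MQ Y, |VA (gh N K) Q - ms M (gh N K) -
      2 * ∑ k ∈ Icc 1 (N / Q), SK K (k * Q) * ((N : ℝ) - k * Q)| ≤ η / 64 * N := by
    intro Q hQ
    refine (H7 N (by omega) K hRg M hM Y hRY Q hQ).trans ?_
    have g1 : 64 / η ≤ (N : ℝ) ^ (e / 4) := T2
    have g2 : (N : ℝ) ^ (1 - e / 4) * (N : ℝ) ^ (e / 4) = N := by
      rw [← Real.rpow_add hN0]
      simp
    have g3 : (N : ℝ) ^ (1 - e / 4) * (64 / η) ≤ N := by
      calc (N : ℝ) ^ (1 - e / 4) * (64 / η) ≤ (N : ℝ) ^ (1 - e / 4) * (N : ℝ) ^ (e / 4) := by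
            gcongr
        _ = N := g2
    have g4 : (N : ℝ) ^ (1 - e / 4) * (64 / η) = (N : ℝ) ^ (1 - e / 4) / (η / 64) := by
      field_simp
    rw [g4, div_le_iff₀ (by positivity)] at g3
    linarith
  have hA15 : ∀ Q ∈ MQ Y, |2 * ∑ k ∈ Icc 1 (N / Q), SK K (k * Q) * ((N : ℝ) - k * Q) -
      ((N : ℝ) ^ 2 / Nat.totient Q - N * (Real.log ((N : ℝ) / Q) + HC.CQ Q - 1))| ≤
      η1 * N * ks Q ^ 4 := by
    intro Q hQ
    unfold MQ at hQ
    rw [mem_Ioc] at hQ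
    have hQY : (Y : ℝ) ≤ Q := by exact_mod_cast hQ.1.le
    refine HZ N K Q (by omega) ?_ ?_
    · have g1 : 4 * Z0 * Y ≤ N := by
        refine le_trans ?_ hYN
        exact Nat.mul_le_mul_right _ (by omega)
      calc Z0 * Q ≤ Z0 * (4 * Y) := Nat.mul_le_mul_left _ hQ.2
        _ = 4 * Z0 * Y := by ring
        _ ≤ N := g1
    · have g1 : (Z0 : ℝ) * N ^ 2 ≤ (Q : ℝ) ^ 2 * K := by
        calc (Z0 : ℝ) * N ^ 2 ≤ (N : ℝ) ^ e * N ^ 2 := by gcongr
          _ = (N : ℝ) ^ (2 + e) := by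
              rw [← Real.rpow_natCast (N : ℝ) 2, ← Real.rpow_add hN0]
              congr 1
              push_cast
              ring
          _ ≤ (Y : ℝ) ^ 2 * K := hRY.hY
          _ ≤ _ := by gcongr
      exact_mod_cast g1
  obtain ⟨l1, l2, -, -, -⟩ := H1 N (by omega) K hRg
  have hres := c18_one (κ := η / 64) (κ1 := κ1) (η := η1) (s := s) hC02 hC17 hη10 hs0
    hN100 hY1 hR1 hM hRL hmF hs1 l1 l2 H02 (h4.trans h4') h6 h7 (H15 N (by omega))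
    (min_le_left _ _) hA15 (Hk (4 * Y) (by omega)) (H17 Y R hY1 hR1)
  refine hres.trans ?_
  have f1 : κ1 ≤ η / 16 := min_le_right _ _
  have f2 : 4 * η1 * Ck = η / 8 := by
    rw [hη1]
    field_simp
    norm_num
  have f3 : C17 / L ^ 7 ≤ η / 8 := by
    have g1 : 8 * C17 / η ≤ L := by
      rw [hL, Real.le_log_iff_exp_le hN0]
      have g2 : (M8 : ℝ) ≤ N := by
        have : M8 ≤ N := by omega
        exact_mod_cast this
      linarith
    rw [div_le_iff₀ hη] at g1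
    rw [div_le_iff₀ (by positivity)]
    have g3 : L ≤ L ^ 7 := by
      calc L = L ^ 1 := (pow_one L).symm
        _ ≤ L ^ 7 := pow_le_pow_right₀ hL1 (by norm_num)
    nlinarith
  have f4 : 7 * (η / 64) + 3 * κ1 + 4 * η1 * Ck + C17 / L ^ 7 + (15 + 21 * C02) * s * L ≤ η := by
    rw [f2]
    linarith
  gcongr

end Pool.Agent.AAX

namespace Pool.Agent.AAX

/-- alias -/
theorem primes_all : type_of% @primes_all_pr := @primes_all_pr

end Pool.Agent.AAX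

/-! ### C19 -/

/-!
# AAX, block C19: long blocks of moduli
-/

namespace Pool.Agent.AAX

open Finset MeasureTheory Pool.Agent.Var35 Pool.Agent.Var73 Pool.Agent.PV Pool.Agent.FGP
  Pool.Agent.FGA
open scoped ArithmeticFunction ArithmeticFunction.Moebius
open Filter Topology

/-- facts for large `X` -/
theorem c19_X (A B T η : ℝ) (hη : 0 < η) {e : ℝ} (he : 0 < e) :
    ∃ X₁ : ℝ, ∀ X : ℝ, X₁ ≤ X → 100 ≤ X ∧ T ≤ X ∧
      Real.sqrt X * Real.log X ^ 12 ≤ X ^ (4 / 5 : ℝ) ∧ 256 ≤ Real.log X ∧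
      A / Real.log X ≤ η ∧ Real.log X + 3 ≤ η * X ∧ B ≤ (X / 2) ^ e := by
  have e1 : ∀ᶠ X : ℝ in atTop, 100 ≤ X := eventually_ge_atTop _
  have e2 : ∀ᶠ X : ℝ in atTop, T ≤ X := eventually_ge_atTop _
  have e3 : ∀ᶠ X : ℝ in atTop, Real.log X ≤ 1 * X ^ (1 / 40 : ℝ) := by
    have := (isLittleO_log_rpow_atTop (show (0 : ℝ) < 1 / 40 by norm_num)).bound one_pos
    filter_upwards [this, eventually_ge_atTop (1 : ℝ)] with x hx h1
    rw [Real.norm_of_nonneg (Real.log_nonneg h1), Real.norm_of_nonneg (by positivity)] at hx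
    exact hx
  have e4 : ∀ᶠ X : ℝ in atTop, 256 ≤ Real.log X := Real.tendsto_log_atTop.eventually_ge_atTop _
  have e5 : ∀ᶠ X : ℝ in atTop, A / η ≤ Real.log X :=
    Real.tendsto_log_atTop.eventually_ge_atTop _
  have e6 : ∀ᶠ X : ℝ in atTop, Real.log X ≤ η / 2 * X := by
    have := (isLittleO_log_rpow_atTop (show (0 : ℝ) < 1 by norm_num)).bound
      (show (0 : ℝ) < η / 2 by positivity)
    filter_upwards [this, eventually_ge_atTop (1 : ℝ)] with x hx h1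
    rw [Real.norm_of_nonneg (Real.log_nonneg h1), Real.norm_of_nonneg (by positivity),
      Real.rpow_one] at hx
    exact hx
  have e7 : ∀ᶠ X : ℝ in atTop, 6 / η ≤ X := eventually_ge_atTop _
  have e8 : ∀ᶠ X : ℝ in atTop, B ≤ (X / 2) ^ e := by
    have h1 : Tendsto (fun X : ℝ => (X / 2) ^ e) atTop atTop :=
      (tendsto_rpow_atTop he).comp (tendsto_id.atTop_div_const (by norm_num))
    exact h1.eventually_ge_atTop _
  obtain ⟨X₁, hX₁⟩ := eventually_atTop.1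
    (e1.and (e2.and (e3.and (e4.and (e5.and (e6.and (e7.and e8)))))))
  refine ⟨X₁, fun X hX => ?_⟩
  obtain ⟨a1, a2, a3, a4, a5, a6, a7, a8⟩ := hX₁ X hX
  have hX0 : 0 < X := by linarith
  have hl : 0 < Real.log X := by linarith
  refine ⟨a1, a2, ?_, a4, ?_, ?_, a8⟩
  · have h1 : Real.log X ^ 12 ≤ (X ^ (1 / 40 : ℝ)) ^ 12 := by
      rw [one_mul] at a3
      exact pow_le_pow_left₀ hl.le a3 12
    have h2 : (X ^ (1 / 40 : ℝ)) ^ 12 = X ^ (3 / 10 : ℝ) := by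
      rw [← Real.rpow_natCast, ← Real.rpow_mul hX0.le]
      norm_num
    rw [h2] at h1
    calc Real.sqrt X * Real.log X ^ 12 ≤ Real.sqrt X * X ^ (3 / 10 : ℝ) :=
          mul_le_mul_of_nonneg_left h1 (Real.sqrt_nonneg _)
      _ = X ^ (4 / 5 : ℝ) := by
          rw [Real.sqrt_eq_rpow, ← Real.rpow_add hX0]
          norm_num
  · rw [div_le_iff₀ hl]
    rw [div_le_iff₀ hη] at a5
    linarith
  · have h1 : 3 ≤ η / 2 * X := by
      rw [div_le_iff₀ hη] at a7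
      linarith
    linarith

/-- the ranges -/
theorem c19_rng {N Y e θ ε X : ℝ} (hθ1 : θ < 1) (hθ : 9 / 10 ≤ θ) (hN : 1 ≤ N) (hNX : N ≤ X)
    (he : 0 < e) (he1 : 2 * e ≤ ε) (he2 : e ≤ 1 - θ) (hN2 : 2 ≤ N ^ e)
    (hY : X ^ (2 * θ - 1 + ε) ≤ Y) :
    N ^ e ≤ (⌊N ^ (4 * (1 - θ) - e)⌋₊ : ℝ) ∧
      N ^ (2 + e) ≤ Y ^ 2 * (⌊N ^ (4 * (1 - θ) - e)⌋₊ : ℝ) := by
  have hN0 : 0 < N := by linarith
  have hf := Nat.lt_floor_add_one (N ^ (4 * (1 - θ) - e))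
  have h3 : N ^ (3 * e) ≤ N ^ (4 * (1 - θ) - e) :=
    Real.rpow_le_rpow_of_exponent_le hN (by linarith)
  have h4 : N ^ (3 * e) = (N ^ e) ^ 3 := by
    rw [← Real.rpow_natCast, ← Real.rpow_mul hN0.le]
    congr 1
    push_cast
    ring
  have h5 : N ^ e + 1 ≤ (N ^ e) ^ 3 := by nlinarith [mul_nonneg (by linarith : (0 : ℝ) ≤ N ^ e - 2) (by linarith : (0 : ℝ) ≤ N ^ e - 2)]
  have h6 : 2 ≤ N ^ (4 * (1 - θ) - e) := by
    have : 2 ≤ (N ^ e) ^ 3 := by linarith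
    linarith
  refine ⟨by linarith, ?_⟩
  have h7 : N ^ (4 * (1 - θ) - e) / 2 ≤ (⌊N ^ (4 * (1 - θ) - e)⌋₊ : ℝ) := by linarith
  have h8 : N ^ (2 * θ - 1 + ε) ≤ Y :=
    (Real.rpow_le_rpow hN0.le hNX (by linarith)).trans hY
  have h9 : (N ^ (2 * θ - 1 + ε)) ^ 2 ≤ Y ^ 2 := by
    have := Real.rpow_pos_of_pos hN0 (2 * θ - 1 + ε)
    gcongr
  have h10 : (N ^ (2 * θ - 1 + ε)) ^ 2 * (N ^ (4 * (1 - θ) - e) / 2) = N ^ (2 + 2 * ε - e) / 2 := by
    have h11 : (N ^ (2 * θ - 1 + ε)) ^ 2 = N ^ ((2 * θ - 1 + ε) * 2) := by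
      rw [← Real.rpow_natCast, ← Real.rpow_mul hN0.le]
      norm_num
    rw [h11, ← mul_div_assoc, ← Real.rpow_add hN0]
    congr 2
    ring
  calc N ^ (2 + e) = N ^ (2 + e) * 2 / 2 := by ring
    _ ≤ N ^ (2 + e) * (N ^ e * N ^ e) / 2 := by
        have h12 : (2 : ℝ) ≤ N ^ e * N ^ e := by nlinarith
        have := Real.rpow_pos_of_pos hN0 (2 + e)
        gcongr
    _ = N ^ (2 + 3 * e) / 2 := by
        rw [← Real.rpow_add hN0, ← Real.rpow_add hN0]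
        congr 2
        ring
    _ ≤ N ^ (2 + 2 * ε - e) / 2 := by
        have := Real.rpow_le_rpow_of_exponent_le hN (show 2 + 3 * e ≤ 2 + 2 * ε - e by linarith)
        linarith
    _ = (N ^ (2 * θ - 1 + ε)) ^ 2 * (N ^ (4 * (1 - θ) - e) / 2) := h10.symm
    _ ≤ Y ^ 2 * (⌊N ^ (4 * (1 - θ) - e)⌋₊ : ℝ) := by
        have := Real.rpow_pos_of_pos hN0 (4 * (1 - θ) - e)
        gcongr

/-- the cutoff of the denominators -/
theorem c19_R {X Y : ℝ} {N : ℕ} (hX : 100 ≤ X) (hY0 : 0 < Y) (hYX : Y ≤ X)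
    (hNX : (N : ℝ) ≤ X) (hN2 : X / 2 ≤ N) (hl : 256 ≤ Real.log X) :
    (N : ℝ) * Real.log N ^ 7 ≤ (⌊X / (4 * Y) * Real.log X ^ 8⌋₊ : ℝ) * Y ∧
      (⌊X / (4 * Y) * Real.log X ^ 8⌋₊ : ℝ) * Y ≤ N * Real.log N ^ 9 := by
  have hX0 : 0 < X := by linarith
  have hN0 : (0 : ℝ) < N := by linarith
  have h1 := Nat.lt_floor_add_one (X / (4 * Y) * Real.log X ^ 8)
  have h2 := Nat.floor_le (show 0 ≤ X / (4 * Y) * Real.log X ^ 8 by positivity)
  set r : ℝ := (⌊X / (4 * Y) * Real.log X ^ 8⌋₊ : ℝ) with hr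
  have h3 : X / (4 * Y) * Real.log X ^ 8 * Y = X / 4 * Real.log X ^ 8 := by
    field_simp
  have hlN : Real.log N ≤ Real.log X := Real.log_le_log hN0 hNX
  have hlN0 : 0 ≤ Real.log (N : ℝ) := Real.log_natCast_nonneg N
  have hlN2 : Real.log X / 2 ≤ Real.log (N : ℝ) := by
    have h4 : Real.log (X / 2) ≤ Real.log N := Real.log_le_log (by linarith) hN2
    rw [Real.log_div hX0.ne' (by norm_num)] at h4
    have h5 := Real.log_two_lt_d9
    linarith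
  have hlX : 0 < Real.log X := by linarith
  constructor
  · have h4 : (X / (4 * Y) * Real.log X ^ 8 - 1) * Y ≤ r * Y :=
      mul_le_mul_of_nonneg_right (by linarith) hY0.le
    have h5 : (X / (4 * Y) * Real.log X ^ 8 - 1) * Y = X / 4 * Real.log X ^ 8 - Y := by
      rw [sub_mul, h3, one_mul]
    have h6 : (N : ℝ) * Real.log N ^ 7 ≤ X * Real.log X ^ 7 := by gcongr
    have h7 : 1 ≤ Real.log X ^ 7 := one_le_pow₀ (by linarith)
    have h8 : X * Real.log X ^ 7 + X ≤ X / 4 * Real.log X ^ 8 := by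
      have h9 : X / 4 * Real.log X ^ 8 = X * Real.log X ^ 7 * (Real.log X / 4) := by ring
      rw [h9]
      have h10 : X * Real.log X ^ 7 * 2 ≤ X * Real.log X ^ 7 * (Real.log X / 4) := by
        apply mul_le_mul_of_nonneg_left (by linarith) (by positivity)
      have h11 : X ≤ X * Real.log X ^ 7 := by nlinarith
      linarith
    linarith
  · have h4 : r * Y ≤ X / (4 * Y) * Real.log X ^ 8 * Y := mul_le_mul_of_nonneg_right h2 hY0.le
    rw [h3] at h4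
    refine h4.trans ?_
    have h5 : (Real.log X / 2) ^ 9 ≤ Real.log (N : ℝ) ^ 9 := by gcongr
    have h6 : X / 2 * (Real.log X / 2) ^ 9 ≤ N * Real.log (N : ℝ) ^ 9 := by gcongr
    refine le_trans ?_ h6
    have h7 : X / 2 * (Real.log X / 2) ^ 9 = X * Real.log X ^ 8 * (Real.log X / 1024) := by ring
    rw [h7]
    have h8 : X / 4 * Real.log X ^ 8 = X * Real.log X ^ 8 * (1 / 4) := by ring
    rw [h8]
    apply mul_le_mul_of_nonneg_left (by linarith) (by positivity)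

theorem long_blocks_pr {θ ε η : ℝ} (hθ : 9 / 10 ≤ θ) (hθ1 : θ < 1) (h : XS.ZF θ) (hε : 0 < ε)
    (hη : 0 < η) : ∃ X₀ : ℝ, 1 ≤ X₀ ∧ ∀ (X : ℝ) (Y : ℕ), X₀ ≤ X → X ^ (2 * θ - 1 + ε) ≤ (Y : ℝ) →
    X₀ * Y ≤ X →
    ∑ Q ∈ MQ Y, |HC.GX X Q - HC.LX X Q (X / Q * Real.log X ^ 8) - X * (Real.log Q - HC.CQ Q)| ≤
      η * X * Y := by
  obtain ⟨Ca, hCa0, hCa⟩ := A18aE_pr
  obtain ⟨Nb, hNb⟩ := lam_ps (η / 24) (by positivity)
  set e : ℝ := min (ε / 2) (min (1 / 10) (1 - θ)) with he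
  have he0 : 0 < e := by
    rw [he]
    refine lt_min (by positivity) (lt_min (by norm_num) (by linarith))
  have heε : 2 * e ≤ ε := by
    have := min_le_left (ε / 2) (min (1 / 10) (1 - θ))
    rw [← he] at this
    linarith
  have he10 : e ≤ 1 / 10 := by
    have := (min_le_right (ε / 2) (min (1 / 10) (1 - θ))).trans (min_le_left _ _)
    rwa [← he] at this
  have heθ : e ≤ 1 - θ := by
    have := (min_le_right (ε / 2) (min (1 / 10) (1 - θ))).trans (min_le_right _ _)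
    rwa [← he] at this
  obtain ⟨Nc, hNc⟩ := primes_all hθ hθ1 h he0 he10 (show 0 < η / 4 by positivity)
  obtain ⟨X₁, hX₁⟩ := c19_X Ca 2 (max Ca (Nb + Nc + 1)) (η / 24) (by positivity) he0
  refine ⟨1 + |X₁| + Ca + (Nc + 10), ?_, fun X Y hX hY hYX => ?_⟩
  · have := abs_nonneg X₁
    have : (0 : ℝ) ≤ Nc := Nat.cast_nonneg _
    linarith
  have hNc0 : (0 : ℝ) ≤ Nc := Nat.cast_nonneg _
  have hNb0 : (0 : ℝ) ≤ Nb := Nat.cast_nonneg _
  have hXX : X₁ ≤ X := by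
    have := le_abs_self X₁
    linarith
  obtain ⟨x1, x2, x3, x4, x5, x6, x7⟩ := hX₁ X hXX
  have hX0 : 0 < X := by linarith
  have hX1 : 1 ≤ X := by linarith
  have hY45 : X ^ (4 / 5 : ℝ) ≤ Y :=
    (Real.rpow_le_rpow_of_exponent_le hX1 (by linarith)).trans hY
  have hY0 : (0 : ℝ) < Y := lt_of_lt_of_le (Real.rpow_pos_of_pos hX0 _) hY
  have hY1 : 1 ≤ Y := by
    have : 0 < Y := by exact_mod_cast hY0
    omega
  have hY1' : (1 : ℝ) ≤ Y := by exact_mod_cast hY1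
  have hab : 0 ≤ |X₁| := abs_nonneg _
  have hYX2 : Ca * Y ≤ X := by
    refine le_trans ?_ hYX
    apply mul_le_mul_of_nonneg_right _ hY0.le
    linarith
  have hYX3 : (Nc + 10 : ℝ) * Y ≤ X := by
    refine le_trans ?_ hYX
    apply mul_le_mul_of_nonneg_right _ hY0.le
    linarith
  set N : ℕ := ⌊X⌋₊ with hN
  set R : ℕ := ⌊X / (4 * Y) * Real.log X ^ 8⌋₊ with hR
  have hNX : (N : ℝ) ≤ X := Nat.floor_le hX0.le
  have hNX2 : X < N + 1 := Nat.lt_floor_add_one X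
  have hNX3 : X / 2 ≤ N := by linarith
  have hN1 : (1 : ℝ) ≤ N := by linarith
  have hN0 : (0 : ℝ) < N := by linarith
  have hlX : 0 < Real.log X := by linarith
  have hYle : (Y : ℝ) ≤ X := by
    have : 0 ≤ (Nc + 9 : ℝ) * Y := by positivity
    linarith
  have h4Y : 4 * (Y : ℝ) ≤ N := by
    have : 0 ≤ (Nc : ℝ) * Y := by positivity
    linarith
  -- the inputs
  have e1 := hCa X Y ((le_max_left _ _).trans x2) (x3.trans hY45) hYX2
  have hNNb : Nb ≤ N := by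
    have h1 : (Nb : ℝ) + Nc + 1 ≤ X := (le_max_right _ _).trans x2
    have h2 : (Nb : ℝ) ≤ N := by linarith
    exact_mod_cast h2
  have hNNc : Nc ≤ N := by
    have h1 : (Nb : ℝ) + Nc + 1 ≤ X := (le_max_right _ _).trans x2
    have h2 : (Nc : ℝ) ≤ N := by linarith
    exact_mod_cast h2
  have hN2e : 2 ≤ (N : ℝ) ^ e := x7.trans (Real.rpow_le_rpow (by linarith) hNX3 he0.le)
  obtain ⟨r1, r2⟩ := c19_rng hθ1 hθ hN1 hNX he0 heε heθ hN2e hY
  obtain ⟨r3, r4⟩ := c19_R x1 hY0 hYle hNX hNX3 x4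
  have hYN : Y ≤ N := by
    have : (Y : ℝ) ≤ N := by linarith
    exact_mod_cast this
  have e3 := hNc N hNNc ⌊(N : ℝ) ^ (4 * (1 - θ) - e)⌋₊ r1 (Nat.floor_le (by positivity)) Y
    ⟨hY1, hYN, r2⟩ (by
      have h1 : (Nc : ℝ) * Y < N := by
        have : 0 ≤ (Nc : ℝ) * Y := by positivity
        nlinarith
      have h2 : Nc * Y < N := by exact_mod_cast h1
      exact h2.le) R r3 r4
  have hpt : ∀ Q ∈ MQ Y, |HC.GX X Q - HC.LX X Q (X / Q * Real.log X ^ 8) -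
      X * (Real.log Q - HC.CQ Q)| ≤
      |HC.HH X Q (X / Q * Real.log X ^ 8) - (1 / (Q : ℝ)) * ∑ l ∈ (range Q).filter (fun l : ℕ =>
        R < HC.den l Q), HC.Sq HC.Lam N (l / Q)| +
      |VP (Ps N) Q R - N * (Real.log Q - HC.CQ Q)| + η / 12 * X := by
    intro Q hQ
    have hQ' : Y < Q ∧ Q ≤ 4 * Y := by
      rw [MQ, mem_Ioc] at hQ
      exact hQ
    have hQ1 : 1 ≤ Q := by omega
    have hYQ : (Y : ℝ) < Q := by exact_mod_cast hQ'.1
    have hQY : (Q : ℝ) ≤ 4 * Y := by exact_mod_cast hQ'.2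
    have hQ0 : (0 : ℝ) < Q := by linarith
    have hQX : (Q : ℝ) ≤ X := by linarith
    have hD1 : 1 ≤ X / Q * Real.log X ^ 8 := by
      have h1 : 1 ≤ X / Q := by rwa [le_div_iff₀ hQ0, one_mul]
      have h2 : 1 ≤ Real.log X ^ 8 := one_le_pow₀ (by linarith)
      nlinarith
    rw [HC.gx_ident_pr X Q hQ1 _ hD1]
    have hlQ : Real.log Q ≤ Real.log X := Real.log_le_log hQ0 hQX
    have e4 : |(N : ℝ) * (Real.log Q - HC.CQ Q) - X * (Real.log Q - HC.CQ Q)| ≤ η / 24 * X := by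
      rw [← sub_mul, abs_mul]
      have h1 : |(N : ℝ) - X| ≤ 1 := by
        rw [abs_le]
        constructor <;> linarith
      have h2 := a20_CQ Q hQ1
      calc |(N : ℝ) - X| * |Real.log Q - HC.CQ Q| ≤ 1 * (Real.log Q + 3) := by gcongr
        _ ≤ Real.log X + 3 := by linarith
        _ ≤ η / 24 * X := x6
    have hb1 : N ^ 4 ≤ Q ^ 5 := by
      have h1 : (N : ℝ) ^ 4 ≤ (Q : ℝ) ^ 5 := by
        have h2 : X ^ (4 / 5 : ℝ) ≤ Q := hY45.trans hYQ.le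
        have h3 : (X ^ (4 / 5 : ℝ)) ^ 5 ≤ (Q : ℝ) ^ 5 := by
          have := Real.rpow_pos_of_pos hX0 (4 / 5)
          gcongr
        have h4 : (X ^ (4 / 5 : ℝ)) ^ 5 = X ^ 4 := by
          rw [← Real.rpow_natCast, ← Real.rpow_mul hX0.le, ← Real.rpow_natCast]
          norm_num
        rw [h4] at h3
        refine le_trans ?_ h3
        gcongr
      exact_mod_cast h1
    have hb2 : Q ≤ 4 * N := by
      have h1 : (Q : ℝ) ≤ 4 * N := by linarith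
      exact_mod_cast h1
    have e5 := hNb N hNNb Q R hb1 hb2
    have e6 : η / 24 * (N : ℝ) ≤ η / 24 * X := by gcongr
    set V1 : ℝ := (1 / (Q : ℝ)) * ∑ l ∈ (range Q).filter (fun l : ℕ =>
        R < HC.den l Q), HC.Sq HC.Lam N (l / Q)
    set H1 : ℝ := HC.HH X Q (X / Q * Real.log X ^ 8)
    have h7 : H1 - X * (Real.log Q - HC.CQ Q) = (H1 - V1) + (V1 - VP (Ps N) Q R) +
        (VP (Ps N) Q R - N * (Real.log Q - HC.CQ Q)) +
        ((N : ℝ) * (Real.log Q - HC.CQ Q) - X * (Real.log Q - HC.CQ Q)) := by ring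
    rw [h7]
    refine (abs_add_le _ _).trans ?_
    have h8 := abs_add_le ((H1 - V1) + (V1 - VP (Ps N) Q R))
      (VP (Ps N) Q R - N * (Real.log Q - HC.CQ Q))
    have h9 := abs_add_le (H1 - V1) (V1 - VP (Ps N) Q R)
    linarith
  have hcard : ((MQ Y).card : ℝ) = 3 * Y := a01_card Y
  have s1 : Ca * X * (Y : ℝ) / Real.log X ≤ η / 24 * X * Y := by
    calc Ca * X * (Y : ℝ) / Real.log X = Ca / Real.log X * (X * Y) := by ring
      _ ≤ η / 24 * (X * Y) := by gcongr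
      _ = _ := by ring
  have s2 : η / 4 * N * (Y : ℝ) ≤ η / 4 * X * Y := by gcongr
  calc ∑ Q ∈ MQ Y, |HC.GX X Q - HC.LX X Q (X / Q * Real.log X ^ 8) -
      X * (Real.log Q - HC.CQ Q)| ≤ ∑ Q ∈ MQ Y, (|HC.HH X Q (X / Q * Real.log X ^ 8) -
        (1 / (Q : ℝ)) * ∑ l ∈ (range Q).filter (fun l : ℕ =>
        R < HC.den l Q), HC.Sq HC.Lam N (l / Q)| +
      |VP (Ps N) Q R - N * (Real.log Q - HC.CQ Q)| + η / 12 * X) := sum_le_sum hpt
    _ ≤ η / 24 * X * Y + η / 4 * X * Y + 3 * Y * (η / 12 * X) := by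
        rw [sum_add_distrib, sum_add_distrib, sum_const, nsmul_eq_mul, hcard]
        linarith
    _ ≤ η * X * Y := by
        have h1 : 0 ≤ η * X * Y := by positivity
        have h2 : η / 24 * X * Y + η / 4 * X * Y + 3 * Y * (η / 12 * X) =
            η * X * Y * (13 / 24) := by ring
        rw [h2]
        linarith

end Pool.Agent.AAX

namespace Pool.Agent.AAX

/-- alias -/
theorem long_blocks : type_of% @long_blocks_pr := @long_blocks_pr

end Pool.Agent.AAX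

/-! ### C20 -/

/-! AAX, block C20 (helper35): the assembly -/

namespace Pool.Agent.AAX

open Finset MeasureTheory Pool.Agent.Var35 Pool.Agent.Var73 Pool.Agent.PV Pool.Agent.FGP Pool.Agent.FGA
open scoped ArithmeticFunction ArithmeticFunction.Moebius

theorem c20_step (F : ℕ → ℝ) (hF : ∀ Q, 0 ≤ F Q) (Y Z : ℕ) (hZ : Y ≤ 4 * Z) :
    ∑ Q ∈ Icc 1 Y, F Q ≤ ∑ Q ∈ Icc 1 Z, F Q + ∑ Q ∈ MQ Z, F Q := by
  have h1 : Icc 1 Y ⊆ Icc 1 Z ∪ MQ Z := by
    intro Q hQ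
    rw [mem_Icc] at hQ
    rw [mem_union, mem_Icc]
    unfold MQ
    rw [mem_Ioc]
    omega
  refine (sum_le_sum_of_subset_of_nonneg h1 fun _ _ _ => hF _).trans ?_
  have h2 := sum_union_inter (s₁ := Icc 1 Z) (s₂ := MQ Z) (f := F)
  have h3 : 0 ≤ ∑ Q ∈ Icc 1 Z ∩ MQ Z, F Q := sum_nonneg fun _ _ => hF _
  linarith

/-- the moduli in blocks `(Z, 4 Z]` -/
theorem c20_dyad (F : ℕ → ℝ) (hF : ∀ Q, 0 ≤ F Q) {A T X η : ℝ} (hη : 0 ≤ η) (hX : 0 ≤ X)
    (hT : 0 ≤ T) (hA : 1 ≤ A)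
    (h : ∀ Y : ℕ, A ≤ Y → T * Y ≤ X → ∑ Q ∈ MQ Y, F Q ≤ η * X * Y) :
    ∀ Y : ℕ, A ≤ Y → T * Y ≤ X → ∃ Z : ℕ, Z ≤ Y ∧ A ≤ Z ∧ (Z : ℝ) ≤ 4 * A ∧
      ∑ Q ∈ Icc 1 Y, F Q ≤ ∑ Q ∈ Icc 1 Z, F Q + η * X * Y := by
  intro Y
  induction Y using Nat.strong_induction_on with
  | _ Y ih =>
    intro h1 h2
    by_cases h3 : (Y : ℝ) ≤ 4 * A
    · refine ⟨Y, le_rfl, h1, h3, ?_⟩
      have : 0 ≤ η * X * Y := by positivity
      linarith
    · rw [not_le] at h3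
      have h4 : 4 < Y := by
        have : (4 : ℝ) < Y := by linarith
        exact_mod_cast this
      obtain ⟨W, hW1, hW2⟩ : ∃ W : ℕ, Y ≤ 4 * W ∧ 4 * W ≤ Y + 3 := ⟨(Y + 3) / 4, by omega, by omega⟩
      have h5 : W < Y := by omega
      have h6 : 2 * W ≤ Y := by omega
      have hW1' : (Y : ℝ) ≤ 4 * W := by exact_mod_cast hW1
      have h6' : 2 * (W : ℝ) ≤ Y := by exact_mod_cast h6
      have hW0 : (0 : ℝ) ≤ W := Nat.cast_nonneg _
      have h7 : A ≤ W := by linarith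
      have h8 : T * W ≤ X := by
        refine le_trans ?_ h2
        apply mul_le_mul_of_nonneg_left _ hT
        linarith
      obtain ⟨Z, k1, k2, k3, k4⟩ := ih W h5 h7 h8
      refine ⟨Z, by omega, k2, k3, ?_⟩
      have h9 := c20_step F hF Y W hW1
      have h10 := h W h7 h8
      have h11 : η * X * W + η * X * W ≤ η * X * Y := by
        have : 0 ≤ η * X := by positivity
        nlinarith
      linarith

/-- facts for large `X` -/
theorem c20_X {ε η : ℝ} (hε : 0 < ε) (hη : 0 < η) : ∃ C : ℝ, ∀ X : ℝ, C ≤ X →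
    3 ≤ X ∧ 4 * (2 * Real.log X + 7) ≤ η * X ^ (ε / 2) := by
  have e1 : ∀ᶠ X : ℝ in Filter.atTop, 3 ≤ X := Filter.eventually_ge_atTop _
  have e3 : ∀ᶠ X : ℝ in Filter.atTop, ‖Real.log X‖ ≤ η / 16 * ‖X ^ (ε / 2)‖ :=
    (isLittleO_log_rpow_atTop (by positivity)).bound (by positivity)
  have e4 : ∀ᶠ X : ℝ in Filter.atTop, 56 / η ≤ X ^ (ε / 2) :=
    (tendsto_rpow_atTop (by positivity)).eventually_ge_atTop _
  obtain ⟨C, hC⟩ := Filter.eventually_atTop.1 (e1.and (e3.and e4))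
  refine ⟨C, fun X hX => ?_⟩
  obtain ⟨a1, a3, a4⟩ := hC X hX
  have hX0 : 0 < X := by linarith
  refine ⟨a1, ?_⟩
  have hp : 0 < X ^ (ε / 2) := Real.rpow_pos_of_pos hX0 _
  rw [Real.norm_eq_abs, Real.norm_eq_abs, abs_of_pos hp] at a3
  have h1 := (le_abs_self _).trans a3
  have h2 : 56 ≤ η * X ^ (ε / 2) := by
    rw [div_le_iff₀ hη] at a4
    linarith
  linarith

theorem almost_every_pr {κ : ℝ} (h0 : 4 / 5 ≤ κ) (h1 : κ < 1) (h : XS.ZF ((1 + κ) / 2)) :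
    AlmostEvery κ := by
  intro ε hε η hη
  obtain ⟨X₀, hX₀1, hX₀⟩ := long_blocks (θ := (1 + κ) / 2) (ε := ε / 2) (η := η / 4)
    (by linarith) (by linarith) h (by positivity) (by positivity)
  obtain ⟨C1, hC1⟩ := XT.zf_to_mean9 (by linarith) h1 h (ε / 2) (by positivity) 1 one_pos
  obtain ⟨C2, hC2⟩ := XT.lfin9 (θ := (1 + κ) / 2) (by linarith) (by linarith) h hε (η := η / 4)
    (by positivity)
  obtain ⟨C3, hC3⟩ := c20_X hε (show 0 < η / 4 by positivity)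
  refine ⟨max (max C1 C2) (max C3 X₀), fun X Y hX hY hCY => ?_⟩
  have a1 : C1 ≤ X := ((le_max_left _ _).trans (le_max_left _ _)).trans hX
  have a2 : C2 ≤ X := ((le_max_right _ _).trans (le_max_left _ _)).trans hX
  have a3 : C3 ≤ X := ((le_max_left _ _).trans (le_max_right _ _)).trans hX
  have a4 : X₀ ≤ X := ((le_max_right _ _).trans (le_max_right _ _)).trans hX
  have hYn : (0 : ℝ) ≤ Y := Nat.cast_nonneg _
  have b1 : C1 * Y ≤ X :=
    (mul_le_mul_of_nonneg_right ((le_max_left _ _).trans (le_max_left _ _)) hYn).trans hCY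
  have b4 : X₀ * Y ≤ X :=
    (mul_le_mul_of_nonneg_right ((le_max_right _ _).trans (le_max_right _ _)) hYn).trans hCY
  have b5 : (Y : ℝ) ≤ X := by nlinarith
  obtain ⟨x1, x3⟩ := hC3 X a3
  have hX0 : 0 < X := by linarith
  have hX1 : 1 ≤ X := by linarith
  set W : ℝ := X ^ (κ + ε / 2) with hW
  have hW1 : 1 ≤ W := Real.one_le_rpow hX1 (by linarith)
  have hW0 : 0 < W := by linarith
  have hWY : W * X ^ (ε / 2) ≤ Y := by
    refine le_trans (le_of_eq ?_) hY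
    rw [hW, ← Real.rpow_add hX0]
    congr 1
    ring
  have hWY1 : W ≤ Y := by
    refine le_trans ?_ hWY
    have : 1 ≤ X ^ (ε / 2) := Real.one_le_rpow hX1 (by positivity)
    nlinarith
  set L : ℕ → ℝ := fun Q => HC.LX X Q (X / Q * Real.log X ^ 8) with hL
  set M : ℕ → ℝ := fun Q => X * (Real.log Q - HC.CQ Q) with hM
  have hL0 : ∀ Q, 0 ≤ L Q := fun Q => XS.upp_LX_nonneg _ _ _
  -- the large moduli
  obtain ⟨Z, hZY, hWZ, hZW, d1⟩ := c20_dyad (fun Q => |HC.GX X Q - L Q - M Q|)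
    (fun _ => abs_nonneg _) (A := W) (T := X₀) (X := X) (η := η / 4) (by positivity) hX0.le
    (by linarith) hW1 (fun Y' g1 g2 => hX₀ X Y' a4 (by
      have : 2 * ((1 + κ) / 2) - 1 + ε / 2 = κ + ε / 2 := by ring
      rw [this]
      exact g1) g2) Y hWY1 b4
  have hZY' : (Z : ℝ) ≤ Y := by exact_mod_cast hZY
  -- the sum of `L`
  have d2 : ∑ Q ∈ Icc 1 Y, L Q ≤ η / 4 * X * Y := by
    apply hC2 X Y a2 _ b5
    have : 2 * ((1 + κ) / 2) - 1 + ε = κ + ε := by ring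
    rw [this]
    exact hY
  -- the small moduli
  have d3 : ∑ Q ∈ Icc 1 Z, L Q ≤ η / 4 * X * Y :=
    (sum_le_sum_of_subset_of_nonneg (Icc_subset_Icc le_rfl hZY) fun _ _ _ => hL0 _).trans d2
  have d4 := hC1 X Z a1 hWZ (by
    by_cases hc : 0 ≤ C1
    · exact (mul_le_mul_of_nonneg_left hZY' hc).trans b1
    · have : C1 * (Z : ℝ) ≤ 0 :=
        mul_nonpos_of_nonpos_of_nonneg (by linarith) (Nat.cast_nonneg _)
      linarith)
  have hMb : ∀ Q ∈ Icc 1 Z, |M Q| ≤ X * (Real.log X + 3) := by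
    intro Q hQ
    rw [mem_Icc] at hQ
    have g1 := FGA.a20_CQ Q hQ.1
    have g2 : Real.log Q ≤ Real.log X := by
      apply Real.log_le_log
      · exact_mod_cast hQ.1
      · have : (Q : ℝ) ≤ Z := by exact_mod_cast hQ.2
        linarith
    simp only [hM]
    rw [abs_mul, abs_of_pos hX0]
    gcongr
    linarith
  have d5 : ∑ Q ∈ Icc 1 Z, |HC.GX X Q - M Q| ≤ 1 * X * Z + 2 * (Z * (X * (Real.log X + 3))) := by
    have g1 : ∀ Q ∈ Icc 1 Z, |HC.GX X Q - M Q| ≤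
        (HC.GX X Q - M Q) + 2 * (X * (Real.log X + 3)) := by
      intro Q hQ
      have g2 := XS.DA1_gx X Q
      have g3 := hMb Q hQ
      rw [abs_le] at g3 ⊢
      constructor <;> linarith [g3.1, g3.2]
    refine (sum_le_sum g1).trans ?_
    rw [sum_add_distrib, sum_const, nsmul_eq_mul, Nat.card_Icc]
    have g4 := (le_abs_self _).trans d4
    simp only [add_tsub_cancel_right]
    linarith
  have d6 : ∑ Q ∈ Icc 1 Z, |HC.GX X Q - M Q| ≤ η / 4 * X * Y := by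
    refine d5.trans ?_
    have hlog : 0 ≤ Real.log X := Real.log_nonneg hX1
    calc 1 * X * Z + 2 * (Z * (X * (Real.log X + 3))) = X * Z * (2 * Real.log X + 7) := by ring
      _ ≤ X * (4 * W) * (2 * Real.log X + 7) := by gcongr
      _ = X * W * (4 * (2 * Real.log X + 7)) := by ring
      _ ≤ X * W * (η / 4 * X ^ (ε / 2)) := by gcongr
      _ = η / 4 * X * (W * X ^ (ε / 2)) := by ring
      _ ≤ η / 4 * X * Y := by gcongr
  -- together
  have d7 : ∑ Q ∈ Icc 1 Z, |HC.GX X Q - L Q - M Q| ≤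
      ∑ Q ∈ Icc 1 Z, |HC.GX X Q - M Q| + ∑ Q ∈ Icc 1 Z, L Q := by
    rw [← sum_add_distrib]
    apply sum_le_sum
    intro Q _
    have g1 : HC.GX X Q - L Q - M Q = (HC.GX X Q - M Q) + -(L Q) := by ring
    rw [g1]
    refine (abs_add_le _ _).trans ?_
    rw [abs_neg, abs_of_nonneg (hL0 Q)]
  have d8 : ∑ Q ∈ Icc 1 Y, |HC.GX X Q - M Q| ≤
      ∑ Q ∈ Icc 1 Y, |HC.GX X Q - L Q - M Q| + ∑ Q ∈ Icc 1 Y, L Q := by
    rw [← sum_add_distrib]
    apply sum_le_sum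
    intro Q _
    have g1 : HC.GX X Q - M Q = (HC.GX X Q - L Q - M Q) + L Q := by ring
    rw [g1]
    refine (abs_add_le _ _).trans ?_
    rw [abs_of_nonneg (hL0 Q)]
  have d9 : ∑ Q ∈ Icc 1 Y, |HC.GX X Q - M Q| ≤ η * X * Y := by linarith
  exact d9

end Pool.Agent.AAX

namespace Pool.Agent.AAX

/-- alias -/
theorem almost_every : type_of% @almost_every_pr := @almost_every_pr

end Pool.Agent.AAX
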